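import Pool.Agent.MP_1048c2_an.Cl.Stmt

/-!
Solutions of the Hamilton equations stay on the graph of the gradient.
-/

set_option linter.unusedSectionVars false

namespace Pool.Agent.MP_1048c2_an.Cl

open Filter Topology Set Module
open scoped InnerProductSpace

variable {m k : ℕ} {H V : Type} [NormedAddCommGroup H] [InnerProductSpace ℝ H]
  [NormedAddCommGroup V] [InnerProductSpace ℝ V] [FiniteDimensional ℝ H] [FiniteDimensional ℝ V]

/-- a solution of a linear equation that vanishes at zero vanishes -/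
theorem lin_Ch1 {E : Type} [NormedAddCommGroup E] [NormedSpace ℝ E] (A : ℝ → E →L[ℝ] E)
    (D : ℝ → E) (ε : ℝ) (hA : ContinuousOn A (Ioo (-ε) ε)) (h0 : D 0 = 0)
    (hD : ∀ τ ∈ Ioo (-ε) ε, HasDerivAt D (A τ (D τ)) τ) : ∀ τ ∈ Ioo (-ε) ε, D τ = 0 := by
  intro τ hτ
  obtain ⟨δ, h1, h2⟩ := exists_between (abs_lt.2 hτ)
  have hs : Icc (-δ) δ ⊆ Ioo (-ε) ε := fun t ht => ⟨by linarith [ht.1], by linarith [ht.2]⟩
  obtain ⟨C, hC⟩ := isCompact_Icc.exists_bound_of_continuousOn (hA.mono hs)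
  have hδ : 0 < δ := (abs_nonneg τ).trans_lt h1
  have h3 := ODE_solution_unique_of_mem_Ioo (v := fun t y => A t y) (s := fun _ => univ)
    (K := ⟨max C 0, le_max_right _ _⟩) (f := D) (g := fun _ => 0) (a := -δ) (b := δ) (t₀ := 0)
    (fun t ht => ((A t).lipschitzWith_of_opNorm_le
      ((hC t (Ioo_subset_Icc_self ht)).trans (le_max_left _ _))).lipschitzOnWith)
    ⟨by linarith, hδ⟩ (fun t ht => ⟨hD t (hs (Ioo_subset_Icc_self ht)), mem_univ _⟩)
    (fun t _ => ⟨by simpa using hasDerivAt_const t (0 : E), mem_univ _⟩) h0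
  exact h3 (abs_lt.1 h1)

/-- the defect of the velocity -/
noncomputable def P_Ch1 (G : HeisenbergType m k H V) (z : H) : H × V →L[ℝ] H × V :=
  (-ContinuousLinearMap.fst ℝ H V -
      (1 / 2 : ℝ) • ((JL G).flip z).comp (ContinuousLinearMap.snd ℝ H V)).prod
    (-(1 / 2 : ℝ) • (BL G z).comp (ContinuousLinearMap.fst ℝ H V) -
      (‖z‖ ^ 2 / 4) • ContinuousLinearMap.snd ℝ H V)

/-- the defect of the force -/
noncomputable def Q_Ch1 (G : HeisenbergType m k H V) (z ξ : H) (μ ν : V) : H × V →L[ℝ] H :=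
  (1 / 2 : ℝ) • ((JL G).flip ξ).comp (ContinuousLinearMap.snd ℝ H V) +
    (1 / 2 : ℝ) • (JL G μ).comp (ContinuousLinearMap.fst ℝ H V) -
    (1 / 4 : ℝ) • ((innerSL ℝ (ν + μ)).comp (ContinuousLinearMap.snd ℝ H V)).smulRight z

theorem ch1_st (G : HeisenbergType m k H V) : Ch1St G := by
  intro p W u x Z Ξ S ε h hZ hS hΞ hH hW
  have cZ : Continuous Z := continuous_iff_continuousAt.2 fun τ => (hH τ).1.continuousAt
  have cS : Continuous S := continuous_iff_continuousAt.2 fun τ => (hH τ).2.1.continuousAt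
  have cγ : ContinuousOn (fun τ => (Z τ, S τ)) (Ioo (-ε) ε) := (cZ.prodMk cS).continuousOn
  have c1 : ContinuousOn (fun τ => xi G u (Z τ, S τ)) (Ioo (-ε) ε) :=
    h.sm_xi.continuousOn.comp cγ hW
  have c2 : ContinuousOn (fun τ => la G u (Z τ, S τ)) (Ioo (-ε) ε) :=
    h.sm_la.continuousOn.comp cγ hW
  have c3 : ContinuousOn (fun τ => fderiv ℝ (xi G u) (Z τ, S τ)) (Ioo (-ε) ε) :=
    (h.sm_xi.continuousOn_fderiv_of_isOpen h.op (by norm_num)).comp cγ hW
  have c4 : ContinuousOn (fun τ => fderiv ℝ (la G u) (Z τ, S τ)) (Ioo (-ε) ε) :=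
    (h.sm_la.continuousOn_fderiv_of_isOpen h.op (by norm_num)).comp cγ hW
  have cz : ContinuousOn Z (Ioo (-ε) ε) := cZ.continuousOn
  have c5 : ContinuousOn (fun τ => P_Ch1 G (Z τ)) (Ioo (-ε) ε) := by
    refine continuousOn_clm_apply.2 fun y => ?_
    simp only [P_Ch1, ContinuousLinearMap.prod_apply, _root_.sub_apply, _root_.neg_apply,
      _root_.smul_apply, ContinuousLinearMap.comp_apply, ContinuousLinearMap.flip_apply]
    fun_prop
  have c6 : ContinuousOn (fun τ => Q_Ch1 G (Z τ) (xi G u (Z τ, S τ)) (la G u x)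
      (la G u (Z τ, S τ))) (Ioo (-ε) ε) := by
    refine continuousOn_clm_apply.2 fun y => ?_
    simp only [Q_Ch1, _root_.sub_apply, _root_.add_apply, ContinuousLinearMap.smulRight_apply,
      _root_.smul_apply, ContinuousLinearMap.comp_apply, ContinuousLinearMap.flip_apply,
      innerSL_apply_apply]
    fun_prop
  have key := lin_Ch1 (fun τ => ((fderiv ℝ (xi G u) (Z τ, S τ)).comp (P_Ch1 G (Z τ)) +
      Q_Ch1 G (Z τ) (xi G u (Z τ, S τ)) (la G u x) (la G u (Z τ, S τ))).prod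
      ((fderiv ℝ (la G u) (Z τ, S τ)).comp (P_Ch1 G (Z τ))))
    (fun τ => (xi G u (Z τ, S τ) - Ξ τ, la G u (Z τ, S τ) - la G u x)) ε
    (continuousOn_clm_apply.2 fun y =>
      ((continuousOn_clm_apply.1 ((c3.clm_comp c5).add c6)) y).prodMk
        ((continuousOn_clm_apply.1 (c4.clm_comp c5)) y))
    (by simp [hZ, hS, hΞ]) ?_
  · intro τ hτ
    have := key τ hτ
    simp only [Prod.mk_eq_zero, sub_eq_zero] at this
    exact this
  intro τ hτ
  obtain ⟨h1, h2, h3⟩ := hH τ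
  have hγ := h1.prodMk h2
  have hx := hW τ hτ
  obtain ⟨h4, h5⟩ := h.ham hx
  have h6 : (Ξ τ + (1 / 2 : ℝ) • JL G (la G u x) (Z τ),
      (1 / 2 : ℝ) • BL G (Z τ) (Ξ τ) + (‖Z τ‖ ^ 2 / 4) • la G u x) = vf G u (Z τ, S τ) +
      P_Ch1 G (Z τ) (xi G u (Z τ, S τ) - Ξ τ, la G u (Z τ, S τ) - la G u x) := by
    ext
    · simp [P_Ch1, vf]; module
    · simp [P_Ch1, vf]; module
  rw [h6] at hγ
  have h7 := ((h.d_xi hx).comp_hasDerivAt τ hγ).sub h3
  have h8 := ((h.d_la hx).comp_hasDerivAt τ hγ).sub_const (la G u x)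
  refine (h7.prodMk h8).congr_deriv ?_
  rw [map_add, map_add, h4, h5]
  ext
  · simp only [ContinuousLinearMap.prod_apply, _root_.add_apply, ContinuousLinearMap.comp_apply,
      Q_Ch1, _root_.sub_apply, _root_.smul_apply, ContinuousLinearMap.flip_apply,
      ContinuousLinearMap.smulRight_apply, innerSL_apply_apply, ContinuousLinearMap.coe_fst',
      ContinuousLinearMap.coe_snd', map_sub, inner_add_left,
      real_inner_self_eq_norm_sq, real_inner_comm (la G u x) (la G u (Z τ, S τ))]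
    module
  · simp

end Pool.Agent.MP_1048c2_an.Cl
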