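import Pool.Agent.MP_1048c2_an.Cl.Stmt

/-!
The formula of Liouville for the Jacobian of a flow.
-/

set_option linter.unusedSectionVars false

namespace Pool.Agent.MP_1048c2_an.Cl

open Filter Topology Set Module
open scoped InnerProductSpace

variable {m k : ℕ} {H V : Type} [NormedAddCommGroup H] [InnerProductSpace ℝ H]
  [NormedAddCommGroup V] [InnerProductSpace ℝ V] [FiniteDimensional ℝ H] [FiniteDimensional ℝ V]

theorem det_row_Ch2 {n : Type} [Fintype n] [DecidableEq n] (M : Matrix n n ℝ) :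
    M.det = ∑ σ : Equiv.Perm n, ((Equiv.Perm.sign σ : ℤ) : ℝ) * ∏ i, M i (σ i) := by
  rw [← Matrix.det_transpose, Matrix.det_apply']
  simp only [Matrix.transpose_apply]

theorem mat_Ch2 {n : Type} [Fintype n] [DecidableEq n] (M : ℝ → Matrix n n ℝ) (A : Matrix n n ℝ)
    (τ : ℝ) (h : ∀ i j, HasDerivAt (fun t => M t i j) ((A * M τ) i j) τ) :
    HasDerivAt (fun t => (M t).det) ((M τ).det * A.trace) τ := by
  have h1 : HasDerivAt
      (fun t => ∑ σ : Equiv.Perm n, ((Equiv.Perm.sign σ : ℤ) : ℝ) * ∏ i, M t i (σ i))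
      (∑ σ : Equiv.Perm n, ((Equiv.Perm.sign σ : ℤ) : ℝ) *
        ∑ i, (∏ j ∈ Finset.univ.erase i, M τ j (σ j)) • (A * M τ) i (σ i)) τ :=
    HasDerivAt.fun_sum fun σ _ =>
      (HasDerivAt.fun_finsetProd (f := fun i t => M t i (σ i)) fun i _ => h i (σ i)).const_mul _
  have h2 : (fun t => (M t).det) =
      fun t => ∑ σ : Equiv.Perm n, ((Equiv.Perm.sign σ : ℤ) : ℝ) * ∏ i, M t i (σ i) :=
    funext fun t => det_row_Ch2 _
  have h3 : ∀ i, ((M τ).updateRow i ((A * M τ) i)).det = A i i * (M τ).det := by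
    intro i
    have : (A * M τ) i = ∑ l, A i l • M τ l := by
      funext j; simp [Matrix.mul_apply, Finset.sum_apply]
    rw [this, Matrix.det_updateRow_sum, smul_eq_mul]
  have h4 : ∀ i, ((M τ).updateRow i ((A * M τ) i)).det =
      ∑ σ : Equiv.Perm n, ((Equiv.Perm.sign σ : ℤ) : ℝ) *
        ((∏ j ∈ Finset.univ.erase i, M τ j (σ j)) • (A * M τ) i (σ i)) := by
    intro i
    rw [det_row_Ch2]
    refine Finset.sum_congr rfl fun σ _ => ?_
    rw [← Finset.prod_erase_mul _ _ (Finset.mem_univ i), Matrix.updateRow_self, smul_eq_mul]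
    congr 2
    refine Finset.prod_congr rfl fun j hj => ?_
    rw [Matrix.updateRow_ne (Finset.ne_of_mem_erase hj)]
  have h5 : (M τ).det * A.trace = ∑ σ : Equiv.Perm n, ((Equiv.Perm.sign σ : ℤ) : ℝ) *
        ∑ i, (∏ j ∈ Finset.univ.erase i, M τ j (σ j)) • (A * M τ) i (σ i) := by
    simp only [Finset.mul_sum]
    rw [Finset.sum_comm]
    simp only [← h4, h3, Matrix.trace, Matrix.diag, Finset.mul_sum]
    exact Finset.sum_congr rfl fun i _ => mul_comm _ _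
  rw [h2, h5]
  exact h1

theorem lin_Ch2 {F : Type} [NormedAddCommGroup F] [NormedSpace ℝ F] [FiniteDimensional ℝ F]
    (Y : ℝ → F →L[ℝ] F) (A : F →L[ℝ] F) (τ : ℝ)
    (h : ∀ w, HasDerivAt (fun t => Y t w) (A (Y τ w)) τ) :
    HasDerivAt (fun t => (Y t).det) ((Y τ).det * LinearMap.trace ℝ F A) τ := by
  classical
  let b := Module.finBasis ℝ F
  have h1 : ∀ t, (Y t).det = (LinearMap.toMatrix b b (Y t : F →ₗ[ℝ] F)).det := fun t =>
    (LinearMap.det_toMatrix b _).symm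
  simp only [h1]
  rw [LinearMap.trace_eq_matrix_trace ℝ b]
  refine mat_Ch2 (fun t => LinearMap.toMatrix b b (Y t : F →ₗ[ℝ] F)) _ τ fun i j => ?_
  rw [← LinearMap.toMatrix_comp b b b]
  simp only [LinearMap.toMatrix_apply, LinearMap.comp_apply, ContinuousLinearMap.coe_coe]
  exact (LinearMap.toContinuousLinearMap (b.coord i)).hasFDerivAt.comp_hasDerivAt τ (h (b j))

theorem ch2_st : Ch2St := by
  intro F _ _ _ Φ v W x ε hW hx hΦ hv hd τ hτ
  have hO : IsOpen ((univ : Set ℝ) ×ˢ W) := isOpen_univ.prod hW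
  have hc : ∀ t, ∀ y ∈ W, ContDiffAt ℝ 2 Φ (t, y) := fun t y hy =>
    hΦ.contDiffAt (hO.mem_nhds ⟨mem_univ _, hy⟩)
  have hdiff : ∀ t, ∀ y ∈ W, DifferentiableAt ℝ Φ (t, y) := fun t y hy =>
    (hc t y hy).differentiableAt (by norm_num)
  have hY : ∀ t, HasFDerivAt (fun y => Φ (t, y))
      ((fderiv ℝ Φ (t, x)).comp (ContinuousLinearMap.inr ℝ ℝ F)) x := fun t =>
    (hdiff t x hx).hasFDerivAt.comp x (hasFDerivAt_prodMk_right t x)
  have hD2 : HasFDerivAt (fderiv ℝ Φ) (fderiv ℝ (fderiv ℝ Φ) (τ, x)) (τ, x) :=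
    (((hc τ x hx).fderiv_right (m := 1) (by norm_num)).differentiableAt (by norm_num)).hasFDerivAt
  have hsym : IsSymmSndFDerivAt ℝ Φ (τ, x) := (hc τ x hx).isSymmSndFDerivAt (by simp)
  have ht : ∀ y ∈ W, fderiv ℝ Φ (τ, y) (1, 0) = v (Φ (τ, y)) := by
    intro y hy
    have h1 : HasDerivAt (fun t : ℝ => (t, y)) ((1 : ℝ), (0 : F)) τ :=
      (hasDerivAt_id τ).prodMk (hasDerivAt_const τ y)
    exact ((hdiff τ y hy).hasFDerivAt.comp_hasDerivAt τ h1).unique (hv y hy τ hτ)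
  refine lin_Ch2 (fun t => fderiv ℝ (fun y => Φ (t, y)) x) _ τ fun w => ?_
  simp only [fun t => (hY t).fderiv, ContinuousLinearMap.comp_apply, ContinuousLinearMap.inr_apply]
  have h1 : HasDerivAt (fun t : ℝ => (t, x)) ((1 : ℝ), (0 : F)) τ :=
    (hasDerivAt_id τ).prodMk (hasDerivAt_const τ x)
  have h2 : HasDerivAt (fun t : ℝ => fderiv ℝ Φ (t, x))
      (fderiv ℝ (fderiv ℝ Φ) (τ, x) (1, 0)) τ := hD2.comp_hasDerivAt τ h1
  have h3 : HasDerivAt (fun t : ℝ => fderiv ℝ Φ (t, x) (0, w))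
      (fderiv ℝ (fderiv ℝ Φ) (τ, x) (1, 0) (0, w)) τ :=
    (ContinuousLinearMap.apply ℝ F ((0 : ℝ), w)).hasFDerivAt.comp_hasDerivAt τ h2
  have h4 : HasFDerivAt (fun y => fderiv ℝ Φ (τ, y) (1, 0))
      ((ContinuousLinearMap.apply ℝ F ((1 : ℝ), (0 : F))).comp
        ((fderiv ℝ (fderiv ℝ Φ) (τ, x)).comp (ContinuousLinearMap.inr ℝ ℝ F))) x :=
    (ContinuousLinearMap.apply ℝ F ((1 : ℝ), (0 : F))).hasFDerivAt.comp x
      (hD2.comp x (hasFDerivAt_prodMk_right τ x))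
  have h5 : HasFDerivAt (fun y => v (Φ (τ, y)))
      ((fderiv ℝ v (Φ (τ, x))).comp
        ((fderiv ℝ Φ (τ, x)).comp (ContinuousLinearMap.inr ℝ ℝ F))) x :=
    (hd τ hτ).hasFDerivAt.comp x (hY τ)
  have h6 : (fun y => fderiv ℝ Φ (τ, y) (1, 0)) =ᶠ[𝓝 x] fun y => v (Φ (τ, y)) :=
    Filter.eventually_of_mem (hW.mem_nhds hx) ht
  have h7 := congrArg (fun L : F →L[ℝ] F => L w) ((h5.congr_of_eventuallyEq h6).unique h4)
  simp only [ContinuousLinearMap.comp_apply, ContinuousLinearMap.inr_apply,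
    ContinuousLinearMap.apply_apply] at h7
  rw [h7, ← hsym.eq]
  exact h3

end Pool.Agent.MP_1048c2_an.Cl
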