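import Pool.Agent.MP_1048c2_an.Cl.Stmt

set_option linter.unusedSectionVars false

namespace Pool.Agent.MP_1048c2_an.Cl

open Filter Topology Set Module
open scoped InnerProductSpace

variable {m k : ℕ} {H V : Type} [NormedAddCommGroup H] [InnerProductSpace ℝ H]
  [NormedAddCommGroup V] [InnerProductSpace ℝ V] [FiniteDimensional ℝ H] [FiniteDimensional ℝ V]

theorem ent_zero_Cont {g : ℝ → ℝ} (hg : g ∈ Ent) {ε : ℝ} (hε : 0 < ε)
    (h : ∀ τ ∈ Ioo (-ε) ε, g τ = 0) (τ : ℝ) : g τ = 0 := by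
  obtain ⟨F, hF, hFg⟩ := hg
  have hA : AnalyticOnNhd ℂ F univ := hF.differentiableOn.analyticOnNhd isOpen_univ
  have hfr : ∃ᶠ z in 𝓝[≠] (0 : ℂ), F z = 0 := by
    have ht : Tendsto (fun t : ℝ => (t : ℂ)) (𝓝[≠] 0) (𝓝[≠] 0) := by
      apply tendsto_nhdsWithin_iff.2
      refine ⟨?_, ?_⟩
      · have := (Complex.continuous_ofReal.tendsto 0).mono_left
          (nhdsWithin_le_nhds (s := ({0}ᶜ : Set ℝ)))
        simpa using this
      · filter_upwards [self_mem_nhdsWithin] with t ht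
        simpa using ht
    apply ht.frequently
    apply Eventually.frequently
    have : Ioo (-ε) ε ∈ 𝓝[≠] (0 : ℝ) :=
      mem_nhdsWithin_of_mem_nhds (Ioo_mem_nhds (by linarith) hε)
    filter_upwards [this] with t ht
    rw [hFg, h t ht]; simp
  have := hA.eqOn_zero_of_preconnected_of_frequently_eq_zero isPreconnected_univ (mem_univ 0) hfr
    (mem_univ (τ : ℂ))
  rw [hFg] at this
  simpa using this

theorem uu_ent_Cont (U A B c κ : ℝ) : uu U A B c κ ∈ Ent := by
  refine ⟨fun z => U + 8 * c * z + 2 / κ * (A * Complex.exp (2 * κ * z) -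
    B * Complex.exp (-(2 * κ * z)) - (A - B)), by fun_prop, fun t => ?_⟩
  simp [uu, dd]

theorem uu_deriv_Cont (U A B c κ τ : ℝ) (hκ : 0 < κ) :
    HasDerivAt (uu U A B c κ) (4 * rr A B c κ τ) τ := by
  have h1 : HasDerivAt (fun τ => 2 * κ * τ) (2 * κ) τ := by
    simpa using (hasDerivAt_id τ).const_mul (2 * κ)
  have h2 : HasDerivAt (fun τ => 8 * c * τ) (8 * c) τ := by
    simpa using (hasDerivAt_id τ).const_mul (8 * c)
  have h3 := (((h1.exp.const_mul A).sub (h1.neg.exp.const_mul B)).sub_const (A - B)).const_mul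
    (2 / κ)
  have h4 := (h2.const_add U).add h3
  refine HasDerivAt.congr_deriv (f := uu U A B c κ) h4 ?_
  simp only [rr, Pi.neg_apply]
  field_simp
  ring

theorem cont_st : ContSt := by
  intro U A B c κ n j hκ ⟨hj, hj0, ε, hε, hd⟩
  have hu0 : uu U A B c κ 0 = U := by simp [uu, dd]
  have hder : ∀ τ ∈ Ioo (-ε) ε, HasDerivAt (fun τ => j τ / uu U A B c κ τ ^ n) 0 τ := by
    intro τ hτ
    obtain ⟨hp, -, hjd⟩ := hd τ hτ
    have := hjd.div ((uu_deriv_Cont U A B c κ τ hκ).pow n) (pow_pos hp n).ne'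
    refine HasDerivAt.congr_deriv (f := fun τ => j τ / uu U A B c κ τ ^ n) this ?_
    rw [div_eq_zero_iff]
    left
    simp only [Pi.pow_apply]
    rcases n with _ | n
    · simp
    · simp only [Nat.add_sub_cancel]
      push_cast
      field_simp
      ring
  have hconst : ∀ τ ∈ Ioo (-ε) ε, j τ / uu U A B c κ τ ^ n = j 0 / uu U A B c κ 0 ^ n := by
    intro τ hτ
    exact isOpen_Ioo.is_const_of_deriv_eq_zero isPreconnected_Ioo
      (fun x hx => (hder x hx).differentiableAt.differentiableWithinAt)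
      (fun x hx => (hder x hx).deriv) hτ ⟨by linarith, hε⟩
  have hU : 0 < U := hu0 ▸ (hd 0 ⟨by linarith, hε⟩).1
  have hg : (fun τ => j τ * U ^ n - uu U A B c κ τ ^ n) ∈ Ent :=
    Ent.sub_mem (Ent.mul_mem hj (Ent.algebraMap_mem (U ^ n)))
      (Ent.pow_mem (uu_ent_Cont U A B c κ) n)
  intro τ
  refine sub_eq_zero.1 (ent_zero_Cont hg hε (fun τ hτ => ?_) τ)
  have h1 := hconst τ hτ
  have hp := (hd τ hτ).1
  rw [hj0, hu0, div_eq_div_iff (pow_pos hp n).ne' (pow_pos hU n).ne'] at h1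
  simp only [h1]
  ring

end Pool.Agent.MP_1048c2_an.Cl
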