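import Pool.Agent.MP_1048c2_an.Cl.Stmt

/-!
The potential of the counterexample.
-/

set_option linter.unusedSectionVars false

namespace Pool.Agent.MP_1048c2_an.Cl

open Filter Topology Set Module
open scoped InnerProductSpace

variable {m k : ℕ} {H V : Type} [NormedAddCommGroup H] [InnerProductSpace ℝ H]
  [NormedAddCommGroup V] [InnerProductSpace ℝ V] [FiniteDimensional ℝ H] [FiniteDimensional ℝ V]
  [MeasurableSpace H] [BorelSpace H] [MeasurableSpace V] [BorelSpace V]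

section parts

open MeasureTheory

variable {E : Type} [NormedAddCommGroup E] [NormedSpace ℝ E] [FiniteDimensional ℝ E]
  [MeasurableSpace E] [BorelSpace E] {μ : Measure E} [μ.IsAddHaarMeasure]

theorem cont_mul_CouA {W ψ : E → ℝ} (hψ : Continuous ψ)
    (hW : ∀ x ∈ tsupport ψ, ContinuousAt W x) : Continuous (fun x => W x * ψ x) := by
  rw [continuous_iff_continuousAt]
  intro x
  by_cases hx : x ∈ tsupport ψ
  · exact (hW x hx).mul hψ.continuousAt
  · have h0 : ψ =ᶠ[𝓝 x] fun _ => 0 := notMem_tsupport_iff_eventuallyEq.mp hx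
    have h1 : (fun y => W y * ψ y) =ᶠ[𝓝 x] fun _ => 0 := by
      filter_upwards [h0] with y hy
      simp [hy]
    exact (continuousAt_congr h1).mpr continuousAt_const

theorem int_mul_CouA {W ψ : E → ℝ} (hψ : Continuous ψ)
    (hc : HasCompactSupport ψ) (hW : ∀ x ∈ tsupport ψ, ContinuousAt W x) :
    Integrable (fun x => W x * ψ x) μ :=
  (cont_mul_CouA hψ hW).integrable_of_hasCompactSupport hc.mul_left

theorem by_parts_CouA {W φ : E → ℝ} (hφ : ContDiff ℝ 1 φ) (hc : HasCompactSupport φ)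
    (hW : ∀ x ∈ tsupport φ, ContDiffAt ℝ 1 W x) (v : E) :
    Integrable (fun x => W x * fderiv ℝ φ x v) μ ∧
      Integrable (fun x => fderiv ℝ W x v * φ x) μ ∧
      ∫ x, W x * fderiv ℝ φ x v ∂μ = -∫ x, fderiv ℝ W x v * φ x ∂μ := by
  have hcont : Continuous (fun x => fderiv ℝ φ x v) :=
    (hφ.continuous_fderiv (by simp)).clm_apply continuous_const
  have hc' : HasCompactSupport (fun x => fderiv ℝ φ x v) := hc.fderiv_apply ℝ v
  have hsub : tsupport (fun x => fderiv ℝ φ x v) ⊆ tsupport φ := tsupport_fderiv_apply_subset ℝ v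
  have h1 : Integrable (fun x => W x * fderiv ℝ φ x v) μ :=
    int_mul_CouA hcont hc' fun x hx => (hW x (hsub hx)).continuousAt
  have h2 : Integrable (fun x => fderiv ℝ W x v * φ x) μ :=
    int_mul_CouA hφ.continuous hc fun x hx =>
      ((hW x hx).continuousAt_fderiv (by simp)).clm_apply continuousAt_const
  have h3 : Integrable (fun x => W x * φ x) μ :=
    int_mul_CouA hφ.continuous hc fun x hx => (hW x hx).continuousAt
  refine ⟨h1, h2, ?_⟩
  exact integral_mul_fderiv_eq_neg_fderiv_mul_of_integrable h2 h1 h3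
    (fun x hx => (hW x hx).differentiableAt (by simp))
    (fun x _ => hφ.differentiable (by simp) x)

theorem div_free_CouA {w : E → E} {φ : E → ℝ} (hφ : ContDiff ℝ 1 φ) (hc : HasCompactSupport φ)
    (hW : ∀ x ∈ tsupport φ, ContDiffAt ℝ 1 w x)
    (h0 : ∀ x ∈ tsupport φ, LinearMap.trace ℝ E (fderiv ℝ w x) = 0) :
    Integrable (fun x => fderiv ℝ φ x (w x)) μ ∧ ∫ x, fderiv ℝ φ x (w x) ∂μ = 0 := by
  let b := Module.finBasis ℝ E
  let c : Fin (finrank ℝ E) → E →L[ℝ] ℝ := fun j => LinearMap.toContinuousLinearMap (b.coord j)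
  have hb := fun j => by_parts_CouA (μ := μ) (W := fun x => c j (w x)) hφ hc
    (fun x hx => (c j).contDiff.contDiffAt.comp x (hW x hx)) (b j)
  have h1 : (fun x => fderiv ℝ φ x (w x)) = fun x => ∑ j, c j (w x) * fderiv ℝ φ x (b j) := by
    funext x
    conv_lhs => rw [← b.sum_repr (w x), map_sum]
    refine Finset.sum_congr rfl fun j _ => ?_
    rw [map_smul, smul_eq_mul]
    rfl
  rw [h1]
  refine ⟨integrable_finsetSum _ fun j _ => (hb j).1, ?_⟩
  rw [integral_finsetSum _ fun j _ => (hb j).1, Finset.sum_congr rfl fun j _ => (hb j).2.2,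
    Finset.sum_neg_distrib, ← integral_finsetSum _ fun j _ => (hb j).2.1, neg_eq_zero]
  refine integral_eq_zero_of_ae (Eventually.of_forall fun x => ?_)
  by_cases hx : x ∈ tsupport φ
  · have h2 := h0 x hx
    rw [LinearMap.trace_eq_matrix_trace ℝ b, Matrix.trace] at h2
    have h3 : ∀ j, fderiv ℝ (fun x => c j (w x)) x (b j) = b.repr (fderiv ℝ w x (b j)) j := by
      intro j
      have := ((c j).hasFDerivAt.comp x
        ((hW x hx).differentiableAt (by simp)).hasFDerivAt).fderiv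
      rw [show (fun x => c j (w x)) = c j ∘ w from rfl, this]
      simp [c]
    simp only [Matrix.diag, LinearMap.toMatrix_apply, ContinuousLinearMap.coe_coe] at h2
    simp only [h3, Pi.zero_apply, ← Finset.sum_mul, h2, zero_mul]
  · simp [image_eq_zero_of_notMem_tsupport hx]

end parts

variable (G : HeisenbergType m k H V)

/-- the horizontal gradient of the quartic -/
noncomputable def w_CouA (A : H →L[ℝ] H) (x : H × V) : H × V :=
  ((4 * ‖x.1‖ ^ 2) • x.1 - (4 : ℝ) • A x.1 + (16 : ℝ) • JL G x.2 x.1, (8 * ‖x.1‖ ^ 2) • x.2)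

theorem X_eq_CouA (φ : H × V → ℝ) (x : H × V) (i : Fin m) :
    X G i φ x = ⟪G.e i, (vf G φ x).1⟫_ℝ := by
  have h1 : fderiv ℝ φ x (G.e i, 0) = ⟪G.e i, xi G φ x⟫_ℝ := by
    rw [fderiv_eq G, inner_zero_right, add_zero, real_inner_comm]
  simp only [X, vf, inner_add_right, real_inner_smul_right, h1]
  congr 2
  simp only [la, map_sum, map_smul, _root_.sum_apply, _root_.smul_apply, inner_sum,
    real_inner_smul_right, JL_apply, mul_comm]

theorem sum_X_CouA (f φ : H × V → ℝ) (x : H × V) :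
    ∑ i, X G i f x * X G i φ x = fderiv ℝ φ x (vf G f x) := by
  rw [fderiv_vf, ← G.e.sum_inner_mul_inner]
  refine Finset.sum_congr rfl fun i _ => ?_
  rw [X_eq_CouA, X_eq_CouA, real_inner_comm (G.e i), mul_comm]

theorem contDiff_N_CouA (A : H →L[ℝ] H) (n : WithTop ℕ∞) :
    ContDiff ℝ n (NA A : H × V → ℝ) := by
  have h1 : ContDiff ℝ n fun x : H × V => ‖x.1‖ ^ 2 := contDiff_fst.norm_sq ℝ
  have h2 : ContDiff ℝ n fun x : H × V => ‖x.2‖ ^ 2 := contDiff_snd.norm_sq ℝ
  have h3 : ContDiff ℝ n fun x : H × V => ⟪A x.1, x.1⟫_ℝ :=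
    (A.contDiff.comp contDiff_fst).inner ℝ contDiff_fst
  have h4 : (NA A : H × V → ℝ) =
      fun x => (‖x.1‖ ^ 2) ^ 2 - 2 * ⟪A x.1, x.1⟫_ℝ + 1 + 16 * ‖x.2‖ ^ 2 := by
    funext x; rw [NA]; ring
  rw [h4]
  exact (((h1.pow 2).sub (contDiff_const.mul h3)).add contDiff_const).add (contDiff_const.mul h2)

theorem contDiff_w_CouA (A : H →L[ℝ] H) (n : WithTop ℕ∞) : ContDiff ℝ n (w_CouA G A) := by
  have h1 : ContDiff ℝ n fun x : H × V => ‖x.1‖ ^ 2 := contDiff_fst.norm_sq ℝ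
  have h2 : ContDiff ℝ n fun x : H × V => JL G x.2 x.1 :=
    contDiffOn_univ.1 (contDiffOn_J G contDiffOn_snd contDiffOn_fst)
  exact ((((contDiff_const.mul h1).smul contDiff_fst).sub
    ((A.contDiff.comp contDiff_fst).const_smul _)).add (h2.const_smul _)).prodMk
      ((contDiff_const.mul h1).smul contDiff_snd)

variable {G} {A : H →L[ℝ] H}

theorem dN_CouA (hA : Inv G A) (x v : H × V) :
    fderiv ℝ (NA A) x v =
      ⟪(4 * ‖x.1‖ ^ 2) • x.1 - (4 : ℝ) • A x.1, v.1⟫_ℝ + ⟪(32 : ℝ) • x.2, v.2⟫_ℝ := by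
  have h1 := (hasFDerivAt_fst (𝕜 := ℝ) (p := x)).norm_sq
  have h2 := (hasFDerivAt_snd (𝕜 := ℝ) (p := x)).norm_sq
  have h3 := (A.hasFDerivAt.comp x (hasFDerivAt_fst (𝕜 := ℝ) (p := x))).inner ℝ
    (hasFDerivAt_fst (𝕜 := ℝ) (p := x))
  have h4 : (NA A : H × V → ℝ) =
      fun x => (‖x.1‖ ^ 2) ^ 2 - 2 * ⟪A x.1, x.1⟫_ℝ + 1 + 16 * ‖x.2‖ ^ 2 := by
    funext x; rw [NA]; ring
  have h5 : HasFDerivAt (fun x : H × V => (‖x.1‖ ^ 2) ^ 2 - 2 * ⟪A x.1, x.1⟫_ℝ + 1 + 16 * ‖x.2‖ ^ 2)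
      _ x := (((h1.pow 2).sub (h3.const_mul 2)).add_const 1).add (h2.const_mul 16)
  rw [h4, h5.fderiv]
  have h6 : ⟪A v.1, x.1⟫_ℝ = ⟪A x.1, v.1⟫_ℝ := by rw [hA.1, real_inner_comm]
  rw [inner_sub_left, real_inner_smul_left, real_inner_smul_left, real_inner_smul_left]
  simp [h6]
  ring

theorem JA_CouA (hA : Inv G A) (μ : V) (z : H) : ⟪JL G μ z, A z⟫_ℝ = 0 := by
  have h1 := hA.1 (JL G μ z) z
  have h2 := J_skew G μ (A z) z
  rw [hA.2.2.2, h2, real_inner_comm] at h1
  linarith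

theorem BA_CouA (hA : Inv G A) (z : H) : BL G z (A z) = 0 :=
  ext_inner_left ℝ fun μ => by rw [← inner_JL, JA_CouA hA, inner_zero_right]

theorem normA_CouA (hA : Inv G A) (z : H) : ‖A z‖ ^ 2 = ‖z‖ ^ 2 := by
  rw [← real_inner_self_eq_norm_sq, hA.1, hA.2.1, real_inner_self_eq_norm_sq]

theorem vf_of_CouA (hA : Inv G A) {f : H × V → ℝ} {x : H × V} {c : ℝ}
    (h : fderiv ℝ f x = c • fderiv ℝ (NA A) x) : vf G f x = c • w_CouA G A x := by
  obtain ⟨h1, h2⟩ := xi_la_of G (u := f) (x := x)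
    (ξ := c • ((4 * ‖x.1‖ ^ 2) • x.1 - (4 : ℝ) • A x.1)) (μ := c • (32 : ℝ) • x.2) fun v => by
      rw [h, _root_.smul_apply, dN_CouA hA, real_inner_smul_left _ _ c,
        real_inner_smul_left _ _ c, smul_eq_mul, mul_add]
  simp only [vf, w_CouA, h1, h2, map_smul, map_sub, BL_self, BA_CouA hA, _root_.smul_apply,
    Prod.smul_mk, Prod.mk.injEq]
  constructor <;> module

theorem norm_w_CouA (hA : Inv G A) (x : H × V) :
    ‖(w_CouA G A x).1‖ ^ 2 = 16 * ‖x.1‖ ^ 2 * NA A x := by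
  have h1 := JA_CouA hA x.2 x.1
  have h2 := inner_J_self G x.2 x.1
  rw [real_inner_comm] at h1 h2
  simp only [w_CouA, NA, norm_add_sq_real, norm_sub_sq_real, norm_smul, mul_pow, Real.norm_eq_abs,
    sq_abs, norm_J_sq, normA_CouA hA, inner_sub_left, real_inner_smul_left, real_inner_smul_right,
    h1, h2, real_inner_comm (A x.1)]
  ring

theorem dN_w_CouA (hA : Inv G A) (x : H × V) :
    fderiv ℝ (NA A) x (w_CouA G A x) = 16 * ‖x.1‖ ^ 2 * NA A x := by
  have h := vf_of_CouA hA (f := NA A) (x := x) (c := 1) (by rw [one_smul])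
  rw [one_smul] at h
  rw [← norm_w_CouA hA, ← h, fderiv_vf, real_inner_self_eq_norm_sq]

theorem div_w_CouA (hA : Inv G A) (x : H × V) :
    LinearMap.trace ℝ (H × V) (fderiv ℝ (w_CouA G A) x) = 4 * (homDim m k + 2) * ‖x.1‖ ^ 2 := by
  have h0 := hasFDerivAt_fst (𝕜 := ℝ) (p := x)
  have h0' := hasFDerivAt_snd (𝕜 := ℝ) (p := x)
  have h1 := h0.norm_sq
  have h5 : HasFDerivAt (w_CouA G A) _ x :=
    ((((h1.const_mul 4).smul h0).sub ((A.hasFDerivAt.comp x h0).const_smul (4 : ℝ))).add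
      ((hasFDerivAt_J G h0' h0).const_smul (16 : ℝ))).prodMk ((h1.const_mul 8).smul h0')
  rw [h5.fderiv, trace_eq G]
  have h2 : ∀ i, ⟪G.e i, JL G x.2 (G.e i)⟫_ℝ = 0 := fun i => by
    rw [real_inner_comm, inner_J_self]
  have h3 : ∑ i, ⟪x.1, G.e i⟫_ℝ * ⟪G.e i, x.1⟫_ℝ = ‖x.1‖ ^ 2 := by
    rw [G.e.sum_inner_mul_inner, real_inner_self_eq_norm_sq]
  have h4 := hA.2.2.1
  simp [inner_add_right, inner_sub_right, real_inner_smul_right, h2, G.e.orthonormal.1,
    G.ε.orthonormal.1, Finset.sum_add_distrib, Finset.sum_sub_distrib, ← Finset.mul_sum, h4,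
    mul_assoc, h3, homDim]
  ring

theorem N_ge_CouA (hA : Inv G A) (x : H × V) : ‖x‖ ^ 2 + -2 ≤ NA A x := by
  have h1 : ⟪A x.1, x.1⟫_ℝ ≤ ‖x.1‖ ^ 2 := by
    have h := real_inner_le_norm (A x.1) x.1
    have h' : ‖A x.1‖ = ‖x.1‖ :=
      (pow_left_inj₀ (norm_nonneg _) (norm_nonneg _) two_ne_zero).1 (normA_CouA hA x.1)
    rw [h'] at h
    linarith
  have h3 : ‖x‖ ^ 2 ≤ ‖x.1‖ ^ 2 + ‖x.2‖ ^ 2 := by
    rw [Prod.norm_def]
    rcases max_cases ‖x.1‖ ‖x.2‖ with h | h <;> rw [h.1] <;> nlinarith [sq_nonneg ‖x.1‖,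
      sq_nonneg ‖x.2‖]
  unfold NA
  nlinarith [sq_nonneg (‖x.1‖ ^ 2 - 3 / 2), sq_nonneg ‖x.2‖]

theorem df_CouA (A : H →L[ℝ] H) (q : ℝ) {x : H × V} (hx : 0 < NA A x) :
    HasFDerivAt (fun x : H × V => (NA A x / 16) ^ q)
      ((q / 16 * (NA A x / 16) ^ (q - 1)) • fderiv ℝ (NA A) x) x := by
  have h1 : HasFDerivAt (NA A) (fderiv ℝ (NA A) x) x :=
    ((contDiff_N_CouA A 1).differentiable (by simp) x).hasFDerivAt
  have h2 : HasFDerivAt (fun x : H × V => NA A x / 16) ((1 / 16 : ℝ) • fderiv ℝ (NA A) x) x := by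
    have := h1.const_mul (1 / 16 : ℝ)
    refine this.congr_of_eventuallyEq (Eventually.of_forall fun y => ?_)
    simp only
    ring
  refine (h2.rpow_const (p := q) (Or.inl (by positivity))).congr_fderiv ?_
  rw [smul_smul]
  congr 1
  ring

theorem cd_f_CouA (A : H →L[ℝ] H) (q : ℝ) (n : WithTop ℕ∞) {x : H × V} (hx : 0 < NA A x) :
    ContDiffAt ℝ n (fun x : H × V => (NA A x / 16) ^ q) x :=
  ((contDiff_N_CouA A n).contDiffAt.div_const 16).rpow_const_of_ne (by positivity)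

theorem div_f_CouA (hA : Inv G A) (c : ℝ) {x : H × V} (hx : 0 < NA A x) :
    LinearMap.trace ℝ (H × V) (fderiv ℝ (fun y : H × V =>
      (c * (NA A y / 16) ^ (-(homDim m k - 2) / 4 - 1)) • w_CouA G A y) x) = 0 := by
  have h1 : HasFDerivAt (w_CouA G A) (fderiv ℝ (w_CouA G A) x) x :=
    ((contDiff_w_CouA G A 1).differentiable (by simp) x).hasFDerivAt
  have h2 : HasFDerivAt (fun y : H × V =>
      (c * (NA A y / 16) ^ (-(homDim m k - 2) / 4 - 1)) • w_CouA G A y) _ x :=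
    ((df_CouA A (-(homDim m k - 2) / 4 - 1) hx).const_mul c).smul h1
  rw [h2.fderiv, ContinuousLinearMap.toLinearMap_add, map_add,
    ContinuousLinearMap.toLinearMap_smul, map_smul, div_w_CouA hA]
  have h3 : ∀ (L : H × V →L[ℝ] ℝ) (v : H × V),
      LinearMap.trace ℝ (H × V) (L.smulRight v) = L v := fun L v =>
    LinearMap.trace_smulRight (L : H × V →ₗ[ℝ] ℝ) v
  rw [h3]
  simp only [_root_.smul_apply, dN_w_CouA hA, smul_eq_mul]
  rw [Real.rpow_sub_one (x := NA A x / 16) (by positivity) (-(homDim m k - 2) / 4 - 1)]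
  field_simp
  ring

theorem coua_st (G : HeisenbergType m k H V) : CouASt G := by
  intro A hk hA
  have hc : Continuous (NA A : H × V → ℝ) := (contDiff_N_CouA A 0).continuous
  have hm : (1 : ℝ) ≤ m := by exact_mod_cast m_pos G hk
  have hk' : (1 : ℝ) ≤ k := by exact_mod_cast hk
  have hQ : 0 < homDim m k - 2 := by unfold homDim; linarith
  have hp : ∀ x : H × V, x ∉ {x : H × V | NA A x < 16} → 0 < NA A x := fun x hx =>
    lt_of_lt_of_le (by norm_num) (not_lt.1 hx)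
  have hp' : ∀ x ∈ (closure {x : H × V | NA A x < 16})ᶜ, 0 < NA A x := fun x hx =>
    hp x fun h => hx (subset_closure h)
  have hv : ∀ x : H × V, 0 < NA A x →
      vf G (fun x => (NA A x / 16) ^ (-(homDim m k - 2) / 4)) x =
        (-(homDim m k - 2) / 4 / 16 * (NA A x / 16) ^ (-(homDim m k - 2) / 4 - 1)) •
          w_CouA G A x := fun x hx => vf_of_CouA hA (df_CouA A _ hx).fderiv
  refine ⟨⟨⟨fun x hx => (cd_f_CouA A _ 1 (hp' x hx)).contDiffWithinAt, fun φ hφ hcs hsub => ?_⟩,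
    fun x hx => (cd_f_CouA A _ 0 (hp x hx)).continuousAt.continuousWithinAt,
    fun x hx => Real.rpow_pos_of_pos (by have := hp x hx; positivity) _, fun x hx => ?_, ?_⟩,
    fun x hx => ?_, fun n x hx => (cd_f_CouA A _ n (hp' x hx)).contDiffWithinAt⟩
  · have : (MeasureTheory.volume : MeasureTheory.Measure (H × V)).IsAddHaarMeasure :=
      MeasureTheory.Measure.prod.instIsAddHaarMeasure _ _
    obtain ⟨h1, h2⟩ := div_free_CouA (μ := MeasureTheory.volume) (w := fun y : H × V =>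
      (-(homDim m k - 2) / 4 / 16 * (NA A y / 16) ^ (-(homDim m k - 2) / 4 - 1)) • w_CouA G A y)
      hφ hcs (fun x hx => (contDiffAt_const.mul (cd_f_CouA A _ 1 (hp' x (hsub hx)))).smul
        (contDiff_w_CouA G A 1).contDiffAt) fun x hx => div_f_CouA hA _ (hp' x (hsub hx))
    have hmeas : MeasurableSet (closure {x : H × V | NA A x < 16})ᶜ :=
      isClosed_closure.measurableSet.compl
    have heq : Set.EqOn (fun y : H × V => fderiv ℝ φ y
        ((-(homDim m k - 2) / 4 / 16 * (NA A y / 16) ^ (-(homDim m k - 2) / 4 - 1)) • w_CouA G A y))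
        (fun x => horGradNorm G (fun x => (NA A x / 16) ^ (-(homDim m k - 2) / 4)) x ^
          ((2 : ℝ) - 2) * ∑ i : Fin m,
            X G i (fun x => (NA A x / 16) ^ (-(homDim m k - 2) / 4)) x * X G i φ x)
        (closure {x : H × V | NA A x < 16})ᶜ := by
      intro x hx
      simp only [sub_self, Real.rpow_zero, one_mul]
      rw [sum_X_CouA, hv x (hp' x hx)]
    refine ⟨h1.integrableOn.congr_fun heq hmeas, ?_⟩
    rw [← MeasureTheory.setIntegral_congr_fun hmeas heq,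
      MeasureTheory.setIntegral_eq_integral_of_forall_compl_eq_zero, h2]
    intro x hx
    have hx' : x ∉ tsupport φ := fun h => hx (hsub h)
    have h0 : φ =ᶠ[𝓝 x] fun _ => 0 := notMem_tsupport_iff_eventuallyEq.mp hx'
    rw [h0.fderiv_eq]
    simp
  · have : NA A x = 16 := frontier_lt_subset_eq hc continuous_const hx
    simp [this]
  · have h1 : Tendsto (fun x : H × V => ‖x‖ ^ 2 + -2) (cocompact (H × V)) atTop :=
      tendsto_atTop_add_const_right _ _
        ((tendsto_pow_atTop two_ne_zero).comp tendsto_norm_cocompact_atTop)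
    have h2 : Tendsto (fun x : H × V => NA A x / 16) (cocompact (H × V)) atTop :=
      (tendsto_atTop_mono (N_ge_CouA hA) h1).atTop_div_const (by norm_num)
    have h3 := (tendsto_rpow_neg_atTop (y := (homDim m k - 2) / 4) (by positivity)).comp h2
    rw [← neg_div] at h3
    exact h3
  · have hx' := hp' x hx
    have hN : 0 < NA A x / 16 := by positivity
    unfold pFunction horGradNorm
    rw [Real.rpow_two, Real.rpow_two, Real.rpow_two,
      Real.sq_sqrt (Finset.sum_nonneg fun i _ => sq_nonneg _)]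
    simp only [X_eq_CouA]
    rw [G.e.sum_sq_inner_right, hv x hx', Prod.smul_fst, norm_smul, mul_pow, norm_w_CouA hA,
      Real.norm_eq_abs, sq_abs, ← Real.rpow_mul hN.le, mul_pow, ← Real.rpow_natCast (_ ^ _) 2,
      ← Real.rpow_mul hN.le]
    have h1 : -(homDim m k - 2) / 4 * (2 * (homDim m k + 2 - 2) / (homDim m k - 2)) =
        (-(homDim m k - 2) / 4 - 1) * (2 : ℕ) + 1 := by
      field_simp
      push_cast
      ring
    rw [h1, Real.rpow_add_one hN.ne']
    have h2 := (Real.rpow_pos_of_pos hN ((-(homDim m k - 2) / 4 - 1) * (2 : ℕ))).ne'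
    unfold cConst
    field_simp
    ring

end Pool.Agent.MP_1048c2_an.Cl
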