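import Pool.Agent.MP_1048c2_an.Cl.Stmt

/-! The topology of the counterexample. -/

set_option linter.unusedSectionVars false

namespace Pool.Agent.MP_1048c2_an.Cl

open Filter Topology Set Module
open scoped InnerProductSpace

variable {m k : ℕ} {H V : Type} [NormedAddCommGroup H] [InnerProductSpace ℝ H]
  [NormedAddCommGroup V] [InnerProductSpace ℝ V] [FiniteDimensional ℝ H] [FiniteDimensional ℝ V]

theorem smooth_CouB (A : H →L[ℝ] H) (n : WithTop ℕ∞) : ContDiff ℝ n (NA (V := V) A) := by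
  have h1 : ContDiff ℝ n fun x : H × V => ‖x.1‖ ^ 2 := contDiff_fst.norm_sq ℝ
  have h2 : ContDiff ℝ n fun x : H × V => ‖x.2‖ ^ 2 := contDiff_snd.norm_sq ℝ
  have h3 : ContDiff ℝ n fun x : H × V => ⟪A x.1, x.1⟫_ℝ :=
    (A.contDiff.comp contDiff_fst).inner ℝ contDiff_fst
  have h4 : NA (V := V) A = fun x => (‖x.1‖ ^ 2) ^ 2 - 2 * ⟪A x.1, x.1⟫_ℝ + 1 + 16 * ‖x.2‖ ^ 2 := by
    funext x
    rw [NA]
    ring
  rw [h4]
  exact (((h1.pow 2).sub (contDiff_const.mul h3)).add contDiff_const).add (contDiff_const.mul h2)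

theorem smul_CouB (A : H →L[ℝ] H) (t : ℝ) (x : H × V) : NA A (t • x) =
    t ^ 4 * ‖x.1‖ ^ 4 - t ^ 2 * (2 * ⟪A x.1, x.1⟫_ℝ) + 1 + t ^ 2 * (16 * ‖x.2‖ ^ 2) := by
  have h4 : |t| ^ 4 = t ^ 4 := by rw [show (4 : ℕ) = 2 * 2 from rfl, pow_mul, sq_abs, ← pow_mul]
  simp only [NA, Prod.smul_fst, Prod.smul_snd, map_smul, norm_smul, real_inner_smul_left,
    real_inner_smul_right, mul_pow, Real.norm_eq_abs, sq_abs, h4]
  ring

theorem inner_le_CouB {G : HeisenbergType m k H V} {A : H →L[ℝ] H} (hA : Inv G A) (z : H) :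
    ⟪A z, z⟫_ℝ ≤ ‖z‖ ^ 2 := by
  have h1 : ‖A z‖ ^ 2 = ‖z‖ ^ 2 := by
    rw [← real_inner_self_eq_norm_sq, hA.1, hA.2.1, real_inner_self_eq_norm_sq]
  have h2 : ‖A z‖ = ‖z‖ := (pow_left_inj₀ (norm_nonneg _) (norm_nonneg _) two_ne_zero).1 h1
  have h3 := real_inner_le_norm (A z) z
  rw [h2] at h3
  nlinarith

theorem eig_CouB {G : HeisenbergType m k H V} {A : H →L[ℝ] H} (hk : 0 < k) (hA : Inv G A)
    (s : ℝ) (hs : s * s = 1) : ∃ z : H, ‖z‖ = 2 ∧ A z = s • z := by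
  have h1 : ∃ w : H, A w + s • w ≠ 0 := by
    by_contra h
    push Not at h
    have h2 := hA.2.2.1
    have h3 : ∀ i, ⟪G.e i, A (G.e i)⟫_ℝ = -s := by
      intro i
      rw [eq_neg_of_add_eq_zero_left (h (G.e i)), inner_neg_right, real_inner_smul_right,
        real_inner_self_eq_norm_sq, G.e.orthonormal.1]
      ring
    simp only [h3, Finset.sum_const, Finset.card_univ, Fintype.card_fin, nsmul_eq_mul] at h2
    have h4 : (0 : ℝ) < m := by exact_mod_cast m_pos G hk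
    have h5 : s = 0 := by
      rcases mul_eq_zero.1 h2 with h6 | h6
      · exact absurd h6 h4.ne'
      · linarith
    rw [h5] at hs
    norm_num at hs
  obtain ⟨w, hw⟩ := h1
  have h6 : A (A w + s • w) = s • (A w + s • w) := by
    rw [map_add, map_smul, hA.2.1, smul_add, smul_smul, hs, one_smul, add_comm]
  have h7 : 0 < ‖A w + s • w‖ := norm_pos_iff.2 hw
  refine ⟨(2 / ‖A w + s • w‖) • (A w + s • w), ?_, ?_⟩
  · rw [norm_smul, Real.norm_of_nonneg (by positivity)]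
    field_simp
  · rw [map_smul, h6, smul_comm]

theorem coub_st (G : HeisenbergType m k H V) : CouBSt G := by
  intro A hk hA
  have hc : Continuous (NA (V := V) A) := (smooth_CouB A 0).continuous
  have h0 : (0 : H × V) ∈ {x : H × V | NA A x < 16} := by simp [NA]
  have hstar : StarConvex ℝ (0 : H × V) {x : H × V | NA A x < 16} := by
    intro y hy a b ha hb hab
    have hy' : NA A y < 16 := hy
    have hb1 : b ≤ 1 := by linarith
    change NA A (a • (0 : H × V) + b • y) < 16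
    have key : NA A (a • (0 : H × V) + b • y) =
        (1 - b ^ 2) + b ^ 2 * NA A y - b ^ 2 * (1 - b ^ 2) * ‖y.1‖ ^ 4 := by
      rw [smul_zero, zero_add, smul_CouB, NA]
      ring
    have h1 : 0 ≤ b ^ 2 := sq_nonneg b
    have h2 : b ^ 2 ≤ 1 := by nlinarith
    have h3 : 0 ≤ b ^ 2 * (1 - b ^ 2) * ‖y.1‖ ^ 4 :=
      mul_nonneg (mul_nonneg h1 (by linarith)) (by positivity)
    rw [key]
    have h4 : b ^ 2 * NA A y ≤ b ^ 2 * 16 := mul_le_mul_of_nonneg_left hy'.le h1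
    rcases eq_or_lt_of_le h2 with h | h
    · rw [h]; linarith
    · linarith
  refine ⟨⟨isOpen_lt hc continuous_const, (hstar.isPathConnected h0).isConnected, ?_,
    fun x => NA A x - 16, fun n => (smooth_CouB A n).sub contDiff_const, ?_, fun x hx h => ?_⟩,
    fun R σ₀ h => ?_⟩
  · rw [isBounded_iff_forall_norm_le]
    refine ⟨5, fun x hx => ?_⟩
    have h1 : NA A x < 16 := hx
    have h2 := inner_le_CouB hA x.1
    rw [NA] at h1
    have h3 : ‖x.1‖ ^ 4 = (‖x.1‖ ^ 2) ^ 2 := by ring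
    rw [h3] at h1
    rw [Prod.norm_def, max_le_iff]
    constructor
    · by_contra h4
      push Not at h4
      have h5 : 25 ≤ ‖x.1‖ ^ 2 := by nlinarith
      nlinarith [sq_nonneg ‖x.2‖]
    · nlinarith [sq_nonneg (‖x.1‖ ^ 2 - 1), norm_nonneg x.2]
  · ext x
    simp
  · have h1 : HasFDerivAt (fun y : H × V => NA A y - 16) (0 : H × V →L[ℝ] ℝ) ((1 : ℝ) • x) := by
      rw [one_smul, ← h]
      exact ((((smooth_CouB A 1).sub contDiff_const).differentiable one_ne_zero) x).hasFDerivAt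
    have h2 := h1.comp_hasDerivAt (1 : ℝ) ((hasDerivAt_id (1 : ℝ)).smul_const x)
    have h3 : HasDerivAt (fun t : ℝ => t ^ 4 * ‖x.1‖ ^ 4 - t ^ 2 * (2 * ⟪A x.1, x.1⟫_ℝ) + 1 +
        t ^ 2 * (16 * ‖x.2‖ ^ 2) - 16) _ 1 :=
      (((((hasDerivAt_pow 4 (1 : ℝ)).mul_const _).sub
        ((hasDerivAt_pow 2 (1 : ℝ)).mul_const _)).add_const _).add
        ((hasDerivAt_pow 2 (1 : ℝ)).mul_const _)).sub_const _
    have h4 := h3.unique (h2.congr_of_eventuallyEq (Eventually.of_forall fun t => by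
      simp only [Function.comp_apply, id, smul_CouB]))
    have h5 : NA A x - 16 = 0 := hx
    rw [NA] at h5
    norm_num at h4
    have h6 : 0 ≤ ‖x.1‖ ^ 4 := by positivity
    linarith
  · obtain ⟨z₁, hz₁, hA₁⟩ := eig_CouB hk hA 1 (by norm_num)
    obtain ⟨z₂, hz₂, hA₂⟩ := eig_CouB hk hA (-1) (by norm_num)
    let ρ := Submodule.reflection (ℝ ∙ (z₁ - z₂))ᗮ
    have hρ : ρ z₁ = z₂ := Submodule.reflection_sub (hz₁.trans hz₂.symm)
    have hmaps : MapsTo (fun x : H × V => (ρ x.1, x.2)) (gaugeBall R σ₀) (gaugeBall R σ₀) := by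
      intro x hx
      have hx' : ‖x.1‖ ^ 4 + 16 * ‖x.2 - σ₀‖ ^ 2 < R ^ 4 := hx
      change ‖ρ x.1‖ ^ 4 + 16 * ‖x.2 - σ₀‖ ^ 2 < R ^ 4
      rwa [ρ.norm_map]
    have hcl := hmaps.closure ((ρ.continuous.comp continuous_fst).prodMk continuous_snd)
    have h1 : ((z₁, 0) : H × V) ∈ {x : H × V | NA A x < 16} := by
      change NA A (z₁, 0) < 16
      simp only [NA, hA₁, one_smul, real_inner_self_eq_norm_sq, hz₁, norm_zero]
      norm_num
    have h2 : ((ρ z₁, 0) : H × V) ∈ closure {x : H × V | NA A x < 16} := by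
      rw [h]
      apply hcl (x := (z₁, 0))
      rw [← h]
      exact subset_closure h1
    have h3 : NA A ((ρ z₁, 0) : H × V) ≤ 16 := closure_lt_subset_le hc continuous_const h2
    simp only [hρ, NA, hA₂, real_inner_smul_left, real_inner_self_eq_norm_sq, hz₂,
      norm_zero] at h3
    norm_num at h3

end Pool.Agent.MP_1048c2_an.Cl
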