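import Pool.Agent.MP_1048c2_an.Cl.Stmt

/-! From the local classification to the domain. -/

set_option linter.unusedSectionVars false

namespace Pool.Agent.MP_1048c2_an.Cl

open Filter Topology Set Module
open scoped InnerProductSpace

variable {m k : ℕ} {H V : Type} [NormedAddCommGroup H] [InnerProductSpace ℝ H]
  [NormedAddCommGroup V] [InnerProductSpace ℝ V] [FiniteDimensional ℝ H] [FiniteDimensional ℝ V]
  [MeasurableSpace H] [BorelSpace H] [MeasurableSpace V] [BorelSpace V]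

/-- the fourth power of the gauge -/
def N_Glob (σ₀ : V) (y : H × V) : ℝ := ‖y.1‖ ^ 4 + 16 * ‖y.2 - σ₀‖ ^ 2

theorem N_cont_Glob (σ₀ : V) : Continuous (N_Glob (H := H) σ₀) := by
  unfold N_Glob
  fun_prop

theorem N_dil_Glob (σ₀ : V) (z : H) (σ : V) (t : ℝ) :
    N_Glob σ₀ (t • z, σ₀ + t ^ 2 • σ) = t ^ 4 * N_Glob 0 (z, σ) := by
  simp only [N_Glob, add_sub_cancel_left, norm_smul, Real.norm_eq_abs, mul_pow, sq_abs, sub_zero,
    (by decide : Even 4).pow_abs]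
  ring

theorem N_shift_Glob (σ₀ : V) (x : H × V) : N_Glob 0 (x.1, x.2 - σ₀) = N_Glob σ₀ x := by
  simp [N_Glob]

theorem lim_Glob {X : Type} [TopologicalSpace X] {F : X → ℝ} {s : Set X} {x : X}
    (hF : ContinuousWithinAt F s x) (hx : x ∈ closure s) (h : ∀ y ∈ s, F y = 0) : F x = 0 := by
  simpa using hF.mem_closure hx (t := {0}) h

theorem la_Glob (G : HeisenbergType m k H V) {u : H × V → ℝ} {y : H × V} {σ₀ : V}
    (hu : DifferentiableAt ℝ u y) (h : ∀ᶠ y' in 𝓝 y, u y' ^ 2 = N_Glob σ₀ y') :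
    u y • la G u y = (16 : ℝ) • (y.2 - σ₀) := by
  have d1 := hu.hasFDerivAt.pow 2
  have d2 := (((hasFDerivAt_fst (𝕜 := ℝ) (p := y)).norm_sq.pow 2).add
    ((((hasFDerivAt_snd (𝕜 := ℝ) (p := y)).sub_const σ₀).norm_sq).const_mul 16)).congr_of_eventuallyEq
      (f₁ := fun y' => u y' ^ 2) (h.mono fun y' hy' => by
        simp only [Pi.add_apply, hy', N_Glob]
        ring)
  refine ext_inner_right ℝ fun v => ?_
  have h3 := congrArg (fun L : H × V →L[ℝ] ℝ => L (0, v)) (d1.unique d2)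
  simp [fderiv_eq G] at h3
  simp only [real_inner_smul_left, inner_sub_left]
  linarith

theorem la_sq_Glob (G : HeisenbergType m k H V) {u : H × V → ℝ} {y : H × V}
    (hu : DifferentiableAt ℝ u y) (h : Gau u y) :
    ‖la G u y‖ ^ 2 * u y ^ 2 - 16 * (u y ^ 2 - ‖y.1‖ ^ 4) = 0 := by
  obtain ⟨σ₀, h⟩ := h
  have h1 := congrArg (fun v : V => ‖v‖ ^ 2) (la_Glob G hu h)
  simp only [norm_smul, mul_pow, Real.norm_eq_abs, sq_abs] at h1
  have h2 := h.self_of_nhds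
  linarith

/-- the properties of the power of the potential -/
structure Hy_Glob (G : HeisenbergType m k H V) (R : ℝ) (Ω : Set (H × V)) (u : H × V → ℝ) :
    Prop where
  k0 : 0 < k
  R0 : 0 < R
  op : IsOpen Ω
  bd : Bornology.IsBounded Ω
  c1 : ContDiffOn ℝ 1 u (closure Ω)ᶜ
  c0 : ContinuousOn u Ωᶜ
  pos : ∀ x ∉ Ω, 0 < u x
  fr : ∀ x ∈ frontier Ω, u x = R ^ 2
  inf : Tendsto u (cocompact (H × V)) atTop
  ne : ∀ x ∈ U0 Ω, fderiv ℝ u x ≠ 0
  gau : ∀ x ∈ Ws G u (U0 Ω), Gau u x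

variable {G : HeisenbergType m k H V} {R : ℝ} {Ω : Set (H × V)} {u : H × V → ℝ}

theorem Hy_Glob.rank (h : Hy_Glob G R Ω u) : 1 < Module.rank ℝ H := by
  have h1 := m_pos G h.k0
  obtain ⟨j, hj⟩ := m_even G h.k0
  rw [← finrank_eq_rank, finrank_H G]
  exact_mod_cast (by omega : 1 < m)

theorem Hy_Glob.nt (h : Hy_Glob G R Ω u) : Nontrivial H :=
  (rank_pos_iff_nontrivial (R := ℝ)).1 (zero_lt_one.trans h.rank)

theorem Hy_Glob.dense (h : Hy_Glob G R Ω u) : Dense {x : H × V | x.1 ≠ 0} := by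
  have := h.nt
  exact (dense_compl_singleton (0 : H)).preimage isOpenMap_fst

theorem Hy_Glob.dif (h : Hy_Glob G R Ω u) {x : H × V} (hx : x ∈ (closure Ω)ᶜ) :
    DifferentiableAt ℝ u x :=
  (h.c1.contDiffAt (isClosed_closure.isOpen_compl.mem_nhds hx)).differentiableAt one_ne_zero

theorem Hy_Glob.cla (h : Hy_Glob G R Ω u) {x : H × V} (hx : x ∈ (closure Ω)ᶜ) :
    ContinuousAt (la G u) x :=
  (contDiffOn_la G (n := 0) isClosed_closure.isOpen_compl h.c1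
    (by simp)).continuousOn.continuousAt (isClosed_closure.isOpen_compl.mem_nhds hx)

theorem Hy_Glob.lim (h : Hy_Glob G R Ω u) {x : H × V} (hx : x ∈ (closure Ω)ᶜ) {s : Set (H × V)}
    (hs : x ∈ closure s) (h1 : ∀ y ∈ s, y ∈ (closure Ω)ᶜ ∧ Gau u y) :
    ‖la G u x‖ ^ 2 * u x ^ 2 - 16 * (u x ^ 2 - ‖x.1‖ ^ 4) = 0 := by
  have c1 := h.cla hx
  have c2 := (h.dif hx).continuousAt
  refine lim_Glob (F := fun x => ‖la G u x‖ ^ 2 * u x ^ 2 - 16 * (u x ^ 2 - ‖x.1‖ ^ 4))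
    (ContinuousAt.continuousWithinAt (by fun_prop)) hs fun y hy =>
      la_sq_Glob G (h.dif (h1 y hy).1) (h1 y hy).2

theorem Hy_Glob.noextr (h : Hy_Glob G R Ω u) {x : H × V} (hx : x ∈ (closure Ω)ᶜ) :
    ¬IsLocalExtr u x := fun he => by
  have h0 := he.fderiv_eq_zero
  by_cases hz : x.1 = 0
  · have h1 : la G u x = 0 := by simp [la, h0]
    have h2 : ∀ᶠ y in 𝓝 x, ‖la G u y‖ < 4 :=
      (h.cla hx).norm.eventually_lt_const (by simp [h1])
    have h3 : x ∈ closure (Ws G u (U0 Ω)) :=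
      mem_closure_iff_frequently.2 (((mem_closure_iff_frequently.1 (h.dense x)).and_eventually
        (h2.and (isClosed_closure.isOpen_compl.mem_nhds hx))).mono
          fun y hy => ⟨⟨hy.2.2, hy.1⟩, hy.2.1⟩)
    have h4 := h.lim hx h3 fun y hy => ⟨hy.1.1, h.gau y hy⟩
    have h5 := h.pos x fun hh => hx (subset_closure hh)
    rw [h1, hz, norm_zero, norm_zero] at h4
    nlinarith
  · exact h.ne x ⟨hx, hz⟩ h0

theorem Hy_Glob.start (h : Hy_Glob G R Ω u) : ∃ x ∈ U0 Ω, R ^ 2 < u x ∧ la G u x = 0 := by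
  have := h.nt
  have h1 : ∀ᶠ x in cocompact (H × V), x ∈ (closure Ω)ᶜ ∧ R ^ 2 < u x :=
    Eventually.and h.bd.isCompact_closure.compl_mem_cocompact (h.inf.eventually_gt_atTop _)
  rw [← Metric.cobounded_eq_cocompact,
    (Metric.hasBasis_cobounded_compl_closedBall (0 : H × V)).eventually_iff] at h1
  obtain ⟨r, -, hr⟩ := h1
  obtain ⟨z, hz⟩ := NormedSpace.exists_lt_norm ℝ H (max r 0)
  have h2 : ∀ σ : V, (z, σ) ∈ (closure Ω)ᶜ ∧ R ^ 2 < u (z, σ) := fun σ => hr (by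
    rw [mem_compl_iff, mem_closedBall_zero_iff, not_le]
    exact ((le_max_left _ _).trans_lt hz).trans_le (norm_fst_le (z, σ)))
  have h3 : ∀ σ : V, HasFDerivAt (fun σ : V => u (z, σ))
      ((fderiv ℝ u (z, σ)).comp (ContinuousLinearMap.inr ℝ H V)) σ := fun σ =>
    (h.dif (h2 σ).1).hasFDerivAt.comp σ (hasFDerivAt_prodMk_right z σ)
  have h4 : Tendsto (fun σ : V => ((z, σ) : H × V)) (cocompact V) (cocompact (H × V)) :=
    (Isometry.of_dist_eq fun a b => by simp [Prod.dist_eq]).isClosedEmbedding.tendsto_cocompact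
  obtain ⟨σ, hσ⟩ := (continuous_iff_continuousAt.2 fun σ => (h3 σ).continuousAt).exists_forall_le
    (h.inf.comp h4)
  have h5 := IsLocalMin.hasFDerivAt_eq_zero (Eventually.of_forall hσ) (h3 σ)
  refine ⟨(z, σ), ⟨(h2 σ).1, norm_pos_iff.1 ((le_max_right _ _).trans_lt hz)⟩, (h2 σ).2,
    ext_inner_right ℝ fun v => ?_⟩
  simpa [fderiv_eq G] using congrArg (fun L : V →L[ℝ] ℝ => L v) h5

theorem Hy_Glob.conn (h : Hy_Glob G R Ω u) (σ₀ : V) :
    IsPreconnected {x : H × V | x.1 ≠ 0 ∧ R ^ 4 < N_Glob σ₀ x} := by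
  have R0 := h.R0
  have g4 : ∀ x : H × V, √(√(N_Glob 0 x)) ^ 4 = N_Glob 0 x := fun x => by
    rw [show 4 = 2 * 2 from rfl, pow_mul, Real.sq_sqrt (Real.sqrt_nonneg _),
      Real.sq_sqrt (by unfold N_Glob; positivity)]
  have gp : ∀ x : H × V, x.1 ≠ 0 → 0 < √(√(N_Glob 0 x)) := fun x hx => by
    have := norm_pos_iff.2 hx
    unfold N_Glob
    positivity
  have hc : IsPreconnected ((({0}ᶜ : Set H) ×ˢ (univ : Set V)) ×ˢ Ioi (1 : ℝ)) :=
    ((isConnected_compl_singleton_of_one_lt_rank h.rank 0).isPreconnected.prod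
      isPreconnected_univ).prod isPreconnected_Ioi
  have cg : Continuous fun y : (H × V) × ℝ => √(√(N_Glob 0 y.1)) :=
    ((N_cont_Glob 0).comp continuous_fst).sqrt.sqrt
  have cl : ContinuousOn (fun y : (H × V) × ℝ => y.2 * R / √(√(N_Glob 0 y.1)))
      ((({0}ᶜ : Set H) ×ˢ (univ : Set V)) ×ˢ Ioi (1 : ℝ)) :=
    (continuous_snd.mul continuous_const).continuousOn.div cg.continuousOn
      fun y hy => (gp y.1 hy.1.1).ne'
  have := hc.image (fun y : (H × V) × ℝ => (((y.2 * R / √(√(N_Glob 0 y.1))) • y.1.1,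
    σ₀ + (y.2 * R / √(√(N_Glob 0 y.1))) ^ 2 • y.1.2) : H × V))
    ((cl.smul continuous_fst.fst.continuousOn).prodMk
      (continuousOn_const.add ((cl.pow 2).smul continuous_fst.snd.continuousOn)))
  refine (congrArg IsPreconnected (Subset.antisymm ?_ ?_)).mp this
  · rintro _ ⟨⟨x, t⟩, ⟨⟨hx, -⟩, ht⟩, rfl⟩
    have g0 := gp x hx
    have ht' : 1 < t := ht
    refine ⟨smul_ne_zero (by positivity) hx, ?_⟩
    rw [N_dil_Glob, div_pow, g4, div_mul_cancel₀ _ (by rw [← g4]; positivity), mul_pow]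
    exact lt_mul_of_one_lt_left (by positivity) (one_lt_pow₀ ht' (by norm_num))
  · rintro x ⟨hx, hN⟩
    have g0 := gp (x.1, x.2 - σ₀) hx
    refine ⟨((x.1, x.2 - σ₀), √(√(N_Glob 0 (x.1, x.2 - σ₀))) / R), ⟨⟨hx, mem_univ _⟩, ?_⟩, ?_⟩
    · rw [mem_Ioi, one_lt_div R0]
      refine lt_of_pow_lt_pow_left₀ 4 g0.le ?_
      rwa [g4, N_shift_Glob]
    · simp only [div_mul_cancel₀ _ R0.ne', div_self g0.ne']
      simp

theorem Hy_Glob.clos (h : Hy_Glob G R Ω u) (σ₀ : V) {x : H × V} (hx : R ^ 4 ≤ N_Glob σ₀ x) :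
    x ∈ closure {x : H × V | x.1 ≠ 0 ∧ R ^ 4 < N_Glob σ₀ x} := by
  have R0 := h.R0
  have h1 : {x : H × V | R ^ 4 < N_Glob σ₀ x} ⊆
      closure {x : H × V | x.1 ≠ 0 ∧ R ^ 4 < N_Glob σ₀ x} :=
    (h.dense.open_subset_closure_inter (isOpen_lt continuous_const (N_cont_Glob σ₀))).trans
      (closure_mono fun y hy => ⟨hy.2, hy.1⟩)
  refine closure_minimal h1 isClosed_closure ?_
  have c : Continuous fun t : ℝ => ((t • x.1, σ₀ + t ^ 2 • (x.2 - σ₀)) : H × V) := by fun_prop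
  have h2 : Tendsto (fun t : ℝ => ((t • x.1, σ₀ + t ^ 2 • (x.2 - σ₀)) : H × V)) (𝓝[>] 1)
      (𝓝 x) := by
    simpa using (c.tendsto 1).mono_left (nhdsWithin_le_nhds (s := Ioi 1))
  refine mem_closure_of_tendsto h2 (eventually_mem_nhdsWithin.mono fun t ht => ?_)
  have ht' : 1 < t ^ 4 := one_lt_pow₀ ht (by norm_num)
  show R ^ 4 < N_Glob σ₀ _
  rw [N_dil_Glob, N_shift_Glob]
  exact hx.trans_lt (lt_mul_of_one_lt_left (lt_of_lt_of_le (by positivity) hx) ht')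

theorem Hy_Glob.outer (h : Hy_Glob G R Ω u) : ∃ σ₀ : V, ∀ x, R ^ 4 ≤ N_Glob σ₀ x →
    x ∈ closure (closure Ω)ᶜ ∧ u x ^ 2 = N_Glob σ₀ x := by
  have R0 := h.R0
  obtain ⟨x₀, hx₀, hu₀, hl₀⟩ := h.start
  obtain ⟨σ₀, hσ₀⟩ := h.gau x₀ ⟨hx₀, by rw [hl₀]; norm_num⟩
  obtain ⟨O, hO⟩ : ∃ O, O = U0 Ω ∩ {x | ∀ᶠ y in 𝓝 x, u y ^ 2 = N_Glob σ₀ y} := ⟨_, rfl⟩
  have hO' : ∀ x, x ∈ O ↔ x ∈ U0 Ω ∧ ∀ᶠ y in 𝓝 x, u y ^ 2 = N_Glob σ₀ y := fun x => by
    rw [hO]; rfl
  have op : IsOpen O := hO ▸ (isClosed_closure.isOpen_compl.inter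
    (isOpen_ne.preimage continuous_fst)).inter isOpen_setOfPred_eventually_nhds
  have sub : O ⊆ Ωᶜ := fun x hx hh => ((hO' x).1 hx).1.1 (subset_closure hh)
  have cl : ∀ x ∈ closure O, x ∉ Ω ∧ u x ^ 2 = N_Glob σ₀ x := fun x hx => by
    have h1 : x ∈ Ωᶜ := closure_minimal sub h.op.isClosed_compl hx
    exact ⟨h1, sub_eq_zero.1 (lim_Glob (F := fun x => u x ^ 2 - N_Glob σ₀ x)
      ((((h.c0 x h1).mono sub).pow 2).sub (N_cont_Glob σ₀).continuousWithinAt) hx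
        fun y hy => sub_eq_zero.2 ((hO' y).1 hy).2.self_of_nhds)⟩
  have key := (h.conn σ₀).subset_of_closure_inter_subset op
    ⟨x₀, ⟨hx₀.2, by
      have : u x₀ ^ 2 = N_Glob σ₀ x₀ := hσ₀.self_of_nhds
      nlinarith [sq_nonneg R]⟩, (hO' x₀).2 ⟨hx₀, hσ₀⟩⟩ fun x ⟨hx, hz, hN⟩ => by
      obtain ⟨h1, h2⟩ := cl x hx
      have h3 : x ∈ (closure Ω)ᶜ := fun hh => by
        have := h.fr x (h.op.frontier_eq ▸ ⟨hh, h1⟩)
        rw [← h2, this] at hN
        linarith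
      have h4 := h.lim h3 hx fun y hy => ⟨((hO' y).1 hy).1.1, σ₀, ((hO' y).1 hy).2⟩
      have h5 := h.pos x h1
      have h6 : 0 < ‖x.1‖ ^ 4 := pow_pos (norm_pos_iff.2 hz) 4
      have h7 : ‖la G u x‖ < 4 := by
        refine lt_of_pow_lt_pow_left₀ 2 (by norm_num) (lt_of_mul_lt_mul_right ?_ (sq_nonneg (u x)))
        linarith
      obtain ⟨σ₁, hσ₁⟩ := h.gau x ⟨⟨h3, hz⟩, h7⟩
      obtain ⟨y, hy, hy'⟩ :=
        ((mem_closure_iff_frequently.1 hx).and_eventually hσ₁.eventually_nhds).exists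
      have hy2 := (hO' y).1 hy
      have h8 := (la_Glob G (h.dif hy2.1.1) hy2.2).symm.trans (la_Glob G (h.dif hy2.1.1) hy')
      have h9 : σ₀ = σ₁ := sub_right_injective (smul_right_injective V (by norm_num) h8)
      exact (hO' x).2 ⟨⟨h3, hz⟩, h9 ▸ hσ₁⟩
  refine ⟨σ₀, fun x hx => ?_⟩
  have h1 := closure_mono key (h.clos σ₀ hx)
  exact ⟨closure_mono (fun y hy => ((hO' y).1 hy).1.1) h1, (cl x h1).2⟩

theorem Hy_Glob.ball (h : Hy_Glob G R Ω u) : ∃ σ₀ : V, interior (closure Ω) = gaugeBall R σ₀ := by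
  have R0 := h.R0
  obtain ⟨σ₀, hσ₀⟩ := h.outer
  have ob : IsOpen (gaugeBall R σ₀ : Set (H × V)) := isOpen_lt (N_cont_Glob σ₀) continuous_const
  refine ⟨σ₀, Subset.antisymm (fun x hx => ?_) (interior_maximal (fun x hx => ?_) ob)⟩
  · by_contra hh
    have := (hσ₀ x (not_lt.1 hh)).1
    rw [closure_compl] at this
    exact this hx
  · by_contra hh
    obtain ⟨D, hD⟩ : ∃ D, D = gaugeBall R σ₀ ∩ (closure Ω)ᶜ := ⟨_, rfl⟩
    have xD : x ∈ D := hD ▸ ⟨hx, hh⟩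
    have oD : IsOpen D := hD ▸ ob.inter isClosed_closure.isOpen_compl
    have bD : Bornology.IsBounded D := by
      refine ((Metric.isBounded_closedBall (x := (0 : H)) (r := R)).prod
        (Metric.isBounded_closedBall (x := σ₀) (r := R ^ 2))).subset fun y hy => ?_
      rw [hD] at hy
      have h1 : ‖y.1‖ ^ 4 + 16 * ‖y.2 - σ₀‖ ^ 2 < R ^ 4 := hy.1
      have h2 : 0 ≤ ‖y.1‖ ^ 4 := by positivity
      have h3 : 0 ≤ ‖y.2 - σ₀‖ ^ 2 := by positivity
      refine ⟨mem_closedBall_zero_iff.2 (le_of_pow_le_pow_left₀ (n := 4) (by norm_num) R0.le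
        (by linarith)), mem_closedBall_iff_norm.2 (le_of_pow_le_pow_left₀ (n := 2) (by norm_num)
          (by positivity) (by linarith))⟩
    have kD := bD.isCompact_closure
    have sD : closure D ⊆ Ωᶜ :=
      closure_minimal (fun y hy hh => (hD ▸ hy).2 (subset_closure hh)) h.op.isClosed_compl
    have fD : ∀ y ∈ closure D, y ∉ D → u y = R ^ 2 := fun y hy hy' => by
      by_cases h1 : y ∈ closure Ω
      · exact h.fr y (h.op.frontier_eq ▸ ⟨h1, sD hy⟩)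
      · have h2 : R ^ 4 ≤ N_Glob σ₀ y := not_lt.1 fun hh => hy' (hD ▸ ⟨hh, h1⟩)
        have h3 : N_Glob σ₀ y ≤ R ^ 4 :=
          closure_minimal (s := D) (t := {y | N_Glob σ₀ y ≤ R ^ 4})
            (fun y hy => le_of_lt (show N_Glob σ₀ y < R ^ 4 from (hD ▸ hy).1)) (isClosed_le (N_cont_Glob σ₀) continuous_const) hy
        refine (pow_left_inj₀ (h.pos y (sD hy)).le (by positivity) two_ne_zero).1 ?_
        rw [(hσ₀ y h2).2, le_antisymm h3 h2]
        ring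
    have nD : ∀ y ∈ D, closure D ∈ 𝓝 y := fun y hy =>
      mem_of_superset (oD.mem_nhds hy) subset_closure
    have eD : ∀ y ∈ closure D, IsExtrOn u (closure D) y → u y = R ^ 2 := fun y hy he => by
      by_cases h1 : y ∈ D
      · exact (h.noextr (hD ▸ h1).2 (he.isLocalExtr (nD y h1))).elim
      · exact fD y hy h1
    obtain ⟨a, ha, ha'⟩ := kD.exists_isMaxOn ⟨x, subset_closure xD⟩ (h.c0.mono sD)
    obtain ⟨b, hb, hb'⟩ := kD.exists_isMinOn ⟨x, subset_closure xD⟩ (h.c0.mono sD)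
    refine h.noextr hh (IsMaxOn.isLocalMax (fun y hy => ?_) (nD x xD)).isExtr
    have h1 : u y ≤ u a := ha' hy
    have h2 : u b ≤ u x := hb' (subset_closure xD)
    rw [eD a ha ha'.isExtr] at h1
    rw [eD b hb hb'.isExtr] at h2
    exact h1.trans h2

theorem glob_st (G : HeisenbergType m k H V) : GlobSt G := by
  intro p R Ω f hk hp hQ hR op _ bd ⟨⟨c1, _⟩, c0, pos, fr, inf⟩ ne gau
  have ha : -(2 * (p - 1) / (homDim m k - p)) < 0 :=
    neg_neg_of_pos (div_pos (by linarith) (by linarith))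
  refine Hy_Glob.ball (G := G) (u := uf m k p R f) ⟨hk, hR, op, bd,
    contDiffOn_const.mul (c1.rpow_const_of_ne fun x hx =>
      (pos x fun hh => hx (subset_closure hh)).ne'),
    continuousOn_const.mul (c0.rpow_const fun x hx => Or.inl (pos x hx).ne'),
    fun x hx => mul_pos (by positivity) (Real.rpow_pos_of_pos (pos x hx) _),
    fun x hx => by rw [uf, fr x hx, Real.one_rpow, mul_one], ?_, ne, gau⟩
  refine Tendsto.const_mul_atTop (by positivity) ((tendsto_rpow_neg_nhdsGT_zero ha).comp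
    (tendsto_nhdsWithin_iff.2 ⟨inf, ?_⟩))
  exact mem_of_superset bd.isCompact_closure.compl_mem_cocompact fun x hx =>
    pos x fun hh => hx (subset_closure hh)

end Pool.Agent.MP_1048c2_an.Cl
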