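import Pool.Agent.MP_1048c2_an.Cl.Stmt

/-!
The equation of the Jacobian, the determinant identity and the local classification.
-/

set_option linter.unusedSectionVars false

namespace Pool.Agent.MP_1048c2_an.Cl

open Filter Topology Set Module
open scoped InnerProductSpace

variable {m k : ℕ} {H V : Type} [NormedAddCommGroup H] [InnerProductSpace ℝ H]
  [NormedAddCommGroup V] [InnerProductSpace ℝ V] [FiniteDimensional ℝ H] [FiniteDimensional ℝ V]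

theorem hasDerivAt_uu (U A B c : ℝ) {κ : ℝ} (hκ : κ ≠ 0) (τ : ℝ) :
    HasDerivAt (uu U A B c κ) (4 * rr A B c κ τ) τ := by
  have h1 := ((hasDerivAt_id τ).const_mul (2 * κ)).exp.const_mul A
  have h2 := ((hasDerivAt_id τ).const_mul (2 * κ)).neg.exp.const_mul B
  have h3 := (((hasDerivAt_id τ).const_mul (8 * c)).const_add U).add
    (((h1.sub h2).sub_const (A - B)).const_mul (2 / κ))
  refine h3.congr_deriv ?_
  simp only [rr, id, Pi.neg_apply]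
  field_simp
  ring

theorem ch_st (G : HeisenbergType m k H V) (h1 : Ch1St G) (h2 : Ch2St) (h3 : SepSt H V) :
    ChSt G := by
  intro p W u d hs hd hf x hx
  obtain ⟨hsm, hj⟩ := h3 d W hs.op hd
  set Φ : ℝ × H × V → H × V := fun y => (d.Z y.1 y.2, d.S y.1 y.2) with hΦ
  have hΦ0 : ∀ y ∈ W, Φ (0, y) = y := fun y hy => Prod.ext (hf y hy).2.1 (hf y hy).2.2.1
  have hc : ContinuousAt Φ (0, x) := hsm.continuousOn.continuousAt
    ((isOpen_univ.prod hs.op).mem_nhds ⟨mem_univ _, hx⟩)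
  have hev : Φ ⁻¹' W ∈ 𝓝 ((0 : ℝ), x) := hc (by rw [hΦ0 x hx]; exact hs.op.mem_nhds hx)
  obtain ⟨I, hI, W0, hW0, hIW⟩ := mem_nhds_prod_iff.1 hev
  obtain ⟨ε, hε, hI'⟩ := Metric.mem_nhds_iff.1 hI
  rw [Real.ball_eq_Ioo, zero_sub, zero_add] at hI'
  obtain ⟨W', hW1, hW2, hW3⟩ := mem_nhds_iff.1 (inter_mem hW0 (hs.op.mem_nhds hx))
  have hin : ∀ y ∈ W', ∀ τ ∈ Ioo (-ε) ε, Φ (τ, y) ∈ W := fun y hy τ hτ =>
    hIW (mk_mem_prod (hI' hτ) (hW1 hy).1)
  have hch : ∀ y ∈ W', ∀ τ ∈ Ioo (-ε) ε,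
      xi G u (Φ (τ, y)) = d.Xi τ y ∧ la G u (Φ (τ, y)) = la G u y := fun y hy =>
    have h := hf y (hW1 hy).2
    h1 p W u y _ _ _ ε hs h.2.1 h.2.2.1 h.2.2.2.1 h.2.2.2.2.1 (hin y hy)
  have hder : ∀ y ∈ W', ∀ τ ∈ Ioo (-ε) ε,
      HasDerivAt (fun t => Φ (t, y)) (vf G u (Φ (τ, y))) τ := fun y hy τ hτ => by
    have h := (hf y (hW1 hy).2).2.2.2.2.1 τ
    have h4 := h.1.prodMk h.2.1
    simp only [vf, hch y hy τ hτ]
    exact h4
  have hL := h2 (H × V) Φ (vf G u) W' x ε hW2 hW3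
    (hsm.mono (prod_mono_right fun y hy => (hW1 hy).2)) hder fun τ hτ =>
      (hs.sm_vf.contDiffAt (hs.op.mem_nhds (hin x hW3 τ hτ))).differentiableAt (by norm_num)
  obtain ⟨hκ, -, -, -, -, hr⟩ := hf x hx
  have hu : ∀ τ ∈ Ioo (-ε) ε, u (Φ (τ, x)) =
      uu (u x) (‖d.a x‖ ^ 2) (‖d.b x‖ ^ 2) ⟪d.a x, d.b x⟫_ℝ (d.κ x) τ := by
    have h0 : (0 : ℝ) ∈ Ioo (-ε) ε := ⟨by linarith, hε⟩
    have h5 : ∀ τ ∈ Ioo (-ε) ε, HasDerivAt (fun t => u (Φ (t, x)) -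
        uu (u x) (‖d.a x‖ ^ 2) (‖d.b x‖ ^ 2) ⟪d.a x, d.b x⟫_ℝ (d.κ x) t) 0 τ := fun τ hτ => by
      have h6 := ((hs.d_u (hin x hW3 τ hτ)).comp_hasDerivAt τ (hder x hW3 τ hτ)).sub
        (hasDerivAt_uu (u x) (‖d.a x‖ ^ 2) (‖d.b x‖ ^ 2) ⟪d.a x, d.b x⟫_ℝ hκ.ne' τ)
      rw [hs.du_vf (hin x hW3 τ hτ), ← (hr τ).1, sub_self] at h6
      exact h6
    intro τ hτ
    have h7 := isOpen_Ioo.is_const_of_deriv_eq_zero isPreconnected_Ioo
      (fun t ht => (h5 t ht).differentiableAt.differentiableWithinAt)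
      (fun t ht => (h5 t ht).deriv) hτ h0
    simp only [hΦ0 x hx, uu, dd, mul_zero, neg_zero, Real.exp_zero, mul_one, sub_self,
      add_zero] at h7
    exact sub_eq_zero.1 h7
  refine ⟨(hj x hx).1, ?_, ε, hε, fun τ hτ => ⟨?_, ?_, ?_⟩⟩
  · have : (fun y => (d.Z 0 y, d.S 0 y)) =ᶠ[𝓝 x] id :=
      mem_of_superset (hs.op.mem_nhds hx) hΦ0
    simp only [Sd.jac, this.fderiv_eq, fderiv_id]
    exact LinearMap.det_id
  · rw [← hu τ hτ]; exact hs.pos _ (hin x hW3 τ hτ)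
  · rw [← (hr τ).1]; exact pow_ne_zero 2 (norm_ne_zero_iff.2 (hs.nz _ (hin x hW3 τ hτ)))
  · have h8 := hL τ hτ
    rw [hs.dv _ (hin x hW3 τ hτ), hu τ hτ, (hch x hW3 τ hτ).1] at h8
    rw [← (hr τ).1, ← (hr τ).2]
    exact h8

theorem lp_t : (fun y : ℝ × ℝ => y.1) ∈ LP := Algebra.subset_adjoin (by simp)

theorem lp_w : (fun y : ℝ × ℝ => y.2) ∈ LP := Algebra.subset_adjoin (by simp)

theorem lp_i : (fun y : ℝ × ℝ => y.2⁻¹) ∈ LP := Algebra.subset_adjoin (by simp)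

theorem lp_c (c : ℝ) : (fun _ : ℝ × ℝ => c) ∈ LP := LP.algebraMap_mem c

theorem p2a_st (G : HeisenbergType m k H V) (h1 : ChSt G) (h2 : ContSt) (h3 : SepSt H V)
    (h4 : PolySt) : P2aSt G := by
  intro W u d n hs hd hf hn x hx t w hw
  have hj := h1 2 W u d hs hd hf x hx
  have hQ : homDim m k = 2 * n := by
    rw [homDim]; exact_mod_cast hn.symm
  have hκ := (hf x hx).1
  rw [hQ] at hj
  have h5 := h2 _ _ _ _ _ n _ hκ hj
  obtain ⟨h, hh, hcs⟩ : ∃ h : ℝ, 0 < h ∧ ∀ j : ℕ, Real.cos (d.ℓ x * (j * h) / 2) = 1 ∧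
      Real.sin (d.ℓ x * (j * h) / 2) = 0 := by
    rcases lt_trichotomy (d.ℓ x) 0 with h | h | h
    · refine ⟨4 * Real.pi / -d.ℓ x, div_pos (by positivity) (by linarith), fun j => ?_⟩
      have : d.ℓ x * (j * (4 * Real.pi / -d.ℓ x)) / 2 = -(j * (2 * Real.pi)) := by
        have := h.ne
        field_simp; ring
      rw [this, Real.cos_neg, Real.sin_neg, Real.cos_nat_mul_two_pi, ← zero_add (j * _ : ℝ),
        Real.sin_add_nat_mul_two_pi]
      simp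
    · exact ⟨1, one_pos, fun j => by simp [h]⟩
    · refine ⟨4 * Real.pi / d.ℓ x, by positivity, fun j => ?_⟩
      have : d.ℓ x * (j * (4 * Real.pi / d.ℓ x)) / 2 = j * (2 * Real.pi) := by
        field_simp; ring
      rw [this, Real.cos_nat_mul_two_pi, ← zero_add (j * _ : ℝ), Real.sin_add_nat_mul_two_pi]
      simp
  have hm1 : (fun y : ℝ × ℝ => (d.Pm x y.1 y.2).det) ∈ LP := by
    refine det_mem fun v => ?_
    simp only [Sd.Pm, ContinuousLinearMap.prod_apply, _root_.add_apply, _root_.sub_apply,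
      _root_.smul_apply, ContinuousLinearMap.smulRight_apply]
    have c2 := LP.mul_mem (lp_c 2) lp_t
    exact ((((Vm.const _).smul lp_w).add ((Vm.const _).smul lp_i)).add
      ((((((Vm.const _).smul lp_w).sub ((Vm.const _).smul lp_i)).smul (lp_c _)).add
        (((((Vm.const _).smul lp_w).add ((Vm.const _).smul lp_i)).smul (lp_c _)).smul
          (lp_c _))).smul lp_t)).prod
      ((((Vm.const _).add ((Vm.const _).smul lp_t)).add
        (((Vm.const _).add ((Vm.const _).smul c2)).smul (LP.pow_mem lp_w 2))).sub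
        (((Vm.const _).sub ((Vm.const _).smul c2)).smul (LP.pow_mem lp_i 2)))
  have hm2 : (fun y : ℝ × ℝ => u x + 8 * ⟪d.a x, d.b x⟫_ℝ * y.1 + 2 / d.κ x *
      (‖d.a x‖ ^ 2 * y.2 ^ 2 - ‖d.b x‖ ^ 2 * y.2⁻¹ ^ 2 - (‖d.a x‖ ^ 2 - ‖d.b x‖ ^ 2))) ∈ LP :=
    LP.add_mem (LP.add_mem (lp_c _) (LP.mul_mem (lp_c _) lp_t)) (LP.mul_mem (lp_c _)
      (LP.sub_mem (LP.sub_mem (LP.mul_mem (lp_c _) (LP.pow_mem lp_w 2))
        (LP.mul_mem (lp_c _) (LP.pow_mem lp_i 2))) (lp_c _)))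
  have h6 := h4 _ h (Real.exp (d.κ x * h)) (LP.sub_mem (LP.mul_mem hm1 (lp_c (u x ^ n)))
    (LP.pow_mem hm2 n)) hh (Real.one_lt_exp_iff.2 (mul_pos hκ hh)) (fun j => by
      have h7 := h5 (j * h)
      have h8 : Real.exp (d.κ x * h) ^ j = Real.exp (d.κ x * (j * h)) := by
        rw [← Real.exp_nat_mul]; congr 1; ring
      have h9 : Real.exp (2 * d.κ x * (j * h)) = Real.exp (d.κ x * (j * h)) ^ 2 := by
        rw [← Real.exp_nat_mul]; congr 1; push_cast; ring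
      rw [Sd.jac, ((h3 d W hs.op hd).2 x hx).2 _ (hcs j).1 (hcs j).2, uu, dd, Real.exp_neg, h9,
        ← inv_pow] at h7
      simp only [Pi.sub_apply, Pi.mul_apply, Pi.pow_apply, h8]
      exact sub_eq_zero.2 h7) t w hw.ne'
  exact sub_eq_zero.1 h6

theorem loc_st (G : HeisenbergType m k H V) (hCh : ChSt G) (hO1 : Ode1St G) (hO0 : Ode0St G)
    (hZ : ZeroSt) (hA : P2aSt G) (hB : P2bSt G) (hz : P2zSt G) (hC : P2cSt G) (hT : TransSt G)
    (hTh : ThirdSt G) (hR : RadSt G) : LocSt G := by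
  intro p W u hk hp hne hs
  obtain ⟨n', hn'⟩ := m_even G hk
  have hn : 2 * (n' + k) = m + 2 * k := by omega
  have hs1 := hs.mono hs.op_W1 fun _ hx => hx.1
  have hca := hs.sm_fa.continuousOn
  have hcb := hs.sm_fb.continuousOn
  have case1 : ∀ x ∈ W1 G u W, fa G u x = 0 ∨ fb G u x = 0 := by
    intro x hx
    by_contra h
    push Not at h
    obtain ⟨hsm, hfl⟩ := hO1 p W u hs
    by_cases hp2 : p = 2
    · subst hp2
      have hop : IsOpen {y ∈ W1 G u W | fa G u y ≠ 0 ∧ fb G u y ≠ 0} :=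
        ((hca.prodMk hcb).mono W1_subset).isOpen_inter_preimage hs.op_W1
          (isOpen_ne.prod isOpen_ne)
      refine hne ⟨rfl, hTh _ _ (hT _ u (hs.mono hop fun _ hy => hy.1.1) fun y hy => ?_) ⟨x, hx, h⟩⟩
      have h1 := hA _ u _ _ hs1 hsm hfl hn y hy.1
      exact ⟨hy.1.2.1, hy.2.1, hy.2.2, hB W u _ hk hs hn y hy.1 hy.2.1 hy.2.2 h1,
        hC W u _ hs hn y hy.1 hy.2.1 hy.2.2 (h1 0)⟩
    · exact hZ _ p _ _ _ _ _ _ hp hp2 (hfl x hx).1 (pow_pos (norm_pos_iff.2 h.1) 2)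
        (pow_pos (norm_pos_iff.2 h.2) 2) (hCh p _ u _ hs1 hsm hfl x hx)
  have case0 : ∀ x ∈ W, (∀ᶠ y in 𝓝 x, la G u y = 0) → fa G u x = 0 ∨ fb G u x = 0 := by
    intro x hx h0
    obtain ⟨W', h1, h2, h3⟩ := mem_nhds_iff.1 (inter_mem h0 (hs.op.mem_nhds hx))
    have hs0 := hs.mono h2 fun _ hy => (h1 hy).2
    obtain ⟨hsm, hfl⟩ := hO0 p W' u hs0 fun y hy => (h1 hy).1
    by_contra h
    push Not at h
    by_cases hp2 : p = 2
    · subst hp2
      exact h.1 (hz W' u _ hk hn x h3 (hs.pos x hx) (hA _ u _ _ hs0 hsm hfl hn x h3 0))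
    · exact hZ _ p _ _ _ _ _ _ hp hp2 (hfl x h3).1 (pow_pos (norm_pos_iff.2 h.1) 2)
        (pow_pos (norm_pos_iff.2 h.2) 2) (hCh p _ u _ hs0 hsm hfl x h3)
  refine hR p _ u hp (hs.mono hs.op_Ws (sep_subset _ _)) fun x hx => ?_
  have key : fa G u x = 0 ∨ fb G u x = 0 := by
    by_cases h0 : ∀ᶠ y in 𝓝 x, la G u y = 0
    · exact case0 x hx.1 h0
    · by_contra h
      push Not at h
      have hn1 := hs.op_Ws.mem_nhds hx
      refine h0 ?_
      filter_upwards [hn1, (hca.continuousAt hn1).eventually_ne h.1,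
        (hcb.continuousAt hn1).eventually_ne h.2] with y h1 h2 h3
      by_contra h4
      exact (case1 y ⟨h1.1, h1.2, h4⟩).elim h2 h3
  rw [← fa_sub_fb hx.2, ← fa_add_fb (G := G) u x]
  rcases key with h | h
  · exact ⟨-kap G u x, by rw [h]; module⟩
  · exact ⟨kap G u x, by rw [h]; module⟩

end Pool.Agent.MP_1048c2_an.Cl
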