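import Pool.Agent.MP_1048c2_an.Cl.Stmt

/-!
The system for the square of a solution.
-/

set_option linter.unusedSectionVars false

namespace Pool.Agent.MP_1048c2_an.Cl

open Filter Topology Set Module
open scoped InnerProductSpace

variable {m k : ℕ} {H V : Type} [NormedAddCommGroup H] [InnerProductSpace ℝ H]
  [NormedAddCommGroup V] [InnerProductSpace ℝ V] [FiniteDimensional ℝ H] [FiniteDimensional ℝ V]

/-- the divergence of the horizontal gradient, expanded -/
theorem tr_NSys (G : HeisenbergType m k H V) {N : H × V → ℝ} {W : Set (H × V)} {x : H × V}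
    (hW : IsOpen W) (hN : ContDiffOn ℝ 3 N W) (hx : x ∈ W) :
    LinearMap.trace ℝ (H × V) (fderiv ℝ (vf G N) x) =
      ∑ i, ⟪G.e i, fderiv ℝ (xi G N) x (G.e i, 0)⟫_ℝ +
        ∑ l, ⟪JL G (G.ε l) x.1, fderiv ℝ (xi G N) x (0, G.ε l)⟫_ℝ +
        ‖x.1‖ ^ 2 / 4 * ∑ l, ⟪G.ε l, fderiv ℝ (la G N) x (0, G.ε l)⟫_ℝ := by
  have h1 := (((contDiffOn_xi G (n := 2) hW hN (by norm_num)).contDiffAt
    (hW.mem_nhds hx)).differentiableAt (by norm_num)).hasFDerivAt
  have h2 := (((contDiffOn_la G (n := 2) hW hN (by norm_num)).contDiffAt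
    (hW.mem_nhds hx)).differentiableAt (by norm_num)).hasFDerivAt
  have h3 := ((h1.add ((hasFDerivAt_J G h2 (hasFDerivAt_fst (p := x))).const_smul
    (1 / 2 : ℝ))).prodMk (((hasFDerivAt_B G (hasFDerivAt_fst (p := x)) h1).const_smul
      (1 / 2 : ℝ)).add (((hasFDerivAt_fst (𝕜 := ℝ) (p := x)).norm_sq.mul_const
        (4 : ℝ)⁻¹).smul h2))).fderiv
  have h4 : ∀ i l, ⟪fderiv ℝ (la G N) x (G.e i, 0), G.ε l⟫_ℝ =
      ⟪G.e i, fderiv ℝ (xi G N) x (0, G.ε l)⟫_ℝ := fun i l => by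
    rw [real_inner_comm _ (G.e i)]
    simpa using symm2 G ((hN.contDiffAt (hW.mem_nhds hx)).of_le (by norm_num)) (G.e i, 0) (0, G.ε l)
  have h5 : ∑ i, ⟪G.e i, JL G (fderiv ℝ (la G N) x (G.e i, 0)) x.1⟫_ℝ =
      ∑ l, ⟪JL G (G.ε l) x.1, fderiv ℝ (xi G N) x (0, G.ε l)⟫_ℝ := by
    rw [Finset.sum_congr rfl fun l _ => (G.e.sum_inner_mul_inner (JL G (G.ε l) x.1) _).symm,
      Finset.sum_comm]
    refine Finset.sum_congr rfl fun i _ => ?_
    rw [real_inner_comm, inner_JL, ← G.ε.sum_inner_mul_inner]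
    exact Finset.sum_congr rfl fun l _ => by rw [h4, inner_JL, mul_comm]
  have h6 : ∀ i, ⟪G.e i, JL G (la G N x) (G.e i)⟫_ℝ = 0 := fun i => by
    rw [real_inner_comm, inner_J_self]
  have h7 : fderiv ℝ (vf G N) x = _ := h3
  rw [h7, trace_eq G]
  simp [inner_add_right, real_inner_smul_right, h6, Finset.sum_add_distrib, ← Finset.mul_sum, h5,
    ← inner_JL]
  ring

theorem nsys_st (G : HeisenbergType m k H V) : NSysSt G := by
  intro p W u h
  have hN : ContDiffOn ℝ 3 (fun y => u y ^ 2) W := h.sm.pow 2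
  have h1 : ∀ x ∈ W, xi G (fun y => u y ^ 2) x = (2 * u x) • xi G u x ∧
      la G (fun y => u y ^ 2) x = (2 * u x) • la G u x := fun x hx =>
    xi_la_of G fun v => by
      have h0 : fderiv ℝ (fun y => u y ^ 2) x = _ := ((h.d_u hx).pow 2).fderiv
      rw [h0]
      simp [fderiv_eq G, real_inner_smul_left]
      ring
  have h2 : ∀ x ∈ W, vf G (fun y => u y ^ 2) x = (2 * u x) • vf G u x := fun x hx => by
    simp only [vf, h1 x hx, map_smul, _root_.smul_apply, Prod.smul_mk, Prod.mk.injEq]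
    constructor <;> module
  refine ⟨hN, fun x hx => ⟨(h1 x hx).1, (h1 x hx).2, ?_, ?_⟩⟩
  · rw [h2 x hx, Prod.smul_fst, norm_smul, mul_pow, h.eik x hx, Real.norm_eq_abs, sq_abs]
    ring
  · have h3 := ((h.sm_vf.contDiffAt (h.op.mem_nhds hx)).differentiableAt
      (by norm_num)).hasFDerivAt
    have h4 := ((((h.d_u hx).const_mul 2).smul h3).congr_of_eventuallyEq
      (mem_of_superset (h.op.mem_nhds hx) fun y hy => h2 y hy)).fderiv
    have h5 : LinearMap.trace ℝ (H × V) ((fderiv ℝ u x).smulRight (vf G u x)) =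
        fderiv ℝ u x (vf G u x) := LinearMap.trace_smulRight _ _
    have h6 : ((2 : ℝ) • fderiv ℝ u x).smulRight (vf G u x) =
        (2 : ℝ) • (fderiv ℝ u x).smulRight (vf G u x) := by
      ext v <;> simp [mul_smul]
    have h7 := (h.pos x hx).ne'
    have h8 : ‖x.1‖ ≠ 0 := norm_ne_zero_iff.2 (h.nz x hx)
    rw [← tr_NSys G h.op hN hx, h4, h6, ContinuousLinearMap.toLinearMap_add,
      ContinuousLinearMap.toLinearMap_smul, ContinuousLinearMap.toLinearMap_smul, map_add, map_smul,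
      map_smul, h5, h.dv x hx, h.du_vf hx, (h1 x hx).1, real_inner_smul_right, smul_eq_mul,
      smul_eq_mul]
    field_simp
    ring

end Pool.Agent.MP_1048c2_an.Cl
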