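import Pool.Agent.MP_1048c2_an.Cl.Stmt

/-!
The explicit characteristics when the vertical momentum vanishes.
-/

set_option linter.unusedSectionVars false

namespace Pool.Agent.MP_1048c2_an.Cl

open Filter Topology Set Module
open scoped InnerProductSpace

variable {m k : ℕ} {H V : Type} [NormedAddCommGroup H] [InnerProductSpace ℝ H]
  [NormedAddCommGroup V] [InnerProductSpace ℝ V] [FiniteDimensional ℝ H] [FiniteDimensional ℝ V]

theorem Z_Ode0 (G : HeisenbergType m k H V) (u : H × V → ℝ) (x : H × V) (τ : ℝ) :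
    (d0 G u).Z τ x = Real.exp (2 * τ) • fa G u x + Real.exp (-(2 * τ)) • fb G u x := by
  simp [Sd.Z, Sd.za, Sd.zb, d0]

theorem Xi_Ode0 (G : HeisenbergType m k H V) (u : H × V → ℝ) (x : H × V) (τ : ℝ) :
    (d0 G u).Xi τ x = (2 : ℝ) • (Real.exp (2 * τ) • fa G u x - Real.exp (-(2 * τ)) • fb G u x) := by
  simp [Sd.Xi, Sd.za, Sd.zb, d0]

theorem S_Ode0 (G : HeisenbergType m k H V) (u : H × V → ℝ) (x : H × V) (τ : ℝ) :
    (d0 G u).S τ x = x.2 + τ • ((-2 : ℝ) • BL G (fa G u x) (fb G u x)) := by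
  simp [Sd.S, d0]

theorem dexp_Ode0 (τ : ℝ) :
    HasDerivAt (fun t : ℝ => Real.exp (2 * t)) (Real.exp (2 * τ) * 2) τ := by
  simpa using ((hasDerivAt_id τ).const_mul (2 : ℝ)).exp

theorem dexpn_Ode0 (τ : ℝ) :
    HasDerivAt (fun t : ℝ => Real.exp (-(2 * t))) (Real.exp (-(2 * τ)) * (-2)) τ := by
  simpa using ((hasDerivAt_id τ).const_mul (2 : ℝ)).neg.exp

theorem ode0_st (G : HeisenbergType m k H V) : Ode0St G := by
  intro p W u h h0
  have hlt : ∀ x ∈ W, ‖la G u x‖ < 4 := fun x hx => by rw [h0 x hx]; norm_num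
  have hsub : W ⊆ Ws G u W := fun x hx => ⟨hx, hlt x hx⟩
  have ha : ContDiffOn ℝ 2 (fa G u) W := h.sm_fa.mono hsub
  have hb : ContDiffOn ℝ 2 (fb G u) W := h.sm_fb.mono hsub
  refine ⟨⟨contDiffOn_const, contDiffOn_const, ha, contDiffOn_const, hb, contDiffOn_const,
    contDiffOn_snd, contDiffOn_const, contDiffOn_const, (contDiffOn_B G ha hb).const_smul _,
    contDiffOn_const, contDiffOn_const⟩, fun x hx => ?_⟩
  have hk : kap G u x = 2 := by
    rw [kap, h0 x hx, norm_zero, show (4 : ℝ) - 0 ^ 2 / 4 = 2 ^ 2 by norm_num]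
    exact Real.sqrt_sq (by norm_num)
  have he : ∀ τ : ℝ, Real.exp (2 * τ) * Real.exp (-(2 * τ)) = 1 := fun τ => by
    rw [← Real.exp_add]; simp
  have he1 : ∀ τ : ℝ, Real.exp (2 * 2 * τ) = Real.exp (2 * τ) ^ 2 := fun τ => by
    rw [sq, ← Real.exp_add]; congr 1; ring
  have he2 : ∀ τ : ℝ, Real.exp (-(2 * 2 * τ)) = Real.exp (-(2 * τ)) ^ 2 := fun τ => by
    rw [sq, ← Real.exp_add]; congr 1; ring
  refine ⟨by norm_num [d0], ?_, ?_, ?_, fun τ => ⟨?_, ?_, ?_⟩, fun τ => ⟨?_, ?_⟩⟩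
  · rw [Z_Ode0]; simpa using fa_add_fb (G := G) u x
  · rw [S_Ode0]; simp
  · rw [Xi_Ode0, ← fa_sub_fb (hlt x hx), hk]; simp
  · simp only [Z_Ode0, Xi_Ode0, h0 x hx]
    refine (((dexp_Ode0 τ).smul_const (fa G u x)).add
      ((dexpn_Ode0 τ).smul_const (fb G u x))).congr_deriv ?_
    simp only [map_zero, _root_.zero_apply, smul_zero, add_zero]
    module
  · simp only [Z_Ode0, Xi_Ode0, S_Ode0, h0 x hx]
    refine (((hasDerivAt_id τ).smul_const ((-2 : ℝ) • BL G (fa G u x) (fb G u x))).const_add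
      x.2).congr_deriv ?_
    simp only [map_add, map_sub, map_smul, _root_.add_apply,
      _root_.smul_apply, BL_self, smul_zero, add_zero,
      BL_swap G (fb G u x) (fa G u x)]
    have := he τ
    match_scalars
    linear_combination (2 : ℝ) * this
  · simp only [Z_Ode0, Xi_Ode0, h0 x hx]
    refine ((((dexp_Ode0 τ).smul_const (fa G u x)).sub
      ((dexpn_Ode0 τ).smul_const (fb G u x))).const_smul (2 : ℝ)).congr_deriv ?_
    simp only [map_zero, _root_.zero_apply, smul_zero, zero_add, norm_zero]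
    module
  · rw [Z_Ode0]
    change _ = rr (‖fa G u x‖ ^ 2) (‖fb G u x‖ ^ 2) ⟪fa G u x, fb G u x⟫_ℝ 2 τ
    rw [rr, he1, he2, norm_add_sq_real, norm_smul, norm_smul, real_inner_smul_left,
      real_inner_smul_right, mul_pow, mul_pow, Real.norm_eq_abs, Real.norm_eq_abs, sq_abs, sq_abs]
    linear_combination (2 * ⟪fa G u x, fb G u x⟫_ℝ) * he τ
  · rw [Z_Ode0, Xi_Ode0]
    change _ = 2 * dd (‖fa G u x‖ ^ 2) (‖fb G u x‖ ^ 2) 2 τ
    rw [dd, he1, he2]
    simp only [real_inner_smul_right, inner_add_left, inner_sub_right, real_inner_smul_left,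
      real_inner_self_eq_norm_sq, real_inner_comm (fa G u x) (fb G u x), norm_smul, mul_pow,
      Real.norm_eq_abs, sq_abs]
    ring

end Pool.Agent.MP_1048c2_an.Cl
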