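import Pool.Agent.MP_1048c2_an.Cl.Stmt
set_option linter.unusedSectionVars false
namespace Pool.Agent.MP_1048c2_an.Cl
open Filter Topology Set Module
open scoped InnerProductSpace
variable {m k : ℕ} {H V : Type} [NormedAddCommGroup H] [InnerProductSpace ℝ H] [NormedAddCommGroup V] [InnerProductSpace ℝ V] [FiniteDimensional ℝ H] [FiniteDimensional ℝ V]

theorem BJJ_Ode1 (G : HeisenbergType m k H V) (μ : V) (a b : H) :
    BL G (JL G μ a) (JL G μ b) = -(‖μ‖ ^ 2) • BL G a b + (2 * ⟪JL G μ a, b⟫_ℝ) • μ := by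
  refine ext_inner_left ℝ fun ν => ?_
  have h := congrArg (fun y => ⟪y, JL G μ b⟫_ℝ) (cliff G ν μ a)
  simp only [inner_add_left, real_inner_smul_left] at h
  have h1 := inner_JJ G μ (JL G ν a) b
  have h2 := J_skew G μ a b
  rw [← inner_JL, inner_add_right, real_inner_smul_right, real_inner_smul_right, ← inner_JL]
  linear_combination h - h1 - 2 * ⟪ν, μ⟫_ℝ * h2

theorem BJ_Ode1 (G : HeisenbergType m k H V) (μ : V) (a b : H) :
    BL G a (JL G μ b) = BL G (JL G μ a) b + (2 * ⟪a, b⟫_ℝ) • μ := by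
  refine ext_inner_left ℝ fun ν => ?_
  have h := congrArg (fun y => ⟪y, b⟫_ℝ) (cliff G ν μ a)
  simp only [inner_add_left, real_inner_smul_left] at h
  have h1 := J_skew G μ (JL G ν a) b
  rw [← inner_JL, inner_add_right, real_inner_smul_right, ← inner_JL]
  linear_combination h1 - h

theorem BZ_Ode1 (G : HeisenbergType m k H V) (P Q : H) (w w' κ : ℝ) :
    BL G (w • P + w' • Q) (κ • (w • P - w' • Q)) = (-2 * κ * w * w') • BL G P Q := by
  simp only [map_add, map_sub, map_smul, _root_.add_apply, _root_.smul_apply, BL_self,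
    BL_swap G Q P]
  module

theorem BPQ_Ode1 (G : HeisenbergType m k H V) (μ : V) (a b : H) (C S l : ℝ) :
    BL G (C • a + S • l • JL G μ a) (C • b + S • l • JL G μ b) =
      (C ^ 2 - S ^ 2 * l ^ 2 * ‖μ‖ ^ 2) • BL G a b + (2 * C * S * l) • BL G (JL G μ a) b +
        (2 * C * S * l * ⟪a, b⟫_ℝ + 2 * S ^ 2 * l ^ 2 * ⟪JL G μ a, b⟫_ℝ) • μ := by
  have h1 := BJJ_Ode1 G μ a b
  have h2 := BJ_Ode1 G μ a b
  simp only [map_add, map_smul, _root_.add_apply, _root_.smul_apply]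
  rw [h1, h2]
  module

theorem rot_Ode1 (G : HeisenbergType m k H V) (μ : V) (hμ : μ ≠ 0) (a b : H) (C S : ℝ)
    (hCS : C ^ 2 + S ^ 2 = 1) :
    ⟪C • a + S • ‖μ‖⁻¹ • JL G μ a, C • b + S • ‖μ‖⁻¹ • JL G μ b⟫_ℝ = ⟪a, b⟫_ℝ := by
  have hl : ‖μ‖ ≠ 0 := norm_ne_zero_iff.2 hμ
  have h1 := inner_JJ G μ a b
  have h2 := J_skew G μ a b
  simp only [inner_add_left, inner_add_right, real_inner_smul_left, real_inner_smul_right, h1, h2]
  field_simp
  linear_combination ‖μ‖ * ⟪a, b⟫_ℝ * hCS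

theorem drot_Ode1 (G : HeisenbergType m k H V) (μ : V) (hμ : μ ≠ 0) (a : H) (κ τ : ℝ) :
    HasDerivAt (fun t => Real.exp (κ * t) •
        (Real.cos (‖μ‖ * t / 2) • a + Real.sin (‖μ‖ * t / 2) • ‖μ‖⁻¹ • JL G μ a))
      (κ • Real.exp (κ * τ) •
        (Real.cos (‖μ‖ * τ / 2) • a + Real.sin (‖μ‖ * τ / 2) • ‖μ‖⁻¹ • JL G μ a) +
      (1 / 2 : ℝ) • JL G μ (Real.exp (κ * τ) •
        (Real.cos (‖μ‖ * τ / 2) • a + Real.sin (‖μ‖ * τ / 2) • ‖μ‖⁻¹ • JL G μ a))) τ := by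
  have hl : ‖μ‖ ≠ 0 := norm_ne_zero_iff.2 hμ
  have h0 : HasDerivAt (fun t : ℝ => ‖μ‖ * t / 2) (‖μ‖ * 1 / 2) τ :=
    ((hasDerivAt_id τ).const_mul ‖μ‖).div_const 2
  have h1 : HasDerivAt (fun t : ℝ => κ * t) (κ * 1) τ := (hasDerivAt_id τ).const_mul κ
  have h2 := h1.exp.smul ((h0.cos.smul_const a).add (h0.sin.smul_const (‖μ‖⁻¹ • JL G μ a)))
  refine h2.congr_deriv ?_
  simp only [map_smul, map_add, JJ, Pi.add_apply]
  match_scalars <;> field_simp <;> ring

theorem ode1_st (G : HeisenbergType m k H V) : Ode1St G := by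
  intro p W u h
  borelize H V
  have hla : ContDiffOn ℝ 2 (la G u) (W1 G u W) := h.sm_la.mono fun _ hx => hx.1
  have hl : ContDiffOn ℝ 2 (fun x => ‖la G u x‖) (W1 G u W) := hla.norm ℝ fun _ hx => hx.2.2
  have hl0 : ∀ x ∈ W1 G u W, ‖la G u x‖ ≠ 0 := fun _ hx => norm_ne_zero_iff.2 hx.2.2
  have hk := h.sm_kap.mono (W1_subset (G := G) (u := u) (W := W))
  have ha := h.sm_fa.mono (W1_subset (G := G) (u := u) (W := W))
  have hb := h.sm_fb.mono (W1_subset (G := G) (u := u) (W := W))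
  have hc : ContDiffOn ℝ 2 (fun x => ⟪fa G u x, fb G u x⟫_ℝ) (W1 G u W) := ha.inner ℝ hb
  refine ⟨⟨hk, hl, ha, (hl.inv hl0).smul (contDiffOn_J G hla ha), hb,
    (hl.inv hl0).smul (contDiffOn_J G hla hb), h.sm_fs.mono W1_subset, ?_, ?_, ?_,
    h.sm_g4.mono W1_subset, h.sm_g5.mono W1_subset⟩, ?_⟩
  · exact (((contDiffOn_const.mul hk).div hl hl0).neg.smul (contDiffOn_B G ha hb)).sub
      ((((contDiffOn_const.mul (hk.pow 2)).mul hc).div (hl.pow 3)
        fun x hx => pow_ne_zero _ (hl0 x hx)).smul hla)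
  · exact ((contDiffOn_const.mul hk).div (hl.pow 2) fun x hx => pow_ne_zero _ (hl0 x hx)).neg.smul
      ((contDiffOn_B G (contDiffOn_J G hla ha) hb).add (hc.smul hla))
  · exact ((contDiffOn_const.mul hc).div (hl.pow 2) fun x hx => pow_ne_zero _ (hl0 x hx)).smul hla
  intro x hx
  have hκ := kap_pos hx.2.1
  have hκ2 := kap_sq hx.2.1
  have hcon := h.constraint (W1_subset hx)
  have hμ := hx.2.2
  have hn := hl0 x hx
  have hnorm : ∀ τ, ‖(d1 G u).Z τ x‖ ^ 2 =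
      rr (‖fa G u x‖ ^ 2) (‖fb G u x‖ ^ 2) ⟪fa G u x, fb G u x⟫_ℝ (kap G u x) τ ∧
      ⟪(d1 G u).Z τ x, (d1 G u).Xi τ x⟫_ℝ =
        kap G u x * dd (‖fa G u x‖ ^ 2) (‖fb G u x‖ ^ 2) (kap G u x) τ := by
    intro τ
    have hCS := Real.cos_sq_add_sin_sq (‖la G u x‖ * τ / 2)
    have e1 := rot_Ode1 G _ hμ (fa G u x) (fa G u x) _ _ hCS
    have e2 := rot_Ode1 G _ hμ (fa G u x) (fb G u x) _ _ hCS
    have e3 := rot_Ode1 G _ hμ (fb G u x) (fa G u x) _ _ hCS
    have e4 := rot_Ode1 G _ hμ (fb G u x) (fb G u x) _ _ hCS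
    have w1 : Real.exp (2 * kap G u x * τ) = Real.exp (kap G u x * τ) * Real.exp (kap G u x * τ) := by
      rw [← Real.exp_add]; congr 1; ring
    have w2 : Real.exp (-(2 * kap G u x * τ)) =
        Real.exp (-(kap G u x * τ)) * Real.exp (-(kap G u x * τ)) := by
      rw [← Real.exp_add]; congr 1; ring
    have w3 : Real.exp (kap G u x * τ) * Real.exp (-(kap G u x * τ)) = 1 := by
      rw [← Real.exp_add]; simp
    rw [real_inner_comm (fa G u x) (fb G u x)] at e3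
    rw [real_inner_self_eq_norm_sq (fa G u x)] at e1
    rw [real_inner_self_eq_norm_sq (fb G u x)] at e4
    rw [← real_inner_self_eq_norm_sq ((d1 G u).Z τ x)]
    simp only [Sd.Z, Sd.Xi, Sd.za, Sd.zb, d1, rr, dd, w1, w2]
    generalize Real.cos (‖la G u x‖ * τ / 2) • fa G u x +
      Real.sin (‖la G u x‖ * τ / 2) • ‖la G u x‖⁻¹ • JL G (la G u x) (fa G u x) = P at *
    generalize Real.cos (‖la G u x‖ * τ / 2) • fb G u x +
      Real.sin (‖la G u x‖ * τ / 2) • ‖la G u x‖⁻¹ • JL G (la G u x) (fb G u x) = Q at *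
    simp only [inner_add_left, inner_add_right, inner_sub_right, real_inner_smul_left,
      real_inner_smul_right, e1, e2, e3, e4]
    constructor
    · linear_combination 2 * ⟪fa G u x, fb G u x⟫_ℝ * w3
    · ring
  refine ⟨hκ, ?_, ?_, ?_, fun τ => ?_, hnorm⟩
  · simp [Sd.Z, Sd.za, Sd.zb, d1, fa_add_fb]
  · simp [Sd.S, d1, fs]
    abel
  · simp [Sd.Xi, Sd.za, Sd.zb, d1, fa_sub_fb hx.2.1]
  have da := drot_Ode1 G _ hμ (fa G u x) (kap G u x) τ
  have db := drot_Ode1 G _ hμ (fb G u x) (-kap G u x) τ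
  simp only [neg_mul] at db
  refine ⟨?_, ?_, ?_⟩
  · refine (da.add db).congr_deriv ?_
    simp only [Sd.Z, Sd.Xi, Sd.za, Sd.zb, d1, map_add]
    module
  · have h0 : HasDerivAt (fun t : ℝ => ‖la G u x‖ * t / 2) (‖la G u x‖ * 1 / 2) τ :=
      ((hasDerivAt_id τ).const_mul _).div_const 2
    have h1 : HasDerivAt (fun t : ℝ => kap G u x * t) (kap G u x * 1) τ :=
      (hasDerivAt_id τ).const_mul _
    have h2 := (((((hasDerivAt_const τ (fs G u x)).add
      ((h0.cos.mul h0.sin).smul_const ((d1 G u).g1 x))).add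
      ((h0.sin.pow 2).smul_const ((d1 G u).g2 x))).add
      ((hasDerivAt_id τ).smul_const ((d1 G u).g3 x))).add
      ((h1.exp.pow 2).smul_const (g4 G u x))).sub ((h1.neg.exp.pow 2).smul_const (g5 G u x))
    refine h2.congr_deriv ?_
    have hCS := Real.cos_sq_add_sin_sq (‖la G u x‖ * τ / 2)
    have w1 : Real.exp (2 * kap G u x * τ) = Real.exp (kap G u x * τ) * Real.exp (kap G u x * τ) := by
      rw [← Real.exp_add]; congr 1; ring
    have w2 : Real.exp (-(2 * kap G u x * τ)) =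
        Real.exp (-(kap G u x * τ)) * Real.exp (-(kap G u x * τ)) := by
      rw [← Real.exp_add]; congr 1; ring
    have w3 : Real.exp (-(kap G u x * τ)) = (Real.exp (kap G u x * τ))⁻¹ := Real.exp_neg _
    have w4 := (Real.exp_pos (kap G u x * τ)).ne'
    simp only []
    rw [(hnorm τ).1]
    simp only [Sd.Z, Sd.Xi, Sd.za, Sd.zb, d1, rr, w1, w2, g4, g5, BZ_Ode1, BPQ_Ode1, hcon,
      Pi.neg_apply, w3]
    generalize Real.cos (‖la G u x‖ * τ / 2) = C at *
    generalize Real.sin (‖la G u x‖ * τ / 2) = S at *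
    generalize Real.exp (kap G u x * τ) = w at *
    have hk0 := hκ.ne'
    simp only [Nat.add_one_sub_one, pow_one, Nat.cast_ofNat]
    match_scalars
    · field_simp
      ring
    · linear_combination (norm := (field_simp; ring))
        (-2 * kap G u x ^ 2 * ⟪fa G u x, fb G u x⟫_ℝ / ‖la G u x‖ ^ 2) * hCS +
        (-2 * ⟪fa G u x, fb G u x⟫_ℝ / ‖la G u x‖ ^ 2) * hκ2
    · field_simp
  · refine ((da.sub db).const_smul (kap G u x)).congr_deriv ?_
    simp only [Sd.Z, Sd.Xi, Sd.za, Sd.zb, d1, map_add, map_sub, map_smul, ← hκ2]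
    module

end Pool.Agent.MP_1048c2_an.Cl
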