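import Pool.Agent.MP_1048c2_an.Cl.Stmt

/-!
From the determinant identity to the relations between the differentials.
-/

set_option linter.unusedSectionVars false

namespace Pool.Agent.MP_1048c2_an.Cl

open Filter Topology Set Module
open scoped InnerProductSpace

variable {m k : ℕ} {H V : Type} [NormedAddCommGroup H] [InnerProductSpace ℝ H]
  [NormedAddCommGroup V] [InnerProductSpace ℝ V] [FiniteDimensional ℝ H] [FiniteDimensional ℝ V]
  {G : HeisenbergType m k H V} {p : ℝ} {W : Set (H × V)} {u : H × V → ℝ} {x : H × V}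

theorem Mq_apply (G : HeisenbergType m k H V) (u : H × V → ℝ) (x : H × V) (μ : V) :
    Mq G u x μ = (1 / (4 * kap G u x)) • μ +
      (⟪la G u x, μ⟫_ℝ / (16 * kap G u x ^ 3)) • la G u x := by
  simp only [Mq, _root_.add_apply, _root_.smul_apply, ContinuousLinearMap.id_apply,
    ContinuousLinearMap.smulRight_apply, innerSL_apply_apply, smul_smul]
  congr 2
  ring

theorem sg_apply (G : HeisenbergType m k H V) (u : H × V → ℝ) (x v : H × V) :
    sg G u x v = fderiv ℝ (fs G u) x v + ((⟪fb G u x, fderiv ℝ (fa G u) x v⟫_ℝ -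
      ⟪fa G u x, fderiv ℝ (fb G u) x v⟫_ℝ) / (4 * kap G u x)) • la G u x := by
  simp only [sg, _root_.add_apply, _root_.smul_apply, _root_.sub_apply,
    ContinuousLinearMap.smulRight_apply, ContinuousLinearMap.comp_apply, innerSL_apply_apply,
    smul_smul]
  congr 2
  ring

/-- the second coordinate of a tangent vector -/
theorem Sys.snd_eq (h : Sys G p W u) (hx : x ∈ Ws G u W) (v : H × V) :
    v.2 = sg G u x v + ((‖fa G u x‖ ^ 2 - ‖fb G u x‖ ^ 2) / 2) •
      Mq G u x (fderiv ℝ (la G u) x v) +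
      (⟪fa G u x - fb G u x, v.1⟫_ℝ / (4 * kap G u x)) • la G u x := by
  rw [sg_apply, h.d_fs hx, h.d_g4 hx, h.d_g5 hx, ← (h.d_ab hx v).1]
  simp only [inner_sub_left, inner_add_right]
  match_scalars <;> ring

theorem Sys.lagr (h : Sys G p W u) (hx : x ∈ Ws G u W) (v v' : H × V) :
    2 * kap G u x * ⟪fderiv ℝ (fb G u) x v, fderiv ℝ (fa G u) x v'⟫_ℝ +
        ⟪sg G u x v, fderiv ℝ (la G u) x v'⟫_ℝ =
      2 * kap G u x * ⟪fderiv ℝ (fb G u) x v', fderiv ℝ (fa G u) x v⟫_ℝ +
        ⟪sg G u x v', fderiv ℝ (la G u) x v⟫_ℝ := by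
  have h1 := h.symm hx.1 v v'
  have hk := (kap_pos hx.2).ne'
  have e1 := h.snd_eq hx v
  have e2 := h.snd_eq hx v'
  rw [(h.d_ab hx v).2, (h.d_ab hx v').2, h.d_kap hx, h.d_kap hx, e1, e2] at h1
  have e3 := (h.d_ab hx v).1
  have e4 := (h.d_ab hx v').1
  clear e1 e2
  generalize fderiv ℝ (fa G u) x v = da at *
  generalize fderiv ℝ (fa G u) x v' = da' at *
  generalize fderiv ℝ (fb G u) x v = db at *
  generalize fderiv ℝ (fb G u) x v' = db' at *
  generalize fderiv ℝ (la G u) x v = dl at *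
  generalize fderiv ℝ (la G u) x v' = dl' at *
  generalize sg G u x v = s at *
  generalize sg G u x v' = s' at *
  generalize fa G u x - fb G u x = η at *
  rw [← e3, ← e4] at h1
  simp only [Mq_apply, inner_add_right, inner_add_left, real_inner_smul_right, real_inner_smul_left,
    inner_sub_left, real_inner_comm dl (la G u x), real_inner_comm dl' (la G u x),
    real_inner_comm dl dl', real_inner_comm da da', real_inner_comm db db', real_inner_comm da db',
    real_inner_comm s dl', real_inner_comm s' dl, real_inner_comm db da'] at h1 ⊢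
  linear_combination (-1 : ℝ) * h1

theorem Sys.pm_apply (h : Sys G p W u) (hx : x ∈ Ws G u W) {w : ℝ} (hw : w ≠ 0) (v : H × V) :
    (d1 G u).Pm x 0 w v = (w • fderiv ℝ (fa G u) x v + w⁻¹ • fderiv ℝ (fb G u) x v,
      sg G u x v + ((‖fa G u x‖ ^ 2 * w ^ 2 - ‖fb G u x‖ ^ 2 * w⁻¹ ^ 2) / 2) •
        Mq G u x (fderiv ℝ (la G u) x v) + (⟪w • fa G u x - w⁻¹ • fb G u x,
          w • fderiv ℝ (fa G u) x v + w⁻¹ • fderiv ℝ (fb G u) x v⟫_ℝ / (4 * kap G u x)) •
            la G u x) := by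
  simp only [Sd.Pm, d1, ContinuousLinearMap.prod_apply, _root_.add_apply, _root_.sub_apply,
    _root_.smul_apply, zero_smul, mul_zero, add_zero, sub_zero, sg_apply, h.d_g4 hx, h.d_g5 hx,
    inner_sub_left, inner_add_right, real_inner_smul_left, real_inner_smul_right]
  congr 1
  match_scalars <;> (field_simp; try ring)

theorem p2c_st (G : HeisenbergType m k H V) (hS : SpecSt m k H V) : P2cSt G := by
  intro W u n hs hn x hx ha hb hd
  have hx' := W1_subset hx
  have hκ := kap_pos hx'.2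
  have hA : 0 < ‖fa G u x‖ ^ 2 := pow_pos (norm_pos_iff.2 ha) 2
  have hB : 0 < ‖fb G u x‖ ^ 2 := pow_pos (norm_pos_iff.2 hb) 2
  have hu := hs.pos x hx.1
  obtain ⟨h1, h2, h3⟩ := hS (fderiv ℝ (fa G u) x) (fderiv ℝ (fb G u) x) (fderiv ℝ (la G u) x)
    ((1 / (2 * kap G u x)) • sg G u x) ((‖fa G u x‖ ^ 2 / (4 * kap G u x)) • Mq G u x)
    (‖fb G u x‖ ^ 2 / ‖fa G u x‖ ^ 2) (kap G u x * u0 G u x / (2 * ‖fa G u x‖ ^ 2))
    ((2 * ‖fa G u x‖ ^ 2 / kap G u x) ^ n / (u x ^ n * (2 * kap G u x) ^ k)) n (finrank_H G)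
    (finrank_V G) hn (by positivity) (by positivity)
    (fun a b => by
      simp only [_root_.smul_apply, Mq_apply, inner_add_left, inner_add_right,
        real_inner_smul_left, real_inner_smul_right, real_inner_comm a (la G u x)]
      ring)
    (fun a ha => by
      simp only [_root_.smul_apply, Mq_apply, inner_add_left, real_inner_smul_left,
        real_inner_self_eq_norm_sq]
      have h1 : 0 < ‖a‖ ^ 2 := pow_pos (norm_pos_iff.2 ha) 2
      have h2 : 0 ≤ ⟪la G u x, a⟫_ℝ / (16 * kap G u x ^ 3) * ⟪la G u x, a⟫_ℝ := by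
        rw [div_mul_eq_mul_div]; exact div_nonneg (mul_self_nonneg _) (by positivity)
      positivity)
    (fun v v' => by
      have := hs.lagr hx' v v'
      simp only [_root_.smul_apply, real_inner_smul_left]
      field_simp
      linear_combination this)
    (fun ε hε => by
      obtain ⟨w, hw, rfl⟩ : ∃ w : ℝ, 0 < w ∧ ε = w⁻¹ ^ 2 :=
        ⟨(√ε)⁻¹, by positivity, by rw [inv_inv, Real.sq_sqrt hε.le]⟩
      have h4 := hd w hw
      let T : H →L[ℝ] V := (-(1 / (2 * kap G u x * w ^ 2) / (4 * kap G u x))) •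
        (innerSL ℝ (w • fa G u x - w⁻¹ • fb G u x)).smulRight (la G u x)
      let L : H × V →L[ℝ] H × V := (w⁻¹ • ContinuousLinearMap.fst ℝ H V).prod
        ((1 / (2 * kap G u x * w ^ 2)) • ContinuousLinearMap.snd ℝ H V +
          T.comp (ContinuousLinearMap.fst ℝ H V))
      have h5 := det_shear G w⁻¹ (1 / (2 * kap G u x * w ^ 2)) T L fun v => rfl
      have h6 : (fderiv ℝ (fa G u) x + w⁻¹ ^ 2 • fderiv ℝ (fb G u) x).prod
          ((1 - (w⁻¹ ^ 2) ^ 2 * (‖fb G u x‖ ^ 2 / ‖fa G u x‖ ^ 2)) •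
            ((‖fa G u x‖ ^ 2 / (4 * kap G u x)) • Mq G u x).comp (fderiv ℝ (la G u) x) +
            w⁻¹ ^ 2 • (1 / (2 * kap G u x)) • sg G u x) = L.comp ((d1 G u).Pm x 0 w) := by
        refine ContinuousLinearMap.ext fun v => ?_
        rw [ContinuousLinearMap.comp_apply, hs.pm_apply hx' hw.ne']
        simp only [L, T, ContinuousLinearMap.prod_apply, _root_.add_apply, _root_.smul_apply,
          ContinuousLinearMap.comp_apply, ContinuousLinearMap.coe_fst', ContinuousLinearMap.coe_snd',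
          ContinuousLinearMap.smulRight_apply, innerSL_apply_apply]
        congr 1
        · match_scalars <;> field_simp
        · match_scalars <;> field_simp <;> ring
      have h7 : (L.comp ((d1 G u).Pm x 0 w)).det = L.det * ((d1 G u).Pm x 0 w).det :=
        LinearMap.det_comp _ _
      have h8 : u x + 8 * ⟪fa G u x, fb G u x⟫_ℝ * 0 + 2 / kap G u x *
          (‖fa G u x‖ ^ 2 * w ^ 2 - ‖fb G u x‖ ^ 2 * w⁻¹ ^ 2 - (‖fa G u x‖ ^ 2 - ‖fb G u x‖ ^ 2)) =
          2 * ‖fa G u x‖ ^ 2 / kap G u x * w ^ 2 *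
            (1 + kap G u x * u0 G u x / (2 * ‖fa G u x‖ ^ 2) * w⁻¹ ^ 2 -
              ‖fb G u x‖ ^ 2 / ‖fa G u x‖ ^ 2 * (w⁻¹ ^ 2) ^ 2) := by
        simp only [u0]; field_simp; ring
      replace h4 : ((d1 G u).Pm x 0 w).det * u x ^ n = _ := h4.trans (congrArg (· ^ n) h8)
      rw [mul_pow, mul_pow, ← pow_mul w 2 n, hn, pow_add, pow_mul w 2 k] at h4
      rw [h6, h7, h5, eq_div_of_mul_eq (pow_pos hu n).ne' h4]
      generalize (1 + kap G u x * u0 G u x / (2 * ‖fa G u x‖ ^ 2) * w⁻¹ ^ 2 -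
        ‖fb G u x‖ ^ 2 / ‖fa G u x‖ ^ 2 * (w⁻¹ ^ 2) ^ 2) ^ n = z
      rw [one_div, inv_pow, inv_pow, mul_pow _ (w ^ 2)]
      field_simp)
  refine ⟨h1, fun v => ?_, h3⟩
  have h9 := congrArg (fun y => (2 * kap G u x) • y) (h2 v)
  simp only [_root_.smul_apply, smul_smul] at h9
  rw [mul_one_div_cancel (by positivity), one_smul] at h9
  rw [h9]
  congr 1
  field_simp

end Pool.Agent.MP_1048c2_an.Cl
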