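import Pool.Agent.MP_1048c2_an.Cl.Stmt

/-!
The degenerate case of the determinant identity.
-/

set_option linter.unusedSectionVars false

namespace Pool.Agent.MP_1048c2_an.Cl

open Filter Topology Set Module
open scoped InnerProductSpace

variable {m k : ℕ} {H V : Type} [NormedAddCommGroup H] [InnerProductSpace ℝ H] [NormedAddCommGroup V] [InnerProductSpace ℝ V] [FiniteDimensional ℝ H] [FiniteDimensional ℝ V]

theorem det_P2z (G : HeisenbergType m k H V) (u : H × V → ℝ) (x : H × V) {r : ℝ} (hr : r ≠ 0) :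
    ((d0 G u).Pm x 0 r⁻¹).det = r⁻¹ ^ m *
      ((fderiv ℝ (fa G u) x + r ^ 2 • fderiv ℝ (fb G u) x).prod
        (ContinuousLinearMap.snd ℝ H V)).det := by
  have h1 := det_shear G r⁻¹ 1 0 ((r⁻¹ • ContinuousLinearMap.fst ℝ H V).prod
    (ContinuousLinearMap.snd ℝ H V)) (fun v => by simp)
  have h2 : (d0 G u).Pm x 0 r⁻¹ = ((r⁻¹ • ContinuousLinearMap.fst ℝ H V).prod
      (ContinuousLinearMap.snd ℝ H V)).comp
      ((fderiv ℝ (fa G u) x + r ^ 2 • fderiv ℝ (fb G u) x).prod
        (ContinuousLinearMap.snd ℝ H V)) := by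
    refine ContinuousLinearMap.ext fun v => ?_
    have h3 : fderiv ℝ (fun y : H × V => y.2) x = ContinuousLinearMap.snd ℝ H V := fderiv_snd
    simp only [Sd.Pm, d0, h3, zero_smul, add_zero, mul_zero, sub_zero, fderiv_fun_const,
      Pi.zero_apply, smul_zero, inv_inv, ContinuousLinearMap.prod_apply, add_apply, smul_apply,
      ContinuousLinearMap.comp_apply, ContinuousLinearMap.coe_fst', ContinuousLinearMap.coe_snd',
      Prod.mk.injEq, and_true]
    match_scalars <;> field_simp
  rw [one_pow, mul_one] at h1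
  rw [h2, ← h1]
  exact LinearMap.det_comp _ _

theorem p2z_st (G : HeisenbergType m k H V) : P2zSt G := by
  intro W u n hk hn x _ _ h
  set A := ‖fa G u x‖ ^ 2 with hA
  set B := ‖fb G u x‖ ^ 2 with hB
  let f : ℝ → ℝ := fun r => ((fderiv ℝ (fa G u) x + r ^ 2 • fderiv ℝ (fb G u) x).prod
    (ContinuousLinearMap.snd ℝ H V)).det * u x ^ n * r ^ (2 * k)
  let g : ℝ → ℝ := fun r => (A + r ^ 2 * (u x - B * r ^ 2 - (A - B))) ^ n
  have hf : Continuous f := by
    have h1 : Continuous fun r : ℝ => (fderiv ℝ (fa G u) x + r ^ 2 • fderiv ℝ (fb G u) x).prod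
        (ContinuousLinearMap.snd ℝ H V) := by
      have h2 : Continuous fun r : ℝ =>
          (fderiv ℝ (fa G u) x + r ^ 2 • fderiv ℝ (fb G u) x, ContinuousLinearMap.snd ℝ H V) := by
        fun_prop
      exact (ContinuousLinearMap.prodL ℝ).continuous.comp h2
    exact ((ContinuousLinearMap.continuous_det.comp h1).mul continuous_const).mul
      (continuous_pow _)
  have hg : Continuous g := by fun_prop
  have he : EqOn f g (Ioi 0) := by
    intro r hr
    have hr' : r ≠ 0 := ne_of_gt hr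
    have h1 := h r⁻¹ (inv_pos.2 hr)
    rw [DetId, det_P2z G u x hr'] at h1
    simp only [d0, mul_zero, add_zero, inv_inv, ← hA, ← hB] at h1
    have h2 : g r = (r ^ 2) ^ n * (u x + 2 / 2 * (A * r⁻¹ ^ 2 - B * r ^ 2 - (A - B))) ^ n := by
      rw [← mul_pow]
      refine congrArg (· ^ n) ?_
      field_simp
      ring
    rw [h2, ← h1, ← pow_mul, hn, pow_add]
    have h3 : r ^ m * r⁻¹ ^ m = 1 := by rw [← mul_pow, mul_inv_cancel₀ hr', one_pow]
    simp only [f]
    linear_combination (-(((fderiv ℝ (fa G u) x + r ^ 2 • fderiv ℝ (fb G u) x).prod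
      (ContinuousLinearMap.snd ℝ H V)).det * u x ^ n * r ^ (2 * k))) * h3
  have h0 : f 0 = g 0 := he.closure hf hg (by rw [closure_Ioi]; exact self_mem_Ici)
  have h4 : A ^ n = 0 := by
    have : (0 : ℝ) ^ (2 * k) = 0 := zero_pow (by omega)
    simpa [f, g, this] using h0.symm
  have h5 : A = 0 := pow_eq_zero_iff (by omega) |>.1 h4
  exact norm_eq_zero.1 (pow_eq_zero_iff two_ne_zero |>.1 h5)

end Pool.Agent.MP_1048c2_an.Cl
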