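import Pool.Agent.MP_1048c2_an.Cl.Stmt

/-!
Independence of time and exponential.
-/

set_option linter.unusedSectionVars false

namespace Pool.Agent.MP_1048c2_an.Cl

open Filter Topology Set Module
open scoped InnerProductSpace

theorem rep_Poly {F : ℝ × ℝ → ℝ} (hF : F ∈ LP) :
    ∃ (P : Polynomial (Polynomial ℝ)) (d : ℕ), ∀ t w, w ≠ 0 →
      F (t, w) * w ^ d = P.evalEval t w := by
  induction hF using Algebra.adjoin_induction with
  | mem f hf =>
    rcases hf with rfl | rfl | rfl
    · exact ⟨Polynomial.C Polynomial.X, 0, fun t w _ => by simp [Polynomial.evalEval_C]⟩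
    · exact ⟨Polynomial.X, 0, fun t w _ => by simp⟩
    · exact ⟨1, 1, fun t w hw => by simp [hw]⟩
  | algebraMap c => exact ⟨Polynomial.C (Polynomial.C c), 0, fun t w _ => by simp⟩
  | add f g _ _ hf hg =>
    obtain ⟨P, d, h1⟩ := hf
    obtain ⟨Q, e, h2⟩ := hg
    refine ⟨P * Polynomial.X ^ e + Q * Polynomial.X ^ d, d + e, fun t w hw => ?_⟩
    simp only [Polynomial.evalEval_add, Polynomial.evalEval_mul, Polynomial.evalEval_pow,
      Polynomial.evalEval_X, ← h1 t w hw, ← h2 t w hw, Pi.add_apply]
    ring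
  | mul f g _ _ hf hg =>
    obtain ⟨P, d, h1⟩ := hf
    obtain ⟨Q, e, h2⟩ := hg
    refine ⟨P * Q, d + e, fun t w hw => ?_⟩
    simp only [Polynomial.evalEval_mul, ← h1 t w hw, ← h2 t w hw, Pi.mul_apply]
    ring

theorem geo_Poly (a : Polynomial ℝ) (h r : ℝ) (hr : |r| < 1) :
    Tendsto (fun n : ℕ => a.eval (n * h) * r ^ n) atTop (𝓝 0) := by
  induction a using Polynomial.induction_on' with
  | add a b ha hb => simpa [add_mul] using ha.add hb
  | monomial j c =>
    have := (tendsto_pow_const_mul_const_pow_of_abs_lt_one j hr).const_mul (c * h ^ j)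
    rw [mul_zero] at this
    refine this.congr fun n => ?_
    simp only [Polynomial.eval_monomial, mul_pow]
    ring

theorem zero_Poly (a : Polynomial ℝ) (h : ℝ) (hh : 0 < h)
    (ha : Tendsto (fun n : ℕ => a.eval (n * h)) atTop (𝓝 0)) : a = 0 := by
  rcases lt_or_ge 0 a.degree with h1 | h1
  · have h2 := (Polynomial.abs_tendsto_atTop a h1).comp
      ((tendsto_natCast_atTop_atTop (R := ℝ)).atTop_mul_const hh)
    exact absurd ha.abs (not_tendsto_nhds_of_tendsto_atTop h2 _)
  · rw [Polynomial.eq_C_of_degree_le_zero h1] at ha ⊢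
    simp only [Polynomial.eval_C, tendsto_const_nhds_iff] at ha
    rw [ha, map_zero]

theorem poly_st : PolySt := by
  intro F h q hF hh hq h0 t w hw
  obtain ⟨P, d, hP⟩ := rep_Poly hF
  have hq0 : 0 < q := by linarith
  have h1 : P = 0 := by
    rw [← Polynomial.leadingCoeff_eq_zero]
    refine zero_Poly _ h hh ?_
    have h2 : Tendsto (fun n : ℕ => -∑ i ∈ Finset.range P.natDegree,
        (P.coeff i).eval (n * h) * (q⁻¹ ^ (P.natDegree - i)) ^ n) atTop (𝓝 (-0)) := by
      refine Tendsto.neg ?_
      have := tendsto_finsetSum (Finset.range P.natDegree) fun i hi =>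
        geo_Poly (P.coeff i) h (q⁻¹ ^ (P.natDegree - i)) (by
          rw [abs_of_pos (by positivity)]
          exact pow_lt_one₀ (by positivity) (inv_lt_one_of_one_lt₀ hq)
            (by have := Finset.mem_range.1 hi; omega))
      simpa using this
    rw [neg_zero] at h2
    refine h2.congr fun n => ?_
    have h3 := hP (n * h) (q ^ n) (by positivity)
    rw [h0 n, zero_mul, Polynomial.evalEval,
      Polynomial.eval_eq_sum_range (p := P), Finset.sum_range_succ,
      Polynomial.eval_add, Polynomial.eval_finsetSum] at h3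
    simp only [Polynomial.eval_mul, Polynomial.eval_pow, Polynomial.eval_C] at h3
    have h4 : (0 : ℝ) < (q ^ n) ^ P.natDegree := by positivity
    refine mul_right_cancel₀ h4.ne' ?_
    rw [Polynomial.leadingCoeff, ← neg_eq_of_add_eq_zero_right h3.symm, neg_mul, Finset.sum_mul]
    congr 1
    refine Finset.sum_congr rfl fun i hi => ?_
    obtain ⟨j, hj⟩ := Nat.exists_eq_add_of_le (Finset.mem_range.1 hi).le
    rw [hj, Nat.add_sub_cancel_left, pow_add, ← pow_mul q⁻¹, mul_comm j n, pow_mul, inv_pow,
      inv_pow]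
    field_simp
  have h2 := hP t w hw
  rw [h1, Polynomial.evalEval_zero] at h2
  exact (mul_eq_zero.1 h2).resolve_right (pow_ne_zero _ hw)

end Pool.Agent.MP_1048c2_an.Cl
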