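import Pool.Agent.MP_1048c2_an.Cl.RStmt

/-!
Approximate identities.
-/

set_option linter.unusedSectionVars false

namespace Pool.Agent.MP_1048c2_an.Cl

open Filter Topology Set Module MeasureTheory Metric
open scoped InnerProductSpace ContDiff

variable {m k : ℕ} {H V : Type} [NormedAddCommGroup H] [InnerProductSpace ℝ H]
  [NormedAddCommGroup V] [InnerProductSpace ℝ V] [FiniteDimensional ℝ H] [FiniteDimensional ℝ V]
  [MeasurableSpace H] [BorelSpace H] [MeasurableSpace V] [BorelSpace V]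

theorem bound_RAi {P Θ : H × V → ℝ} {M ε r : ℝ} (hP : Integrable P) (h0 : ∀ y, 0 ≤ P y)
    (hΘ : MemLp Θ ⊤ volume) (hM : ∀ᵐ x, |Θ x| ≤ M) (hε : 0 ≤ ε)
    (hr : ∀ y ∈ ball (0 : H × V) r, |Θ y - Θ 0| ≤ ε) :
    |(∫ y, Θ y * P y) - (∫ y, P y) * Θ 0| ≤
      ε * (∫ y, P y) + (M + |Θ 0|) * ∫ y in (ball 0 r)ᶜ, P y := by
  have hm : MeasurableSet (ball (0 : H × V) r)ᶜ := measurableSet_ball.compl
  have h1 : Integrable fun y => Θ y * P y :=
    hP.bdd_mul (c := M) hΘ.1 (hM.mono fun x hx => by simpa using hx)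
  have h2 : Integrable ((ball (0 : H × V) r)ᶜ.indicator P) := hP.indicator hm
  rw [← integral_mul_const, ← integral_sub h1 (hP.mul_const _), ← integral_indicator hm,
    ← integral_const_mul, ← integral_const_mul, ← integral_add (hP.const_mul _) (h2.const_mul _)]
  refine (abs_integral_le_integral_abs).trans (integral_mono_ae (h1.sub (hP.mul_const _)).abs
    ((hP.const_mul _).add (h2.const_mul _)) ?_)
  filter_upwards [hM] with y hy
  have h3 : |Θ y * P y - P y * Θ 0| = |Θ y - Θ 0| * P y := by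
    rw [← abs_of_nonneg (h0 y), ← abs_mul, abs_of_nonneg (h0 y)]
    congr 1
    ring
  rw [h3]
  by_cases hb : y ∈ ball (0 : H × V) r
  · rw [indicator_of_notMem (by simpa using hb), mul_zero, add_zero]
    exact mul_le_mul_of_nonneg_right (hr y hb) (h0 y)
  · rw [indicator_of_mem (by simpa using hb)]
    have h4 : |Θ y - Θ 0| ≤ M + |Θ 0| := (abs_sub _ _).trans (by linarith)
    have h5 := mul_le_mul_of_nonneg_right h4 (h0 y)
    have h6 := mul_nonneg hε (h0 y)
    linarith

theorem ai_st : AISt H V := by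
  intro P c Θ hP h0 hc hr hΘ hcont
  obtain ⟨M, -, hM⟩ := bound_of_memLp hΘ
  have hD : Tendsto (fun n => (∫ y, Θ y * P n y) - (∫ y, P n y) * Θ 0) atTop (𝓝 0) := by
    refine Metric.tendsto_nhds.2 fun η hη => ?_
    have hc1 : 0 < |c| + 1 := by positivity
    have hε : 0 < η / (|c| + 1) := div_pos hη hc1
    obtain ⟨r, hr0, hr1⟩ := Metric.continuousAt_iff.1 hcont _ hε
    have hb := (hc.const_mul (η / (|c| + 1))).add ((hr r hr0).const_mul (M + |Θ 0|))
    have hlt : η / (|c| + 1) * c + (M + |Θ 0|) * 0 < η := by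
      rw [mul_zero, add_zero, div_mul_eq_mul_div, div_lt_iff₀ hc1]
      exact mul_lt_mul_of_pos_left (by linarith [le_abs_self c]) hη
    filter_upwards [hb.eventually (gt_mem_nhds hlt)] with n hn
    rw [Real.dist_eq, sub_zero]
    refine (bound_RAi (hP n) (h0 n) hΘ hM hε.le fun y hy => ?_).trans_lt hn
    have := hr1 (mem_ball.1 hy)
    rw [Real.dist_eq] at this
    exact this.le
  have := hD.add (hc.mul_const (Θ 0))
  simpa using this

end Pool.Agent.MP_1048c2_an.Cl
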