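import Pool.Agent.MP_1048c2_an.Cl.RStmt

/-! The bootstrap argument. -/

set_option linter.unusedSectionVars false

namespace Pool.Agent.MP_1048c2_an.Cl

open Filter Topology Set Module MeasureTheory Metric
open scoped InnerProductSpace ContDiff

variable {m k : ℕ} {H V : Type} [NormedAddCommGroup H] [InnerProductSpace ℝ H]
  [NormedAddCommGroup V] [InnerProductSpace ℝ V] [FiniteDimensional ℝ H] [FiniteDimensional ℝ V]
  [MeasurableSpace H] [BorelSpace H] [MeasurableSpace V] [BorelSpace V]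

theorem cv_congr_RBoot (G : HeisenbergType m k H V) {W : Set (H × V)} {u u' κ : H × V → ℝ} {δ : ℝ}
    {x : H × V} (h1 : EqOn u u' W) (h2 : Kr δ κ)
    (h3 : ∀ y ∈ closedBall (0 : H × V) δ, gm G x y ∈ W) : cv G u κ x = cv G u' κ x := by
  rw [cv_eq, cv_eq]
  refine integral_congr_ae (Eventually.of_forall fun y => ?_)
  by_cases hy : y ∈ closedBall (0 : H × V) δ
  · simp only [h1 (h3 y hy)]
  · simp only [h2.2 y hy, mul_zero]

theorem rep_RBoot (G : HeisenbergType m k H V) (hR : RepSt G) {W : Set (H × V)}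
    {w u : H × V → ℝ} {γ γ' : Fin m → H × V → ℝ} {x₀ : H × V} (hk : 0 < k) (hW : IsOpen W)
    (hx : x₀ ∈ W) (hw : ContinuousOn w W) (hu : LB W u) (hγ : ∀ i, LB W (γ i))
    (hγ' : ∀ i, LB W (γ' i)) (h1 : ∀ i, WD G W (G.e i) w (γ i))
    (h2 : ∀ i, WD G W (G.e i) u (γ' i))
    (h3 : ∀ ψ, Tst W ψ → ∫ x, w x * Lap G ψ x = ∫ x, u x * ψ x) :
    ∃ (δ c : ℝ) (a a' b b' : Fin m → H × V → ℝ), 0 < δ ∧ c ≠ 0 ∧
      (∀ i, Kr δ (a i) ∧ Kr δ (a' i) ∧ Kr δ (b i) ∧ Kr δ (b' i)) ∧
      (∀ x ∈ ball x₀ δ, ∀ y ∈ closedBall (0 : H × V) δ, gm G x y ∈ W) ∧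
      ContDiffOn ℝ 1 w (ball x₀ δ) ∧ ∀ x ∈ ball x₀ δ,
        (∀ i, c * XL G (G.e i) w x = cv G u (a' i) x - cv G w (a i) x) ∧
        ∀ i j, c * fderiv ℝ w x (0, BL G (G.e i) (G.e j)) =
          cv G (γ i) (b j) x - cv G (γ j) (b i) x - cv G (γ' i) (b' j) x +
            cv G (γ' j) (b' i) x := by
  obtain ⟨C, hC, c1, c2⟩ := exists_compact_subset hW hx
  have s1 : interior C ⊆ W := interior_subset.trans c2
  have e : ∀ g : H × V → ℝ, EqOn g (C.indicator g) (interior C) := fun g x hx =>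
    (indicator_of_mem (interior_subset hx) g).symm
  obtain ⟨δ, c, a, a', b, b', d1, d2, d3, d4, d5, d6⟩ := hR (interior C) (C.indicator w)
    (C.indicator u) (fun i => C.indicator (γ i)) (fun i => C.indicator (γ' i)) x₀ hk
    isOpen_interior c1 ((LB.of_cont hW hw).memLp hC c2) (hu.memLp hC c2)
    (fun i => (hγ i).memLp hC c2) (fun i => (hγ' i).memLp hC c2) ((hw.mono s1).congr (e w).symm)
    (fun i => (h1 i).congr s1 (e _) (e _)) (fun i => (h2 i).congr s1 (e _) (e _)) fun ψ hψ => by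
      rw [← integral_congr_tst hψ.2.2 (e u), ← h3 ψ (hψ.mono s1)]
      have h4 : Function.support (Lap G ψ) ⊆ tsupport ψ := fun x hx => by_contra fun h =>
        hx (Finset.sum_eq_zero fun i _ => XL_of_notMem G fun h' => h (tsupport_XL G _ _ h'))
      exact (integral_congr_tst ((closure_minimal h4 (isClosed_tsupport ψ)).trans hψ.2.2)
        (e w)).symm
  have s2 : ball x₀ δ ⊆ interior C := fun x hx => by
    simpa [gm_zero] using d4 x hx 0 (mem_closedBall_self d1.le)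
  refine ⟨δ, c, a, a', b, b', d1, d2, d3, fun x hx y hy => s1 (d4 x hx y hy),
    d5.congr ((e w).mono s2), fun x hx => ?_⟩
  have h4 : w =ᶠ[𝓝 x] C.indicator w := (e w).eventuallyEq_of_mem (isOpen_interior.mem_nhds (s2 hx))
  have h5 := fun g κ (hκ : Kr δ κ) => cv_congr_RBoot G (e g) hκ (d4 x hx)
  refine ⟨fun i => ?_, fun i j => ?_⟩
  · rw [XL_congr G h4, (d6 x hx).1, h5 u _ (d3 i).2.1, h5 w _ (d3 i).1]
  · rw [h4.fderiv_eq, (d6 x hx).2, h5 (γ i) _ (d3 j).2.2.1, h5 (γ j) _ (d3 i).2.2.1,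
      h5 (γ' i) _ (d3 j).2.2.2, h5 (γ' j) _ (d3 i).2.2.2]

theorem boot_st (G : HeisenbergType m k H V) (hR : RepSt G) (hS : SmoSt G) (hP : ProdSt G)
    (hI : IbpSt G) : BootSt G := by
  intro W w q γ hk hW hq hw hγ hd he
  have lw := LB.of_cont hW hw
  have lq := LB.of_cont hW hq.continuousOn
  have sq : ∀ i, ContDiffOn ℝ ∞ (XL G (G.e i) q) W := fun i => contDiffOn_XL G _ hW hq (by simp)
  have rep := fun (γ : Fin m → H × V → ℝ) (hγ : ∀ i, LB W (γ i))
      (hd : ∀ i, WD G W (G.e i) w (γ i)) (x : H × V) (hx : x ∈ W) =>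
    rep_RBoot G hR hk hW hx hw (lq.mul lw) hγ
      (fun i => (lq.mul (hγ i)).add ((LB.of_cont hW (sq i).continuousOn).mul lw)) hd
      (fun i => hP W _ w _ q hW hq (lw.loc hW) ((hγ i).loc hW) (hd i)) he
  have c1 : ContDiffOn ℝ 1 w W := fun x hx => by
    obtain ⟨δ, c, a, a', b, b', d1, -, -, -, d5, -⟩ := rep γ hγ hd x hx
    exact (d5.contDiffAt (ball_mem_nhds x d1)).contDiffWithinAt
  have rep' := rep (fun i => XL G (G.e i) w)
    (fun i => LB.of_cont hW (contDiffOn_XL G _ hW c1 (n := 0) (by simp)).continuousOn)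
    fun i => hI W _ w hW c1
  intro j
  induction j with
  | zero => exact c1.of_le (by simp)
  | succ j ih =>
    have q1 : ContDiffOn ℝ j q W := hq.of_le (by exact_mod_cast le_top)
    have q2 : ∀ i, ContDiffOn ℝ j (XL G (G.e i) q) W := fun i =>
      (sq i).of_le (by exact_mod_cast le_top)
    have s1 : ∀ i, ContDiffOn ℝ j (XL G (G.e i) w) W := fun i x hx => by
      obtain ⟨δ, c, a, a', b, b', d1, d2, d3, d4, -, d6⟩ := rep' x hx
      have h1 := d4 x (mem_ball_self d1)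
      refine (ContDiffAt.congr_of_eventuallyEq (((hS W _ _ j δ x hW (q1.mul ih) (d3 i).2.1 h1).sub
        (hS W _ _ j δ x hW ih (d3 i).1 h1)).div_const c) ?_).contDiffWithinAt
      filter_upwards [ball_mem_nhds x d1] with y hy
      rw [← (d6 y hy).1, mul_div_cancel_left₀ _ d2]
    have s2 : ∀ i i', ContDiffOn ℝ j (fun x => fderiv ℝ w x (0, BL G (G.e i) (G.e i'))) W :=
      fun i i' x hx => by
        obtain ⟨δ, c, a, a', b, b', d1, d2, d3, d4, -, d6⟩ := rep' x hx
        have h1 := d4 x (mem_ball_self d1)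
        have h2 := fun i => (q1.mul (s1 i)).add ((q2 i).mul ih)
        refine (ContDiffAt.congr_of_eventuallyEq (((((hS W _ _ j δ x hW (s1 i) (d3 i').2.2.1 h1).sub
          (hS W _ _ j δ x hW (s1 i') (d3 i).2.2.1 h1)).sub
          (hS W _ _ j δ x hW (h2 i) (d3 i').2.2.2 h1)).add
          (hS W _ _ j δ x hW (h2 i') (d3 i).2.2.2 h1)).div_const c) ?_).contDiffWithinAt
        filter_upwards [ball_mem_nhds x d1] with y hy
        rw [← (d6 y hy).2, mul_div_cancel_left₀ _ d2]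
    rw [Nat.cast_succ, contDiffOn_succ_iff_fderiv_of_isOpen hW]
    refine ⟨c1.differentiableOn one_ne_zero, by simp, contDiffOn_clm_apply.2 fun v => ?_⟩
    refine ContDiffOn.congr ?_ fun x _ => frame G hk (fderiv ℝ w x) x.1 v
    exact (ContDiffOn.sum fun i _ => contDiffOn_const.mul (s1 i)).add
      (ContDiffOn.sum fun i _ => ContDiffOn.sum fun i' _ =>
        (((contDiffOn_J G (contDiffOn_const.sub ((contDiffOn_B G contDiffOn_fst
          contDiffOn_const).const_smul _)) contDiffOn_const).inner ℝ contDiffOn_const).div_const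
            _).mul (s2 i i'))

end Pool.Agent.MP_1048c2_an.Cl
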