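import Pool.Agent.MP_1048c2_an.Cl.RStmt
set_option linter.unusedSectionVars false
namespace Pool.Agent.MP_1048c2_an.Cl
open Filter Topology Set Module MeasureTheory Metric
open scoped InnerProductSpace ContDiff
variable {m k : ℕ} {H V : Type} [NormedAddCommGroup H] [InnerProductSpace ℝ H] [NormedAddCommGroup V] [InnerProductSpace ℝ V] [FiniteDimensional ℝ H] [FiniteDimensional ℝ V] [MeasurableSpace H] [BorelSpace H] [MeasurableSpace V] [BorelSpace V]

theorem bridge_st (G : HeisenbergType m k H V) (hI : IbpSt G) : BridgeSt G := by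
  intro p Ω f hp hf
  obtain ⟨⟨h1, h2⟩, h3, h4, h5, h6⟩ := hf
  have hU : IsOpen (closure Ω)ᶜ := isClosed_closure.isOpen_compl
  have hX : ∀ (i : Fin m) (u : H × V → ℝ), X G i u = XL G (G.e i) u := fun i u =>
    congrFun (X_eq G i) u
  have hc : ∀ i, ContinuousOn (X G i f) (closure Ω)ᶜ := fun i => by
    rw [hX]
    exact (contDiffOn_XL G (G.e i) hU h1 (n := 0) (by simp)).continuousOn
  refine ⟨fun i => ⟨(hc i).locallyIntegrableOn hU.measurableSet,
    ((hc i).abs.rpow_const fun x _ => Or.inr hp).locallyIntegrableOn hU.measurableSet⟩,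
    fun φ hφ => ⟨fun i => ?_, ?_⟩, h3, h4, h5, h6⟩
  · have := hI _ (G.e i) f hU h1 φ (tst_iff.2 hφ)
    simpa only [hX] using this
  · have h7 := (h2 φ (hφ.1 1) hφ.2.1 hφ.2.2).2
    rw [setIntegral_eq_integral_of_forall_compl_eq_zero fun x hx => ?_] at h7
    · exact h7
    · have : ∀ i, X G i φ x = 0 := fun i => by
        rw [hX]
        exact XL_of_notMem G fun h => hx (hφ.2.2 h)
      simp [this]

end Pool.Agent.MP_1048c2_an.Cl
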