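import Pool.Agent.MP_1048c2_an.Cl.RStmt

/-!
The chain rule for weak derivatives.
-/

set_option linter.unusedSectionVars false

namespace Pool.Agent.MP_1048c2_an.Cl

open Filter Topology Set Module MeasureTheory Metric
open scoped InnerProductSpace ContDiff

variable {m k : ℕ} {H V : Type} [NormedAddCommGroup H] [InnerProductSpace ℝ H] [NormedAddCommGroup V] [InnerProductSpace ℝ V] [FiniteDimensional ℝ H] [FiniteDimensional ℝ V] [MeasurableSpace H] [BorelSpace H] [MeasurableSpace V] [BorelSpace V]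

theorem cont_RChain {a ψ : H × V → ℝ} (hψ : Continuous ψ)
    (ha : ∀ x ∈ tsupport ψ, ContinuousAt a x) : Continuous fun x => a x * ψ x := by
  refine continuous_iff_continuousAt.2 fun x => ?_
  by_cases hx : x ∈ tsupport ψ
  · exact (ha x hx).mul hψ.continuousAt
  · refine (continuousAt_const (y := (0 : ℝ))).congr ?_
    filter_upwards [notMem_tsupport_iff_eventuallyEq.1 hx] with y hy
    simp [hy]

theorem dct_RChain {A : ℕ → H × V → ℝ} {A' ψ : H × V → ℝ} {B : ℝ} (hψ : Continuous ψ)
    (hc : HasCompactSupport ψ) (hA : ∀ n, ∀ x ∈ tsupport ψ, ContinuousAt (A n) x ∧ |A n x| ≤ B)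
    (hl : ∀ x ∈ tsupport ψ, Tendsto (fun n => A n x) atTop (𝓝 (A' x))) :
    Tendsto (fun n => ∫ x, A n x * ψ x) atTop (𝓝 (∫ x, A' x * ψ x)) := by
  refine tendsto_integral_of_dominated_convergence (fun x => B * ‖ψ x‖)
    (fun n => (cont_RChain hψ fun x hx => (hA n x hx).1).aestronglyMeasurable)
    ((hψ.integrable_of_hasCompactSupport hc).norm.const_mul B)
    (fun n => Eventually.of_forall fun x => ?_) (Eventually.of_forall fun x => ?_)
  · by_cases hx : x ∈ tsupport ψ
    · rw [norm_mul]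
      exact mul_le_mul_of_nonneg_right (hA n x hx).2 (norm_nonneg _)
    · simp [image_eq_zero_of_notMem_tsupport hx]
  · by_cases hx : x ∈ tsupport ψ
    · exact (hl x hx).mul_const _
    · simp [image_eq_zero_of_notMem_tsupport hx]

theorem bnd_RChain {a : ℝ} (ha : 0 < a) (a' b : ℝ) : ∃ B, ∀ t ∈ Icc a a', |t ^ b| ≤ B :=
  isCompact_Icc.exists_bound_of_continuousOn (f := fun t : ℝ => t ^ b)
    (continuousOn_id.rpow_const fun _ ht => Or.inl (ha.trans_le ht.1).ne')

theorem chain_st (G : HeisenbergType m k H V) (hI : IbpSt G) (hM : MolSt G) : ChainSt G := by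
  classical
  intro W h f g b hW hf hpos hg hD φ hφ
  obtain ⟨C, hC, hKC, hCW⟩ := exists_compact_between hφ.2.1 hW hφ.2.2
  have hS : IsCompact (insert 1 (f '' C)) := (hC.image_of_continuousOn (hf.mono hCW)).insert 1
  obtain ⟨a, ha1, ha2⟩ := hS.exists_isLeast (insert_nonempty _ _)
  obtain ⟨a', -, ha3⟩ := hS.exists_isGreatest (insert_nonempty _ _)
  have ha : 0 < a := by
    rcases ha1 with rfl | ⟨x, hx, rfl⟩
    · exact one_pos
    · exact hpos x (hCW hx)
  have hf' : ∀ y, C.piecewise f (fun _ => 1) y ∈ Icc a a' := fun y => by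
    have : C.piecewise f (fun _ => 1) y ∈ insert 1 (f '' C) := by
      by_cases hy : y ∈ C
      · rw [piecewise_eq_of_mem _ _ _ hy]; exact Or.inr ⟨y, hy, rfl⟩
      · rw [piecewise_eq_of_notMem _ _ _ hy]; exact Or.inl rfl
    exact ⟨ha2 this, ha3 this⟩
  have e1 : EqOn f (C.piecewise f fun _ => 1) (interior C) := fun y hy =>
    (piecewise_eq_of_mem _ _ _ (interior_subset hy)).symm
  have e2 : EqOn g (C.indicator g) (interior C) := fun y hy =>
    (indicator_of_mem (interior_subset hy) g).symm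
  have hg' := hg.memLp hC hCW
  obtain ⟨M, -, hM'⟩ := bound_of_memLp hg'
  obtain ⟨F, F1, F2, F3, F4, F5⟩ := hM (interior C) (tsupport φ) h _ _ a a' M isOpen_interior
    hφ.2.1 hKC ((hf.mono (interior_subset.trans hCW)).congr e1.symm)
    (AEStronglyMeasurable.piecewise hC.measurableSet
      ((hf.mono hCW).aestronglyMeasurable hC.measurableSet) aestronglyMeasurable_const)
    hg'.1 hf' hM' (hD.congr (interior_subset.trans hCW) e1 e2)
  have F0 : ∀ n x, F n x ≠ 0 := fun n x => (ha.trans_le (F2 n x).1).ne'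
  have F6 : ∀ c : ℝ, ∀ x ∈ tsupport φ, Tendsto (fun n => F n x ^ c) atTop (𝓝 (f x ^ c)) :=
    fun c x hx => (e1 (hKC hx) ▸ F3 x hx :).rpow_const (Or.inl (hpos x (hφ.2.2 hx)).ne')
  have F7 : ∀ (c : ℝ) n, Continuous fun x => F n x ^ c := fun c n =>
    (F1 n).continuous.rpow_const fun x => Or.inl (F0 n x)
  have F8 : ∀ n, Continuous (XL G h (F n)) := fun n => continuousOn_univ.1
    (contDiffOn_XL G h isOpen_univ (F1 n).contDiffOn (n := 0) (by simp)).continuousOn
  have f7 : ∀ x ∈ tsupport φ, ContinuousAt (fun x => f x ^ (b - 1)) x := fun x hx =>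
    (hf.continuousAt (hW.mem_nhds (hφ.2.2 hx))).rpow_const (Or.inl (hpos x (hφ.2.2 hx)).ne')
  obtain ⟨B, hB⟩ := bnd_RChain ha a' b
  obtain ⟨B', hB'⟩ := bnd_RChain ha a' (b - 1)
  have hφc := hφ.1.continuous
  have T1 := dct_RChain (A := fun n x => F n x ^ b) (A' := fun x => f x ^ b)
    (hφ.xl G h).1.continuous (hφ.xl G h).2.1
    (fun n x _ => ⟨(F7 b n).continuousAt, hB _ (F2 n x)⟩) fun x hx => F6 b x (tsupport_XL G h φ hx)
  have T2 := F5 (fun x => b * f x ^ (b - 1) * φ x)
    (cont_RChain hφc fun x hx => continuousAt_const.mul (f7 x hx))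
    fun x hx => by rw [image_eq_zero_of_notMem_tsupport hx, mul_zero]
  have c3 : ∀ n, ∀ x ∈ tsupport φ,
      ContinuousAt (fun x => b * (F n x ^ (b - 1) - f x ^ (b - 1)) * XL G h (F n) x) x :=
    fun n x hx => (continuousAt_const.mul ((F7 _ n).continuousAt.sub (f7 x hx))).mul
      (F8 n).continuousAt
  have T3 := dct_RChain (A := fun n x => b * (F n x ^ (b - 1) - f x ^ (b - 1)) * XL G h (F n) x)
    (A' := fun _ => 0) (B := |b| * (B' + B') * M) hφc hφ.2.1
    (fun n x hx => ⟨c3 n x hx, by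
      have h1 := hB' _ (F2 n x)
      have h2 := hB' _ (e1 (hKC hx) ▸ hf' x : f x ∈ Icc a a')
      have h3 := (abs_sub _ _).trans (add_le_add h1 h2)
      rw [abs_mul, abs_mul]
      exact mul_le_mul (mul_le_mul_of_nonneg_left h3 (abs_nonneg _)) (F4 n x hx) (abs_nonneg _)
        (mul_nonneg (abs_nonneg _) ((abs_nonneg _).trans h3))⟩)
    fun x hx => by
      have h1 := ((((F6 (b - 1) x hx).sub_const (f x ^ (b - 1))).const_mul b).norm).mul_const M
      rw [sub_self, mul_zero, norm_zero, zero_mul] at h1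
      refine squeeze_zero_norm (fun n => ?_) h1
      rw [norm_mul]
      exact mul_le_mul_of_nonneg_left (F4 n x hx) (norm_nonneg _)
  have E : ∀ n, ∫ x, F n x ^ b * XL G h φ x =
      -((∫ x, XL G h (F n) x * (b * f x ^ (b - 1) * φ x)) +
        ∫ x, b * (F n x ^ (b - 1) - f x ^ (b - 1)) * XL G h (F n) x * φ x) := fun n => by
    rw [hI univ h (fun x => F n x ^ b) isOpen_univ
      ((F1 n).rpow_const_of_ne (F0 n)).contDiffOn φ (hφ.mono (subset_univ _)),
      ← integral_add _ (integrable_Weak hφc hφ.2.1 (c3 n))]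
    · refine congrArg Neg.neg (integral_congr_ae (Eventually.of_forall fun x => ?_))
      have h1 := (((F1 n).differentiable one_ne_zero x).hasFDerivAt.rpow_const (p := b)
        (Or.inl (F0 n x))).fderiv
      simp only [XL, h1, _root_.smul_apply, smul_eq_mul]
      ring
    · simp only [← mul_assoc]
      exact integrable_Weak hφc hφ.2.1 fun x hx =>
        ((F8 n).continuousAt.mul continuousAt_const).mul (f7 x hx)
  rw [tendsto_nhds_unique T1 (((T2.add T3).neg).congr fun n => (E n).symm)]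
  simp only [zero_mul, integral_zero, add_zero]
  refine congrArg Neg.neg (integral_congr_ae (Eventually.of_forall fun x => ?_))
  by_cases hx : x ∈ tsupport φ
  · simp only [← e2 (hKC hx)]
    ring
  · simp only [image_eq_zero_of_notMem_tsupport hx, mul_zero]

end Pool.Agent.MP_1048c2_an.Cl
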