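import Pool.Agent.MP_1048c2_an.Cl.RStmt
set_option linter.unusedSectionVars false
namespace Pool.Agent.MP_1048c2_an.Cl
open Filter Topology Set Module MeasureTheory Metric
open scoped InnerProductSpace ContDiff
variable {m k : ℕ} {H V : Type} [NormedAddCommGroup H] [InnerProductSpace ℝ H] [NormedAddCommGroup V] [InnerProductSpace ℝ V] [FiniteDimensional ℝ H] [FiniteDimensional ℝ V] [MeasurableSpace H] [BorelSpace H] [MeasurableSpace V] [BorelSpace V]

theorem cnv_st : CnvSt H V := by
  intro η s ε hV hs hε hε0 hη hint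
  haveI : Nontrivial (H × V) := inferInstance
  have hae : ∀ᵐ y : H × V, y ≠ 0 := by
    rw [ae_iff]
    simp
  have hN : Continuous (Nn : H × V → ℝ) := (contDiff_Nn (n := 0)).continuous
  have hc : ∀ n, Continuous fun y : H × V => η y * (Nn y + ε n) ^ (-s) := fun n =>
    hη.mul ((hN.add continuous_const).rpow_const fun y =>
      Or.inl (add_pos_of_nonneg_of_pos (Nn_nonneg y) (hε n)).ne')
  have hb : ∀ n, ∀ᵐ y : H × V, ‖η y * (Nn y + ε n) ^ (-s)‖ ≤ ‖η y * Nn y ^ (-s)‖ := fun n => by
    filter_upwards [hae] with y hy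
    have h0 := Nn_pos hy
    have h1 := hε n
    rw [norm_mul, norm_mul, Real.norm_of_nonneg (Real.rpow_nonneg (by positivity) _),
      Real.norm_of_nonneg (Real.rpow_nonneg h0.le _)]
    exact mul_le_mul_of_nonneg_left
      (Real.rpow_le_rpow_of_nonpos h0 (by linarith) (by linarith)) (norm_nonneg _)
  have hi : ∀ n, Integrable fun y : H × V => η y * (Nn y + ε n) ^ (-s) := fun n =>
    hint.norm.mono' (hc n).aestronglyMeasurable (hb n)
  refine ⟨hi, hint, ?_⟩
  have h := tendsto_integral_of_dominated_convergence (μ := (volume : Measure (H × V)))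
    (F := fun n y => |η y * (Nn y + ε n) ^ (-s) - η y * Nn y ^ (-s)|) (f := fun _ => (0 : ℝ))
    (fun y => 2 * ‖η y * Nn y ^ (-s)‖) (fun n => ((hi n).sub hint).abs.aestronglyMeasurable)
    (hint.norm.const_mul 2) (fun n => by
      filter_upwards [hb n] with y hy
      rw [Real.norm_eq_abs, abs_abs, ← Real.norm_eq_abs]
      exact (norm_sub_le _ _).trans (by linarith)) (by
      filter_upwards [hae] with y hy
      have h0 := Nn_pos hy
      have h1 : Tendsto (fun n => Nn y + ε n) atTop (𝓝 (Nn y)) := by
        simpa using hε0.const_add (Nn y)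
      have h2 := (((h1.rpow_const (p := -s) (Or.inl h0.ne')).const_mul (η y)).sub_const
        (η y * Nn y ^ (-s))).abs
      simpa using h2)
  simpa using h

end Pool.Agent.MP_1048c2_an.Cl
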