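import Pool.Agent.MP_1048c2_an.Cl.RStmt

set_option linter.unusedSectionVars false

namespace Pool.Agent.MP_1048c2_an.Cl

open Filter Topology Set Module MeasureTheory Metric
open scoped InnerProductSpace ContDiff

variable {m k : ℕ} {H V : Type} [NormedAddCommGroup H] [InnerProductSpace ℝ H]
  [NormedAddCommGroup V] [InnerProductSpace ℝ V] [FiniteDimensional ℝ H] [FiniteDimensional ℝ V]
  [MeasurableSpace H] [BorelSpace H] [MeasurableSpace V] [BorelSpace V]

theorem fderiv_RCv (G : HeisenbergType m k H V) {κ : H × V → ℝ} (hκ : ContDiff ℝ ∞ κ)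
    (x y v : H × V) :
    fderiv ℝ (fun p : (H × V) × H × V => κ (gm G (-p.1) p.2)) (x, y) (v, 0) =
      -fderiv ℝ κ (gm G (-x) y) (v.1, v.2 + (1 / 2 : ℝ) • BL G v.1 y.1) := by
  obtain ⟨L, h1, h2⟩ := hasFDerivAt_gm G (hasFDerivAt_fst (𝕜 := ℝ) (p := (x, y))).neg
    (hasFDerivAt_snd (𝕜 := ℝ) (p := (x, y)))
  have h3 := (((hκ.differentiable (by simp)) (gm G (-x) y)).hasFDerivAt.comp (x, y) h1).fderiv
  refine (congrArg (fun T : (H × V) × H × V →L[ℝ] ℝ => T (v, 0)) h3).trans ?_
  rw [ContinuousLinearMap.comp_apply, h2, ← map_neg]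
  congr 1
  simp [add_comm]

theorem cv_st (G : HeisenbergType m k H V) (hD : DiffSt H V) : CvSt G := by
  intro u κ δ hu hκ hs
  have hul : LocallyIntegrable u := hu.locallyIntegrable le_top
  have hΨ : ContDiff ℝ 1 fun p : (H × V) × H × V => κ (gm G (-p.1) p.2) :=
    (hκ.of_le (by simp)).comp (contDiff_gm G contDiff_fst.neg contDiff_snd)
  obtain ⟨h1, h2⟩ := hD u _ hul hΨ fun r => by
    have hc : IsCompact ((fun q : (H × V) × H × V => gm G q.1 q.2) ''
        (closedBall 0 r ×ˢ closedBall 0 δ)) :=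
      ((isCompact_closedBall _ _).prod (isCompact_closedBall _ _)).image
        (continuous_gm G continuous_fst continuous_snd)
    obtain ⟨R, hR⟩ := hc.isBounded.exists_norm_le
    refine ⟨R + 1, fun x y hx hy => ?_⟩
    by_contra h0
    have h3 := hR _ ⟨(x, gm G (-x) y), mk_mem_prod (mem_closedBall_zero_iff.2 hx)
      (hs (subset_tsupport _ h0)), gm_neg_gm G x y⟩
    linarith
  refine ⟨h1, fun x => ⟨fun h => ?_, fun h h' => ?_⟩⟩
  · refine (h2 x _).trans ?_
    rw [cv, ← integral_neg]
    refine integral_congr_ae (Eventually.of_forall fun y => ?_)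
    simp only [fderiv_RCv G hκ, YR, mul_neg]
    congr 4
    simp only [gm, Prod.fst_neg, map_add, map_neg, _root_.add_apply, _root_.neg_apply,
      BL_swap G h y.1]
    module
  · refine (h2 x _).trans ?_
    have hi : ∀ a b : H, Integrable fun y => u y * XL G a (XL G b κ) (gm G (-x) y) := fun a b =>
      (Tst.gm G (W := univ) (contDiff_XL G a (contDiff_XL G b hκ))
        ((tsupport_XL G a _).trans ((tsupport_XL G b κ).trans hs)) fun _ _ => mem_univ _).integrable
        (hul.locallyIntegrableOn univ)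
    rw [cv, cv, ← integral_sub (hi h' h) (hi h h')]
    refine integral_congr_ae (Eventually.of_forall fun y => ?_)
    have h3 := XL_comm G h h' (x := gm G (-x) y) (contDiff_infty.1 hκ 2).contDiffAt
    simp only [fderiv_RCv G hκ, map_zero, _root_.zero_apply, smul_zero, add_zero]
    rw [← h3]; ring

end Pool.Agent.MP_1048c2_an.Cl
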