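import Pool.Agent.MP_1048c2_an.Cl.RStmt
set_option linter.unusedSectionVars false
namespace Pool.Agent.MP_1048c2_an.Cl
open Filter Topology Set Module MeasureTheory Metric
open scoped InnerProductSpace ContDiff
variable {m k : ℕ} {H V : Type} [NormedAddCommGroup H] [InnerProductSpace ℝ H] [NormedAddCommGroup V] [InnerProductSpace ℝ V] [FiniteDimensional ℝ H] [FiniteDimensional ℝ V] [MeasurableSpace H] [BorelSpace H] [MeasurableSpace V] [BorelSpace V]

theorem int_RDer [Nontrivial V] {a b t δ : ℝ} {φ g : H × V → ℝ}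
    (hI : IntegrableOn (fun y : H × V => Nn y ^ (-a)) (closedBall 0 δ)) (hφ : Continuous φ)
    (h0 : ∀ y ∉ closedBall (0 : H × V) δ, φ y = 0) (hg : Continuous g)
    (hb : ∀ y, |φ y| ≤ g y * Nn y ^ b) (h : 0 ≤ b - t + a ∨ φ =ᶠ[𝓝 0] 0) :
    Integrable fun y => φ y * Nn y ^ (-t) := by
  have hN : Continuous (Nn : H × V → ℝ) := (contDiff_Nn (n := 0)).continuous
  rcases h with h | h
  · refine (integrableOn_iff_integrable_of_support_subset (s := closedBall 0 δ) fun y hy => ?_).1 ?_
    · by_contra hn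
      exact hy (by simp only [h0 y hn, zero_mul])
    · have h1 := hI.mul_continuousOn (hg.mul (hN.rpow_const fun _ => Or.inr h)).continuousOn
        (isCompact_closedBall _ _)
      refine h1.mono' (hφ.measurable.mul (hN.measurable.pow_const _)).aestronglyMeasurable ?_
      filter_upwards [ae_restrict_of_ae (Measure.ae_ne volume (0 : H × V))] with y hy
      have hp := Nn_pos hy
      rw [Real.norm_eq_abs, abs_mul, abs_of_pos (Real.rpow_pos_of_pos hp _)]
      refine (mul_le_mul_of_nonneg_right (hb y) (Real.rpow_pos_of_pos hp _).le).trans (le_of_eq ?_)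
      simp only [Pi.mul_apply]
      rw [mul_left_comm, mul_assoc, ← Real.rpow_add hp, ← Real.rpow_add hp]
      congr 2
      ring
  · refine Continuous.integrable_of_hasCompactSupport (continuous_iff_continuousAt.2 fun y => ?_)
      (HasCompactSupport.intro (isCompact_closedBall 0 δ) fun y hy => by
        simp only [h0 y hy, zero_mul])
    by_cases hy : y = 0
    · subst hy
      refine (continuousAt_const (y := (0 : ℝ))).congr ?_
      filter_upwards [h] with y hy
      simp [hy]
    · exact hφ.continuousAt.mul (hN.continuousAt.rpow_const (Or.inl (Nn_pos hy).ne'))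

theorem add_RDer {κ κ' : ℕ → H × V → ℝ} {f f' : H × V → ℝ} (h : Lim κ f) (h' : Lim κ' f') :
    Lim (fun n y => κ n y + κ' n y) fun y => f y + f' y := by
  refine ⟨fun n => (h.1 n).add (h'.1 n), h.2.1.add h'.2.1, ?_⟩
  have h1 := h.2.2.add h'.2.2
  rw [add_zero] at h1
  refine squeeze_zero (fun n => integral_nonneg fun y => abs_nonneg _) (fun n => ?_) h1
  have i1 := ((h.1 n).sub h.2.1).abs
  have i2 := ((h'.1 n).sub h'.2.1).abs
  refine le_of_le_of_eq (integral_mono_of_nonneg (Eventually.of_forall fun y => abs_nonneg _)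
    (i1.add i2) (Eventually.of_forall fun y => ?_)) (integral_add i1 i2)
  simp only [Pi.add_apply, Pi.sub_apply]
  rw [add_sub_add_comm]
  exact abs_add_le _ _

theorem main_RDer [Nontrivial V] (hC : CnvSt H V) {a s δ C : ℝ} {η : H × V → ℝ} {ε : ℕ → ℝ}
    {v : H × V → H × V} (hI : IntegrableOn (fun y : H × V => Nn y ^ (-a)) (closedBall 0 δ))
    (hv : Continuous v) (hb : ∀ y, |fderiv ℝ Nn y (v y)| ≤ C * Nn y ^ (3 / 4 : ℝ)) (hs : 0 ≤ s)
    (hε : ∀ n, 0 < ε n) (hl : Tendsto ε atTop (𝓝 0)) (hη : ContDiff ℝ ∞ η)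
    (ht : tsupport η ⊆ closedBall 0 δ) (h : s + 1 / 4 ≤ a ∨ η =ᶠ[𝓝 0] 0) :
    Cnv δ fun n y => fderiv ℝ (fun y => η y * (Nn y + ε n) ^ (-s)) y (v y) := by
  have c1 : Continuous fun y => fderiv ℝ η y (v y) :=
    (hη.continuous_fderiv (by simp)).clm_apply hv
  have c2 : Continuous fun y => -s * η y * fderiv ℝ Nn y (v y) :=
    (continuous_const.mul hη.continuous).mul
      (((contDiff_Nn (n := 1)).continuous_fderiv (by simp)).clm_apply hv)
  have z1 : ∀ y ∉ closedBall (0 : H × V) δ, fderiv ℝ η y (v y) = 0 := fun y hy => by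
    rw [(notMem_tsupport_iff_eventuallyEq.1 fun h => hy (ht h)).fderiv_eq]; simp
  have z2 : ∀ y ∉ closedBall (0 : H × V) δ, -s * η y * fderiv ℝ Nn y (v y) = 0 := fun y hy => by
    rw [image_eq_zero_of_notMem_tsupport fun h => hy (ht h), mul_zero, zero_mul]
  have i1 : Integrable fun y => fderiv ℝ η y (v y) * Nn y ^ (-s) :=
    int_RDer (b := 0) hI c1 z1 c1.abs (fun y => by rw [Real.rpow_zero, mul_one])
      (h.imp (fun h => by linarith) fun h => by
        filter_upwards [h.fderiv (𝕜 := ℝ)] with y hy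
        rw [hy]; simp)
  have i2 : Integrable fun y => -s * η y * fderiv ℝ Nn y (v y) * Nn y ^ (-(s + 1)) :=
    int_RDer (b := 3 / 4) (g := fun y => |-s * η y| * C) hI c2 z2
      ((continuous_const.mul hη.continuous).abs.mul continuous_const)
      (fun y => by
        rw [abs_mul, mul_assoc _ C]
        exact mul_le_mul_of_nonneg_left (hb y) (abs_nonneg _))
      (h.imp (fun h => by linarith) fun h => by
        filter_upwards [h] with y hy
        simp [hy])
  have l := add_RDer (hC _ s ε inferInstance hs hε hl c1 i1)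
    (hC _ (s + 1) ε inferInstance (by linarith) hε hl c2 i2)
  refine ⟨_, ⟨l.2.1, fun y hy => by simp only [z1 y hy, z2 y hy, zero_mul, add_zero]⟩, ?_⟩
  have e : (fun n y => fderiv ℝ (fun y => η y * (Nn y + ε n) ^ (-s)) y (v y)) = fun n y =>
      fderiv ℝ η y (v y) * (Nn y + ε n) ^ (-s) +
        -s * η y * fderiv ℝ Nn y (v y) * (Nn y + ε n) ^ (-(s + 1)) := by
    funext n y
    have d1 := (hη.differentiable (by simp) y).hasFDerivAt
    have d2 := ((((contDiff_Nn (n := 1)).differentiable (by simp) y).hasFDerivAt.add_const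
      (ε n)).rpow_const (p := -s) (Or.inl (add_pos_of_nonneg_of_pos (Nn_nonneg y) (hε n)).ne'))
    rw [(d1.fun_mul d2).fderiv, show -(s + 1) = -s - 1 by ring]
    simp only [_root_.add_apply, _root_.smul_apply, smul_eq_mul]
    ring
  rw [e]
  exact l

theorem der_st (G : HeisenbergType m k H V) (hG : GamSt G) (hI : IntSt m k H V) (hC : CnvSt H V) :
    DerSt G := by
  intro η s δ ε h hk hs hε hl hη ht hc
  haveI : Nontrivial V := Module.nontrivial_of_finrank_pos (R := ℝ) (by rw [finrank_V G]; exact hk)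
  have i := hI (finrank_H G) (finrank_V G) (m_pos G hk) hk δ
  have c : Continuous fun y : H × V => (1 / 2 : ℝ) • BL G y.1 h :=
    (((BL G).continuous.comp continuous_fst).clm_apply continuous_const).const_smul _
  have hc' : s + 1 / 4 ≤ (homDim m k - 1) / 4 ∨ η =ᶠ[𝓝 0] 0 := hc.imp_left fun h => by linarith
  exact ⟨main_RDer hC i (continuous_const.prodMk c) (fun y => (hG.1 h y).1) hs hε hl hη ht hc',
    main_RDer hC i (continuous_const.prodMk c.neg) (fun y => (hG.1 h y).2) hs hε hl hη ht hc'⟩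

end Pool.Agent.MP_1048c2_an.Cl
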