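import Pool.Agent.MP_1048c2_an.Cl.RStmt

set_option linter.unusedSectionVars false

namespace Pool.Agent.MP_1048c2_an.Cl

open Filter Topology Set Module MeasureTheory Metric
open scoped InnerProductSpace ContDiff

variable {m k : ℕ} {H V : Type} [NormedAddCommGroup H] [InnerProductSpace ℝ H]
  [NormedAddCommGroup V] [InnerProductSpace ℝ V] [FiniteDimensional ℝ H] [FiniteDimensional ℝ V]
  [MeasurableSpace H] [BorelSpace H] [MeasurableSpace V] [BorelSpace V]

theorem gen_RDiff {E : Type} [NormedAddCommGroup E] [NormedSpace ℝ E] [FiniteDimensional ℝ E]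
    [MeasurableSpace E] [BorelSpace E] (μ : Measure E) (u : E → ℝ) (Ψ : E × E → ℝ)
    (hu : LocallyIntegrable u μ) (hΨ : ContDiff ℝ 1 Ψ)
    (hs : ∀ r : ℝ, ∃ R : ℝ, ∀ x y, ‖x‖ ≤ r → R ≤ ‖y‖ → Ψ (x, y) = 0) :
    ContDiff ℝ 1 (fun x => ∫ y, u y * Ψ (x, y) ∂μ) ∧ ∀ x v,
      fderiv ℝ (fun x => ∫ y, u y * Ψ (x, y) ∂μ) x v = ∫ y, u y * fderiv ℝ Ψ (x, y) (v, 0) ∂μ := by
  let D : E × E → E →L[ℝ] ℝ := fun p =>
    (fderiv ℝ Ψ p).comp (ContinuousLinearMap.inl ℝ E E)
  have hD : Continuous D := (hΨ.continuous_fderiv one_ne_zero).clm_comp continuous_const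
  have hd : ∀ x y, HasFDerivAt (fun x => Ψ (x, y)) (D (x, y)) x := fun x y =>
    (hΨ.differentiable one_ne_zero (x, y)).hasFDerivAt.comp x (hasFDerivAt_prodMk_left x y)
  have hm := hu.aestronglyMeasurable
  have key : ∀ x₀ : E, ∃ R : ℝ, ∃ b : E → ℝ, Integrable b μ ∧
      (∀ y, y ∉ closedBall (0 : E) R → Ψ (x₀, y) = 0 ∧ D (x₀, y) = 0) ∧
      ∀ x ∈ ball (0 : E) (‖x₀‖ + 1), ∀ y, ‖u y • D (x, y)‖ ≤ b y := by
    intro x₀
    obtain ⟨R, hR⟩ := hs (‖x₀‖ + 1)
    have h0 : ∀ x ∈ ball (0 : E) (‖x₀‖ + 1), ∀ y, y ∉ closedBall (0 : E) R →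
        D (x, y) = 0 := by
      intro x hx y hy
      rw [mem_closedBall_zero_iff, not_le] at hy
      refine (hd x y).unique ((hasFDerivAt_const (0 : ℝ) x).congr_of_eventuallyEq ?_)
      filter_upwards [isOpen_ball.mem_nhds hx] with z hz
      exact hR z y (mem_ball_zero_iff.1 hz).le hy.le
    obtain ⟨C, hC⟩ := ((isCompact_closedBall (0 : E) (‖x₀‖ + 1)).prod
      (isCompact_closedBall (0 : E) R)).exists_bound_of_continuousOn hD.continuousOn
    refine ⟨R, (closedBall (0 : E) R).indicator fun y => ‖u y‖ * C, ?_, fun y hy => ⟨?_, ?_⟩,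
      fun x hx y => ?_⟩
    · exact (integrable_indicator_iff measurableSet_closedBall).2
        ((hu.integrableOn_isCompact (isCompact_closedBall _ _)).norm.mul_const C)
    · rw [mem_closedBall_zero_iff, not_le] at hy
      exact hR _ _ (by linarith) hy.le
    · exact h0 _ (by simp) y hy
    · by_cases hy : y ∈ closedBall (0 : E) R
      · rw [indicator_of_mem hy, norm_smul]
        exact mul_le_mul_of_nonneg_left (hC (x, y) ⟨ball_subset_closedBall hx, hy⟩)
          (norm_nonneg _)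
      · rw [indicator_of_notMem hy, h0 x hx y hy, smul_zero, norm_zero]
  have hb : ∀ x₀ : E, ball (0 : E) (‖x₀‖ + 1) ∈ 𝓝 x₀ := fun x₀ =>
    isOpen_ball.mem_nhds (by simp)
  have m1 : ∀ x, Continuous fun y => Ψ (x, y) := fun x =>
    hΨ.continuous.comp (Continuous.prodMk_right x)
  have m2 : ∀ x, Continuous fun y => D (x, y) := fun x => hD.comp (Continuous.prodMk_right x)
  have i2 : ∀ x, Integrable (fun y => u y • D (x, y)) μ := fun x => by
    obtain ⟨R, b, -, h, -⟩ := key x
    exact hu.integrable_smul_right_of_hasCompactSupport (m2 x)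
      (HasCompactSupport.intro (isCompact_closedBall _ R) fun y hy => (h y hy).2)
  have hF : ∀ x, HasFDerivAt (fun x => ∫ y, u y * Ψ (x, y) ∂μ) (∫ y, u y • D (x, y) ∂μ) x := by
    intro x
    obtain ⟨R, b, h1, h, h2⟩ := key x
    refine hasFDerivAt_integral_of_dominated_of_fderiv_le (F' := fun x y => u y • D (x, y)) (hb x)
      (Eventually.of_forall fun z => hm.mul (m1 z).aestronglyMeasurable) ?_
      (i2 x).aestronglyMeasurable (Eventually.of_forall fun y z hz => h2 z hz y) h1
      (Eventually.of_forall fun y z _ => (hd z y).const_mul (u y))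
    exact hu.integrable_smul_right_of_hasCompactSupport (m1 x)
      (HasCompactSupport.intro (isCompact_closedBall _ R) fun y hy => (h y hy).1)
  refine ⟨contDiff_one_iff_fderiv.2 ⟨fun x => (hF x).differentiableAt, ?_⟩, fun x v => ?_⟩
  · rw [funext fun x => (hF x).fderiv]
    refine continuous_iff_continuousAt.2 fun x => ?_
    obtain ⟨R, b, h1, -, h2⟩ := key x
    refine continuousAt_of_dominated (Eventually.of_forall fun z => (i2 z).aestronglyMeasurable)
      ?_ h1 (Eventually.of_forall fun y => ?_)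
    · filter_upwards [hb x] with z hz using Eventually.of_forall (h2 z hz)
    · exact ((hD.comp (Continuous.prodMk_left y)).const_smul (u y)).continuousAt
  · rw [(hF x).fderiv, ContinuousLinearMap.integral_apply (i2 x)]
    rfl

theorem diff_st : DiffSt H V := fun u Ψ hu hΨ hs => gen_RDiff volume u Ψ hu hΨ hs

end Pool.Agent.MP_1048c2_an.Cl
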