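import Pool.Agent.MP_1048c2_an.Cl.RStmt

/-!
Calculus with the gauge.
-/

set_option linter.unusedSectionVars false

namespace Pool.Agent.MP_1048c2_an.Cl

open Filter Topology Set Module MeasureTheory Metric
open scoped InnerProductSpace ContDiff

variable {m k : ℕ} {H V : Type} [NormedAddCommGroup H] [InnerProductSpace ℝ H]
  [NormedAddCommGroup V] [InnerProductSpace ℝ V] [FiniteDimensional ℝ H] [FiniteDimensional ℝ V]
  [MeasurableSpace H] [BorelSpace H] [MeasurableSpace V] [BorelSpace V]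

theorem dN_RGam (x v : H × V) :
    fderiv ℝ Nn x v = 4 * (‖x.1‖ ^ 2 * ⟪x.1, v.1⟫_ℝ) + 32 * ⟪x.2, v.2⟫_ℝ := by
  have h1 := (hasFDerivAt_fst (𝕜 := ℝ) (p := x)).norm_sq
  have h2 := (hasFDerivAt_snd (𝕜 := ℝ) (p := x)).norm_sq
  have h4 : (Nn : H × V → ℝ) = fun x => (‖x.1‖ ^ 2) ^ 2 + 16 * ‖x.2‖ ^ 2 := by
    funext x; rw [Nn]; ring
  have h5 : HasFDerivAt (fun x : H × V => (‖x.1‖ ^ 2) ^ 2 + 16 * ‖x.2‖ ^ 2) _ x :=
    (h1.pow 2).add (h2.const_mul 16)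
  rw [h4, h5.fderiv]
  simp
  ring

variable (G : HeisenbergType m k H V)

theorem XN_RGam (h : H) : XL G h Nn =
    fun x : H × V => 4 * (‖x.1‖ ^ 2 * ⟪x.1, h⟫_ℝ) + 16 * ⟪x.2, BL G x.1 h⟫_ℝ := by
  funext x
  rw [XL, dN_RGam, real_inner_smul_right]
  ring

theorem XN_RGam' (h : H) (x : H × V) :
    XL G h Nn x = ⟪(4 * ‖x.1‖ ^ 2) • x.1 + (16 : ℝ) • JL G x.2 x.1, h⟫_ℝ := by
  rw [XN_RGam, inner_add_left, real_inner_smul_left, real_inner_smul_left, inner_JL]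
  ring

theorem YN_RGam (h : H) (x : H × V) :
    YR G h Nn x = ⟪(4 * ‖x.1‖ ^ 2) • x.1 + (-16 : ℝ) • JL G x.2 x.1, h⟫_ℝ := by
  rw [YR, dN_RGam, inner_add_left, real_inner_smul_left, real_inner_smul_left, inner_JL,
    inner_neg_right, real_inner_smul_right]
  ring

theorem norm_w_RGam (c : ℝ) (hc : c ^ 2 = 256) (x : H × V) :
    ‖(4 * ‖x.1‖ ^ 2) • x.1 + c • JL G x.2 x.1‖ ^ 2 = 16 * ‖x.1‖ ^ 2 * Nn x := by
  have h2 := inner_J_self G x.2 x.1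
  rw [real_inner_comm] at h2
  simp only [Nn, norm_add_sq_real, norm_smul, mul_pow, Real.norm_eq_abs, sq_abs, norm_J_sq,
    real_inner_smul_left, real_inner_smul_right, h2, hc]
  ring

theorem bound_RGam {w h : H} {x : H × V} (hw : ‖w‖ ^ 2 = 16 * ‖x.1‖ ^ 2 * Nn x) :
    |⟪w, h⟫_ℝ| ≤ 4 * ‖h‖ * Nn x ^ (3 / 4 : ℝ) := by
  have hN := Nn_nonneg x
  obtain ⟨t, ht⟩ : ∃ t, t = Nn x ^ (1 / 4 : ℝ) := ⟨_, rfl⟩
  have t0 : 0 ≤ t := ht ▸ Real.rpow_nonneg hN _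
  have t4 : t ^ 4 = Nn x := by
    rw [ht, ← Real.rpow_natCast, ← Real.rpow_mul hN]; norm_num
  have t3 : Nn x ^ (3 / 4 : ℝ) = t ^ 3 := by
    rw [ht, ← Real.rpow_natCast, ← Real.rpow_mul hN]; norm_num
  have h1 : ‖x.1‖ ≤ t := by
    refine le_of_pow_le_pow_left₀ (n := 4) (by norm_num) t0 ?_
    rw [t4, Nn]
    linarith [sq_nonneg ‖x.2‖]
  have h2 : ‖w‖ ≤ 4 * t ^ 3 := by
    refine le_of_pow_le_pow_left₀ (n := 2) (by norm_num) (by positivity) ?_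
    rw [hw, ← t4]
    calc 16 * ‖x.1‖ ^ 2 * t ^ 4 ≤ 16 * t ^ 2 * t ^ 4 := by gcongr
      _ = _ := by ring
  rw [t3]
  calc |⟪w, h⟫_ℝ| ≤ ‖w‖ * ‖h‖ := abs_real_inner_le_norm w h
    _ ≤ 4 * t ^ 3 * ‖h‖ := by gcongr
    _ = _ := by ring

theorem XXN_RGam (h : H) (x : H × V) : XL G h (XL G h Nn) x =
    8 * ⟪x.1, h⟫_ℝ ^ 2 + 4 * ‖x.1‖ ^ 2 * ‖h‖ ^ 2 + 8 * ‖BL G x.1 h‖ ^ 2 := by
  have h0 := hasFDerivAt_fst (𝕜 := ℝ) (p := x)
  have h0' := hasFDerivAt_snd (𝕜 := ℝ) (p := x)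
  have h5 : HasFDerivAt (fun x : H × V => 4 * (‖x.1‖ ^ 2 * ⟪x.1, h⟫_ℝ) +
      16 * ⟪x.2, BL G x.1 h⟫_ℝ) _ x :=
    ((h0.norm_sq.mul (h0.inner ℝ (hasFDerivAt_const h x))).const_mul 4).add
      ((h0'.inner ℝ (hasFDerivAt_B G h0 (hasFDerivAt_const h x))).const_mul 16)
  rw [XL, XN_RGam, h5.fderiv]
  simp [BL_self, real_inner_smul_left]
  ring

theorem sumB_RGam (z : H) : ∑ i, ‖BL G z (G.e i)‖ ^ 2 = k * ‖z‖ ^ 2 := by
  have h1 : ∀ i, ‖BL G z (G.e i)‖ ^ 2 = ∑ l, ⟪G.e i, JL G (G.ε l) z⟫_ℝ ^ 2 := fun i => by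
    rw [← G.ε.sum_sq_inner_right]
    exact Finset.sum_congr rfl fun l _ => by rw [← inner_JL, real_inner_comm]
  simp only [h1]
  rw [Finset.sum_comm]
  simp only [G.e.sum_sq_inner_right, norm_J_sq, G.ε.orthonormal.1]
  simp

theorem LapN_RGam (x : H × V) :
    ∑ i, XL G (G.e i) (XL G (G.e i) Nn) x = 4 * (homDim m k + 2) * ‖x.1‖ ^ 2 := by
  have h3 : ∑ i, ⟪x.1, G.e i⟫_ℝ ^ 2 = ‖x.1‖ ^ 2 := G.e.sum_sq_inner_left x.1
  simp only [XXN_RGam, Finset.sum_add_distrib, ← Finset.mul_sum, h3, sumB_RGam,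
    G.e.orthonormal.1, homDim]
  simp
  ring

theorem sqN_RGam (x : H × V) : ∑ i, XL G (G.e i) Nn x ^ 2 = 16 * ‖x.1‖ ^ 2 * Nn x := by
  simp only [XN_RGam']
  rw [G.e.sum_sq_inner_left, norm_w_RGam G 16 (by norm_num)]

theorem has_RGam {ε : ℝ} (hε : 0 < ε) (s : ℝ) (x : H × V) :
    HasFDerivAt (fun y : H × V => (Nn y + ε) ^ s)
      ((s * (Nn x + ε) ^ (s - 1)) • fderiv ℝ Nn x) x :=
  (((contDiff_Nn (n := 1)).differentiable (by simp) x).hasFDerivAt.add_const ε).rpow_const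
    (Or.inl (by linarith [Nn_nonneg x] : 0 < Nn x + ε).ne')

theorem Xp_RGam {ε : ℝ} (hε : 0 < ε) (s : ℝ) (h : H) :
    XL G h (fun y : H × V => (Nn y + ε) ^ s) =
      fun x => s * (Nn x + ε) ^ (s - 1) * XL G h Nn x := by
  funext x
  rw [XL, (has_RGam hε s x).fderiv, XL]
  rfl

theorem XXp_RGam {ε : ℝ} (hε : 0 < ε) (s : ℝ) (h : H) (x : H × V) :
    XL G h (XL G h fun y : H × V => (Nn y + ε) ^ s) x =
      s * (Nn x + ε) ^ (s - 1) * XL G h (XL G h Nn) x +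
        s * (s - 1) * (Nn x + ε) ^ (s - 1 - 1) * XL G h Nn x ^ 2 := by
  have h1 := (has_RGam hε (s - 1) x).const_mul s
  have h2 : XL G h (fun y : H × V => s * (Nn y + ε) ^ (s - 1)) x =
      s * ((s - 1) * (Nn x + ε) ^ (s - 1 - 1) * XL G h Nn x) := by
    rw [XL, h1.fderiv, XL]
    rfl
  rw [Xp_RGam G hε, XL_mul G h1.differentiableAt
    ((contDiff_XL G h contDiff_Nn).differentiable (by simp) x), h2]
  ring

theorem gam_st (G : HeisenbergType m k H V) : GamSt G := by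
  refine ⟨fun h y => ⟨?_, ?_⟩, fun ε hε y => ?_⟩
  · rw [XN_RGam']
    exact bound_RGam (norm_w_RGam G 16 (by norm_num) y)
  · rw [YN_RGam]
    exact bound_RGam (norm_w_RGam G (-16) (by norm_num) y)
  · have hp : 0 < Nn y + ε := by linarith [Nn_nonneg y]
    simp only [Lap, XXp_RGam G hε, Finset.sum_add_distrib, ← Finset.mul_sum, LapN_RGam, sqN_RGam]
    have e1 : -((homDim m k - 2) / 4) - 1 = -((homDim m k + 6) / 4) + 1 := by ring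
    have e2 : -((homDim m k + 6) / 4) + 1 - 1 = -((homDim m k + 6) / 4) := by ring
    rw [e1, e2, Real.rpow_add_one hp.ne']
    ring

end Pool.Agent.MP_1048c2_an.Cl
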