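import Pool.Agent.MP_1048c2_an.Cl.RStmt

set_option linter.unusedSectionVars false

namespace Pool.Agent.MP_1048c2_an.Cl

open Filter Topology Set Module MeasureTheory Metric
open scoped InnerProductSpace ContDiff

variable {m k : ℕ} {H V : Type} [NormedAddCommGroup H] [InnerProductSpace ℝ H]
  [NormedAddCommGroup V] [InnerProductSpace ℝ V] [FiniteDimensional ℝ H] [FiniteDimensional ℝ V]
  [MeasurableSpace H] [BorelSpace H] [MeasurableSpace V] [BorelSpace V]

/-- the vertical coefficients of a left invariant field -/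
noncomputable def c_RIbp (G : HeisenbergType m k H V) (h : H) (l : Fin k) : H × V →L[ℝ] ℝ :=
  (innerSL ℝ (G.ε l)).comp (((1 / 2 : ℝ) • (BL G).flip h).comp (ContinuousLinearMap.fst ℝ H V))

theorem c_vert_RIbp (G : HeisenbergType m k H V) (h : H) (l : Fin k) (v : V) :
    c_RIbp G h l (0, v) = 0 := by simp [c_RIbp]

theorem XL_RIbp (G : HeisenbergType m k H V) (h : H) (φ : H × V → ℝ) (x : H × V) :
    XL G h φ x = fderiv ℝ φ x (h, 0) + ∑ l, c_RIbp G h l x * fderiv ℝ φ x (0, G.ε l) := by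
  have h1 : ((h, (1 / 2 : ℝ) • BL G x.1 h) : H × V) =
      (h, 0) + ∑ l, c_RIbp G h l x • ((0, G.ε l) : H × V) := by
    ext
    · simp [Prod.fst_sum]
    · have := G.ε.sum_repr' ((1 / 2 : ℝ) • BL G x.1 h)
      simpa [Prod.snd_sum, c_RIbp, real_inner_smul_right] using this.symm
  rw [XL, h1]
  simp only [map_add, map_sum, map_smul, smul_eq_mul]

theorem ibp_st (G : HeisenbergType m k H V) : IbpSt G := by
  intro W h u hW hu φ hφ
  have hφ1 : ContDiff ℝ 1 φ := hφ.1.of_le (by simp)
  have hu1 : ∀ x ∈ tsupport φ, ContDiffAt ℝ 1 u x := fun x hx =>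
    hu.contDiffAt (hW.mem_nhds (hφ.2.2 hx))
  have p0 := parts_Weak (μ := (volume : Measure (H × V))) hφ1 hφ.2.1 hu1 (h, 0)
  have p1 := fun l => parts_Weak (μ := (volume : Measure (H × V)))
    (W := fun x => c_RIbp G h l x * u x) hφ1 hφ.2.1
    (fun x hx => (c_RIbp G h l).contDiff.contDiffAt.mul (hu1 x hx)) (0, G.ε l)
  have e1 : ∀ x, u x * XL G h φ x = u x * fderiv ℝ φ x (h, 0) +
      ∑ l, c_RIbp G h l x * u x * fderiv ℝ φ x (0, G.ε l) := by
    intro x
    rw [XL_RIbp, mul_add, Finset.mul_sum]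
    congr 1
    exact Finset.sum_congr rfl fun l _ => by ring
  have e2 : ∀ x, XL G h u x * φ x = fderiv ℝ u x (h, 0) * φ x +
      ∑ l, fderiv ℝ (fun x => c_RIbp G h l x * u x) x (0, G.ε l) * φ x := by
    intro x
    by_cases hx : x ∈ tsupport φ
    · rw [XL_RIbp, add_mul, Finset.sum_mul]
      congr 1
      refine Finset.sum_congr rfl fun l _ => ?_
      rw [fderiv_fun_mul (c_RIbp G h l).differentiableAt
        ((hu1 x hx).differentiableAt (by simp)), ContinuousLinearMap.fderiv]
      simp [c_vert_RIbp]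
    · simp [image_eq_zero_of_notMem_tsupport hx]
  simp only [e1, e2]
  rw [integral_add p0.1 (integrable_finsetSum _ fun l _ => (p1 l).1),
    integral_add p0.2.1 (integrable_finsetSum _ fun l _ => (p1 l).2.1),
    integral_finsetSum _ fun l _ => (p1 l).1, integral_finsetSum _ fun l _ => (p1 l).2.1,
    p0.2.2, Finset.sum_congr rfl fun l _ => (p1 l).2.2, Finset.sum_neg_distrib, neg_add]

end Pool.Agent.MP_1048c2_an.Cl
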