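import Pool.Agent.MP_1048c2_an.Cl.RStmt

/-!
Regularity of weak solutions: local integrability of a power of the gauge.
-/

set_option linter.unusedSectionVars false

namespace Pool.Agent.MP_1048c2_an.Cl

open Filter Topology Set Module MeasureTheory Metric
open scoped InnerProductSpace ContDiff

variable {m k : ℕ} {H V : Type} [NormedAddCommGroup H] [InnerProductSpace ℝ H]
  [NormedAddCommGroup V] [InnerProductSpace ℝ V] [FiniteDimensional ℝ H] [FiniteDimensional ℝ V]
  [MeasurableSpace H] [BorelSpace H] [MeasurableSpace V] [BorelSpace V]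

theorem loc_RInt (h : 1 ≤ finrank ℝ H) {α : ℝ} (hα : α < finrank ℝ H) (δ : ℝ) :
    IntegrableOn (fun x : H => ‖x‖ ^ (-α)) (closedBall 0 δ) := by
  have : LocallyIntegrable (fun x : H => ‖x‖ ^ (-α)) volume :=
    locallyIntegrable_of_norm_le_rpow (C := 1) h hα
      (Eventually.of_forall fun x => by
        rw [one_mul, Real.norm_of_nonneg (by positivity)])
      (Measurable.aestronglyMeasurable (by fun_prop))
  exact this.integrableOn_isCompact (isCompact_closedBall _ _)

theorem pow_RInt {N x a : ℝ} {n : ℕ} (hx : 0 < x) (h : x ^ n ≤ N) (ha : 0 ≤ a) :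
    N ^ (-a) ≤ x ^ (-(n * a)) := by
  refine (Real.rpow_le_rpow_of_nonpos (by positivity) h (by linarith)).trans_eq ?_
  rw [← Real.rpow_natCast, ← Real.rpow_mul hx.le, mul_neg]

theorem int_st : IntSt m k H V := by
  intro hm hk m0 k0 δ
  have m1 : (1 : ℝ) ≤ m := by exact_mod_cast m0
  have k1 : (1 : ℝ) ≤ k := by exact_mod_cast k0
  have : Nontrivial H := Module.nontrivial_of_finrank_pos (R := ℝ) (by omega)
  have : Nontrivial V := Module.nontrivial_of_finrank_pos (R := ℝ) (by omega)
  have i1 := loc_RInt (H := H) (by omega) (α := m - 1 / 2) (by rw [hm]; linarith) δ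
  have i2 := loc_RInt (H := V) (by omega) (α := k - 1 / 4) (by rw [hk]; linarith) δ
  have i3 := Integrable.mul_prod i1 i2
  rw [Measure.prod_restrict, closedBall_prod_same] at i3
  refine Integrable.mono' i3 (Measurable.aestronglyMeasurable ?_) (ae_restrict_of_ae ?_)
  · unfold Nn
    fun_prop
  · have a1 : ∀ᵐ y : H × V, y.1 ≠ 0 :=
      Measure.quasiMeasurePreserving_fst.ae (μa := (volume : Measure H).prod (volume : Measure V))
        (p := fun x => x ≠ 0) (by simp [ae_iff])
    have a2 : ∀ᵐ y : H × V, y.2 ≠ 0 :=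
      Measure.quasiMeasurePreserving_snd.ae (μa := (volume : Measure H).prod (volume : Measure V))
        (p := fun x => x ≠ 0) (by simp [ae_iff])
    filter_upwards [a1, a2] with y h1 h2
    have p1 : 0 < ‖y.1‖ := norm_pos_iff.2 h1
    have p2 : 0 < ‖y.2‖ := norm_pos_iff.2 h2
    have n0 : 0 < Nn y := by unfold Nn; positivity
    have b1 : ‖y.1‖ ^ 4 ≤ Nn y := by unfold Nn; nlinarith [sq_nonneg ‖y.2‖]
    have b2 : ‖y.2‖ ^ 2 ≤ Nn y := by unfold Nn; nlinarith [sq_nonneg ‖y.2‖, pow_pos p1 4]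
    have c1 := pow_RInt p1 b1 (a := (m - 1 / 2) / 4) (by linarith)
    have c2 := pow_RInt p2 b2 (a := (k - 1 / 4) / 2) (by linarith)
    have e : -((homDim m k - 1) / 4) = -(((m : ℝ) - 1 / 2) / 4) + -(((k : ℝ) - 1 / 4) / 2) := by
      unfold homDim
      ring
    have e1 : ((4 : ℕ) : ℝ) * (((m : ℝ) - 1 / 2) / 4) = m - 1 / 2 := by push_cast; ring
    have e2 : ((2 : ℕ) : ℝ) * (((k : ℝ) - 1 / 4) / 2) = k - 1 / 4 := by push_cast; ring
    rw [e1] at c1
    rw [e2] at c2
    rw [Real.norm_of_nonneg (by positivity), e, Real.rpow_add n0]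
    exact mul_le_mul c1 c2 (by positivity) (by positivity)

end Pool.Agent.MP_1048c2_an.Cl
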