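import Pool.Agent.MP_1048c2_an.Cl.RStmt

set_option linter.unusedSectionVars false

namespace Pool.Agent.MP_1048c2_an.Cl

open Filter Topology Set Module MeasureTheory Metric
open scoped InnerProductSpace ContDiff

variable {m k : ℕ} {H V : Type} [NormedAddCommGroup H] [InnerProductSpace ℝ H]
  [NormedAddCommGroup V] [InnerProductSpace ℝ V] [FiniteDimensional ℝ H] [FiniteDimensional ℝ V]
  [MeasurableSpace H] [BorelSpace H] [MeasurableSpace V] [BorelSpace V]

theorem cd_gam_RKer {ε : ℝ} (hε : 0 < ε) (s : ℝ) :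
    ContDiff ℝ ∞ fun y : H × V => (Nn y + ε) ^ s :=
  (contDiff_Nn.add contDiff_const).rpow_const_of_ne fun y => by
    have := Nn_nonneg y
    positivity

theorem xl_gam_RKer (G : HeisenbergType m k H V) {ε : ℝ} (hε : 0 < ε) (s : ℝ) (h : H)
    (y : H × V) : XL G h (fun y => (Nn y + ε) ^ (-s)) y =
      -s * (Nn y + ε) ^ (-(s + 1)) * XL G h Nn y := by
  have h1 : HasFDerivAt (Nn : H × V → ℝ) (fderiv ℝ Nn y) y :=
    ((contDiff_Nn (n := 1)).differentiable (by simp) y).hasFDerivAt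
  have h2 : Nn y + ε ≠ 0 := by
    have := Nn_nonneg y
    positivity
  rw [XL, ((h1.add_const ε).rpow_const (p := -s) (Or.inl h2)).fderiv, XL,
    show -s - 1 = -(s + 1) by ring]
  rfl

theorem xl_add_RKer (G : HeisenbergType m k H V) (h : H) {u v : H × V → ℝ}
    (hu : ContDiff ℝ ∞ u) (hv : ContDiff ℝ ∞ v) :
    XL G h (fun y => u y + v y) = fun y => XL G h u y + XL G h v y := by
  funext y
  rw [XL, fderiv_fun_add (hu.differentiable (by simp) y) (hv.differentiable (by simp) y)]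
  rfl

theorem yr_add_RKer (G : HeisenbergType m k H V) (h : H) {u v : H × V → ℝ}
    (hu : ContDiff ℝ ∞ u) (hv : ContDiff ℝ ∞ v) :
    YR G h (fun y => u y + v y) = fun y => YR G h u y + YR G h v y := by
  funext y
  rw [YR, fderiv_fun_add (hu.differentiable (by simp) y) (hv.differentiable (by simp) y)]
  rfl

theorem lap_mul_RKer (G : HeisenbergType m k H V) {u v : H × V → ℝ} (hu : ContDiff ℝ ∞ u)
    (hv : ContDiff ℝ ∞ v) (x : H × V) :
    Lap G (fun y => u y * v y) x = u x * Lap G v x +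
      2 * ∑ i, XL G (G.e i) u x * XL G (G.e i) v x + Lap G u x * v x := by
  have d : ∀ {w : H × V → ℝ}, ContDiff ℝ ∞ w → ∀ y, DifferentiableAt ℝ w y :=
    fun hw y => hw.differentiable (by simp) y
  simp only [Lap, Finset.mul_sum, Finset.sum_mul, ← Finset.sum_add_distrib]
  refine Finset.sum_congr rfl fun i _ => ?_
  have h1 : XL G (G.e i) (fun y => u y * v y) =
      fun y => u y * XL G (G.e i) v y + XL G (G.e i) u y * v y :=
    funext fun y => XL_mul G (d hu y) (d hv y)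
  rw [h1, xl_add_RKer G _ (hu.mul (contDiff_XL G _ hv)) ((contDiff_XL G _ hu).mul hv)]
  simp only
  rw [XL_mul G (d hu x) (d (contDiff_XL G _ hv) x), XL_mul G (d (contDiff_XL G _ hu) x) (d hv x)]
  ring

theorem xl_ev_RKer (G : HeisenbergType m k H V) (h : H) {u : H × V → ℝ} {c : ℝ} {x : H × V}
    (hu : u =ᶠ[𝓝 x] fun _ => c) : XL G h u =ᶠ[𝓝 x] fun _ => 0 := by
  filter_upwards [hu.eventuallyEq_nhds] with y hy
  rw [XL_congr G hy]
  simp [XL]

theorem tsupp_RKer {f : H × V → ℝ} {δ : ℝ} (h : ∀ y ∉ closedBall (0 : H × V) δ, f y = 0) :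
    tsupport f ⊆ closedBall 0 δ :=
  closure_minimal (fun y hy => by_contra fun h' => hy (h y h')) isClosed_closedBall

theorem hcs_RKer {f : H × V → ℝ} {δ : ℝ} (h : tsupport f ⊆ closedBall 0 δ) :
    HasCompactSupport f :=
  (isCompact_closedBall _ _).of_isClosed_subset (isClosed_tsupport _) h

theorem int_lap_RKer (G : HeisenbergType m k H V) (hI : IbpSt G) {φ : H × V → ℝ}
    (hφ : Tst univ φ) : Integrable (Lap G φ) ∧ ∫ x, Lap G φ x = 0 := by
  have h1 : ∀ i, Integrable (XL G (G.e i) (XL G (G.e i) φ)) := fun i =>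
    ((hφ.xl G _).xl G _).1.continuous.integrable_of_hasCompactSupport ((hφ.xl G _).xl G _).2.1
  refine ⟨integrable_finsetSum _ fun i _ => h1 i, ?_⟩
  unfold Lap
  rw [integral_finsetSum _ fun i _ => h1 i]
  refine Finset.sum_eq_zero fun i _ => ?_
  have h2 := hI univ (G.e i) (fun _ => 1) isOpen_univ contDiffOn_const _ (hφ.xl G (G.e i))
  have h3 : XL G (G.e i) (fun _ => (1 : ℝ)) = fun _ => 0 := by
    funext y
    simp [XL]
  simpa [h3] using h2

theorem lim_int_RKer {κ : ℕ → H × V → ℝ} {κ' : H × V → ℝ} (h : Lim κ κ') :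
    Tendsto (fun n => ∫ y, κ n y) atTop (𝓝 (∫ y, κ' y)) := by
  refine tendsto_iff_norm_sub_tendsto_zero.2 (squeeze_zero (fun _ => norm_nonneg _)
    (fun n => ?_) h.2.2)
  rw [← integral_sub (h.1 n) h.2.1]
  exact abs_integral_le_integral_abs

theorem cnv_add_RKer {δ : ℝ} {a b : ℕ → H × V → ℝ} (ha : Cnv δ a) (hb : Cnv δ b) :
    Cnv δ fun n y => a n y + b n y := by
  obtain ⟨a', a1, a2, a3, a4⟩ := ha
  obtain ⟨b', b1, b2, b3, b4⟩ := hb
  refine ⟨fun y => a' y + b' y,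
    ⟨a3.add b3, fun y hy => by simp only [a1.2 y hy, b1.2 y hy, add_zero]⟩,
    fun n => (a2 n).add (b2 n), a3.add b3, ?_⟩
  have h1 := a4.add b4
  rw [add_zero] at h1
  refine squeeze_zero (fun _ => integral_nonneg fun _ => abs_nonneg _) (fun n => ?_) h1
  have i1 : Integrable fun y => |a n y - a' y| := ((a2 n).sub a3).abs
  have i2 : Integrable fun y => |b n y - b' y| := ((b2 n).sub b3).abs
  rw [← integral_add i1 i2]
  refine integral_mono_of_nonneg (Eventually.of_forall fun _ => abs_nonneg _) (i1.add i2)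
    (Eventually.of_forall fun y => ?_)
  show |a n y + b n y - (a' y + b' y)| ≤ |a n y - a' y| + |b n y - b' y|
  rw [add_sub_add_comm]
  exact abs_add_le _ _

theorem int_sing_RKer {α : H × V → ℝ} {δ : ℝ} (h1 : Continuous α)
    (h2 : tsupport α ⊆ closedBall 0 δ) (h3 : α =ᶠ[𝓝 0] 0) (s : ℝ) :
    Integrable fun y => α y * Nn y ^ s := by
  refine Continuous.integrable_of_hasCompactSupport (continuous_iff_continuousAt.2 fun y => ?_)
    (hcs_RKer h2).mul_right
  by_cases hy : y = 0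
  · subst hy
    refine (continuousAt_const (y := (0 : ℝ))).congr ?_
    filter_upwards [h3] with z hz
    rw [hz, Pi.zero_apply, zero_mul]
  · exact h1.continuousAt.mul
      (((contDiff_Nn (n := 0)).continuous.continuousAt).rpow_const (Or.inl (Nn_pos hy).ne'))

theorem low_RKer {r : ℝ} (hr : 0 < r) :
    ∃ a : ℝ, 0 < a ∧ ∀ y ∉ ball (0 : H × V) r, a ≤ Nn y := by
  refine ⟨min (r ^ 4) (16 * r ^ 2), by positivity, fun y hy => ?_⟩
  rw [mem_ball_zero_iff, not_lt, Prod.norm_def, le_max_iff] at hy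
  have h1 : 0 ≤ ‖y.1‖ ^ 4 := by positivity
  have h2 : 0 ≤ ‖y.2‖ ^ 2 := by positivity
  unfold Nn
  rcases hy with hy | hy
  · have := pow_le_pow_left₀ hr.le hy 4
    exact (min_le_left _ _).trans (by linarith)
  · have := pow_le_pow_left₀ hr.le hy 2
    exact (min_le_right _ _).trans (by linarith)

theorem ker_st (G : HeisenbergType m k H V) (hG : GamSt G) (hL : LowSt m k H V) (hC : CnvSt H V)
    (hD : DerSt G) (hI : IbpSt G) : KerSt G := by
  intro hk δ hδ
  have hm := m_pos G hk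
  have hQ : 3 ≤ homDim m k := by
    have h1 : (1 : ℝ) ≤ m := by exact_mod_cast hm
    have h2 : (1 : ℝ) ≤ k := by exact_mod_cast hk
    unfold homDim
    linarith
  have hV : Nontrivial V := nontrivial_of_finrank_pos (R := ℝ) (by rw [finrank_V G]; exact hk)
  obtain ⟨c₀, hc₀, hL⟩ := hL (finrank_H G) (finrank_V G) hm
  obtain ⟨η, η1, η2, η3, η4⟩ : ∃ η : H × V → ℝ, ContDiff ℝ ∞ η ∧ tsupport η ⊆ closedBall 0 δ ∧
      (∀ y, 0 ≤ η y) ∧ ∀ y ∈ ball (0 : H × V) (δ / 2), η y = 1 := by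
    let b : ContDiffBump (0 : H × V) := ⟨δ / 2, δ, by positivity, by linarith⟩
    exact ⟨b, b.contDiff, b.tsupport_eq.le, fun y => b.nonneg,
      fun y hy => b.one_of_mem_closedBall (ball_subset_closedBall hy)⟩
  have η5 : η =ᶠ[𝓝 0] fun _ => 1 :=
    eventually_of_mem (ball_mem_nhds _ (by positivity : 0 < δ / 2)) η4
  obtain ⟨t, t0, t1, t2, t3⟩ : ∃ t : ℕ → ℝ, (∀ n, 0 < t n) ∧ (∀ n, t n ≤ 1) ∧
      (∀ n, 2 * t n ≤ δ / 2) ∧ Tendsto (fun n => t n ^ 4) atTop (𝓝 0) := by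
    have h0 : 0 < min 1 (δ / 4) := by positivity
    have h1 : ∀ n : ℕ, min 1 (δ / 4) * (1 / ((n : ℝ) + 1)) ≤ min 1 (δ / 4) := fun n =>
      mul_le_of_le_one_right h0.le ((div_le_one (by positivity)).2
        (le_add_of_nonneg_left (Nat.cast_nonneg n)))
    refine ⟨fun n => min 1 (δ / 4) * (1 / ((n : ℝ) + 1)), fun n => by positivity,
      fun n => (h1 n).trans (min_le_left _ _), fun n => ?_, ?_⟩
    · have := (h1 n).trans (min_le_right _ _)
      linarith
    · have := ((tendsto_one_div_add_atTop_nhds_zero_nat (𝕜 := ℝ)).const_mul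
        (min 1 (δ / 4))).pow 4
      simpa using this
  have e0 : ∀ n, 0 < t n ^ 4 := fun n => pow_pos (t0 n) 4
  set q : ℝ := (homDim m k - 2) / 4 with hq
  have q0 : 0 ≤ q := by rw [hq]; linarith
  set c₁ : ℝ := (homDim m k - 2) * (homDim m k + 2) with hc₁
  have c1 : 0 < c₁ := mul_pos (by linarith) (by linarith)
  set s : ℝ := (homDim m k + 6) / 4 with hs
  have s0 : 0 ≤ s := by rw [hs]; linarith
  obtain ⟨α, hα⟩ : ∃ α : H × V → ℝ,
      α = fun y => -2 * q * ∑ i, XL G (G.e i) η y * XL G (G.e i) Nn y := ⟨_, rfl⟩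
  have α1 : ContDiff ℝ ∞ α := by
    rw [hα]
    exact contDiff_const.mul (ContDiff.sum fun i _ =>
      (contDiff_XL G _ η1).mul (contDiff_XL G _ contDiff_Nn))
  have α2 : tsupport α ⊆ closedBall 0 δ := tsupp_RKer fun y hy => by
    simp only [hα, XL_of_notMem G fun h => hy (η2 h), zero_mul, Finset.sum_const_zero, mul_zero]
  have α3 : α =ᶠ[𝓝 0] 0 := by
    filter_upwards [eventually_all.2 fun i => xl_ev_RKer G (G.e i) η5] with y hy
    simp only [hα, hy, zero_mul, Finset.sum_const_zero, mul_zero, Pi.zero_apply]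
  have β1 : ContDiff ℝ ∞ (Lap G η) :=
    contDiffOn_univ.1 (contDiffOn_Lap G isOpen_univ η1.contDiffOn)
  have β2 : tsupport (Lap G η) ⊆ closedBall 0 δ := tsupp_RKer fun y hy =>
    Finset.sum_eq_zero fun i _ => XL_of_notMem G fun h => hy (η2 (tsupport_XL G _ _ h))
  have β3 : Lap G η =ᶠ[𝓝 0] 0 := by
    filter_upwards [eventually_all.2 fun i => xl_ev_RKer G (G.e i) (xl_ev_RKer G (G.e i) η5)]
      with y hy
    exact Finset.sum_eq_zero fun i _ => hy i
  have K1 : ∀ n, ContDiff ℝ ∞ fun y : H × V => η y * (Nn y + t n ^ 4) ^ (-q) :=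
    fun n => η1.mul (cd_gam_RKer (e0 n) _)
  have K2 : ∀ n, tsupport (fun y : H × V => η y * (Nn y + t n ^ 4) ^ (-q)) ⊆ closedBall 0 δ :=
    fun n => tsupport_mul_subset_left.trans η2
  have A1 : ∀ n, ContDiff ℝ ∞ fun y : H × V => α y * (Nn y + t n ^ 4) ^ (-(q + 1)) :=
    fun n => α1.mul (cd_gam_RKer (e0 n) _)
  have B1 : ∀ n, ContDiff ℝ ∞ fun y : H × V => Lap G η y * (Nn y + t n ^ 4) ^ (-q) :=
    fun n => β1.mul (cd_gam_RKer (e0 n) _)
  have P0 : ∀ n (y : H × V), 0 ≤ η y * (c₁ * (t n ^ 4 * ‖y.1‖ ^ 2 * (Nn y + t n ^ 4) ^ (-s))) :=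
    fun n y => by
      have h1 := Nn_nonneg y
      have h2 := e0 n
      have h3 := η3 y
      positivity
  have P1 : ∀ n, Integrable fun y : H × V =>
      η y * (c₁ * (t n ^ 4 * ‖y.1‖ ^ 2 * (Nn y + t n ^ 4) ^ (-s))) := fun n =>
    Continuous.integrable_of_hasCompactSupport (η1.continuous.mul (continuous_const.mul
      ((continuous_const.mul (continuous_fst.norm.pow 2)).mul (cd_gam_RKer (e0 n) _).continuous)))
      (hcs_RKer η2).mul_right
  have P2 : ∀ n (y : H × V), η y * (c₁ * (t n ^ 4 * ‖y.1‖ ^ 2 * (Nn y + t n ^ 4) ^ (-s))) =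
      α y * (Nn y + t n ^ 4) ^ (-(q + 1)) + Lap G η y * (Nn y + t n ^ 4) ^ (-q) -
        Lap G (fun y => η y * (Nn y + t n ^ 4) ^ (-q)) y := fun n y => by
    rw [lap_mul_RKer G η1 (cd_gam_RKer (e0 n) _), hG.2 _ (e0 n), hα]
    simp only [xl_gam_RKer G (e0 n)]
    have : ∑ i, XL G (G.e i) η y * (-q * (Nn y + t n ^ 4) ^ (-(q + 1)) * XL G (G.e i) Nn y) =
        -q * (Nn y + t n ^ 4) ^ (-(q + 1)) * ∑ i, XL G (G.e i) η y * XL G (G.e i) Nn y := by
      rw [Finset.mul_sum]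
      exact Finset.sum_congr rfl fun i _ => by ring
    rw [this]
    ring
  have LA := hC α (q + 1) _ hV (by linarith) e0 t3 α1.continuous
    (int_sing_RKer α1.continuous α2 α3 _)
  have LB := hC (Lap G η) q _ hV q0 e0 t3 β1.continuous (int_sing_RKer β1.continuous β2 β3 _)
  have T : Tendsto (fun n => ∫ y : H × V,
      η y * (c₁ * (t n ^ 4 * ‖y.1‖ ^ 2 * (Nn y + t n ^ 4) ^ (-s)))) atTop
      (𝓝 ((∫ y, α y * Nn y ^ (-(q + 1))) + ∫ y, Lap G η y * Nn y ^ (-q))) := by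
    refine ((lim_int_RKer LA).add (lim_int_RKer LB)).congr fun n => ?_
    obtain ⟨h1, h2⟩ := int_lap_RKer G hI ⟨K1 n, hcs_RKer (K2 n), subset_univ _⟩
    have h3 : Integrable fun y : H × V =>
        α y * (Nn y + t n ^ 4) ^ (-(q + 1)) + Lap G η y * (Nn y + t n ^ 4) ^ (-q) :=
      (LA.1 n).add (LB.1 n)
    simp only [P2]
    rw [integral_sub h3 h1, h2, sub_zero, integral_add (LA.1 n) (LB.1 n)]
  refine ⟨fun n y => η y * (Nn y + t n ^ 4) ^ (-q),
    fun n y => α y * (Nn y + t n ^ 4) ^ (-(q + 1)) + Lap G η y * (Nn y + t n ^ 4) ^ (-q),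
    fun n y => η y * (c₁ * (t n ^ 4 * ‖y.1‖ ^ 2 * (Nn y + t n ^ 4) ^ (-s))), _, ?_,
    fun n => ⟨K1 n, (A1 n).add (B1 n), K2 n, tsupp_RKer fun y hy => ?_, P1 n,
      fun y => ⟨P0 n y, P2 n y⟩⟩, T, fun r hr => ?_, fun h => ?_⟩
  · refine (mul_pos c1 hc₀).trans_le (ge_of_tendsto' T fun n => ?_)
    refine le_trans ?_ (setIntegral_le_integral (s := ball 0 (2 * t n)) (P1 n)
      (Eventually.of_forall (P0 n)))
    refine (mul_le_mul_of_nonneg_left (hL (t n) (t0 n) (t1 n)) c1.le).trans (le_of_eq ?_)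
    rw [← integral_const_mul]
    refine setIntegral_congr_fun measurableSet_ball fun y hy => ?_
    simp only [η4 y (ball_subset_ball (t2 n) hy), one_mul]
  · simp only [image_eq_zero_of_notMem_tsupport fun h => hy (α2 h),
      image_eq_zero_of_notMem_tsupport fun h => hy (β2 h), zero_mul, add_zero]
  · obtain ⟨a, a0, ha⟩ := low_RKer (H := H) (V := V) hr
    have I1 : Integrable fun y : H × V => η y * (c₁ * (‖y.1‖ ^ 2 * a ^ (-s))) :=
      (η1.continuous.mul (continuous_const.mul ((continuous_fst.norm.pow 2).mul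
        continuous_const))).integrable_of_hasCompactSupport (hcs_RKer η2).mul_right
    have h1 := t3.mul_const (∫ y in (ball (0 : H × V) r)ᶜ, η y * (c₁ * (‖y.1‖ ^ 2 * a ^ (-s))))
    rw [zero_mul] at h1
    refine squeeze_zero (fun n => integral_nonneg (P0 n)) (fun n => ?_) h1
    rw [← integral_const_mul]
    refine setIntegral_mono_on (P1 n).integrableOn (I1.const_mul _).integrableOn
      measurableSet_ball.compl fun y hy => ?_
    have h2 : (Nn y + t n ^ 4) ^ (-s) ≤ a ^ (-s) :=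
      Real.rpow_le_rpow_of_nonpos a0 (by linarith [ha y hy, e0 n]) (by linarith)
    have h3 := η3 y
    have h4 := e0 n
    calc η y * (c₁ * (t n ^ 4 * ‖y.1‖ ^ 2 * (Nn y + t n ^ 4) ^ (-s)))
        ≤ η y * (c₁ * (t n ^ 4 * ‖y.1‖ ^ 2 * a ^ (-s))) := by gcongr
      _ = _ := by ring
  · have h1 := hD η q δ _ h hk q0 e0 t3 η1 η2 (Or.inl le_rfl)
    have h2 := hD α (q + 1) δ _ h hk (by linarith) e0 t3 α1 α2 (Or.inr α3)
    have h3 := hD (Lap G η) q δ _ h hk q0 e0 t3 β1 β2 (Or.inr β3)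
    refine ⟨h1.1, h1.2, ?_, ?_⟩
    · simp only [xl_add_RKer G h (A1 _) (B1 _)]
      exact cnv_add_RKer h2.1 h3.1
    · simp only [yr_add_RKer G h (A1 _) (B1 _)]
      exact cnv_add_RKer h2.2 h3.2

end Pool.Agent.MP_1048c2_an.Cl
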