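import Pool.Agent.MP_1048c2_an.Cl.RStmt

set_option linter.unusedSectionVars false

namespace Pool.Agent.MP_1048c2_an.Cl

open Filter Topology Set Module MeasureTheory Metric
open scoped InnerProductSpace ContDiff

variable {m k : ℕ} {H V : Type} [NormedAddCommGroup H] [InnerProductSpace ℝ H]
  [NormedAddCommGroup V] [InnerProductSpace ℝ V] [FiniteDimensional ℝ H] [FiniteDimensional ℝ V]
  [MeasurableSpace H] [BorelSpace H] [MeasurableSpace V] [BorelSpace V]

theorem smul_RLim {E : Type} [NormedAddCommGroup E] [NormedSpace ℝ E] {s : Set (H × V)}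
    (hs : Bornology.IsBounded s) {a : ℕ → H × V → ℝ} {A : H × V → ℝ} {l : H × V → E}
    (hl : Continuous l) (h : TendstoUniformlyOn a A atTop s) :
    TendstoUniformlyOn (fun n x => a n x • l x) (fun x => A x • l x) atTop s := by
  obtain ⟨C, hC⟩ := hs.isCompact_closure.exists_bound_of_continuousOn hl.continuousOn
  rw [Metric.tendstoUniformlyOn_iff] at h ⊢
  intro ε hε
  have h0 : 0 < |C| + 1 := by positivity
  filter_upwards [h (ε / (|C| + 1)) (by positivity)] with n hn x hx
  have h1 := hn x hx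
  rw [dist_eq_norm] at h1 ⊢
  rw [← sub_smul, norm_smul]
  rw [lt_div_iff₀ h0] at h1
  refine lt_of_le_of_lt (mul_le_mul_of_nonneg_left ?_ (norm_nonneg _)) h1
  linarith [hC x (subset_closure hx), le_abs_self C]

theorem sum_RLim {E : Type} [NormedAddCommGroup E] {s : Set (H × V)} {a : Fin m → ℕ → H × V → E}
    {A : Fin m → H × V → E} (h : ∀ i, TendstoUniformlyOn (a i) (A i) atTop s)
    (t : Finset (Fin m)) :
    TendstoUniformlyOn (fun n x => ∑ i ∈ t, a i n x) (fun x => ∑ i ∈ t, A i x) atTop s := by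
  induction t using Finset.induction_on with
  | empty =>
    simp only [Finset.sum_empty]
    exact Metric.tendstoUniformlyOn_iff.2 fun ε hε => Eventually.of_forall fun _ _ _ => by
      simpa using hε
  | insert i t hi ih =>
    simp only [Finset.sum_insert hi]
    exact (h i).add ih

theorem lim_st (G : HeisenbergType m k H V) : LimSt G := by
  intro s F f A B hk hs hb hF hf hA hB
  let l₁ : Fin m → H × V →L[ℝ] ℝ := fun i => innerSL ℝ (G.e i) ∘L ContinuousLinearMap.fst ℝ H V
  let l₂ : Fin m → Fin m → H × V → H × V →L[ℝ] ℝ := fun i j x =>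
    (m : ℝ)⁻¹ • (innerSL ℝ (G.e j) ∘L (JL G).flip (G.e i) ∘L (ContinuousLinearMap.snd ℝ H V -
      (1 / 2 : ℝ) • (BL G x.1 ∘L ContinuousLinearMap.fst ℝ H V)))
  have c₂ : ∀ i j, Continuous (l₂ i j) := fun i j =>
    (continuous_const.clm_comp (continuous_const.clm_comp (continuous_const.sub
      ((((BL G).continuous.comp continuous_fst).clm_comp continuous_const).const_smul
        (1 / 2 : ℝ))))).const_smul (m : ℝ)⁻¹
  have e : (fun n x => fderiv ℝ (F n) x) = fun n x => ∑ i, XL G (G.e i) (F n) x • l₁ i +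
      ∑ i, ∑ j, fderiv ℝ (F n) x (0, BL G (G.e i) (G.e j)) • l₂ i j x := by
    funext n x
    refine ContinuousLinearMap.ext fun v => ?_
    rw [frame G hk _ x.1 v]
    simp only [_root_.add_apply, _root_.sum_apply, _root_.smul_apply, smul_eq_mul, l₁, l₂, XL,
      ContinuousLinearMap.comp_apply, innerSL_apply_apply, ContinuousLinearMap.flip_apply,
      _root_.sub_apply,
      ContinuousLinearMap.coe_fst', ContinuousLinearMap.coe_snd']
    congr 1
    · exact Finset.sum_congr rfl fun i _ => mul_comm _ _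
    · refine Finset.sum_congr rfl fun i _ => Finset.sum_congr rfl fun j _ => ?_
      rw [real_inner_comm]
      ring
  obtain ⟨D, hD⟩ : ∃ D, TendstoUniformlyOn (fun n x => fderiv ℝ (F n) x) D atTop s := by
    have a1 := sum_RLim (fun i => smul_RLim (E := H × V →L[ℝ] ℝ) (l := fun _ => l₁ i) hb
      continuous_const (hA i)) Finset.univ
    have a2 := sum_RLim (fun i => sum_RLim (fun j => smul_RLim (E := H × V →L[ℝ] ℝ) hb (c₂ i j)
      (hB i j)) Finset.univ) Finset.univ
    rw [e]
    exact ⟨_, a1.add a2⟩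
  have h1 : ∀ x ∈ s, HasFDerivAt f (D x) x := fun x hx =>
    hasFDerivAt_of_tendstoUniformlyOn hs hD
      (fun n y _ => ((hF n).differentiable one_ne_zero y).hasFDerivAt) hf hx
  have h2 : ContinuousOn D s := hD.continuousOn
    (Frequently.of_forall fun n => ((hF n).continuous_fderiv one_ne_zero).continuousOn)
  have h3 : ∀ x ∈ s, ∀ v, Tendsto (fun n => fderiv ℝ (F n) x v) atTop (𝓝 (fderiv ℝ f x v)) :=
    fun x hx v => by
      rw [(h1 x hx).fderiv]
      exact ((ContinuousLinearMap.apply ℝ ℝ v).continuous.tendsto _).comp (hD.tendsto_at hx)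
  refine ⟨?_, fun x hx => ⟨fun i => tendsto_nhds_unique (h3 x hx _) ((hA i).tendsto_at hx),
    fun i j => tendsto_nhds_unique (h3 x hx _) ((hB i j).tendsto_at hx)⟩⟩
  rw [← zero_add (1 : WithTop ℕ∞), contDiffOn_succ_iff_fderiv_of_isOpen hs]
  exact ⟨fun x hx => (h1 x hx).differentiableAt.differentiableWithinAt, by simp,
    contDiffOn_zero.2 (h2.congr fun x hx => (h1 x hx).fderiv)⟩

end Pool.Agent.MP_1048c2_an.Cl
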