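import Pool.Agent.MP_1048c2_an.Cl.RStmt

set_option linter.unusedSectionVars false

namespace Pool.Agent.MP_1048c2_an.Cl

open Filter Topology Set Module MeasureTheory Metric
open scoped InnerProductSpace ContDiff

variable {m k : ℕ} {H V : Type} [NormedAddCommGroup H] [InnerProductSpace ℝ H]
  [NormedAddCommGroup V] [InnerProductSpace ℝ V] [FiniteDimensional ℝ H] [FiniteDimensional ℝ V]
  [MeasurableSpace H] [BorelSpace H] [MeasurableSpace V] [BorelSpace V]

theorem lin_st (G : HeisenbergType m k H V) : LinSt G := by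
  intro W F a g hW ha hne hF hg hWD heq ψ hψ
  have hXa : ∀ i, ContDiffOn ℝ ∞ (XL G (G.e i) a) W := fun i =>
    contDiffOn_XL G _ hW ha (n := ∞) (by simp)
  have dif : ∀ {u : H × V → ℝ}, ContDiffOn ℝ ∞ u W → ∀ x ∈ W, DifferentiableAt ℝ u x :=
    fun hu x hx => (hu.contDiffAt (hW.mem_nhds hx)).differentiableAt (by simp)
  have tA : ∀ i, Tst W fun x => a x * XL G (G.e i) ψ x := fun i => (hψ.xl G _).mul hW ha
  have tB : ∀ i, Tst W fun x => XL G (G.e i) a x * ψ x := fun i => hψ.mul hW (hXa i)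
  have tφ : Tst W fun x => (a x)⁻¹ * ψ x := hψ.mul hW (ha.inv hne)
  have tL : Tst W fun x => Lap G a x * ψ x := hψ.mul hW (contDiffOn_Lap G hW ha)
  have off : ∀ {u : H × V → ℝ}, Tst W u → ∀ x, x ∉ W → u x = 0 := fun hu x hx =>
    image_eq_zero_of_notMem_tsupport fun h => hx (hu.2.2 h)
  have e1 : ∀ x, a x ^ 2 * ∑ i, g i x * XL G (G.e i) (fun x => (a x)⁻¹ * ψ x) x =
      ∑ i, (g i x * (a x * XL G (G.e i) ψ x) - g i x * (XL G (G.e i) a x * ψ x)) := by
    intro x
    rw [Finset.mul_sum]
    refine Finset.sum_congr rfl fun i _ => ?_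
    by_cases hx : x ∈ W
    · have h1 : ψ =ᶠ[𝓝 x] fun y => a y * ((a y)⁻¹ * ψ y) := by
        filter_upwards [hW.mem_nhds hx] with y hy
        rw [mul_inv_cancel_left₀ (hne y hy)]
      rw [XL_congr G h1, XL_mul G (dif ha x hx) (dif tφ.1.contDiffOn x hx)]
      have h2 := hne x hx
      field_simp
      ring
    · rw [off (tφ.xl G _) x hx, off (hψ.xl G _) x hx, off hψ x hx]
      ring
  have e2 : ∀ x, a x * F x * Lap G ψ x = F x * (Lap G a x * ψ x) +
      ∑ i, (F x * XL G (G.e i) (fun x => a x * XL G (G.e i) ψ x) x -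
        F x * XL G (G.e i) (fun x => XL G (G.e i) a x * ψ x) x) := by
    intro x
    rw [Lap, Lap, Finset.sum_mul, Finset.mul_sum, Finset.mul_sum, ← Finset.sum_add_distrib]
    refine Finset.sum_congr rfl fun i _ => ?_
    by_cases hx : x ∈ W
    · rw [XL_mul G (dif ha x hx) (dif (hψ.xl G _).1.contDiffOn x hx),
        XL_mul G (dif (hXa i) x hx) (dif hψ.1.contDiffOn x hx)]
      ring
    · rw [off ((hψ.xl G _).xl G _) x hx, off ((tA i).xl G _) x hx, off ((tB i).xl G _) x hx,
        off hψ x hx]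
      ring
  have j1 : ∀ i, Integrable fun x =>
      g i x * (a x * XL G (G.e i) ψ x) - g i x * (XL G (G.e i) a x * ψ x) := fun i =>
    ((tA i).integrable (hg i)).sub ((tB i).integrable (hg i))
  have j2 : ∀ i, Integrable fun x => F x * XL G (G.e i) (fun x => a x * XL G (G.e i) ψ x) x -
      F x * XL G (G.e i) (fun x => XL G (G.e i) a x * ψ x) x := fun i =>
    (((tA i).xl G _).integrable hF).sub (((tB i).xl G _).integrable hF)
  have i1 := heq _ tφ
  simp only [e1] at i1
  rw [integral_finsetSum _ fun i _ => j1 i] at i1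
  simp only [e2]
  rw [integral_add (tL.integrable hF) (integrable_finsetSum _ fun i _ => j2 i),
    integral_finsetSum _ fun i _ => j2 i]
  have i2 : ∑ i, ∫ x, (F x * XL G (G.e i) (fun x => a x * XL G (G.e i) ψ x) x -
      F x * XL G (G.e i) (fun x => XL G (G.e i) a x * ψ x) x) = 0 := by
    rw [← neg_eq_zero, ← i1, ← Finset.sum_neg_distrib]
    refine Finset.sum_congr rfl fun i _ => ?_
    rw [integral_sub (((tA i).xl G _).integrable hF) (((tB i).xl G _).integrable hF),
      integral_sub ((tA i).integrable (hg i)) ((tB i).integrable (hg i)), hWD i _ (tA i),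
      hWD i _ (tB i)]
    ring
  rw [i2, add_zero]
  refine integral_congr_ae (Eventually.of_forall fun x => ?_)
  simp only
  ring

end Pool.Agent.MP_1048c2_an.Cl
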