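import Pool.Agent.MP_1048c2_an.Cl.RStmt

/-!
Regularity of weak solutions: a lower bound for the mass.
-/

set_option linter.unusedSectionVars false

namespace Pool.Agent.MP_1048c2_an.Cl

open Filter Topology Set Module MeasureTheory Metric
open scoped InnerProductSpace ContDiff

variable {m k : ℕ} {H V : Type} [NormedAddCommGroup H] [InnerProductSpace ℝ H]
  [NormedAddCommGroup V] [InnerProductSpace ℝ V] [FiniteDimensional ℝ H] [FiniteDimensional ℝ V]
  [MeasurableSpace H] [BorelSpace H] [MeasurableSpace V] [BorelSpace V]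

theorem pow_RLow {t : ℝ} (ht : 0 < t) :
    (t ^ 4) ^ (-((homDim m k + 6) / 4)) = (t ^ m * (t ^ 2) ^ k * t ^ 6)⁻¹ := by
  rw [← Real.rpow_natCast t 4, ← Real.rpow_mul ht.le, ← pow_mul, ← pow_add, ← pow_add,
    ← Real.rpow_natCast, ← Real.rpow_neg ht.le]
  congr 1
  simp only [homDim]
  push_cast
  ring

theorem low_st : LowSt m k H V := by
  intro hm hk h0
  have : Nontrivial H := Module.nontrivial_of_finrank_pos (R := ℝ) (hm ▸ h0)
  obtain ⟨e, he⟩ := exists_norm_eq H zero_le_one
  have hs : -((homDim m k + 6) / 4) ≤ 0 := by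
    simp only [homDim]
    exact neg_nonpos.2 (by positivity)
  generalize hs' : -((homDim m k + 6) / 4) = s at hs
  have a0 : 0 < (volume : Measure H).real (ball 0 1) :=
    ENNReal.toReal_pos (measure_ball_pos _ _ one_pos).ne' measure_ball_lt_top.ne
  have b0 : 0 < (volume : Measure V).real (ball 0 1) :=
    ENNReal.toReal_pos (measure_ball_pos _ _ one_pos).ne' measure_ball_lt_top.ne
  refine ⟨1 / 4 * 23 ^ s * ((1 / 2) ^ m * (volume : Measure H).real (ball 0 1) *
    (volume : Measure V).real (ball 0 1)), by positivity, fun t ht ht1 => ?_⟩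
  have hN : ∀ y : H × V, 0 < Nn y + t ^ 4 := fun y => by
    simp only [Nn]
    positivity
  have hc : Continuous fun y : H × V => t ^ 4 * ‖y.1‖ ^ 2 * (Nn y + t ^ 4) ^ s := by
    refine Continuous.mul (by fun_prop) (Continuous.rpow_const ?_ fun y => Or.inl (hN y).ne')
    unfold Nn
    fun_prop
  have hi : IntegrableOn (fun y : H × V => t ^ 4 * ‖y.1‖ ^ 2 * (Nn y + t ^ 4) ^ s)
      (ball 0 (2 * t)) :=
    (hc.continuousOn.integrableOn_compact (isCompact_closedBall 0 (2 * t))).mono_set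
      ball_subset_closedBall
  have hb : ∀ y ∈ ball (t • e) (t / 2), t / 2 ≤ ‖y‖ ∧ ‖y‖ ≤ 3 / 2 * t := fun y hy => by
    have h1 := abs_norm_sub_norm_le y (t • e)
    rw [mem_ball, dist_eq_norm] at hy
    rw [norm_smul, he, mul_one, Real.norm_of_nonneg ht.le, abs_le] at h1
    constructor <;> linarith [h1.1, h1.2]
  have hS : ball (t • e) (t / 2) ×ˢ ball (0 : V) (t ^ 2) ⊆ ball (0 : H × V) (2 * t) := by
    rintro ⟨y, z⟩ ⟨hy, hz⟩
    rw [mem_ball_zero_iff] at hz ⊢
    rw [Prod.norm_def, max_lt_iff]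
    exact ⟨by linarith [(hb y hy).2], by nlinarith⟩
  have hv : (volume : Measure (H × V)).real (ball (t • e) (t / 2) ×ˢ ball (0 : V) (t ^ 2)) =
      (t / 2) ^ m * (volume : Measure H).real (ball 0 1) *
        ((t ^ 2) ^ k * (volume : Measure V).real (ball 0 1)) := by
    rw [Measure.volume_eq_prod, measureReal_prod_prod, Measure.real, Measure.real,
      Measure.addHaar_ball_of_pos _ _ (half_pos ht), Measure.addHaar_ball_of_pos _ _ (pow_pos ht 2),
      ENNReal.toReal_mul, ENNReal.toReal_mul, ENNReal.toReal_ofReal (by positivity),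
      ENNReal.toReal_ofReal (by positivity), hm, hk]
    rfl
  refine le_trans ?_ (setIntegral_mono_set hi (Eventually.of_forall fun y =>
    mul_nonneg (by positivity) (Real.rpow_nonneg (hN y).le _)) hS.eventuallyLE)
  refine le_trans (le_of_eq ?_) (setIntegral_ge_of_const_le_real
    (c := t ^ 4 * (t / 2) ^ 2 * (23 * t ^ 4) ^ s) (measurableSet_ball.prod measurableSet_ball)
    ((measure_mono hS).trans_lt measure_ball_lt_top).ne (fun y hy => ?_) (hi.mono_set hS))
  · rw [hv, Real.mul_rpow (by norm_num) (by positivity), ← hs', pow_RLow ht, hs', div_pow,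
      div_pow t 2 m, one_pow]
    field_simp
    ring
  · obtain ⟨h1, h2⟩ := hb _ hy.1
    have h3 : ‖y.2‖ ≤ t ^ 2 := (mem_ball_zero_iff.1 hy.2).le
    have h4 : ‖y.1‖ ^ 4 ≤ (3 / 2 * t) ^ 4 := by gcongr
    have h5 : ‖y.2‖ ^ 2 ≤ (t ^ 2) ^ 2 := by gcongr
    have h6 : Nn y + t ^ 4 ≤ 23 * t ^ 4 := by
      simp only [Nn]
      nlinarith [pow_pos ht 4]
    have h7 := Real.rpow_le_rpow_of_nonpos (hN y) h6 hs
    gcongr

end Pool.Agent.MP_1048c2_an.Cl
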