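import Pool.Agent.MP_1048c2_an.Cl.RStmt

/-!
Regularity of weak solutions: mollification on the group.
-/

set_option linter.unusedSectionVars false

namespace Pool.Agent.MP_1048c2_an.Cl

open Filter Topology Set Module MeasureTheory Metric
open scoped InnerProductSpace ContDiff

variable {m k : ℕ} {H V : Type} [NormedAddCommGroup H] [InnerProductSpace ℝ H]
  [NormedAddCommGroup V] [InnerProductSpace ℝ V] [FiniteDimensional ℝ H] [FiniteDimensional ℝ V]
  [MeasurableSpace H] [BorelSpace H] [MeasurableSpace V] [BorelSpace V]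

theorem der_RMol (G : HeisenbergType m k H V) {κ : H × V → ℝ} (hκ : Differentiable ℝ κ) (h : H)
    (x w : H × V) : fderiv ℝ (fun q : (H × V) × H × V => κ (gm G q.2 (-q.1))) (x, w)
      ((h, (1 / 2 : ℝ) • BL G x.1 h), 0) = -XL G h (fun w => κ (gm G w (-x))) w := by
  obtain ⟨L, h1, h2⟩ := hasFDerivAt_gm G (hasFDerivAt_snd (𝕜 := ℝ) (p := (x, w)))
    (hasFDerivAt_fst (𝕜 := ℝ) (p := (x, w))).neg
  obtain ⟨L', h3, h4⟩ := hasFDerivAt_gm G (hasFDerivAt_id w) (hasFDerivAt_const (-x) w)
  have h5 := ((hκ _).hasFDerivAt.comp (x, w) h1).fderiv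
  have h6 := ((hκ _).hasFDerivAt.comp w h3).fderiv
  refine (congrArg (fun T : (H × V) × H × V →L[ℝ] ℝ => T _) h5).trans ?_
  refine Eq.trans ?_ (congrArg (fun T : H × V →L[ℝ] ℝ => -T (h, (1 / 2 : ℝ) • BL G w.1 h)) h6).symm
  simp only [ContinuousLinearMap.comp_apply, h2, h4, ← map_neg]
  refine congrArg (fderiv ℝ κ (gm G w (-x))) ?_
  simp [BL_swap G h x.1]

theorem tst_RMol (G : HeisenbergType m k H V) {W : Set (H × V)} {κ : H × V → ℝ} {δ : ℝ}
    {x : H × V} (h1 : ContDiff ℝ ∞ κ) (h2 : tsupport κ ⊆ closedBall 0 δ)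
    (h3 : ∀ y ∈ closedBall (0 : H × V) δ, gm G y x ∈ W) : Tst W fun w => κ (gm G w (-x)) := by
  have h4 : tsupport (fun w => κ (gm G w (-x))) ⊆ (fun y => gm G y x) '' closedBall 0 δ :=
    closure_minimal (fun y hy => ⟨_, h2 (subset_tsupport _ hy), gm_neg_right G x y⟩)
      ((isCompact_closedBall _ _).image (gmR G x).continuous).isClosed
  refine ⟨h1.comp (contDiff_gm G contDiff_id contDiff_const),
    ((isCompact_closedBall _ _).image (gmR G x).continuous).of_isClosed_subset
      (isClosed_tsupport _) h4, h4.trans ?_⟩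
  rintro _ ⟨y, hy, rfl⟩
  exact h3 y hy

theorem far_RMol (G : HeisenbergType m k H V) {κ : H × V → ℝ} {δ : ℝ}
    (h2 : tsupport κ ⊆ closedBall 0 δ) (r : ℝ) :
    ∃ R : ℝ, ∀ x y : H × V, ‖x‖ ≤ r → R ≤ ‖y‖ → κ (gm G y (-x)) = 0 := by
  obtain ⟨C, hC⟩ := ((isCompact_closedBall (0 : H × V) δ).prod
    (isCompact_closedBall (0 : H × V) r)).exists_bound_of_continuousOn
    (continuous_gm G continuous_fst continuous_snd).continuousOn
  refine ⟨C + 1, fun x y hx hy => by_contra fun e => ?_⟩
  have := hC (gm G y (-x), x) ⟨h2 (subset_tsupport _ e), mem_closedBall_zero_iff.2 hx⟩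
  rw [gm_neg_right] at this
  linarith

theorem avg_RMol (G : HeisenbergType m k H V) (ρ : ContDiffBump (0 : H × V)) {u : H × V → ℝ}
    {a b : ℝ} (hu : AEStronglyMeasurable u volume) (h : ∀ᵐ y, u y ∈ Icc a b) (x : H × V) :
    ∫ w, u w * ρ.normed volume (gm G w (-x)) ∈ Icc a b := by
  have h1 : Integrable fun w => ρ.normed volume (gm G w (-x)) :=
    (mp_right G (-x)).integrable_comp_of_integrable ρ.integrable_normed
  have h2 : ∀ c : ℝ, ∫ w, c * ρ.normed volume (gm G w (-x)) = c := fun c => by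
    rw [integral_const_mul, integral_right, ρ.integral_normed, mul_one]
  have h3 : Integrable fun w => u w * ρ.normed volume (gm G w (-x)) :=
    h1.bdd_mul (c := max |a| |b|) hu (h.mono fun y hy => abs_le_max_abs_abs hy.1 hy.2)
  exact ⟨(h2 a).ge.trans (integral_mono_ae (h1.const_mul a) h3 (h.mono fun y hy =>
      mul_le_mul_of_nonneg_right hy.1 (ρ.nonneg_normed _))),
    (integral_mono_ae h3 (h1.const_mul b) (h.mono fun y hy =>
      mul_le_mul_of_nonneg_right hy.2 (ρ.nonneg_normed _))).trans_eq (h2 b)⟩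

theorem mol_st (G : HeisenbergType m k H V) (hD : DiffSt H V) (hA : AISt H V) (hF : FubSt G) :
    MolSt G := by
  intro W K h f g a b M hW hK hKW hc hfm hgm hab hM hd
  obtain ⟨δ, δ0, hδ⟩ : ∃ δ, 0 < δ ∧ ∀ x ∈ K, ∀ y ∈ closedBall (0 : H × V) δ, gm G y x ∈ W := by
    obtain ⟨u, v, hu, -, h1, h2, h3⟩ := generalized_tube_lemma
      (isCompact_singleton (x := (0 : H × V))) hK
      (hW.preimage (continuous_gm G continuous_fst continuous_snd)) (by
        rintro ⟨y, x⟩ ⟨rfl, hx⟩
        simpa [zero_gm] using hKW hx)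
    obtain ⟨δ, h4, h5⟩ := nhds_basis_closedBall.mem_iff.1 (hu.mem_nhds (h1 rfl))
    exact ⟨δ, h4, fun x hx y hy => h3 (mk_mem_prod (h5 hy) (h2 hx))⟩
  let ρ : ℕ → ContDiffBump (0 : H × V) := fun n =>
    ⟨δ / (n + 1) / 2, δ / (n + 1), by positivity, half_lt_self (by positivity)⟩
  have r0 : Tendsto (fun n => (ρ n).rOut) atTop (𝓝 0) :=
    tendsto_const_nhds.div_atTop (tendsto_atTop_add_const_right _ 1 tendsto_natCast_atTop_atTop)
  have hs : ∀ n, tsupport ((ρ n).normed volume) ⊆ closedBall 0 δ := fun n => by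
    rw [(ρ n).tsupport_normed_eq]
    exact closedBall_subset_closedBall (div_le_self δ0.le (by simp))
  have hf : MemLp f ⊤ volume := memLp_top_of_bound hfm (max |a| |b|)
    (Eventually.of_forall fun y => abs_le_max_abs_abs (hab y).1 (hab y).2)
  have h1 := fun n => hD f (fun q => (ρ n).normed volume (gm G q.2 (-q.1)))
    (hf.locallyIntegrable le_top)
    ((ρ n).contDiff_normed.comp (contDiff_gm G contDiff_snd contDiff_fst.neg)) (far_RMol G (hs n))
  have h2 : ∀ n, ∀ x ∈ K, XL G h (fun x => ∫ w, f w * (ρ n).normed volume (gm G w (-x))) x =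
      ∫ w, g w * (ρ n).normed volume (gm G w (-x)) := fun n x hx => by
    refine ((h1 n).2 x _).trans ?_
    simp only [der_RMol G (((ρ n).contDiff_normed (μ := volume) (n := 1)).differentiable
      one_ne_zero), mul_neg, integral_neg]
    rw [hd _ (tst_RMol G (ρ n).contDiff_normed (hs n) (hδ x hx)), neg_neg]
  refine ⟨fun n x => ∫ w, f w * (ρ n).normed volume (gm G w (-x)), fun n => (h1 n).1,
    fun n => avg_RMol G _ hfm (Eventually.of_forall hab), fun x hx => ?_, fun n x hx => ?_,
    fun ψ hψ h0 => ?_⟩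
  · have h3 := hA (fun n => (ρ n).normed volume) 1 (fun y => f (gm G y x))
      (fun n => (ρ n).integrable_normed) (fun n => (ρ n).nonneg_normed)
      (by simp only [ContDiffBump.integral_normed]; exact tendsto_const_nhds)
      (fun r hr => tendsto_const_nhds.congr' ((r0.eventually (gt_mem_nhds hr)).mono fun n hn =>
        (setIntegral_eq_zero_of_forall_eq_zero fun y (hy : y ∈ (ball 0 r)ᶜ) => by_contra fun e =>
          hy (ball_subset_ball hn.le (((ρ n).support_normed_eq (μ := volume)).le e))).symm))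
      (hf.comp_measurePreserving (mp_right G x))
      (ContinuousAt.comp_of_eq (hc.continuousAt (hW.mem_nhds (hKW hx)))
        (gmR G x).continuous.continuousAt (zero_gm G x))
    rw [one_mul, zero_gm] at h3
    refine h3.congr fun n => ?_
    refine Eq.trans ?_ (integral_right G x fun w => f w * (ρ n).normed volume (gm G w (-x)))
    simp only [gm_gm_neg]
  · rw [h2 n x hx]
    exact abs_le.2 (avg_RMol G _ hgm (hM.mono fun y hy => abs_le.1 hy) x)
  · refine (hF g ψ ρ (memLp_top_of_bound hgm M hM) hψ (HasCompactSupport.intro hK h0) r0).congr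
      fun n => integral_congr_ae (Eventually.of_forall fun x => ?_)
    by_cases hx : x ∈ K
    · simp only [h2 n x hx]
    · simp only [h0 x hx, mul_zero]

end Pool.Agent.MP_1048c2_an.Cl
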