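import Pool.Agent.MP_1048c2_an.Cl.RStmt
set_option linter.unusedSectionVars false
namespace Pool.Agent.MP_1048c2_an.Cl
open Filter Topology Set Module MeasureTheory Metric
open scoped InnerProductSpace ContDiff
variable {m k : ℕ} {H V : Type} [NormedAddCommGroup H] [InnerProductSpace ℝ H] [NormedAddCommGroup V] [InnerProductSpace ℝ V] [FiniteDimensional ℝ H] [FiniteDimensional ℝ V] [MeasurableSpace H] [BorelSpace H] [MeasurableSpace V] [BorelSpace V]

theorem prod_st (G : HeisenbergType m k H V) : ProdSt G := by
  intro W h u g a hW ha hu hg hw φ hφ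
  have h1 := hw _ (hφ.mul hW ha)
  have h2 : ∀ x, XL G h (fun y => a y * φ y) x = a x * XL G h φ x + XL G h a x * φ x := by
    intro x
    by_cases hx : x ∈ tsupport φ
    · exact XL_mul G ((ha.contDiffAt (hW.mem_nhds (hφ.2.2 hx))).differentiableAt (by simp))
        (hφ.1.differentiable (by simp) x)
    · rw [XL_of_notMem G hx, XL_of_notMem G fun h' => hx (tsupport_mul_subset_right h'),
        image_eq_zero_of_notMem_tsupport hx]
      simp
  have i1 := ((hφ.xl G h).mul hW ha).integrable hu
  have i2 := (hφ.mul hW (contDiffOn_XL G h hW ha (n := ∞) (by simp))).integrable hu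
  have i3 := (hφ.mul hW ha).integrable hg
  simp only [h2, mul_add] at h1
  rw [integral_add i1 i2] at h1
  have e1 : ∀ x, a x * u x * XL G h φ x = u x * (a x * XL G h φ x) := fun x => by ring
  have e2 : ∀ x, (a x * g x + XL G h a x * u x) * φ x =
      g x * (a x * φ x) + u x * (XL G h a x * φ x) := fun x => by ring
  simp only [e1, e2]
  rw [integral_add i3 i2]
  linarith

end Pool.Agent.MP_1048c2_an.Cl
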