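import Pool.Agent.MP_1048c2_an.Cl.RStmt

set_option linter.unusedSectionVars false

namespace Pool.Agent.MP_1048c2_an.Cl

open Filter Topology Set Module MeasureTheory Metric
open scoped InnerProductSpace ContDiff

variable {m k : ℕ} {H V : Type} [NormedAddCommGroup H] [InnerProductSpace ℝ H]
  [NormedAddCommGroup V] [InnerProductSpace ℝ V] [FiniteDimensional ℝ H] [FiniteDimensional ℝ V]
  [MeasurableSpace H] [BorelSpace H] [MeasurableSpace V] [BorelSpace V]

theorem reg1_st (G : HeisenbergType m k H V) (hB : BootSt G) (hC : ChainSt G) (hP : ProdSt G)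
    (hL : LinSt G) : Reg1St G := by
  intro p R Ω f g hk hp hQ hR hf hI
  obtain ⟨hg, hw, hc, hpos, -, -⟩ := hf
  set Q := homDim m k with hQd
  have hQ4 : 4 ≤ Q := by
    obtain ⟨j, hj⟩ := m_even G hk
    have h1 := m_pos G hk
    have h2 : 4 ≤ m + 2 * k := by omega
    rw [hQd, homDim]
    exact_mod_cast h2
  have hQp : 0 < Q - p := sub_pos.2 hQ
  have hp1 : 0 < p - 1 := sub_pos.2 hp
  have hc0 : 0 < cConst m k p R := by unfold cConst; positivity
  set c := cConst m k p R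
  set ν : ℝ := (Q + p - 2) / (Q - p) with hν
  set b : ℝ := ν * (p - 2) + 1 with hb
  have hb0 : 0 < b := by
    have h1 : b = (p - 1) * (Q + p - 4) / (Q - p) := by rw [hb, hν]; field_simp; ring
    have h2 : 0 < Q + p - 4 := by linarith
    rw [h1]
    positivity
  have hW := U0_open (H := H) (V := V) Ω
  have hsub : U0 Ω ⊆ (closure Ω)ᶜ := inter_subset_left
  have hf0 : ∀ x ∈ U0 Ω, 0 < f x := fun x hx => hpos x fun h => hx.1 (subset_closure h)
  have hz : ∀ x ∈ U0 Ω, 0 < ‖x.1‖ := fun x hx => norm_pos_iff.2 hx.2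
  have hfc : ContinuousOn f (U0 Ω) := hc.mono fun x hx h => hx.1 (subset_closure h)
  have hpow : ∀ s : ℝ, ContinuousOn (fun x => f x ^ s) (U0 Ω) := fun s =>
    hfc.rpow_const fun x hx => Or.inl (hf0 x hx).ne'
  have hN : ∀ᵐ x, x ∈ U0 Ω → √(∑ i, g i x ^ 2) = c * ‖x.1‖ * f x ^ ν := by
    filter_upwards [hI] with x h0 hx
    have h1 := h0 hx.1
    have h2 := hf0 x hx
    have h3 := hz x hx
    rw [weakP, div_eq_iff (Real.rpow_pos_of_pos h2 _).ne', mul_div_assoc, ← hQd, ← hν,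
      mul_comm p, Real.rpow_mul h2.le, ← Real.mul_rpow hc0.le h3.le,
      ← Real.mul_rpow (by positivity) (by positivity)] at h1
    exact (Real.rpow_left_inj (Real.sqrt_nonneg _) (by positivity) (by linarith)).1 h1
  have hLB : ∀ i, LB (U0 Ω) (g i) := fun i => by
    refine ⟨((hg i).1.mono_set hsub).aestronglyMeasurable, fun x => c * ‖x.1‖ * f x ^ ν,
      (continuousOn_const.mul continuous_fst.norm.continuousOn).mul (hpow ν), ?_⟩
    filter_upwards [hN] with x h0 hx
    rw [← h0 hx]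
    exact Real.abs_le_sqrt (Finset.single_le_sum (f := fun i => g i x ^ 2)
      (fun i _ => sq_nonneg _) (Finset.mem_univ i))
  have hWD : ∀ i, WD G (U0 Ω) (G.e i) f (g i) := fun i φ hφ => by
    rw [← X_eq]
    exact (hw φ (tst_iff.1 (hφ.mono hsub))).1 i
  have hWD1 := fun i => hC (U0 Ω) (G.e i) f (g i) b hW hfc hf0 (hLB i) (hWD i)
  have hLB1 : ∀ i, LB (U0 Ω) fun x => b * f x ^ (b - 1) * g i x := fun i =>
    (LB.of_cont hW (continuousOn_const.mul (hpow _))).mul (hLB i)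
  have hF : LB (U0 Ω) fun x => f x ^ b := LB.of_cont hW (hpow b)
  set a : H × V → ℝ := fun x => (‖x.1‖ ^ 2) ^ ((p - 2) / 4) with ha
  have ha0 : ∀ x ∈ U0 Ω, 0 < a x := fun x hx => Real.rpow_pos_of_pos (pow_pos (hz x hx) 2) _
  have has : ContDiffOn ℝ ∞ a (U0 Ω) :=
    (contDiffOn_fst.norm_sq ℝ).rpow_const_of_ne fun x hx => (pow_pos (hz x hx) 2).ne'
  have ha2 : ∀ x, a x ^ 2 = ‖x.1‖ ^ (p - 2) := fun x => by
    simp only [ha]
    rw [← Real.rpow_natCast, ← Real.rpow_natCast, ← Real.rpow_mul (norm_nonneg _),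
      ← Real.rpow_mul (norm_nonneg _)]
    congr 1
    push_cast
    ring
  have hE : ∀ φ, Tst (U0 Ω) φ →
      ∫ x, a x ^ 2 * ∑ i, b * f x ^ (b - 1) * g i x * XL G (G.e i) φ x = 0 := by
    intro φ hφ
    have h4 := (hw φ (tst_iff.1 (hφ.mono hsub))).2
    rw [← mul_zero (b / c ^ (p - 2)), ← h4, ← integral_const_mul]
    refine integral_congr_ae ?_
    filter_upwards [hN] with x h0
    simp only [X_eq]
    by_cases hx : x ∈ tsupport φ
    · have hx' := hφ.2.2 hx
      have h2 := hf0 x hx'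
      have h3 := hz x hx'
      have h5 := (Real.rpow_pos_of_pos hc0 (p - 2)).ne'
      rw [h0 hx', ha2, Real.mul_rpow (by positivity) (by positivity), Real.mul_rpow hc0.le h3.le,
        ← Real.rpow_mul h2.le, show b - 1 = ν * (p - 2) by rw [hb]; ring]
      simp only [mul_assoc, ← Finset.mul_sum]
      field_simp
    · simp [XL_of_notMem G hx]
  have h1 := hL (U0 Ω) (fun x => f x ^ b) a (fun i x => b * f x ^ (b - 1) * g i x) hW has
    (fun x hx => (ha0 x hx).ne') (hF.loc hW) (fun i => (hLB1 i).loc hW) hWD1 hE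
  have h2 := hB (U0 Ω) (fun x => a x * f x ^ b) (fun x => Lap G a x / a x)
    (fun i x => a x * (b * f x ^ (b - 1) * g i x) + XL G (G.e i) a x * f x ^ b) hk hW
    ((contDiffOn_Lap G hW has).div has fun x hx => (ha0 x hx).ne')
    (has.continuousOn.mul (hpow b))
    (fun i => ((LB.of_cont hW has.continuousOn).mul (hLB1 i)).add
      ((LB.of_cont hW (contDiffOn_XL G _ hW has (n := ∞) (by simp)).continuousOn).mul hF))
    (fun i => hP (U0 Ω) (G.e i) _ _ a hW has (hF.loc hW) ((hLB1 i).loc hW) (hWD1 i))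
    (fun ψ hψ => (h1 ψ hψ).trans (integral_congr_tst hψ.2.2 fun x hx => by
      have := (ha0 x hx).ne'
      field_simp)) 3
  have h3 : ContDiffOn ℝ 3 (fun x => (a x * f x ^ b / a x) ^ b⁻¹) (U0 Ω) :=
    (ContDiffOn.div (by exact_mod_cast h2) (contDiffOn_infty.1 has 3)
      fun x hx => (ha0 x hx).ne').rpow_const_of_ne fun x hx =>
        (div_pos (mul_pos (ha0 x hx) (Real.rpow_pos_of_pos (hf0 x hx) b)) (ha0 x hx)).ne'
  refine h3.congr fun x hx => ?_
  rw [mul_div_cancel_left₀ _ (ha0 x hx).ne', Real.rpow_rpow_inv (hf0 x hx).le hb0.ne']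

end Pool.Agent.MP_1048c2_an.Cl
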