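import Pool.Agent.MP_1048c2_an.Cl.RStmt

/-!
Regularity of weak solutions: the identities hold for the classical derivatives.
-/

set_option linter.unusedSectionVars false

namespace Pool.Agent.MP_1048c2_an.Cl

open Filter Topology Set Module MeasureTheory Metric
open scoped InnerProductSpace ContDiff

variable {m k : ℕ} {H V : Type} [NormedAddCommGroup H] [InnerProductSpace ℝ H]
  [NormedAddCommGroup V] [InnerProductSpace ℝ V] [FiniteDimensional ℝ H] [FiniteDimensional ℝ V]
  [MeasurableSpace H] [BorelSpace H] [MeasurableSpace V] [BorelSpace V]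

theorem reg2_st (G : HeisenbergType m k H V) (hU : UniqSt G) : Reg2St G := by
  intro p R Ω f g hp hS hP hf
  obtain ⟨h1, h2, -, hpos, -, -⟩ := hS
  have hW := U0_open Ω
  have hsub : U0 Ω ⊆ (closure Ω)ᶜ := inter_subset_left
  have hf1 : ContDiffOn ℝ 1 f (U0 Ω) := hf.of_le (by norm_num)
  have hae : ∀ᵐ x, ∀ i, x ∈ U0 Ω → g i x = X G i f x := by
    refine ae_all_iff.2 fun i => ?_
    rw [X_eq]
    refine hU _ _ _ _ hW hf1 ((h1 i).1.mono_set hsub) fun φ hφ => ?_
    rw [← X_eq]
    exact (h2 φ (tst_iff.1 (hφ.mono hsub))).1 i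
  refine ⟨?_, fun φ hφ => ?_⟩
  · have hX : ∀ i, ContinuousOn (X G i f) (U0 Ω) := fun i => by
      rw [X_eq]
      exact (contDiffOn_XL G _ hW hf1 (n := 0) (by norm_num)).continuousOn
    have hf0 : ∀ x ∈ U0 Ω, 0 < f x := fun x hx => hpos x fun h => hx.1 (subset_closure h)
    have c1 : ContinuousOn (pFunction G p f) (U0 Ω) := by
      refine ContinuousOn.div (ContinuousOn.rpow_const ?_ fun x _ => Or.inr (by linarith))
        (hf.continuousOn.rpow_const fun x hx => Or.inl (hf0 x hx).ne')
        fun x hx => (Real.rpow_pos_of_pos (hf0 x hx) _).ne'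
      exact (continuousOn_finsetSum _ fun i _ => (hX i).pow 2).sqrt
    have c2 : ContinuousOn (fun x : H × V => cConst m k p R ^ p * ‖x.1‖ ^ p) (U0 Ω) :=
      continuousOn_const.mul (continuous_fst.norm.continuousOn.rpow_const
        fun x _ => Or.inr (by linarith))
    refine Measure.eqOn_open_of_ae_eq (μ := volume) ?_ hW c1 c2
    refine (ae_restrict_iff' hW.measurableSet).2 ?_
    filter_upwards [hae, hP] with x a1 a2 hx
    rw [← a2 hx.1, pFunction, weakP, horGradNorm]
    simp only [fun i => a1 i hx]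
  · rw [← (h2 φ (tst_iff.1 (hφ.mono hsub))).2]
    refine integral_congr_ae ?_
    filter_upwards [hae] with x a1
    by_cases hx : x ∈ U0 Ω
    · simp only [horGradNorm, fun i => a1 i hx]
    · have h0 : ∀ i, X G i φ x = 0 := fun i => by
        rw [X_eq]
        exact XL_of_notMem G fun h => hx (hφ.2.2 h)
      simp only [h0, mul_zero, Finset.sum_const_zero]

end Pool.Agent.MP_1048c2_an.Cl
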