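import Pool.Agent.MP_1048c2_an.Cl.RStmt
set_option linter.unusedSectionVars false
namespace Pool.Agent.MP_1048c2_an.Cl
open Filter Topology Set Module MeasureTheory Metric
open scoped InnerProductSpace ContDiff
variable {m k : ℕ} {H V : Type} [NormedAddCommGroup H] [InnerProductSpace ℝ H] [NormedAddCommGroup V] [InnerProductSpace ℝ V] [FiniteDimensional ℝ H] [FiniteDimensional ℝ V] [MeasurableSpace H] [BorelSpace H] [MeasurableSpace V] [BorelSpace V]

theorem smo_st (G : HeisenbergType m k H V) : SmoSt G := by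
  intro W u κ j δ x hW hu hκ hx
  rcases lt_or_ge δ 0 with hδ | hδ
  · have h0 : cv G u κ = fun _ => 0 := by
      funext p
      have h1 : ∀ y, κ y = 0 := fun y =>
        hκ.2 y (by rw [closedBall_eq_empty.2 hδ]; exact notMem_empty _)
      rw [cv_eq]
      simp [h1]
    rw [h0]
    exact contDiffAt_const
  have hc : Continuous fun z : (H × V) × H × V => gm G z.1 z.2 :=
    continuous_gm G continuous_fst continuous_snd
  obtain ⟨s, t, hs, ht, hxs, hbt, hst⟩ := generalized_tube_lemma isCompact_singleton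
    (isCompact_closedBall (0 : H × V) δ) (hW.preimage hc) (by
      rintro ⟨p, y⟩ ⟨hp, hy⟩
      obtain rfl : p = x := hp
      exact hx y hy)
  obtain ⟨ε, hε, hεt⟩ := (isCompact_closedBall (0 : H × V) δ).exists_cthickening_subset_open ht hbt
  rw [cthickening_closedBall hε.le hδ] at hεt
  let χ : ContDiffBump (0 : H × V) := ⟨ε / 2 + δ, ε + δ, by linarith, by linarith⟩
  have hχ : ∀ y ∉ closedBall (0 : H × V) (ε + δ), (fun y => χ y) =ᶠ[𝓝 y] 0 := fun y hy =>
    notMem_tsupport_iff_eventuallyEq.1 (by rwa [χ.tsupport_eq])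
  have hg : ContDiffOn ℝ (j : ℕ∞) (↿fun p y : H × V => χ (-y) * u (gm G p (-y))) (s ×ˢ univ) := by
    rintro ⟨p, y⟩ ⟨hp, -⟩
    refine ContDiffAt.contDiffWithinAt ?_
    change ContDiffAt ℝ j (fun z : (H × V) × H × V => χ (-z.2) * u (gm G z.1 (-z.2))) (p, y)
    by_cases hy : -y ∈ closedBall (0 : H × V) (ε + δ)
    · have h1 : gm G p (-y) ∈ W := hst (mk_mem_prod hp (hεt hy))
      have h2 : ContDiff ℝ j fun z : (H × V) × H × V => gm G z.1 (-z.2) :=
        contDiff_gm G contDiff_fst contDiff_snd.neg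
      exact (χ.contDiff.comp contDiff_snd.neg).contDiffAt.mul
        ((hu.contDiffAt (hW.mem_nhds h1)).comp (p, y) h2.contDiffAt)
    · have h3 : Tendsto (fun z : (H × V) × H × V => -z.2) (𝓝 (p, y)) (𝓝 (-y)) :=
        continuous_snd.neg.tendsto (p, y)
      refine (contDiffAt_const (c := (0 : ℝ))).congr_of_eventuallyEq ?_
      filter_upwards [h3.eventually (hχ _ hy)] with z hz
      rw [hz, Pi.zero_apply, zero_mul]
  have h := contDiffOn_convolution_right_with_param_comp (ContinuousLinearMap.mul ℝ ℝ)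
    (μ := volume) (v := fun _ : H × V => (0 : H × V)) contDiffOn_const hs
    (isCompact_closedBall (0 : H × V) (ε + δ))
    (fun p y _ hy => by
      have : -y ∉ closedBall (0 : H × V) (ε + δ) := by
        rwa [mem_closedBall_zero_iff, norm_neg, ← mem_closedBall_zero_iff]
      rw [show χ (-y) = 0 from (hχ _ this).self_of_nhds, zero_mul]) hκ.1.locallyIntegrable hg
  have h4 : ContDiffOn ℝ j (cv G u κ) s := by
    refine h.congr fun p _ => ?_
    rw [cv_eq, MeasureTheory.convolution_def]
    refine integral_congr_ae (Eventually.of_forall fun y => ?_)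
    simp only [ContinuousLinearMap.mul_apply', zero_sub, neg_neg]
    by_cases hy : y ∈ closedBall (0 : H × V) δ
    · rw [χ.one_of_mem_closedBall (closedBall_subset_closedBall
        (show δ ≤ ε / 2 + δ by linarith) hy)]
      ring
    · rw [hκ.2 y hy]
      ring
  exact h4.contDiffAt (hs.mem_nhds (hxs rfl))

end Pool.Agent.MP_1048c2_an.Cl
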