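import Pool.Agent.MP_1048c2_an.Cl.RStmt

/-!
Regularity of weak solutions: uniform convergence of convolutions.
-/

set_option linter.unusedSectionVars false

namespace Pool.Agent.MP_1048c2_an.Cl

open Filter Topology Set Module MeasureTheory Metric
open scoped InnerProductSpace ContDiff

variable {m k : ℕ} {H V : Type} [NormedAddCommGroup H] [InnerProductSpace ℝ H]
  [NormedAddCommGroup V] [InnerProductSpace ℝ V] [FiniteDimensional ℝ H] [FiniteDimensional ℝ V]
  [MeasurableSpace H] [BorelSpace H] [MeasurableSpace V] [BorelSpace V]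

theorem unif_st (G : HeisenbergType m k H V) : UnifSt G := by
  intro u κ' κ hu ⟨h1, h2, h3⟩
  obtain ⟨M, hM, hb⟩ := bound_of_memLp hu
  have key : ∀ n x, |cv G u κ' x - cv G u (κ n) x| ≤ M * ∫ y, |κ n y - κ' y| := by
    intro n x
    have b1 : ∀ᵐ y, |u (gm G x y)| ≤ M := (mp_left G x).quasiMeasurePreserving.ae hb
    have b2 : AEStronglyMeasurable (fun y => u (gm G x y)) volume :=
      hu.1.comp_quasiMeasurePreserving (mp_left G x).quasiMeasurePreserving
    rw [cv_eq, cv_eq, ← integral_sub (h2.bdd_mul b2 b1) ((h1 n).bdd_mul b2 b1),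
      ← integral_const_mul]
    rw [← Real.norm_eq_abs]
    refine norm_integral_le_of_norm_le (((h1 n).sub h2).abs.const_mul M) ?_
    filter_upwards [b1] with y hy
    rw [← mul_sub, Real.norm_eq_abs, abs_mul, abs_sub_comm]
    exact mul_le_mul_of_nonneg_right hy (abs_nonneg _)
  refine Metric.tendstoUniformly_iff.2 fun ε hε => ?_
  have h4 := h3.const_mul M
  rw [mul_zero] at h4
  filter_upwards [h4.eventually (gt_mem_nhds hε)] with n hn x
  exact (key n x).trans_lt hn

end Pool.Agent.MP_1048c2_an.Cl
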