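import Pool.Agent.MP_1048c2_an.Cl.RStmt
set_option linter.unusedSectionVars false
namespace Pool.Agent.MP_1048c2_an.Cl
open Filter Topology Set Module MeasureTheory Metric
open scoped InnerProductSpace ContDiff
variable {m k : ℕ} {H V : Type} [NormedAddCommGroup H] [InnerProductSpace ℝ H]
  [NormedAddCommGroup V] [InnerProductSpace ℝ V] [FiniteDimensional ℝ H] [FiniteDimensional ℝ V]
  [MeasurableSpace H] [BorelSpace H] [MeasurableSpace V] [BorelSpace V]

theorem uniq_st (G : HeisenbergType m k H V) (hI : IbpSt G) : UniqSt G := by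
  intro W h u g hW hu hg hwd
  have h1 : LocallyIntegrableOn (XL G h u) W :=
    (contDiffOn_XL G h hW hu (n := 0) (by simp)).continuousOn.locallyIntegrableOn hW.measurableSet
  have h2 := hW.ae_eq_zero_of_integral_contDiff_smul_eq_zero (hg.sub h1) fun φ a b c => by
    have hφ : Tst W φ := ⟨a, b, c⟩
    have e1 := hwd φ hφ
    have e2 := hI W h u hW hu φ hφ
    have e3 := integral_sub (hφ.integrable hg) (hφ.integrable h1)
    have e4 : ∫ x, φ x • (g - XL G h u) x = ∫ x, (g x * φ x - XL G h u x * φ x) := by
      congr 1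
      funext x
      simp only [Pi.sub_apply, smul_eq_mul]
      ring
    rw [e4, e3]
    linarith
  exact h2.mono fun x hx hx' => sub_eq_zero.1 (hx hx')

end Pool.Agent.MP_1048c2_an.Cl
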