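import Pool.Agent.MP_1048c2_an.Cl.Stmt
set_option linter.unusedSectionVars false
namespace Pool.Agent.MP_1048c2_an.Cl
open Filter Topology Set Module
open scoped InnerProductSpace
variable {m k : ℕ} {H V : Type} [NormedAddCommGroup H] [InnerProductSpace ℝ H] [NormedAddCommGroup V] [InnerProductSpace ℝ V] [FiniteDimensional ℝ H] [FiniteDimensional ℝ V]

/-- the chart along a ray -/
noncomputable def ray_Rad (e : H) (y : ℝ × V) : H × V := (√y.1 • e, y.2)

theorem ray_sm_Rad (e : H) {y : ℝ × V} (hy : y.1 ≠ 0) : ContDiffAt ℝ 3 (ray_Rad e) y :=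
  ((contDiffAt_fst.sqrt hy).smul contDiffAt_const).prodMk contDiffAt_snd

theorem ray_d_Rad (e : H) {y : ℝ × V} (hy : y.1 ≠ 0) :
    ∃ L : ℝ × V →L[ℝ] H × V, HasFDerivAt (ray_Rad e) L y ∧
      ∀ v, L v = ((1 / (2 * √y.1) * v.1) • e, v.2) :=
  ⟨_, (((hasFDerivAt_fst (p := y)).sqrt hy).smul_const e).prodMk (hasFDerivAt_snd (p := y)),
    fun v => by simp⟩

theorem snd_d_Rad {F : Type} [NormedAddCommGroup F] [NormedSpace ℝ F] {g f : F → ℝ} {y v : F}
    {f' : F →L[ℝ] ℝ} (hg : ContDiffAt ℝ 3 g y) (hf : HasFDerivAt f f' y)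
    (h : ∀ᶠ x in 𝓝 y, fderiv ℝ g x v = f x) (w : F) :
    fderiv ℝ (fderiv ℝ g) y w v = f' w := by
  have h1 : HasFDerivAt (fderiv ℝ g) (fderiv ℝ (fderiv ℝ g) y) y :=
    ((hg.fderiv_right (m := 1) (by norm_num)).differentiableAt (by norm_num)).hasFDerivAt
  have h2 := (h1.clm_apply (hasFDerivAt_const v y)).unique (hf.congr_of_eventuallyEq h)
  have h3 := congrArg (fun L : F →L[ℝ] ℝ => L w) h2
  simpa using h3

theorem core_Rad (G : HeisenbergType m k H V) (hB : BochSt) {p : ℝ} (hp : 1 < p)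
    {W : Set (H × V)} (hW : IsOpen W) (nz : ∀ x ∈ W, x.1 ≠ 0) {N φ : H × V → ℝ}
    (hN : ContDiffOn ℝ 3 N W) (hφ : ∀ x ∈ W, DifferentiableAt ℝ φ x)
    (hξ : ∀ x ∈ W, xi G N x = φ x • x.1)
    (h1 : ∀ x ∈ W, φ x ^ 2 + ‖la G N x‖ ^ 2 / 4 = 16 * N x)
    (h2 : ∀ x ∈ W, fderiv ℝ φ x (x.1, 0) + (m + p - 2) * φ x +
      ‖x.1‖ ^ 2 / 4 * ∑ l, ⟪G.ε l, fderiv ℝ (la G N) x (0, G.ε l)⟫_ℝ =
        4 * (m + 2 * k + p) * ‖x.1‖ ^ 2) (x : H × V) (hx : x ∈ W) :
    φ x = 4 * ‖x.1‖ ^ 2 ∧ ∀ l, fderiv ℝ (la G N) x (0, G.ε l) = (32 : ℝ) • G.ε l := by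
  classical
  have hz : 0 < ‖x.1‖ := norm_pos_iff.2 (nz x hx)
  set e : H := ‖x.1‖⁻¹ • x.1 with he
  have he1 : ‖e‖ = 1 := by
    rw [he, norm_smul, norm_inv, norm_norm, inv_mul_cancel₀ hz.ne']
  set y₀ : ℝ × V := (‖x.1‖ ^ 2, x.2) with hy₀
  have hΨ : ray_Rad e y₀ = x := by
    simp only [ray_Rad, hy₀, Real.sqrt_sq hz.le, he, smul_smul, mul_inv_cancel₀ hz.ne', one_smul]
  have hm : (1 : ℝ) ≤ m := by
    have : Nontrivial H := nontrivial_of_ne _ _ (nz x hx)
    have h3 : 0 < finrank ℝ H := finrank_pos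
    rw [finrank_H G] at h3
    exact_mod_cast h3
  let U : Set (ℝ × V) := {y | 0 < y.1 ∧ ray_Rad e y ∈ W}
  have hUo : IsOpen U := by
    have hc : Continuous (ray_Rad (V := V) e) := by
      unfold ray_Rad
      fun_prop
    exact (isOpen_lt continuous_const continuous_fst).inter (hW.preimage hc)
  have hy₀U : y₀ ∈ U := ⟨by positivity, by rw [hΨ]; exact hx⟩
  let g : ℝ × V → ℝ := fun y => N (ray_Rad e y)
  have hg : ∀ y ∈ U, ContDiffAt ℝ 3 g y := fun y hy =>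
    (hN.contDiffAt (hW.mem_nhds hy.2)).comp y (ray_sm_Rad e hy.1.ne')
  have hdg : ∀ y ∈ U, ∀ v : ℝ × V, fderiv ℝ g y v =
      φ (ray_Rad e y) / 2 * v.1 + ⟪la G N (ray_Rad e y), v.2⟫_ℝ := fun y hy v => by
    obtain ⟨L, hL, hL'⟩ := ray_d_Rad e hy.1.ne'
    have h3 := (((hN.contDiffAt (hW.mem_nhds hy.2)).differentiableAt
      (by norm_num)).hasFDerivAt.comp y hL).fderiv
    have h4 : √y.1 ≠ 0 := (Real.sqrt_pos.2 hy.1).ne'
    rw [show fderiv ℝ g y = _ from h3, ContinuousLinearMap.comp_apply, hL', fderiv_eq G,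
      hξ _ hy.2]
    simp only [ray_Rad, real_inner_smul_left, real_inner_smul_right, real_inner_self_eq_norm_sq,
      he1]
    field_simp
  have hdl : ∀ y ∈ W, HasFDerivAt (la G N) (fderiv ℝ (la G N) y) y := fun y hy =>
    (((contDiffOn_la G hW hN (n := 2) (by norm_num)).contDiffAt (hW.mem_nhds hy)).differentiableAt
      (by norm_num)).hasFDerivAt
  have hd0 : ∀ y ∈ U, fderiv ℝ (fderiv ℝ g) y (1, 0) (1, 0) =
      fderiv ℝ φ (ray_Rad e y) ((ray_Rad e y).1, 0) / (4 * y.1) := fun y hy => by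
    obtain ⟨L, hL, hL'⟩ := ray_d_Rad e hy.1.ne'
    have h3 := (((hφ _ hy.2).hasFDerivAt.comp y hL).const_mul (1 / 2 : ℝ))
    rw [snd_d_Rad (hg y hy) h3 (mem_of_superset (hUo.mem_nhds hy) fun y' hy' => by
      show fderiv ℝ g y' (1, 0) = 1 / 2 * φ (ray_Rad e y')
      rw [hdg y' hy']
      simp only [inner_zero_right]
      ring)]
    have h4 : √y.1 ≠ 0 := (Real.sqrt_pos.2 hy.1).ne'
    have h5 : √y.1 * √y.1 = y.1 := Real.mul_self_sqrt hy.1.le
    have h6 : L (1, 0) = (1 / (2 * y.1)) • (((ray_Rad e y).1, 0) : H × V) := by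
      rw [hL']
      simp only [ray_Rad, Prod.smul_mk, smul_smul, smul_zero, mul_one]
      congr 2
      rw [div_mul_eq_mul_div, one_mul, div_eq_div_iff (by positivity) (by have := hy.1; positivity)]
      linear_combination (-2) * h5
    simp only [_root_.smul_apply, ContinuousLinearMap.comp_apply, h6, map_smul, smul_eq_mul]
    have := hy.1
    field_simp
    ring
  have hd1 : ∀ y ∈ U, ∀ l l', fderiv ℝ (fderiv ℝ g) y (0, (1 / 4 : ℝ) • G.ε l)
      (0, (1 / 4 : ℝ) • G.ε l') =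
      ⟪G.ε l', fderiv ℝ (la G N) (ray_Rad e y) (0, G.ε l)⟫_ℝ / 16 := fun y hy l l' => by
    obtain ⟨L, hL, hL'⟩ := ray_d_Rad e hy.1.ne'
    have h3 := (innerSL ℝ ((1 / 4 : ℝ) • G.ε l')).hasFDerivAt.comp y ((hdl _ hy.2).comp y hL)
    rw [snd_d_Rad (hg y hy) h3 (mem_of_superset (hUo.mem_nhds hy) fun y' hy' => by
      show fderiv ℝ g y' (0, (1 / 4 : ℝ) • G.ε l') =
        ⟪(1 / 4 : ℝ) • G.ε l', la G N (ray_Rad e y')⟫_ℝ
      rw [hdg y' hy', real_inner_comm]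
      simp)]
    have h6 : L (0, (1 / 4 : ℝ) • G.ε l) = (1 / 4 : ℝ) • ((0, G.ε l) : H × V) := by
      rw [hL']
      simp
    simp only [ContinuousLinearMap.comp_apply, h6, map_smul, innerSL_apply_apply,
      _root_.smul_apply, smul_eq_mul]
    ring
  have key := hB (ℝ × V) (Fin k) g y₀ (1, 0) (fun l => (0, (1 / 4 : ℝ) • G.ε l))
    (ContinuousLinearMap.fst ℝ ℝ V) ((m + p - 2) / 2) (hg _ hy₀U) rfl (fun l => rfl)
    hy₀U.1.ne' (by linarith) (mem_of_superset (hUo.mem_nhds hy₀U) fun y hy => by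
      have h4 : ‖(ray_Rad e y).1‖ ^ 2 = y.1 := by
        simp only [ray_Rad, norm_smul, he1, mul_one, Real.norm_eq_abs, sq_abs]
        exact Real.sq_sqrt hy.1.le
      constructor
      · have h3 := h1 _ hy.2
        have h5 := G.ε.sum_sq_inner_left (la G N (ray_Rad e y))
        simp only [hdg y hy, inner_zero_right, real_inner_smul_right, mul_pow, mul_zero, zero_add,
          add_zero, mul_one, ← Finset.mul_sum, h5]
        show _ = 4 * N (ray_Rad e y)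
        linarith
      · have h3 := h2 _ hy.2
        rw [h4] at h3
        have h5 := hy.1
        simp only [hd0 y hy, hd1 y hy, hdg y hy, inner_zero_right, add_zero, mul_one,
          ← Finset.sum_div, Fintype.card_fin, ContinuousLinearMap.coe_fst']
        field_simp
        linear_combination 64 * h3)
  obtain ⟨k1, k2⟩ := key
  rw [hdg _ hy₀U, hΨ] at k1
  simp only [inner_zero_right, add_zero, mul_one, ContinuousLinearMap.coe_fst', hy₀] at k1
  refine ⟨by linarith, fun l => ?_⟩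
  rw [← G.ε.sum_repr' (fderiv ℝ (la G N) x (0, G.ε l))]
  have k3 : ∀ l', ⟪G.ε l', fderiv ℝ (la G N) x (0, G.ε l)⟫_ℝ = if l = l' then 32 else 0 :=
    fun l' => by
      have := k2 l l'
      rw [hd1 _ hy₀U, hΨ] at this
      split_ifs at this ⊢ <;> linarith
  simp [k3]

theorem rad_st (G : HeisenbergType m k H V) (hN : NSysSt G) (hB : BochSt) : RadSt G := by
  intro p W u hp hS hr x hx
  obtain ⟨hN3, hN'⟩ := hN p W u hS
  set N : H × V → ℝ := fun y => u y ^ 2 with hNdef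
  have hW := hS.op
  have nz := hS.nz
  let φ : H × V → ℝ := fun y => ⟪y.1, xi G N y⟫_ℝ / ‖y.1‖ ^ 2
  have hdx : ∀ y ∈ W, HasFDerivAt (xi G N) (fderiv ℝ (xi G N) y) y := fun y hy =>
    (((contDiffOn_xi G hW hN3 (n := 2) (by norm_num)).contDiffAt
      (hW.mem_nhds hy)).differentiableAt (by norm_num)).hasFDerivAt
  have hdl : ∀ y ∈ W, HasFDerivAt (la G N) (fderiv ℝ (la G N) y) y := fun y hy =>
    (((contDiffOn_la G hW hN3 (n := 2) (by norm_num)).contDiffAt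
      (hW.mem_nhds hy)).differentiableAt (by norm_num)).hasFDerivAt
  have hr0 : ∀ y ∈ W, ‖y.1‖ ^ 2 ≠ 0 := fun y hy => pow_ne_zero _ (norm_ne_zero_iff.2 (nz y hy))
  have hφ : ∀ y ∈ W, DifferentiableAt ℝ φ y := fun y hy => by
    have a1 : DifferentiableAt ℝ (fun y : H × V => ⟪y.1, xi G N y⟫_ℝ) y :=
      differentiableAt_fst.inner ℝ (hdx y hy).differentiableAt
    have a2 : DifferentiableAt ℝ (fun y : H × V => ‖y.1‖ ^ 2) y := differentiableAt_fst.norm_sq ℝ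
    have a3 : DifferentiableAt ℝ
        (fun y : H × V => ⟪y.1, xi G N y⟫_ℝ * (‖y.1‖ ^ 2)⁻¹) y := a1.mul (a2.inv (hr0 y hy))
    exact a3.congr_of_eventuallyEq (Eventually.of_forall fun y => div_eq_mul_inv _ _)
  have hξ : ∀ y ∈ W, xi G N y = φ y • y.1 := fun y hy => by
    obtain ⟨c, hc⟩ := hr y hy
    have h1 : xi G N y = (2 * u y * c) • y.1 := by rw [(hN' y hy).1, hc, smul_smul]
    have h2 : φ y = 2 * u y * c := by
      show ⟪y.1, xi G N y⟫_ℝ / ‖y.1‖ ^ 2 = _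
      rw [h1, real_inner_smul_right, real_inner_self_eq_norm_sq, mul_div_assoc,
        div_self (hr0 y hy), mul_one]
    rw [h1, h2]
  have hD : ∀ y ∈ W, ∀ v, fderiv ℝ (xi G N) y v = fderiv ℝ φ y v • y.1 + φ y • v.1 :=
    fun y hy v => by
      have h1 := ((hφ y hy).hasFDerivAt.smul (hasFDerivAt_fst (p := y))).congr_of_eventuallyEq
        (f₁ := xi G N) (mem_of_superset (hW.mem_nhds hy) fun y' hy' => hξ y' hy')
      rw [h1.fderiv]
      simp [add_comm]
  have h1 : ∀ y ∈ W, φ y ^ 2 + ‖la G N y‖ ^ 2 / 4 = 16 * N y := fun y hy => by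
    have h2 := (hN' y hy).2.2.1
    simp only [vf, norm_add_sq_real, hξ y hy, norm_smul, mul_pow, norm_J_sq,
      real_inner_smul_right, real_inner_smul_left, Real.norm_eq_abs, sq_abs] at h2
    rw [real_inner_comm, inner_J_self] at h2
    apply mul_left_cancel₀ (hr0 y hy)
    show _ = _ * (16 * u y ^ 2)
    linarith
  have h2 : ∀ y ∈ W, fderiv ℝ φ y (y.1, 0) + (m + p - 2) * φ y +
      ‖y.1‖ ^ 2 / 4 * ∑ l, ⟪G.ε l, fderiv ℝ (la G N) y (0, G.ε l)⟫_ℝ =
        4 * (m + 2 * k + p) * ‖y.1‖ ^ 2 := fun y hy => by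
    have h3 := (hN' y hy).2.2.2
    have h4 : ∑ i, ⟪G.e i, fderiv ℝ (xi G N) y (G.e i, 0)⟫_ℝ =
        fderiv ℝ φ y (y.1, 0) + m * φ y := by
      have h5 : ((y.1, 0) : H × V) = ∑ i, ⟪G.e i, y.1⟫_ℝ • ((G.e i, 0) : H × V) := by
        ext
        · simp [Prod.fst_sum, G.e.sum_repr']
        · simp [Prod.snd_sum]
      rw [h5, map_sum]
      simp only [hD y hy, inner_add_right, real_inner_smul_right, real_inner_self_eq_norm_sq,
        G.e.orthonormal.1, Finset.sum_add_distrib, map_smul, smul_eq_mul]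
      simp [mul_comm]
    have h5 : ∑ l, ⟪JL G (G.ε l) y.1, fderiv ℝ (xi G N) y (0, G.ε l)⟫_ℝ = 0 :=
      Finset.sum_eq_zero fun l _ => by
        simp only [hD y hy, smul_zero, add_zero, real_inner_smul_right, inner_J_self, mul_zero]
    rw [h4, h5, mul_div_assoc, homDim] at h3
    change _ + (p - 2) * φ y = _ at h3
    linarith
  have key := core_Rad G hB hp hW nz hN3 hφ hξ h1 h2
  have hφ0 : ∀ y ∈ W, ∀ μ : V, fderiv ℝ φ y (0, μ) = 0 := fun y hy μ => by
    have h3 := (((hasFDerivAt_fst (𝕜 := ℝ) (p := y)).norm_sq).const_mul 4).congr_of_eventuallyEq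
      (f₁ := φ) (mem_of_superset (hW.mem_nhds hy) fun y' hy' => (key y' hy').1)
    rw [h3.fderiv]
    simp
  have hDl : ∀ y ∈ W, ∀ v : H × V, fderiv ℝ (la G N) y v = (32 : ℝ) • v.2 := fun y hy v => by
    have h3 : fderiv ℝ (la G N) y (v.1, 0) = 0 := ext_inner_right ℝ fun μ => by
      have h4 := symm2 G ((hN3.contDiffAt (hW.mem_nhds hy)).of_le (by norm_num)) (v.1, 0) (0, μ)
      simpa [hD y hy, hφ0 y hy] using h4
    have h4 : v = (v.1, 0) + ∑ l, ⟪G.ε l, v.2⟫_ℝ • ((0, G.ε l) : H × V) := by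
      ext
      · simp [Prod.fst_sum]
      · simp [Prod.snd_sum, G.ε.sum_repr']
    conv_lhs => rw [h4]
    rw [map_add, h3, zero_add, map_sum]
    simp only [map_smul, (key y hy).2]
    conv_rhs => rw [← G.ε.sum_repr' v.2, Finset.smul_sum]
    exact Finset.sum_congr rfl fun l _ => smul_comm _ _ _
  obtain ⟨δ, hδ, hb⟩ := Metric.isOpen_iff.1 hW x hx
  have hd : ∀ y ∈ Metric.ball x δ, HasFDerivAt (fun y => la G N y - (32 : ℝ) • y.2)
      (0 : H × V →L[ℝ] V) y := fun y hy =>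
    ((hdl y (hb hy)).sub ((hasFDerivAt_snd (p := y)).const_smul (32 : ℝ))).congr_fderiv
      (ContinuousLinearMap.ext fun v => by simp [hDl y (hb hy)])
  refine ⟨x.2 - (1 / 32 : ℝ) • la G N x, mem_of_superset (Metric.ball_mem_nhds x hδ)
    fun y hy => ?_⟩
  have h3 := Metric.isOpen_ball.is_const_of_fderiv_eq_zero (𝕜 := ℝ)
    (convex_ball x δ).isPreconnected
    (fun y hy => (hd y hy).differentiableAt.differentiableWithinAt) (fun y hy => (hd y hy).fderiv)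
    hy (Metric.mem_ball_self hδ)
  have h4 : la G N y = (32 : ℝ) • (y.2 - (x.2 - (1 / 32 : ℝ) • la G N x)) := by
    linear_combination (norm := module) h3
  have h5 := h1 y (hb hy)
  rw [(key y (hb hy)).1, h4, norm_smul, Real.norm_of_nonneg (by norm_num : (0 : ℝ) ≤ 32)] at h5
  show N y = _
  linarith

end Pool.Agent.MP_1048c2_an.Cl
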