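import Pool.Agent.MP_1048c2_an.Cl.Stmt

/-!
Smoothness, entire Jacobian and the differential of the separated curves.
-/

set_option linter.unusedSectionVars false

namespace Pool.Agent.MP_1048c2_an.Cl

open Filter Topology Set Module
open scoped InnerProductSpace

variable {m k : ℕ} {H V : Type} [NormedAddCommGroup H] [InnerProductSpace ℝ H] [NormedAddCommGroup V] [InnerProductSpace ℝ V] [FiniteDimensional ℝ H] [FiniteDimensional ℝ V]

theorem snd_Sep {F : Type} [NormedAddCommGroup F] [NormedSpace ℝ F] {g : H × V → F}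
    {W : Set (H × V)} (hg : ContDiffOn ℝ 2 g W) :
    ContDiffOn ℝ 2 (fun y : ℝ × H × V => g y.2) (univ ×ˢ W) :=
  hg.comp contDiffOn_snd fun _ hy => hy.2

theorem smooth_Sep (d : Sd H V) (W : Set (H × V)) (h : d.Sm W) :
    ContDiffOn ℝ 2 (fun y : ℝ × H × V => (d.Z y.1 y.2, d.S y.1 y.2)) (univ ×ˢ W) := by
  have ht : ContDiffOn ℝ 2 (fun y : ℝ × H × V => y.1) (univ ×ˢ W) := contDiffOn_fst
  have hk : ContDiffOn ℝ 2 (fun y : ℝ × H × V => d.κ y.2 * y.1) (univ ×ˢ W) :=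
    (snd_Sep h.κ).mul ht
  have hl : ContDiffOn ℝ 2 (fun y : ℝ × H × V => d.ℓ y.2 * y.1 / 2) (univ ×ˢ W) :=
    ((snd_Sep h.ℓ).mul ht).div_const 2
  have he := hk.exp
  have he' := hk.neg.exp
  have hc := hl.cos
  have hs := hl.sin
  refine ContDiffOn.prodMk ?_ ?_
  · exact (he.smul ((hc.smul (snd_Sep h.a)).add (hs.smul (snd_Sep h.a')))).add
      (he'.smul ((hc.smul (snd_Sep h.b)).add (hs.smul (snd_Sep h.b'))))
  · exact (((((snd_Sep h.s).add ((hc.mul hs).smul (snd_Sep h.g1))).add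
      ((hs.pow 2).smul (snd_Sep h.g2))).add (ht.smul (snd_Sep h.g3))).add
      ((he.pow 2).smul (snd_Sep h.g4))).sub ((he'.pow 2).smul (snd_Sep h.g5))

theorem hfd_Sep {F : Type} [NormedAddCommGroup F] [NormedSpace ℝ F] {g : H × V → F}
    {W : Set (H × V)} (hW : IsOpen W) (hg : ContDiffOn ℝ 2 g W) {x : H × V} (hx : x ∈ W) :
    HasFDerivAt g (fderiv ℝ g x) x :=
  ((hg.contDiffAt (hW.mem_nhds hx)).differentiableAt (by norm_num)).hasFDerivAt

/-- the explicit differential, first coordinate -/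
noncomputable def DZ_Sep (d : Sd H V) (x v : H × V) (τ e e' C S : ℝ) : H :=
  e • (C • fderiv ℝ d.a x v + (-(S * τ * (fderiv ℝ d.ℓ x v / 2))) • d.a x +
      (S • fderiv ℝ d.a' x v + (C * τ * (fderiv ℝ d.ℓ x v / 2)) • d.a' x)) +
    (e * τ * fderiv ℝ d.κ x v) • (C • d.a x + S • d.a' x) +
  (e' • (C • fderiv ℝ d.b x v + (-(S * τ * (fderiv ℝ d.ℓ x v / 2))) • d.b x +
      (S • fderiv ℝ d.b' x v + (C * τ * (fderiv ℝ d.ℓ x v / 2)) • d.b' x)) +
    (-(e' * τ * fderiv ℝ d.κ x v)) • (C • d.b x + S • d.b' x))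

/-- the explicit differential, second coordinate -/
noncomputable def DS_Sep (d : Sd H V) (x v : H × V) (τ e e' C S : ℝ) : V :=
  fderiv ℝ d.s x v + ((C * S) • fderiv ℝ d.g1 x v +
      ((C * C - S * S) * τ * (fderiv ℝ d.ℓ x v / 2)) • d.g1 x) +
    ((S * S) • fderiv ℝ d.g2 x v + (S * C * τ * fderiv ℝ d.ℓ x v) • d.g2 x) +
    τ • fderiv ℝ d.g3 x v +
    ((e * e) • fderiv ℝ d.g4 x v + (e * e * τ * (2 * fderiv ℝ d.κ x v)) • d.g4 x) -
    ((e' * e') • fderiv ℝ d.g5 x v - (e' * e' * τ * (2 * fderiv ℝ d.κ x v)) • d.g5 x)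

theorem fd_Sep (d : Sd H V) {W : Set (H × V)} (hW : IsOpen W) (h : d.Sm W) {x : H × V}
    (hx : x ∈ W) (τ : ℝ) (v : H × V) :
    fderiv ℝ (fun y => (d.Z τ y, d.S τ y)) x v =
      (DZ_Sep d x v τ (Real.exp (d.κ x * τ)) (Real.exp (-(d.κ x * τ)))
        (Real.cos (d.ℓ x * τ / 2)) (Real.sin (d.ℓ x * τ / 2)),
      DS_Sep d x v τ (Real.exp (d.κ x * τ)) (Real.exp (-(d.κ x * τ)))
        (Real.cos (d.ℓ x * τ / 2)) (Real.sin (d.ℓ x * τ / 2))) := by
  have hk := (hfd_Sep hW h.κ hx).mul_const τ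
  have hl : HasFDerivAt (fun y => d.ℓ y * τ / 2) ((τ / 2) • fderiv ℝ d.ℓ x) x := by
    have := (hfd_Sep hW h.ℓ hx).mul_const (τ / 2)
    simpa only [mul_div_assoc] using this
  have he := hk.exp
  have he' := hk.fun_neg.exp
  have hc := hl.cos
  have hs := hl.sin
  have hZ := (he.fun_smul ((hc.fun_smul (hfd_Sep hW h.a hx)).fun_add
    (hs.fun_smul (hfd_Sep hW h.a' hx)))).fun_add
    (he'.fun_smul ((hc.fun_smul (hfd_Sep hW h.b hx)).fun_add (hs.fun_smul (hfd_Sep hW h.b' hx))))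
  have hS := (((((hfd_Sep hW h.s hx).fun_add ((hc.fun_mul hs).fun_smul
    (hfd_Sep hW h.g1 hx))).fun_add ((hs.pow 2).fun_smul (hfd_Sep hW h.g2 hx))).fun_add
    ((hfd_Sep hW h.g3 hx).fun_const_smul τ)).fun_add
    ((he.pow 2).fun_smul (hfd_Sep hW h.g4 hx))).fun_sub
    ((he'.pow 2).fun_smul (hfd_Sep hW h.g5 hx))
  have hP : HasFDerivAt (fun y => (d.Z τ y, d.S τ y)) _ x := hZ.prodMk hS
  rw [hP.fderiv]
  simp only [DZ_Sep, DS_Sep, ContinuousLinearMap.prod_apply, add_apply,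
    sub_apply, smul_apply,
    ContinuousLinearMap.smulRight_apply, neg_apply, smul_eq_mul,
    nsmul_eq_mul, Prod.mk.injEq]
  constructor <;> module

theorem mulE_Sep {f g : ℝ → ℝ} (hf : f ∈ Ent) (hg : g ∈ Ent) : (fun x => f x * g x) ∈ Ent :=
  Ent.mul_mem hf hg

theorem subE_Sep {f g : ℝ → ℝ} (hf : f ∈ Ent) (hg : g ∈ Ent) : (fun x => f x - g x) ∈ Ent :=
  Ent.sub_mem hf hg

theorem negE_Sep {f : ℝ → ℝ} (hf : f ∈ Ent) : (fun x => -f x) ∈ Ent :=
  Ent.neg_mem hf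

theorem constE_Sep (c : ℝ) : (fun _ : ℝ => c) ∈ Ent := Ent.algebraMap_mem c

theorem idE_Sep : (fun τ : ℝ => τ) ∈ Ent := ⟨fun z => z, differentiable_id, fun _ => rfl⟩

theorem expE_Sep (c : ℝ) : (fun τ : ℝ => Real.exp (c * τ)) ∈ Ent :=
  ⟨fun z => Complex.exp (c * z), by fun_prop, fun t => by push_cast; rfl⟩

theorem expE'_Sep (c : ℝ) : (fun τ : ℝ => Real.exp (-(c * τ))) ∈ Ent :=
  ⟨fun z => Complex.exp (-(c * z)), by fun_prop, fun t => by push_cast; rfl⟩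

theorem cosE_Sep (c : ℝ) : (fun τ : ℝ => Real.cos (c * τ / 2)) ∈ Ent :=
  ⟨fun z => Complex.cos (c * z / 2), by fun_prop, fun t => by push_cast; rfl⟩

theorem sinE_Sep (c : ℝ) : (fun τ : ℝ => Real.sin (c * τ / 2)) ∈ Ent :=
  ⟨fun z => Complex.sin (c * z / 2), by fun_prop, fun t => by push_cast; rfl⟩

theorem DZ_mem_Sep (d : Sd H V) (x v : H × V) {e e' C S : ℝ → ℝ} (he : e ∈ Ent) (he' : e' ∈ Ent)
    (hC : C ∈ Ent) (hS : S ∈ Ent) :
    Vm Ent fun τ => DZ_Sep d x v τ (e τ) (e' τ) (C τ) (S τ) := by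
  have ht := idE_Sep
  have h1 := negE_Sep (mulE_Sep (mulE_Sep hS ht) (constE_Sep (fderiv ℝ d.ℓ x v / 2)))
  have h2 := mulE_Sep (mulE_Sep hC ht) (constE_Sep (fderiv ℝ d.ℓ x v / 2))
  exact (((Vm.smul he (((Vm.smul hC (Vm.const _)).add (Vm.smul h1 (Vm.const _))).add
    ((Vm.smul hS (Vm.const _)).add (Vm.smul h2 (Vm.const _))))).add
    (Vm.smul (mulE_Sep (mulE_Sep he ht) (constE_Sep _))
      ((Vm.smul hC (Vm.const _)).add (Vm.smul hS (Vm.const _))))).add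
    ((Vm.smul he' (((Vm.smul hC (Vm.const _)).add (Vm.smul h1 (Vm.const _))).add
    ((Vm.smul hS (Vm.const _)).add (Vm.smul h2 (Vm.const _))))).add
    (Vm.smul (negE_Sep (mulE_Sep (mulE_Sep he' ht) (constE_Sep _)))
      ((Vm.smul hC (Vm.const _)).add (Vm.smul hS (Vm.const _))))))

theorem DS_mem_Sep (d : Sd H V) (x v : H × V) {e e' C S : ℝ → ℝ} (he : e ∈ Ent) (he' : e' ∈ Ent)
    (hC : C ∈ Ent) (hS : S ∈ Ent) :
    Vm Ent fun τ => DS_Sep d x v τ (e τ) (e' τ) (C τ) (S τ) := by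
  have ht := idE_Sep
  exact (((((Vm.const _).add ((Vm.smul (mulE_Sep hC hS) (Vm.const _)).add
    (Vm.smul (mulE_Sep (mulE_Sep (subE_Sep (mulE_Sep hC hC) (mulE_Sep hS hS)) ht)
      (constE_Sep _)) (Vm.const _)))).add
    ((Vm.smul (mulE_Sep hS hS) (Vm.const _)).add
      (Vm.smul (mulE_Sep (mulE_Sep (mulE_Sep hS hC) ht) (constE_Sep _)) (Vm.const _)))).add
    (Vm.smul ht (Vm.const _))).add
    ((Vm.smul (mulE_Sep he he) (Vm.const _)).add
      (Vm.smul (mulE_Sep (mulE_Sep (mulE_Sep he he) ht) (constE_Sep _)) (Vm.const _)))).sub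
    ((Vm.smul (mulE_Sep he' he') (Vm.const _)).sub
      (Vm.smul (mulE_Sep (mulE_Sep (mulE_Sep he' he') ht) (constE_Sep _)) (Vm.const _)))

theorem sep_st : SepSt H V := by
  intro d W hW h
  refine ⟨smooth_Sep d W h, fun x hx => ⟨?_, fun τ hc hs => ?_⟩⟩
  · refine det_mem (Y := fun τ => fderiv ℝ (fun y => (d.Z τ y, d.S τ y)) x) fun v => ?_
    simp only [fd_Sep d hW h hx]
    exact (DZ_mem_Sep d x v (expE_Sep _) (expE'_Sep _) (cosE_Sep _) (sinE_Sep _)).prod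
      (DS_mem_Sep d x v (expE_Sep _) (expE'_Sep _) (cosE_Sep _) (sinE_Sep _))
  · refine ContinuousLinearMap.ext fun v => ?_
    rw [fd_Sep d hW h hx, hc, hs, Real.exp_neg]
    simp only [DZ_Sep, DS_Sep, Sd.Pm, ContinuousLinearMap.prod_apply, add_apply,
      sub_apply, smul_apply,
      ContinuousLinearMap.smulRight_apply, Prod.mk.injEq]
    constructor <;> module

end Pool.Agent.MP_1048c2_an.Cl
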