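import Pool.Agent.MP_1048c2_an.Cl.Stmt
set_option linter.unusedSectionVars false
namespace Pool.Agent.MP_1048c2_an.Cl
open Filter Topology Set Module
open scoped InnerProductSpace
variable {m k : ℕ} {H V : Type} [NormedAddCommGroup H] [InnerProductSpace ℝ H] [NormedAddCommGroup V] [InnerProductSpace ℝ V] [FiniteDimensional ℝ H] [FiniteDimensional ℝ V]

theorem det_block_Spec {E W : Type} [AddCommGroup E] [Module ℝ E] [AddCommGroup W] [Module ℝ W]
    [FiniteDimensional ℝ E] [FiniteDimensional ℝ W] (A : E →ₗ[ℝ] E) (N : W →ₗ[ℝ] E)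
    (D : E →ₗ[ℝ] W) (Φ : E × W →ₗ[ℝ] E × W)
    (hΦ : ∀ p, Φ p = (A p.1 + N p.2, D p.1 + p.2)) :
    LinearMap.det Φ = LinearMap.det (A - N ∘ₗ D) := by
  classical
  let b := Module.finBasis ℝ E
  let c := Module.finBasis ℝ W
  rw [← LinearMap.det_toMatrix (b.prod c), ← LinearMap.det_toMatrix b]
  have : LinearMap.toMatrix (b.prod c) (b.prod c) Φ = Matrix.fromBlocks (LinearMap.toMatrix b b A)
      (LinearMap.toMatrix c b N) (LinearMap.toMatrix b c D) 1 := by
    ext (i | i) (j | j) <;>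
      simp [LinearMap.toMatrix_apply, hΦ, Basis.prod_apply, Matrix.one_apply, Finsupp.single_apply,
        eq_comm]
  rw [this, Matrix.det_fromBlocks_one₂₂, map_sub, LinearMap.toMatrix_comp b c b]

theorem nilp_Spec {W : Type} [AddCommGroup W] [Module ℝ W] (Z : W →ₗ[ℝ] W) (B : W → W → ℝ)
    (hZ : ∀ x y, B (Z x) y = B x (Z y)) (h0 : ∀ y, B 0 y = 0) (hp : ∀ x, B x x = 0 → x = 0)
    (n : ℕ) (x : W) (hn : (Z ^ (n + 1)) x = 0) : Z x = 0 := by
  induction n with
  | zero => simpa using hn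
  | succ j ih =>
    apply ih
    have h1 : Z (Z ((Z ^ j) x)) = 0 := by
      rw [← hn, pow_succ', pow_succ']
      rfl
    have h2 : Z ((Z ^ j) x) = 0 := by
      apply hp
      rw [← hZ, h1, h0]
    rw [pow_succ']
    exact h2

theorem cayley_Spec {W : Type} [AddCommGroup W] [Module ℝ W] [FiniteDimensional ℝ W]
    (Y : W →ₗ[ℝ] W) (s γ : ℝ) (n : ℕ) (hn : finrank ℝ W = 2 * n)
    (h : ∀ ε : ℝ, 0 < ε → LinearMap.det (1 + ε • Y) = (1 + s * ε - γ * ε ^ 2) ^ n) :
    (Y * Y - s • Y - γ • (1 : W →ₗ[ℝ] W)) ^ n = 0 := by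
  have h1 : Y.charpoly = (Polynomial.X * Polynomial.X - Polynomial.C s * Polynomial.X -
      Polynomial.C γ) ^ n := by
    apply Polynomial.eq_of_infinite_eval_eq
    refine (Set.Iio_infinite (0 : ℝ)).mono fun t ht => ?_
    have ht' : t < 0 := ht
    have ht0 : t ≠ 0 := ht'.ne
    have he : 0 < -t⁻¹ := by
      have := inv_lt_zero.2 ht'
      linarith
    have h2 : algebraMap ℝ (W →ₗ[ℝ] W) t - Y = t • (1 + (-t⁻¹) • Y) := by
      rw [smul_add, smul_smul, mul_neg, mul_inv_cancel₀ ht0, Algebra.algebraMap_eq_smul_one,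
        neg_one_smul, sub_eq_add_neg]
    show Polynomial.eval t _ = Polynomial.eval t _
    rw [LinearMap.eval_charpoly, h2, LinearMap.det_smul, h _ he, hn, pow_mul, ← mul_pow]
    simp only [Polynomial.eval_pow, Polynomial.eval_sub, Polynomial.eval_mul, Polynomial.eval_X,
      Polynomial.eval_C]
    have h3 : t ^ 2 * (1 + s * -t⁻¹ - γ * (-t⁻¹) ^ 2) = t * t - s * t - γ := by
      field_simp
      ring
    rw [h3]
  have h2 := Y.aeval_self_charpoly
  rw [h1] at h2
  simp only [map_pow, map_sub, map_mul, Polynomial.aeval_X, Polynomial.aeval_C,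
    Algebra.algebraMap_eq_smul_one, smul_mul_assoc, one_mul] at h2
  exact h2

theorem spec_st : SpecSt m k H V := by
  intro Da Db Dl Sg M γ s C n hH hV hn hγ hC hMs hMp hsym hdet
  let L0 : H × V →L[ℝ] H × V := Da.prod (M.comp Dl)
  let F1 : H × V →L[ℝ] H × V := Db.prod Sg
  let F2 : H × V →L[ℝ] H × V := (0 : H × V →L[ℝ] H).prod (M.comp Dl)
  have hF : ∀ ε : ℝ, (Da + ε • Db).prod ((1 - ε ^ 2 * γ) • M.comp Dl + ε • Sg) =
      L0 + ε • F1 - (ε ^ 2 * γ) • F2 := fun ε => by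
    refine ContinuousLinearMap.ext fun v => Prod.ext ?_ ?_
    · simp [L0, F1, F2]
    · show (1 - ε ^ 2 * γ) • M (Dl v) + ε • Sg v =
        M (Dl v) + ε • Sg v - (ε ^ 2 * γ) • M (Dl v)
      module
  have hMi : ∀ x, M x = 0 → x = 0 := fun x hx => by
    by_contra h
    have := hMp x h
    rw [hx, inner_zero_left] at this
    exact lt_irrefl _ this
  have hMn : ∀ x, 0 ≤ ⟪M x, x⟫_ℝ := fun x => by
    by_cases h : x = 0
    · simp [h]
    · exact (hMp x h).le
  have hL0 : L0.det = C := by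
    have c1 : Continuous fun ε : ℝ => (L0 + ε • F1 - (ε ^ 2 * γ) • F2).det :=
      ContinuousLinearMap.continuous_det.comp (by fun_prop)
    have c2 : Continuous fun ε : ℝ => C * (1 + s * ε - γ * ε ^ 2) ^ n := by fun_prop
    have e1 : EqOn (fun ε : ℝ => (L0 + ε • F1 - (ε ^ 2 * γ) • F2).det)
        (fun ε : ℝ => C * (1 + s * ε - γ * ε ^ 2) ^ n) (Ioi 0) := fun ε hε => by
      simpa only [hF] using hdet ε hε
    have e2 := e1.closure c1 c2 (x := 0) (by rw [closure_Ioi]; exact le_refl (0 : ℝ))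
    simpa using e2
  have hL0' : LinearMap.det (L0 : H × V →ₗ[ℝ] H × V) ≠ 0 := by
    have : LinearMap.det (L0 : H × V →ₗ[ℝ] H × V) = C := hL0
    rw [this]; exact hC
  let L : (H × V) ≃ₗ[ℝ] (H × V) := LinearMap.equivOfDetNeZero _ hL0'
  have hLs : ∀ w, L0 (L.symm w) = w := fun w => L.apply_symm_apply w
  have hLi : ∀ v, L0 v = 0 → v = 0 := fun v hv => L.injective (by rw [map_zero]; exact hv)
  have ha : ∀ w, Da (L.symm w) = w.1 := fun w => congrArg Prod.fst (hLs w)
  have hl : ∀ w, M (Dl (L.symm w)) = w.2 := fun w => congrArg Prod.snd (hLs w)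
  let K : H × V →ₗ[ℝ] H × V := L.symm.toLinearMap ∘ₗ (F1 : H × V →ₗ[ℝ] H × V)
  let N : V →ₗ[ℝ] H × V := L.symm.toLinearMap ∘ₗ LinearMap.inr ℝ H V ∘ₗ (M : V →ₗ[ℝ] V)
  have hKa : ∀ v, Da (K v) = Db v := fun v => ha _
  have hKl : ∀ v, M (Dl (K v)) = Sg v := fun v => hl _
  have hNa : ∀ r, Da (N r) = 0 := fun r => ha _
  have hNl : ∀ r, Dl (N r) = r := fun r => by
    have h1 : M (Dl (N r)) = M r := hl _
    exact sub_eq_zero.1 (hMi _ (by rw [map_sub, h1, sub_self]))
  let Y : (H × V) × V →ₗ[ℝ] (H × V) × V :=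
    (K ∘ₗ LinearMap.fst ℝ (H × V) V + γ • N ∘ₗ LinearMap.snd ℝ (H × V) V).prod
      ((Dl : H × V →ₗ[ℝ] V) ∘ₗ LinearMap.fst ℝ (H × V) V)
  have hY : ∀ p, Y p = (K p.1 + γ • N p.2, Dl p.1) := fun p => rfl
  have hdY : ∀ ε : ℝ, 0 < ε → LinearMap.det (1 + ε • Y) = (1 + s * ε - γ * ε ^ 2) ^ n := by
    intro ε hε
    rw [det_block_Spec (1 + ε • K) ((ε * γ) • N) (ε • (Dl : H × V →ₗ[ℝ] V)) (1 + ε • Y)
      (fun p => by
        refine Prod.ext ?_ ?_
        · simp only [LinearMap.add_apply, LinearMap.smul_apply, Module.End.one_apply, hY,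
            Prod.fst_add, Prod.smul_fst]
          module
        · simp only [LinearMap.add_apply, LinearMap.smul_apply, Module.End.one_apply, hY,
            Prod.snd_add, Prod.smul_snd, ContinuousLinearMap.coe_coe]
          module)]
    have h1 : (L0 : H × V →ₗ[ℝ] H × V) *
        ((1 + ε • K) - ((ε * γ) • N) ∘ₗ (ε • (Dl : H × V →ₗ[ℝ] V))) =
        (((Da + ε • Db).prod ((1 - ε ^ 2 * γ) • M.comp Dl + ε • Sg) : H × V →L[ℝ] H × V) :
          H × V →ₗ[ℝ] H × V) := by
      refine LinearMap.ext fun v => Prod.ext ?_ ?_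
      · simp [L0, hKa, hNa]
      · show M (Dl (v + ε • K v - (ε * γ) • N (ε • Dl v))) =
          (1 - ε ^ 2 * γ) • M (Dl v) + ε • Sg v
        simp only [map_sub, map_add, map_smul, hKl, hNl]
        module
    have h2 := congrArg LinearMap.det h1
    have h3 : LinearMap.det (L0 : H × V →ₗ[ℝ] H × V) = C := hL0
    rw [map_mul, h3] at h2
    exact mul_left_cancel₀ hC (h2.trans (hdet ε hε))
  have hfr : finrank ℝ ((H × V) × V) = 2 * n := by
    rw [finrank_prod, finrank_prod, hH, hV]; omega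
  have hZn := cayley_Spec Y s γ n hfr hdY
  let B : (H × V) × V → (H × V) × V → ℝ := fun p q =>
    ⟪Da p.1, Da q.1⟫_ℝ + ⟪M (Dl p.1), Dl q.1⟫_ℝ + γ * ⟪M p.2, q.2⟫_ℝ
  have hBs : ∀ p q, B p q = B q p := fun p q => by
    simp only [B]
    rw [real_inner_comm (Da p.1), hMs (Dl p.1), real_inner_comm (M (Dl q.1)), hMs p.2,
      real_inner_comm (M q.2)]
  have hBY : ∀ p q, B (Y p) q = B p (Y q) := fun p q => by
    rw [hBs p]
    simp only [B, hY, map_add, map_smul, hKa, hKl, hNa, hNl, smul_zero, add_zero, inner_add_left,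
      real_inner_smul_left]
    have h1 := hsym p.1 q.1
    rw [hMs p.2, real_inner_comm (M (Dl q.1)) p.2, hMs q.2, real_inner_comm (M (Dl p.1)) q.2]
    linarith
  have hBl : ∀ x y z q, B (x - s • y - γ • z) q = B x q - s * B y q - γ * B z q :=
    fun x y z q => by
      simp only [B, Prod.fst_sub, Prod.snd_sub, Prod.smul_fst, Prod.smul_snd, map_sub, map_smul,
        inner_sub_left, real_inner_smul_left]
      ring
  have hZa : ∀ p, (Y * Y - s • Y - γ • (1 : (H × V) × V →ₗ[ℝ] (H × V) × V)) p =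
      Y (Y p) - s • Y p - γ • p := fun p => rfl
  have hZ : ∀ p, Y (Y p) - s • Y p - γ • p = 0 := fun p => by
    rw [← hZa]
    refine nilp_Spec _ B (fun x y => ?_) (fun y => by simp [B]) (fun x hx => ?_) n p ?_
    · rw [hBs x, hZa, hZa, hBl, hBl, hBY (Y x), hBY x (Y y), hBY x y, hBs (Y (Y y)) x,
        hBs (Y y) x, hBs y x]
    · have h1 : 0 ≤ ⟪Da x.1, Da x.1⟫_ℝ := real_inner_self_nonneg
      have h2 := hMn (Dl x.1)
      have h3 := mul_nonneg hγ.le (hMn x.2)
      simp only [B] at hx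
      have e1 : Da x.1 = 0 := inner_self_eq_zero.1 (by linarith : ⟪Da x.1, Da x.1⟫_ℝ = 0)
      have e2 : Dl x.1 = 0 := by
        by_contra h
        linarith [hMp _ h]
      have e3 : x.2 = 0 := by
        by_contra h
        linarith [mul_pos hγ (hMp _ h)]
      refine Prod.ext (hLi _ (Prod.ext e1 ?_)) e3
      show M (Dl x.1) = 0
      rw [e2, map_zero]
    · rw [pow_succ', hZn, mul_zero]; rfl
  have hbN : ∀ r, Db (N r) = 0 := fun r => by
    have h1 := congrArg (fun p => Da p.1) (hZ (0, r))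
    simp only [hY, Prod.fst_sub, Prod.smul_fst, map_sub, map_add, map_smul, map_zero, hKa, hNa,
      smul_zero, zero_add, add_zero, sub_zero, Prod.fst_zero] at h1
    exact (smul_eq_zero.1 h1).resolve_left hγ.ne'
  have hbK : ∀ v, Db (K v) = s • Db v + γ • Da v := fun v => by
    have h1 := congrArg (fun p => Da p.1) (hZ (v, 0))
    simp only [hY, Prod.fst_sub, Prod.smul_fst, map_sub, map_add, map_smul, map_zero, hKa, hNa,
      smul_zero, add_zero, Prod.fst_zero] at h1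
    rw [sub_sub, sub_eq_zero] at h1
    exact h1
  have hS : ∀ v, Sg v = s • M (Dl v) := fun v => by
    have h1 := congrArg (fun p => M p.2) (hZ (v, 0))
    simp only [hY, Prod.snd_sub, Prod.smul_snd, map_sub, map_add, map_smul, map_zero, hKl,
      smul_zero, add_zero, sub_zero, Prod.snd_zero] at h1
    exact sub_eq_zero.1 h1
  let β : H →L[ℝ] H := LinearMap.toContinuousLinearMap
    ((Db : H × V →ₗ[ℝ] H) ∘ₗ L.symm.toLinearMap ∘ₗ LinearMap.inl ℝ H V)
  have hβ : ∀ h, β h = Db (L.symm (h, 0)) := fun h => rfl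
  have hDl : ∀ h, Dl (L.symm (h, 0)) = 0 := fun h => hMi _ (hl _)
  have hb : ∀ v, Db v = β (Da v) := fun v => by
    have h1 : v - (L.symm (Da v, 0) + N (Dl v)) = 0 := by
      refine hLi _ (Prod.ext ?_ ?_)
      · show Da _ = 0
        rw [map_sub, map_add, ha, hNa, add_zero, sub_self]
      · show M (Dl _) = 0
        rw [map_sub, map_add, hDl, hNl, zero_add, sub_self, map_zero]
    rw [hβ]
    calc Db v = Db (L.symm (Da v, 0) + N (Dl v)) := by rw [← sub_eq_zero.1 h1]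
      _ = _ := by rw [map_add, hbN, add_zero]
  refine ⟨fun h => ⟨L.symm (h, 0), ha _⟩, hS, β, fun h h' => ?_, hb, fun h => ?_⟩
  · have h1 := hsym (L.symm (h, 0)) (L.symm (h', 0))
    rw [hDl, hDl, ha, ha, inner_zero_right, inner_zero_right, add_zero, add_zero] at h1
    rw [hβ, hβ, h1, real_inner_comm]
  · have h1 := hbK (L.symm (h, 0))
    rw [hb (K _), hKa, ha] at h1
    rw [hβ h]
    exact h1

end Pool.Agent.MP_1048c2_an.Cl
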