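import Pool.Agent.MP_1048c2_an.Cl.Stmt

set_option linter.unusedSectionVars false

namespace Pool.Agent.MP_1048c2_an.Cl

open Filter Topology Set Module
open scoped InnerProductSpace

variable {m k : ℕ} {H V : Type} [NormedAddCommGroup H] [InnerProductSpace ℝ H]
  [NormedAddCommGroup V] [InnerProductSpace ℝ V] [FiniteDimensional ℝ H] [FiniteDimensional ℝ V]

theorem trace_Split (G : HeisenbergType m k H V) (A : H →ₗ[ℝ] H) :
    LinearMap.trace ℝ H A = ∑ i, ⟪G.e i, A (G.e i)⟫_ℝ :=
  LinearMap.trace_eq_sum_inner A G.e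

theorem split_st (G : HeisenbergType m k H V) : SplitSt G := by
  constructor
  · rintro ⟨K, hK, hd⟩
    let P : H →L[ℝ] H := K.starProjection
    have hPK : ∀ z, P z ∈ K := fun z => K.starProjection_apply_mem z
    have hPid : ∀ z ∈ K, P z = z := fun z hz => Submodule.starProjection_eq_self_iff.2 hz
    have hPo : ∀ z, z - P z ∈ Kᗮ := fun z => K.sub_starProjection_mem_orthogonal z
    have hP0 : ∀ z ∈ Kᗮ, P z = 0 := fun z hz => (K.starProjection_apply_eq_zero_iff).2 hz
    have hKo : ∀ μ, ∀ z ∈ Kᗮ, JL G μ z ∈ Kᗮ := by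
      intro μ z hz
      rw [Submodule.mem_orthogonal']
      intro u hu
      rw [J_skew, (Submodule.mem_orthogonal' K z).1 hz (JL G μ u) (hK μ u hu), neg_zero]
    have hPJ : ∀ μ z, P (JL G μ z) = JL G μ (P z) := by
      intro μ z
      have h1 : JL G μ z = JL G μ (P z) + JL G μ (z - P z) := by rw [← map_add]; simp
      rw [h1, map_add, hP0 _ (hKo μ _ (hPo z)), add_zero]
      exact hPid _ (hK μ _ (hPK z))
    have hproj : LinearMap.IsProj K (P : H →ₗ[ℝ] H) := ⟨hPK, hPid⟩
    have htr := hproj.trace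
    refine ⟨(2 : ℝ) • P - 1, ?_, ?_, ?_, ?_⟩
    · intro z z'
      have := K.inner_starProjection_left_eq_right z z'
      simp only [ContinuousLinearMap.sub_apply, ContinuousLinearMap.smul_apply,
        ContinuousLinearMap.one_apply, inner_sub_left, inner_sub_right, real_inner_smul_left,
        real_inner_smul_right, P, this]
    · intro z
      simp only [ContinuousLinearMap.sub_apply, ContinuousLinearMap.smul_apply,
        ContinuousLinearMap.one_apply, map_sub, map_smul, hPid _ (hPK z)]
      module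
    · rw [trace_Split G] at htr
      have h2 : ∀ i, ⟪G.e i, ((2 : ℝ) • P - 1) (G.e i)⟫_ℝ = 2 * ⟪G.e i, P (G.e i)⟫_ℝ - 1 := by
        intro i
        simp only [ContinuousLinearMap.sub_apply, ContinuousLinearMap.smul_apply,
          ContinuousLinearMap.one_apply, inner_sub_right, real_inner_smul_right,
          real_inner_self_eq_norm_sq, G.e.orthonormal.1 i, one_pow]
      simp only [h2, Finset.sum_sub_distrib, ← Finset.mul_sum]
      have h3 : (2 : ℝ) * finrank ℝ K = m := by exact_mod_cast hd
      simp only [ContinuousLinearMap.coe_coe] at htr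
      rw [htr]
      simp [h3]
    · intro μ z
      simp only [ContinuousLinearMap.sub_apply, ContinuousLinearMap.smul_apply,
        ContinuousLinearMap.one_apply, map_sub, map_smul, hPJ]
  · rintro ⟨A, -, hAA, htr, hJ⟩
    let K : Submodule ℝ H := LinearMap.ker ((A : H →ₗ[ℝ] H) - 1)
    have hK : ∀ z, z ∈ K ↔ A z = z := fun z => by
      simp [K, sub_eq_zero]
    let P : H →ₗ[ℝ] H := (1 / 2 : ℝ) • (1 + (A : H →ₗ[ℝ] H))
    have hP : ∀ z, P z = (1 / 2 : ℝ) • (z + A z) := fun z => rfl
    have hproj : LinearMap.IsProj K P := by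
      refine ⟨fun z => ?_, fun z hz => ?_⟩
      · rw [hK, hP, map_smul, map_add, hAA, add_comm]
      · rw [hP, (hK z).1 hz]; module
    refine ⟨K, fun μ z hz => ?_, ?_⟩
    · rw [hK, ← JL_apply, hJ, (hK z).1 hz]
    · have h1 := hproj.trace
      rw [trace_Split G] at h1
      have h2 : ∀ i, ⟪G.e i, P (G.e i)⟫_ℝ = 1 / 2 + 1 / 2 * ⟪G.e i, A (G.e i)⟫_ℝ := by
        intro i
        rw [hP, real_inner_smul_right, inner_add_right, real_inner_self_eq_norm_sq,
          G.e.orthonormal.1 i]
        ring
      simp only [h2, Finset.sum_add_distrib, ← Finset.mul_sum, htr] at h1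
      have h3 : (2 : ℝ) * finrank ℝ K = m := by
        rw [← h1]; simp; ring
      exact_mod_cast h3

end Pool.Agent.MP_1048c2_an.Cl
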