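import Pool.Agent.MP_1048c2_an.Cl.Stmt

set_option linter.unusedSectionVars false

namespace Pool.Agent.MP_1048c2_an.Cl

open Filter Topology Set Module
open scoped InnerProductSpace

variable {m k : ℕ} {H V : Type} [NormedAddCommGroup H] [InnerProductSpace ℝ H]
  [NormedAddCommGroup V] [InnerProductSpace ℝ V] [FiniteDimensional ℝ H] [FiniteDimensional ℝ V]

theorem zero_Third {E : Type} [NormedAddCommGroup E] [NormedSpace ℝ E] {W : Set (H × V)}
    {f : H × V → E} {f' : H × V →L[ℝ] E} {x : H × V} (hW : IsOpen W) (hx : x ∈ W)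
    (h : ∀ y ∈ W, f y = 0) (hf : HasFDerivAt f f' x) (v : H × V) : f' v = 0 := by
  have h2 : f =ᶠ[𝓝 x] fun _ => 0 := mem_of_superset (hW.mem_nhds hx) h
  rw [hf.unique ((hasFDerivAt_const (0 : E) x).congr_of_eventuallyEq h2)]
  rfl

variable {G : HeisenbergType m k H V} {W : Set (H × V)} {N : H × V → ℝ}

theorem smF_Third (h : Phys G W N) : ContDiffOn ℝ 2 (Fz G N) W :=
  (contDiffOn_xi G h.op h.sm (by norm_num)).sub
    ((contDiffOn_const.mul (contDiffOn_fst.norm_sq ℝ)).smul contDiffOn_fst)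

theorem dF_Third (h : Phys G W N) {y : H × V} (hy : y ∈ W) :
    HasFDerivAt (Fz G N) (fderiv ℝ (Fz G N) y) y :=
  (((smF_Third h).contDiffAt (h.op.mem_nhds hy)).differentiableAt (by norm_num)).hasFDerivAt

theorem dla_Third (h : Phys G W N) {y : H × V} (hy : y ∈ W) :
    HasFDerivAt (la G N) (fderiv ℝ (la G N) y) y :=
  (((contDiffOn_la G h.op h.sm (n := 2) (by norm_num)).contDiffAt
    (h.op.mem_nhds hy)).differentiableAt (by norm_num)).hasFDerivAt

theorem sym_Third (h : Phys G W N) {y : H × V} (hy : y ∈ W) (v : H × V) (z : H) :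
    ⟪fderiv ℝ (Fz G N) y v, z⟫_ℝ = ⟪fderiv ℝ (Fz G N) y (z, 0), v.1⟫_ℝ := by
  have h1 : HasFDerivAt (xi G N) (fderiv ℝ (xi G N) y) y :=
    (((contDiffOn_xi G h.op h.sm (n := 2) (by norm_num)).contDiffAt
      (h.op.mem_nhds hy)).differentiableAt (by norm_num)).hasFDerivAt
  have h2 := h1.sub (((hasFDerivAt_fst (𝕜 := ℝ) (p := y)).norm_sq.const_mul 4).smul
    (hasFDerivAt_fst (𝕜 := ℝ) (p := y)))
  have h3 : ∀ w : H × V, fderiv ℝ (Fz G N) y w = fderiv ℝ (xi G N) y w -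
      ((4 * ‖y.1‖ ^ 2) • w.1 + (8 * ⟪y.1, w.1⟫_ℝ) • y.1) := by
    intro w
    rw [(dF_Third h hy).unique h2]
    simp only [_root_.sub_apply, _root_.add_apply, _root_.smul_apply,
      ContinuousLinearMap.smulRight_apply, ContinuousLinearMap.comp_apply, innerSL_apply_apply,
      ContinuousLinearMap.coe_fst', smul_eq_mul, nsmul_eq_mul, Nat.cast_ofNat]
    module
  have h4 := symm2 G ((h.sm.contDiffAt (h.op.mem_nhds hy)).of_le (by norm_num)) v (z, 0)
  rw [h.p1 y hy (z, 0)] at h4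
  simp only [inner_zero_right, add_zero, smul_zero, inner_zero_left] at h4
  rw [h3, h3]
  simp only [inner_sub_left, inner_add_left, real_inner_smul_left, h4]
  rw [real_inner_comm z v.1]
  ring

theorem dpsi_Third (h : Phys G W N) {y : H × V} (hy : y ∈ W) :
    HasFDerivAt (psi G N) (0 : H × V →L[ℝ] ℝ) y := by
  have h1 : HasFDerivAt N (fderiv ℝ N y) y :=
    ((h.sm.contDiffAt (h.op.mem_nhds hy)).differentiableAt (by norm_num)).hasFDerivAt
  have h0 := (hasFDerivAt_fst (𝕜 := ℝ) (p := y)).norm_sq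
  have h2 := (((h1.sub ((dla_Third h hy).norm_sq.mul_const (1 / 64))).sub (h0.mul h0)).sub
    (((hasFDerivAt_fst (𝕜 := ℝ) (p := y)).inner ℝ (dF_Third h hy)).mul_const (1 / 2))).const_mul 16
  have h3 : psi G N = fun y => 16 * (N y - ‖la G N y‖ ^ 2 * (1 / 64) - ‖y.1‖ ^ 2 * ‖y.1‖ ^ 2 -
      ⟪y.1, Fz G N y⟫_ℝ * (1 / 2)) := by
    funext y
    unfold psi
    ring
  rw [h3]
  refine HasFDerivAt.congr_fderiv h2 (ContinuousLinearMap.ext fun v => ?_)
  have h4 := sym_Third h hy v y.1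
  rw [h.p2 y hy] at h4
  have h5 : xi G N y = Fz G N y + (4 * ‖y.1‖ ^ 2) • y.1 := by simp [Fz]
  simp only [_root_.sub_apply, _root_.add_apply, _root_.smul_apply,
    ContinuousLinearMap.comp_apply, innerSL_apply_apply, ContinuousLinearMap.prod_apply,
    fderivInnerCLM_apply, ContinuousLinearMap.coe_fst', smul_eq_mul, nsmul_eq_mul,
    Nat.cast_ofNat, _root_.zero_apply, fderiv_eq G N, h.p1 y hy, real_inner_smul_right]
  rw [real_inner_comm (fderiv ℝ (Fz G N) y v) y.1, h4, h5, inner_add_left, real_inner_smul_left,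
    real_inner_comm (Fz G N y) v.1]
  ring

theorem e2a_Third (h : Phys G W N) (μ : V) {y : H × V} (hy : y ∈ W) :
    ⟪JL G μ y.1, Fz G N y⟫_ℝ = 0 := by
  have h1 := zero_Third (f := fun y => ⟪JL G (la G N y) y.1, Fz G N y⟫_ℝ) h.op hy
    (fun y hy => by
      simp only [Fz, inner_sub_right, real_inner_smul_right, inner_J_self, h.e2 y hy, mul_zero,
        sub_zero])
    ((hasFDerivAt_J G (dla_Third h hy) (hasFDerivAt_fst (p := y))).inner ℝ (dF_Third h hy)) (0, μ)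
  have h2 : fderiv ℝ (Fz G N) y (0, μ) = 0 := ext_inner_right ℝ fun z => by
    rw [sym_Third h hy]
    simp
  simpa [h.p1 y hy, h2, real_inner_smul_left] using h1

theorem e2b_Third (h : Phys G W N) (μ : V) (z : H) {y : H × V} (hy : y ∈ W) :
    ⟪JL G μ y.1, fderiv ℝ (Fz G N) y (z, 0)⟫_ℝ + ⟪JL G μ z, Fz G N y⟫_ℝ = 0 := by
  have h1 := zero_Third (f := fun y => ⟪JL G μ y.1, Fz G N y⟫_ℝ) h.op hy
    (fun y hy => e2a_Third h μ hy)
    ((((JL G μ).hasFDerivAt).comp y (hasFDerivAt_fst (p := y))).inner ℝ (dF_Third h hy)) (z, 0)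
  simpa using h1

theorem third_st (G : HeisenbergType m k H V) : ThirdSt G := by
  rintro W N h ⟨x, hx⟩
  have hc := (smF_Third h).contDiffAt (h.op.mem_nhds hx)
  have hD : HasFDerivAt (fderiv ℝ (Fz G N)) (fderiv ℝ (fderiv ℝ (Fz G N)) x) x :=
    ((hc.fderiv_right (m := 1) (by norm_num)).differentiableAt (by norm_num)).hasFDerivAt
  set D2 := fderiv ℝ (fderiv ℝ (Fz G N)) x with hD2
  have hD' : ∀ z : H, HasFDerivAt (fun y => fderiv ℝ (Fz G N) y (z, 0)) (D2.flip (z, 0)) x :=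
    fun z => (hD.clm_apply (hasFDerivAt_const ((z, 0) : H × V) x)).congr_fderiv (by ext <;> simp)
  have s1 : ∀ a b : H, D2 (a, 0) (b, 0) = D2 (b, 0) (a, 0) := fun a b =>
    hc.isSymmSndFDerivAt (by simp) _ _
  have s2 : ∀ a b c : H, ⟪D2 (a, 0) (b, 0), c⟫_ℝ = ⟪D2 (a, 0) (c, 0), b⟫_ℝ := by
    intro a b c
    have := zero_Third (f := fun y => ⟪fderiv ℝ (Fz G N) y (b, 0), c⟫_ℝ -
      ⟪fderiv ℝ (Fz G N) y (c, 0), b⟫_ℝ) h.op hx
      (fun y hy => sub_eq_zero.2 (sym_Third h hy (b, 0) c))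
      (((hD' b).inner ℝ (hasFDerivAt_const c x)).sub ((hD' c).inner ℝ (hasFDerivAt_const b x)))
      (a, 0)
    simpa [sub_eq_zero] using this
  set S : H →L[ℝ] H := (fderiv ℝ (Fz G N) x).comp (ContinuousLinearMap.inl ℝ H V) with hS
  have hS' : ∀ z, S z = fderiv ℝ (Fz G N) x (z, 0) := fun z => rfl
  have sS : ∀ a b, ⟪S a, b⟫_ℝ = ⟪a, S b⟫_ℝ := fun a b => by
    rw [hS', hS', sym_Third h hx, real_inner_comm]
  have s3 : ∀ a b c : H, ⟪D2 (a, 0) (S b, 0), c⟫_ℝ = -⟪D2 (a, 0) (b, 0), S c⟫_ℝ := by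
    intro a b c
    have := zero_Third (f := fun y => fderiv ℝ (Fz G N) y (fderiv ℝ (Fz G N) y (b, 0), 0) -
      psi G N y • b) h.op hx (fun y hy => sub_eq_zero.2 (h.p3 y hy b))
      ((hD.clm_apply ((hD' b).prodMk (hasFDerivAt_const (0 : V) x))).sub
        ((dpsi_Third h hx).smul_const b)) (a, 0)
    have e : S (D2 (a, 0) (b, 0)) + D2 (a, 0) (S b, 0) = 0 := by simpa [hS'] using this
    rw [← sS, ← inner_neg_left, eq_neg_of_add_eq_zero_right e]
  have s4 : ∀ a b c : H, ⟪D2 (a, 0) (S b, 0), c⟫_ℝ = 0 := by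
    intro a b c
    have e1 := s3 a b c
    have e2 := s3 b c a
    have e3 := s3 c a b
    rw [s1 a b, s2 b a (S c)] at e1
    rw [s1 b c, s2 c b (S a)] at e2
    rw [s1 c a, s2 a c (S b)] at e3
    linarith
  have hp := h.pos x hx
  have s5 : ∀ a b : H, D2 (a, 0) (b, 0) = 0 := fun a b => ext_inner_right ℝ fun c => by
    have := s4 a ((psi G N x)⁻¹ • S b) c
    rw [map_smul, hS', hS', h.p3 x hx, inv_smul_smul₀ hp.ne'] at this
    simpa using this
  have s6 : ∀ μ a, S (JL G μ a) = JL G μ (S a) := fun μ a => ext_inner_right ℝ fun b => by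
    have := zero_Third (f := fun y => ⟪JL G μ y.1, fderiv ℝ (Fz G N) y (a, 0)⟫_ℝ +
      ⟪JL G μ a, Fz G N y⟫_ℝ) h.op hx (fun y hy => e2b_Third h μ a hy)
      (((((JL G μ).hasFDerivAt).comp x (hasFDerivAt_fst (p := x))).inner ℝ (hD' a)).add
        ((hasFDerivAt_const (JL G μ a) x).inner ℝ (dF_Third h hx))) (b, 0)
    have e : ⟪JL G μ b, S a⟫_ℝ + ⟪JL G μ a, S b⟫_ℝ = 0 := by simpa [hS', s5] using this
    rw [sS, J_skew G μ (S a), real_inner_comm (JL G μ b)]
    linarith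
  have hq : 0 < √(psi G N x) := Real.sqrt_pos.2 hp
  refine ⟨(√(psi G N x))⁻¹ • S, fun a b => ?_, fun a => ?_, ?_, fun μ a => ?_⟩
  · simp only [_root_.smul_apply, real_inner_smul_left, real_inner_smul_right, sS]
  · simp only [_root_.smul_apply, map_smul]
    rw [hS', hS', h.p3 x hx, smul_smul, smul_smul, ← mul_inv, Real.mul_self_sqrt hp.le,
      inv_mul_cancel₀ hp.ne', one_smul]
  · simp only [_root_.smul_apply, real_inner_smul_right, ← Finset.mul_sum, hS', h.tr x hx,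
      mul_zero]
  · simp only [_root_.smul_apply, map_smul, s6]

end Pool.Agent.MP_1048c2_an.Cl
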