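import Pool.Agent.MP_1048c2_an.Cl.P2c

/-!
From the relations between the differentials to the equations for the square of `u`.
-/

set_option linter.unusedSectionVars false

namespace Pool.Agent.MP_1048c2_an.Cl

open Filter Topology Set Module
open scoped InnerProductSpace

variable {m k : ℕ} {H V : Type} [NormedAddCommGroup H] [InnerProductSpace ℝ H]
  [NormedAddCommGroup V] [InnerProductSpace ℝ V] [FiniteDimensional ℝ H] [FiniteDimensional ℝ V]

/-- the Hessian in terms of the two components -/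
noncomputable def Hs_Trans (a b : H) (β : H →L[ℝ] H) (s : ℝ) (h : H) : H :=
  (4 * ‖a‖ ^ 2) • (s • h - (2 : ℝ) • β h) - (16 : ℝ) • (⟪b, h⟫_ℝ • a + ⟪a, h⟫_ℝ • b)

theorem hs_Trans {a b : H} {β : H →L[ℝ] H} {s γ : ℝ} (h1 : ∀ h h', ⟪β h, h'⟫_ℝ = ⟪h, β h'⟫_ℝ)
    (h2 : ∀ h, β (β h) = s • β h + γ • h) (h3 : β a = -b) (h4 : ⟪a, b⟫_ℝ = 0)
    (h5 : ‖b‖ ^ 2 = ‖a‖ ^ 2 * γ) :
    Hs_Trans a b β s (a + b) = (4 * ‖a‖ ^ 2 * s - 8 * ‖b‖ ^ 2) • a -
      (4 * ‖a‖ ^ 2 * s + 8 * ‖a‖ ^ 2) • b ∧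
    ∀ h, Hs_Trans a b β s (Hs_Trans a b β s h) =
      (16 * (‖a‖ ^ 2) ^ 2 * s ^ 2 + 64 * ‖a‖ ^ 2 * ‖b‖ ^ 2) • h := by
  have h6 : β b = s • b - γ • a := by
    have := h2 a
    rw [h3, map_neg] at this
    linear_combination (norm := module) -this
  have h7 : ⟪b, a⟫_ℝ = 0 := by rw [real_inner_comm, h4]
  refine ⟨?_, fun h => ?_⟩
  · simp only [Hs_Trans, map_add, inner_add_right, h3, h4, h6, h7, real_inner_self_eq_norm_sq, h5]
    module
  · simp only [Hs_Trans, map_add, map_sub, map_smul, inner_add_right, inner_sub_right,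
      real_inner_smul_right, ← h1, h2, h3, h4, h6, h7, real_inner_self_eq_norm_sq, h5,
      inner_neg_left, inner_sub_left, real_inner_smul_left]
    module

theorem trans_st (G : HeisenbergType m k H V) (hN : NSysSt G) : TransSt G := by
  intro W u hs hW
  obtain ⟨hsm, hN⟩ := hN 2 W u hs
  set N : H × V → ℝ := fun y => u y ^ 2 with hNdef
  have key : ∀ x ∈ W, (∀ v, fderiv ℝ (la G N) x v = (32 : ℝ) • v.2) ∧
      (∀ v, fderiv ℝ (xi G N) x v = fderiv ℝ (Fz G N) x v + (8 * ⟪x.1, v.1⟫_ℝ) • x.1 +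
        (4 * ‖x.1‖ ^ 2) • v.1) ∧
      (∀ μ, fderiv ℝ (Fz G N) x (0, μ) = 0) ∧
      fderiv ℝ (Fz G N) x (x.1, 0) = Fz G N x ∧
      (∀ h, fderiv ℝ (Fz G N) x (fderiv ℝ (Fz G N) x (h, 0), 0) = psi G N x • h) ∧
      0 < psi G N x := by
    intro x hx
    obtain ⟨hl, ha, hb, hc, hsurj, hsg, β, hβ1, hβ2, hβ3⟩ := hW x hx
    have hx' : x ∈ Ws G u W := ⟨hx, hl⟩
    have hn := hs.op.mem_nhds hx
    have hκ := kap_pos hl
    have hκ2 := kap_sq hl
    have hA : 0 < ‖fa G u x‖ ^ 2 := pow_pos (norm_pos_iff.2 ha) 2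
    have hB : 0 < ‖fb G u x‖ ^ 2 := pow_pos (norm_pos_iff.2 hb) 2
    have hxi : HasFDerivAt (xi G N) _ x := (((hs.d_u hx).const_mul 2).smul
      (hs.d_xi hx)).congr_of_eventuallyEq (mem_of_superset hn fun y hy => (hN y hy).1)
    have hla : HasFDerivAt (la G N) _ x := (((hs.d_u hx).const_mul 2).smul
      (hs.d_la hx)).congr_of_eventuallyEq (mem_of_superset hn fun y hy => (hN y hy).2.1)
    have hF : HasFDerivAt (Fz G N) _ x := hxi.differentiableAt.hasFDerivAt.sub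
      (((hasFDerivAt_fst (𝕜 := ℝ) (p := x)).norm_sq.const_mul 4).smul
        (hasFDerivAt_fst (𝕜 := ℝ) (p := x)))
    have hβa : β (fa G u x) = -fb G u x := by
      have h1 := ((hs.dif hx' hs.sm_fa).inner ℝ (hs.dif hx' hs.sm_fb)).unique
        ((hasFDerivAt_const (0 : ℝ) x).congr_of_eventuallyEq
          (mem_of_superset hn fun y hy => (hW y hy).2.2.2.1))
      refine ext_inner_right ℝ fun h => ?_
      obtain ⟨v, rfl⟩ := hsurj h
      have h2 := congrArg (fun L : H × V →L[ℝ] ℝ => L v) h1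
      simp only [ContinuousLinearMap.comp_apply, ContinuousLinearMap.prod_apply,
        fderivInnerCLM_apply, _root_.zero_apply, hβ2] at h2
      rw [hβ1, inner_neg_left, real_inner_comm _ (fb G u x)]
      linarith
    have hv2 : ∀ v : H × V, v.2 = (u x / 16) • fderiv ℝ (la G u) x v +
        (u x * ⟪la G u x, fderiv ℝ (la G u) x v⟫_ℝ / (64 * kap G u x ^ 2) +
          ⟪fa G u x - fb G u x, v.1⟫_ℝ / (4 * kap G u x)) • la G u x := fun v => by
      rw [hs.snd_eq hx' v, hsg, Mq_apply, u0]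
      match_scalars <;> (field_simp; try ring)
    have hdu : ∀ v : H × V, fderiv ℝ u x v = 4 * ⟪fa G u x - fb G u x, v.1⟫_ℝ / kap G u x +
        u x * ⟪la G u x, fderiv ℝ (la G u) x v⟫_ℝ / (4 * kap G u x ^ 2) := fun v => by
      have h1 : ‖la G u x‖ ^ 2 = 16 - 4 * kap G u x ^ 2 := by linarith
      rw [fderiv_eq G, hv2 v, ← fa_sub_fb hl]
      simp only [inner_add_right, real_inner_smul_right, real_inner_smul_left,
        real_inner_self_eq_norm_sq, h1]
      field_simp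
      ring
    have h1 : ∀ v, fderiv ℝ (xi G N) x v = fderiv ℝ (Fz G N) x v + (8 * ⟪x.1, v.1⟫_ℝ) • x.1 +
        (4 * ‖x.1‖ ^ 2) • v.1 := fun v => by
      rw [hF.fderiv]
      simp
      module
    have hr : ‖x.1‖ ^ 2 = ‖fa G u x‖ ^ 2 + ‖fb G u x‖ ^ 2 := by
      rw [← fa_add_fb (G := G) u x, norm_add_sq_real, hc]; ring
    set s := kap G u x * u0 G u x / (2 * ‖fa G u x‖ ^ 2) with hsdef
    have hν : kap G u x * u x = 2 * (‖fa G u x‖ ^ 2 * s + ‖fa G u x‖ ^ 2 - ‖fb G u x‖ ^ 2) := by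
      rw [hsdef, u0]; field_simp; ring
    have hγ : ‖fb G u x‖ ^ 2 = ‖fa G u x‖ ^ 2 * (‖fb G u x‖ ^ 2 / ‖fa G u x‖ ^ 2) := by
      field_simp
    have h2 : ∀ v, fderiv ℝ (Fz G N) x v = Hs_Trans (fa G u x) (fb G u x) β s v.1 := fun v => by
      have h3 : fderiv ℝ (xi G N) x v = (8 * ⟪fa G u x - fb G u x, v.1⟫_ℝ) •
          (fa G u x - fb G u x) + (2 * (kap G u x * u x)) •
            (fderiv ℝ (fa G u) x v - β (fderiv ℝ (fa G u) x v)) := by
        rw [hxi.fderiv]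
        simp only [_root_.add_apply, _root_.smul_apply, ContinuousLinearMap.smulRight_apply,
          (hs.d_ab hx' v).2, hs.d_kap hx', hdu, hβ2, ← fa_sub_fb hl, smul_eq_mul]
        match_scalars <;> (field_simp; try ring)
      have h4 := h1 v
      have h5 : v.1 = fderiv ℝ (fa G u) x v + β (fderiv ℝ (fa G u) x v) := by
        rw [← hβ2, (hs.d_ab hx' v).1]
      have h6 : β v.1 = β (fderiv ℝ (fa G u) x v) + (s • β (fderiv ℝ (fa G u) x v) +
          (‖fb G u x‖ ^ 2 / ‖fa G u x‖ ^ 2) • fderiv ℝ (fa G u) x v) := by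
        rw [h5, map_add, hβ3]
      rw [h3, hr, hν, ← fa_add_fb (G := G) u x, inner_add_left, inner_sub_left] at h4
      rw [Hs_Trans, h6]
      generalize ⟪fa G u x, v.1⟫_ℝ = e1 at *
      generalize ⟪fb G u x, v.1⟫_ℝ = e2 at *
      rw [h5] at h4 ⊢
      generalize ‖fb G u x‖ ^ 2 / ‖fa G u x‖ ^ 2 = γ at *
      rw [hγ] at h4
      linear_combination (norm := module) -h4
    obtain ⟨h7, h8⟩ := hs_Trans hβ1 hβ3 hβa hc hγ
    have h9 : Fz G N x = (4 * ‖fa G u x‖ ^ 2 * s - 8 * ‖fb G u x‖ ^ 2) • fa G u x -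
        (4 * ‖fa G u x‖ ^ 2 * s + 8 * ‖fa G u x‖ ^ 2) • fb G u x := by
      rw [Fz, (hN x hx).1, hr, ← fa_sub_fb hl, ← fa_add_fb (G := G) u x, smul_smul,
        show 2 * u x * kap G u x = 2 * (kap G u x * u x) by ring, hν]
      module
    have h10 : psi G N x =
        16 * (‖fa G u x‖ ^ 2) ^ 2 * s ^ 2 + 64 * ‖fa G u x‖ ^ 2 * ‖fb G u x‖ ^ 2 := by
      have e : ‖x.1‖ ^ 4 = (‖x.1‖ ^ 2) ^ 2 := by ring
      have h11 : ⟪fb G u x, fa G u x⟫_ℝ = 0 := by rw [real_inner_comm, hc]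
      rw [psi, h9, (hN x hx).2.1, e, hr, norm_smul, mul_pow, Real.norm_eq_abs, sq_abs,
        ← fa_add_fb (G := G) u x]
      simp only [inner_add_left, inner_sub_right, real_inner_smul_right, hc, h11,
        real_inner_self_eq_norm_sq, hNdef]
      linear_combination (-4 * u x ^ 2) * hκ2 + 4 * (kap G u x * u x +
        2 * (‖fa G u x‖ ^ 2 * s + ‖fa G u x‖ ^ 2 - ‖fb G u x‖ ^ 2)) * hν
    refine ⟨fun v => ?_, h1, fun μ => ?_, ?_, fun h => ?_, ?_⟩
    · rw [hla.fderiv, hv2 v]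
      simp only [_root_.add_apply, _root_.smul_apply, ContinuousLinearMap.smulRight_apply, hdu,
        smul_eq_mul]
      match_scalars <;> (field_simp; try ring)
    · simp [h2, Hs_Trans]
    · rw [h2, h9, ← h7, fa_add_fb]
    · rw [h2, h2, h10, h8]
    · rw [h10]; positivity
  refine ⟨hs.op, hsm, fun x hx => (key x hx).1, fun x hx => (key x hx).2.2.2.1,
    fun x hx => (key x hx).2.2.2.2.1, fun x hx => (key x hx).2.2.2.2.2, fun x hx => ?_,
    fun x hx => ?_⟩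
  · obtain ⟨hl, -, -, hc, -⟩ := hW x hx
    have h1 := hs.constraint ⟨hx, hl⟩
    have h2 := J_skew G (la G u x) (fb G u x) (fa G u x)
    rw [hc, mul_zero] at h1
    rw [real_inner_comm (JL G (la G u x) (fa G u x)), h1] at h2
    rw [(hN x hx).1, (hN x hx).2.1, ← fa_sub_fb hl, ← fa_add_fb (G := G) u x]
    simp [inner_add_left, inner_sub_right, real_inner_smul_left, real_inner_smul_right,
      inner_J_self, h1, h2]
  · obtain ⟨h1, h2, h3, -⟩ := key x hx
    have h4 := (hN x hx).2.2.2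
    have h5 : ∑ i, ⟪G.e i, x.1⟫_ℝ * ⟪G.e i, x.1⟫_ℝ = ‖x.1‖ ^ 2 := by
      rw [← real_inner_self_eq_norm_sq, ← G.e.sum_inner_mul_inner]
      exact Finset.sum_congr rfl fun i _ => by rw [real_inner_comm]
    simp only [h1, h2, h3, inner_add_right, real_inner_smul_right, real_inner_self_eq_norm_sq,
      G.e.orthonormal.1, G.ε.orthonormal.1, inner_zero_right, smul_zero, mul_zero, zero_smul,
      add_zero, Finset.sum_add_distrib, Finset.sum_const, Finset.card_univ, Fintype.card_fin,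
      nsmul_eq_mul, sub_self, zero_mul, zero_div, homDim, real_inner_comm (G.e _) x.1, mul_assoc,
      ← Finset.mul_sum, h5] at h4
    linarith

end Pool.Agent.MP_1048c2_an.Cl
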