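import Pool.Agent.MP_1048c2_an.Cl.RStmt

/-!
From the weak equation against smooth test functions to the overdetermined system.
-/

set_option linter.unusedSectionVars false

namespace Pool.Agent.MP_1048c2_an.Cl

open Filter Topology Set Module MeasureTheory
open scoped InnerProductSpace ContDiff

section div

variable {E : Type} [NormedAddCommGroup E] [NormedSpace ℝ E] [FiniteDimensional ℝ E]
  [MeasurableSpace E] [BorelSpace E] {μ : Measure E} [μ.IsAddHaarMeasure]

/-- a field of class one that is weakly free of divergence is free of divergence -/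
theorem div_Weak2 {U : Set E} (hU : IsOpen U) {Z : E → E} (hZ : ContDiffOn ℝ 1 Z U)
    (h : ∀ φ : E → ℝ, ContDiff ℝ ∞ φ → HasCompactSupport φ → tsupport φ ⊆ U →
      ∫ x, fderiv ℝ φ x (Z x) ∂μ = 0) :
    ∀ x ∈ U, LinearMap.trace ℝ E (fderiv ℝ Z x) = 0 := by
  classical
  let b := Module.finBasis ℝ E
  let L : Fin (finrank ℝ E) → E →L[ℝ] ℝ := fun i => LinearMap.toContinuousLinearMap (b.coord i)
  have hL : ∀ i, ContDiffOn ℝ 1 (fun y => L i (Z y)) U := fun i =>
    (L i).contDiff.comp_contDiffOn hZ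
  let T : E → ℝ := fun x => ∑ i, fderiv ℝ (fun y => L i (Z y)) x (b i)
  have hT : ContinuousOn T U := continuousOn_finsetSum _ fun i _ =>
    ((hL i).continuousOn_fderiv_of_isOpen hU le_rfl).clm_apply continuousOn_const
  have h1 : ∀ᵐ x ∂μ, x ∈ U → T x = 0 := by
    refine hU.ae_eq_zero_of_integral_contDiff_smul_eq_zero
      (hT.locallyIntegrableOn hU.measurableSet) fun g hg hc hs => ?_
    have hg1 : ContDiff ℝ 1 g := hg.of_le (by exact_mod_cast le_top)
    have h2 := fun i => parts_Weak (μ := μ) hg1 hc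
      (fun x hx => (hL i).contDiffAt (hU.mem_nhds (hs hx))) (b i)
    have h3 : ∀ x, fderiv ℝ g x (Z x) = ∑ i, L i (Z x) * fderiv ℝ g x (b i) := by
      intro x
      conv_lhs => rw [← b.sum_repr (Z x)]
      simp only [map_sum, map_smul, smul_eq_mul]
      rfl
    have h4 := h g hg hc hs
    simp only [h3] at h4
    rw [integral_finsetSum _ fun i _ => (h2 i).1, Finset.sum_congr rfl fun i _ => (h2 i).2.2,
      Finset.sum_neg_distrib, neg_eq_zero, ← integral_finsetSum _ fun i _ => (h2 i).2.1] at h4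
    rw [← h4]
    refine integral_congr_ae (Eventually.of_forall fun x => ?_)
    simp only [T, smul_eq_mul, Finset.mul_sum, mul_comm]
  have h5 : EqOn T (fun _ => 0) U :=
    Measure.eqOn_open_of_ae_eq ((ae_restrict_iff' hU.measurableSet).2 h1) hU hT continuousOn_const
  intro x hx
  have h6 : HasFDerivAt Z (fderiv ℝ Z x) x :=
    ((hZ.contDiffAt (hU.mem_nhds hx)).differentiableAt (by simp)).hasFDerivAt
  have h7 : ∀ i, fderiv ℝ (fun y => L i (Z y)) x = (L i).comp (fderiv ℝ Z x) := fun i =>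
    ((L i).hasFDerivAt.comp x h6).fderiv
  refine Eq.trans ?_ (h5 hx)
  rw [LinearMap.trace_eq_matrix_trace ℝ b, Matrix.trace]
  simp only [T, h7]
  simp [L, LinearMap.toMatrix_apply]

end div

variable {m k : ℕ} {H V : Type} [NormedAddCommGroup H] [InnerProductSpace ℝ H]
  [NormedAddCommGroup V] [InnerProductSpace ℝ V] [FiniteDimensional ℝ H] [FiniteDimensional ℝ V]
  [MeasurableSpace H] [BorelSpace H] [MeasurableSpace V] [BorelSpace V]

theorem weak2_st (G : HeisenbergType m k H V) : Weak2St G := by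
  intro p R Ω f hp hQ hR hpos hs hP hw
  set Q := homDim m k with hQd
  set e : ℝ := 2 * (p - 1) / (Q - p) with he
  have hQp : 0 < Q - p := sub_pos.2 hQ
  have hp1 : 0 < p - 1 := sub_pos.2 hp
  have he0 : 0 < e := by positivity
  have hc0 : 0 < cConst m k p R := by unfold cConst; positivity
  have hec : e * R ^ 2 * cConst m k p R = 2 := by
    simp only [he, cConst, ← hQd]; field_simp
  have he1 : (Q + p - 2) / (Q - p) = e + 1 := by
    simp only [he]; field_simp; ring
  have hU : IsOpen (U0 Ω) :=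
    isClosed_closure.isOpen_compl.inter (isOpen_ne.preimage continuous_fst)
  have hf0 : ∀ x ∈ U0 Ω, 0 < f x := fun x hx => hpos x fun h => hx.1 (subset_closure h)
  have hz : ∀ x ∈ U0 Ω, 0 < ‖x.1‖ := fun x hx => norm_pos_iff.2 hx.2
  have hu : uf m k p R f = fun x => R ^ 2 * f x ^ (-e) := rfl
  have hsm : ContDiffOn ℝ 3 (uf m k p R f) (U0 Ω) :=
    contDiffOn_const.mul (hs.rpow_const_of_ne fun x hx => (hf0 x hx).ne')
  have hdf : ∀ x ∈ U0 Ω, HasFDerivAt f (fderiv ℝ f x) x := fun x hx =>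
    ((hs.contDiffAt (hU.mem_nhds hx)).differentiableAt (by norm_num)).hasFDerivAt
  have hdu : ∀ x ∈ U0 Ω, fderiv ℝ (uf m k p R f) x =
      (-(e * R ^ 2 * f x ^ (-(e + 1)))) • fderiv ℝ f x := by
    intro x hx
    rw [hu, (((hdf x hx).rpow_const (p := -e) (Or.inl (hf0 x hx).ne')).const_mul (R ^ 2)).fderiv,
      smul_smul, show -e - 1 = -(e + 1) by ring]
    congr 1
    ring
  have hvu := fun x hx => vf_smul_Weak G (hdu x hx)
  have hN : ∀ x ∈ U0 Ω, ‖(vf G f x).1‖ = cConst m k p R * ‖x.1‖ * f x ^ (e + 1) := by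
    intro x hx
    have h1 := hP x hx
    have h2 := hf0 x hx
    have h3 := hz x hx
    rw [pFunction, norm_Weak, div_eq_iff (Real.rpow_pos_of_pos h2 _).ne', mul_div_assoc, ← hQd,
      he1, mul_comm p, Real.rpow_mul h2.le, ← Real.mul_rpow hc0.le h3.le,
      ← Real.mul_rpow (by positivity) (by positivity)] at h1
    exact (Real.rpow_left_inj (norm_nonneg _) (by positivity) (by linarith)).1 h1
  have heik : ∀ x ∈ U0 Ω, ‖(vf G (uf m k p R f) x).1‖ ^ 2 = 4 * ‖x.1‖ ^ 2 := by
    intro x hx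
    have h2 := hf0 x hx
    have h3 : f x ^ (-(e + 1)) * f x ^ (e + 1) = 1 := by
      rw [← Real.rpow_add h2]; simp
    rw [hvu x hx, Prod.smul_fst, norm_smul, mul_pow, Real.norm_eq_abs, sq_abs, hN x hx]
    have h4 : -(e * R ^ 2 * f x ^ (-(e + 1))) * (cConst m k p R * ‖x.1‖ * f x ^ (e + 1)) =
        -2 * ‖x.1‖ := by
      linear_combination (-(e * R ^ 2 * cConst m k p R * ‖x.1‖)) * h3 - ‖x.1‖ * hec
    rw [← mul_pow, h4]
    ring
  refine ⟨hU, fun x hx => hx.2, hsm, fun x hx => ?_, heik, ?_⟩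
  · have := hf0 x hx
    rw [hu]; positivity
  -- the flux
  let g : H × V → ℝ := fun x => (‖x.1‖ ^ 2) ^ ((p - 2) / 2) * f x ^ ((e + 1) * (p - 1))
  have hvs : ContDiffOn ℝ 1 (vf G (uf m k p R f)) (U0 Ω) :=
    contDiffOn_vf G hU hsm (by norm_num)
  have hg : ContDiffOn ℝ 1 g (U0 Ω) :=
    ((contDiffOn_fst.norm_sq ℝ).rpow_const_of_ne fun x hx => (pow_pos (hz x hx) 2).ne').mul
      ((hs.of_le (by norm_num)).rpow_const_of_ne fun x hx => (hf0 x hx).ne')
  have hflux : ∀ x ∈ U0 Ω, g x • vf G (uf m k p R f) x =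
      (-(e * R ^ 2 / cConst m k p R ^ (p - 2))) • horGradNorm G f x ^ (p - 2) • vf G f x := by
    intro x hx
    have h2 := hf0 x hx
    have h3 := hz x hx
    have h4 : (‖x.1‖ ^ 2) ^ ((p - 2) / 2) = ‖x.1‖ ^ (p - 2) := by
      rw [← Real.rpow_natCast, ← Real.rpow_mul h3.le]
      congr 1
      push_cast
      ring
    have h5 : f x ^ ((e + 1) * (p - 1)) * f x ^ (-(e + 1)) = (f x ^ (e + 1)) ^ (p - 2) := by
      rw [← Real.rpow_add h2, ← Real.rpow_mul h2.le]
      congr 1
      ring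
    have h6 := (Real.rpow_pos_of_pos hc0 (p - 2)).ne'
    rw [hvu x hx, smul_smul, smul_smul, norm_Weak, hN x hx,
      Real.mul_rpow (by positivity) (by positivity), Real.mul_rpow hc0.le h3.le]
    congr 1
    simp only [g, h4, ← h5]
    field_simp
  have hdiv := div_Weak2 (μ := volume) hU (hg.smul hvs) fun φ h1 h2 h3 => by
    have h4 := hw φ ⟨h1, h2, h3⟩
    have h5 : ∀ x, x ∉ tsupport φ → fderiv ℝ φ x = 0 := fun x hx =>
      (notMem_tsupport_iff_eventuallyEq.1 hx).fderiv_eq.trans (by simp)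
    rw [← mul_zero (-(e * R ^ 2 / cConst m k p R ^ (p - 2))), ← h4, ← integral_const_mul]
    refine integral_congr_ae (Eventually.of_forall fun x => ?_)
    by_cases hx : x ∈ tsupport φ
    · simp only [pair_Weak, Pi.smul_apply', hflux x (h3 hx), map_smul, smul_eq_mul]
    · simp [pair_Weak, h5 x hx]
  intro x hx
  have h2 := hf0 x hx
  have h3 := hz x hx
  have h4 := hdiv x hx
  have hv : HasFDerivAt (vf G (uf m k p R f)) (fderiv ℝ (vf G (uf m k p R f)) x) x :=
    ((hvs.contDiffAt (hU.mem_nhds hx)).differentiableAt (by simp)).hasFDerivAt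
  have hg' := ((hasFDerivAt_fst (𝕜 := ℝ) (p := x)).norm_sq.rpow_const (p := (p - 2) / 2)
    (Or.inl (pow_pos h3 2).ne')).mul
      ((hdf x hx).rpow_const (p := (e + 1) * (p - 1)) (Or.inl h2.ne'))
  have h5 := (trace_Weak (g := g) hg' hv).symm.trans h4
  have h6 : fderiv ℝ (uf m k p R f) x (vf G (uf m k p R f) x) = 4 * ‖x.1‖ ^ 2 := by
    rw [fderiv_vf, real_inner_self_eq_norm_sq, heik x hx]
  rw [hdu x hx] at h6
  have h7 : ⟪x.1, (vf G (uf m k p R f) x).1⟫_ℝ = ⟪x.1, xi G (uf m k p R f) x⟫_ℝ := by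
    simp only [vf, inner_add_right, real_inner_smul_right]
    rw [real_inner_comm (JL G _ _), inner_J_self, mul_zero, add_zero]
  simp only [_root_.smul_apply, _root_.add_apply, smul_eq_mul, ContinuousLinearMap.comp_apply,
    innerSL_apply_apply, ContinuousLinearMap.coe_fst', h7, g, nsmul_eq_mul, Nat.cast_ofNat,
    Real.rpow_sub_one h2.ne', Real.rpow_sub_one (pow_pos h3 2).ne'] at h5 h6
  have h8 : f x ^ (-(e + 1)) = f x ^ (-e) / f x := by
    rw [← Real.rpow_sub_one h2.ne']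
    congr 1
    ring
  have h9 : (e + 1) * (p - 1) = (Q + p - 2) / 2 * e := by
    rw [← he1, he]; field_simp
  have ha := Real.rpow_pos_of_pos (pow_pos h3 2) ((p - 2) / 2)
  have hb := Real.rpow_pos_of_pos h2 ((e + 1) * (p - 1))
  have hc := Real.rpow_pos_of_pos h2 (-e)
  have h10 : uf m k p R f x = R ^ 2 * f x ^ (-e) := rfl
  rw [h10]
  rw [h8] at h6
  generalize (‖x.1‖ ^ 2) ^ ((p - 2) / 2) = a at *
  generalize f x ^ ((e + 1) * (p - 1)) = b at *
  generalize f x ^ (-e) = c at *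
  generalize fderiv ℝ f x (vf G (uf m k p R f) x) = D at *
  generalize LinearMap.trace ℝ (H × V) (fderiv ℝ (vf G (uf m k p R f)) x) = T at *
  generalize ⟪x.1, xi G (uf m k p R f) x⟫_ℝ = s at *
  rw [h9] at h5
  have h11 : D = -(4 * ‖x.1‖ ^ 2 * f x / (e * R ^ 2 * c)) := by
    field_simp at h6 ⊢
    linarith
  rw [h11] at h5
  refine mul_left_cancel₀ (mul_pos ha hb).ne' ?_
  rw [← sub_eq_zero, ← h5]
  field_simp
  ring

end Pool.Agent.MP_1048c2_an.Cl
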