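import Pool.Agent.MP_1048c2_an.Cl.Stmt

/-!
Complex zeros of the squared length along a characteristic exclude `p ≠ 2`.
-/

set_option linter.unusedSectionVars false

namespace Pool.Agent.MP_1048c2_an.Cl

open Filter Topology Set Module
open scoped InnerProductSpace

variable {m k : ℕ} {H V : Type} [NormedAddCommGroup H] [InnerProductSpace ℝ H]
  [NormedAddCommGroup V] [InnerProductSpace ℝ V] [FiniteDimensional ℝ H] [FiniteDimensional ℝ V]

/-- the residue of the logarithmic derivative -/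
theorem res_Zero {f : ℂ → ℂ} {z₀ : ℂ} (hf : AnalyticAt ℂ f z₀) {n : ℕ}
    (hn : analyticOrderAt f z₀ = n) :
    (∀ᶠ z in 𝓝[≠] z₀, f z ≠ 0) ∧
      Tendsto (fun z => (z - z₀) * (deriv f z / f z)) (𝓝[≠] z₀) (𝓝 n) := by
  obtain ⟨g, hg, hg0, h⟩ := hf.analyticOrderAt_eq_natCast.1 hn
  have h1 : f =ᶠ[𝓝 z₀] fun z => (z - z₀) ^ n * g z := h
  have h2 := h1.deriv
  have h3 : ∀ᶠ z in 𝓝 z₀, g z ≠ 0 := hg.continuousAt.eventually_ne hg0
  have h4 : ∀ᶠ z in 𝓝 z₀, AnalyticAt ℂ g z := hg.eventually_analyticAt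
  have h5 : ∀ᶠ z in 𝓝[≠] z₀, z - z₀ ≠ 0 :=
    mem_of_superset self_mem_nhdsWithin fun z hz => sub_ne_zero.2 hz
  refine ⟨?_, ?_⟩
  · filter_upwards [h5, nhdsWithin_le_nhds h1, nhdsWithin_le_nhds h3] with z a b c
    rw [b]
    exact mul_ne_zero (pow_ne_zero _ a) c
  · have h6 : ContinuousAt (fun z => (n : ℂ) + (z - z₀) * (deriv g z / g z)) z₀ :=
      continuousAt_const.add ((continuousAt_id.sub continuousAt_const).mul
        (hg.deriv.continuousAt.div hg.continuousAt hg0))
    have h7 := h6.tendsto.mono_left (nhdsWithin_le_nhds (s := {z₀}ᶜ))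
    simp only [sub_self, zero_mul, add_zero] at h7
    refine h7.congr' ?_
    filter_upwards [h5, nhdsWithin_le_nhds h1, nhdsWithin_le_nhds h2, nhdsWithin_le_nhds h3,
      nhdsWithin_le_nhds h4] with z a b c d e
    have h8 := (((hasDerivAt_id z).sub_const z₀).pow n).mul e.differentiableAt.hasDerivAt
    have h9 : deriv (fun z => (z - z₀) ^ n * g z) z = _ := h8.deriv
    rw [c, b, h9]
    rcases n with _ | n
    · simp
    · simp only [id, Pi.pow_apply, Nat.add_sub_cancel, pow_succ]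
      field_simp

/-- comparison of the orders -/
theorem ord_Zero {J r u : ℂ → ℂ} {z₀ α β : ℂ} (hJ : AnalyticAt ℂ J z₀) (hr : AnalyticAt ℂ r z₀)
    (hu : ContinuousAt u z₀) (hu0 : u z₀ ≠ 0) {n e : ℕ} (hn : analyticOrderAt J z₀ = n)
    (he : analyticOrderAt r z₀ = e)
    (h : ∀ z, deriv J z * u z * r z = J z * (α * r z ^ 2 - β * deriv r z * u z)) :
    (n : ℂ) = -(β * e) := by
  obtain ⟨a1, a2⟩ := res_Zero hJ hn
  obtain ⟨b1, b2⟩ := res_Zero hr he
  have h1 : ContinuousAt (fun z => (z - z₀) * (α * r z / u z)) z₀ :=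
    (continuousAt_id.sub continuousAt_const).mul
      ((continuousAt_const.mul hr.continuousAt).div hu hu0)
  have h2 := (h1.tendsto.mono_left (nhdsWithin_le_nhds (s := {z₀}ᶜ))).sub (b2.const_mul β)
  simp only [sub_self, zero_mul, zero_sub] at h2
  refine tendsto_nhds_unique a2 (h2.congr' ?_)
  filter_upwards [a1, b1, nhdsWithin_le_nhds (hu.eventually_ne hu0)] with z a b c
  have h3 := h z
  field_simp
  linear_combination (-(z - z₀)) * h3

/-- a zero of `r` that is not a zero of `u` -/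
theorem pt_Zero {U A B c κ : ℝ} (hκ : 0 < κ) (hA : 0 < A) (hB : 0 < B) :
    ∃ z : ℂ, A * Complex.exp (2 * κ * z) + 2 * c + B * Complex.exp (-(2 * κ * z)) = 0 ∧
      U + 8 * c * z + 2 / κ * (A * Complex.exp (2 * κ * z) - B * Complex.exp (-(2 * κ * z)) -
        (A - B)) ≠ 0 := by
  have hκ' : (κ : ℂ) ≠ 0 := by exact_mod_cast hκ.ne'
  have hA' : (A : ℂ) ≠ 0 := by exact_mod_cast hA.ne'
  have hB' : (B : ℂ) ≠ 0 := by exact_mod_cast hB.ne'
  have key : ∀ ω : ℂ, ω ≠ 0 → Complex.exp (2 * κ * (Complex.log ω / (2 * κ))) = ω := fun ω h => by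
    rw [mul_div_cancel₀ _ (mul_ne_zero two_ne_zero hκ'), Complex.exp_log h]
  by_cases hc : c = 0
  · obtain ⟨t, ht, ht2⟩ : ∃ t : ℝ, 0 < t ∧ A * t ^ 2 = B :=
      ⟨√(B / A), Real.sqrt_pos.2 (div_pos hB hA), by
        rw [Real.sq_sqrt (div_pos hB hA).le]; field_simp⟩
    have ht' : (t : ℂ) ≠ 0 := by exact_mod_cast ht.ne'
    have ht3 : (B : ℂ) = A * t ^ 2 := by exact_mod_cast ht2.symm
    have h1 : (t * Complex.I)⁻¹ = -(Complex.I / t) := by
      rw [mul_inv, Complex.inv_I]; ring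
    refine ⟨Complex.log (t * Complex.I) / (2 * κ), ?_, fun h => ?_⟩
    · rw [Complex.exp_neg, key _ (mul_ne_zero ht' Complex.I_ne_zero), h1, hc, ht3]
      field_simp
      simp
    · rw [Complex.exp_neg, key _ (mul_ne_zero ht' Complex.I_ne_zero), h1, hc] at h
      have h2 : ((U - 2 / κ * (A - B) : ℝ) : ℂ) + ((4 / κ * (A * t) : ℝ) : ℂ) * Complex.I = 0 := by
        rw [← h, ht3]
        push_cast
        rw [ht3]
        field_simp
        ring
      have h3 := congrArg Complex.im h2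
      simp only [Complex.add_im, Complex.ofReal_im, Complex.mul_im, Complex.ofReal_re,
        Complex.I_im, Complex.I_re, Complex.zero_im, mul_one, mul_zero, zero_add, add_zero] at h3
      have : 0 < 4 / κ * (A * t) := by positivity
      linarith
  · obtain ⟨s, hs⟩ := IsAlgClosed.exists_pow_nat_eq ((c : ℂ) ^ 2 - A * B) two_pos
    have h1 : A * ((s - c) / A) ^ 2 + 2 * c * ((s - c) / A) + B = 0 := by
      field_simp
      linear_combination hs
    generalize (s - c) / A = ω at h1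
    have h2 : ω ≠ 0 := fun h => hB' (by simpa [h] using h1)
    have h3 : A * ω + 2 * c + B * ω⁻¹ = 0 := by
      field_simp
      linear_combination h1
    have h4 := key ω h2
    generalize Complex.log ω / (2 * κ) = z at h4
    have h5 : Complex.exp (2 * κ * (z + Real.pi * Complex.I / κ)) = ω := by
      rw [show 2 * κ * (z + Real.pi * Complex.I / κ) = 2 * κ * z + 2 * Real.pi * Complex.I by
        field_simp, Complex.exp_add, h4, Complex.exp_two_pi_mul_I, mul_one]
    by_contra hcon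
    push Not at hcon
    have h6 := hcon z (by rw [Complex.exp_neg, h4, h3])
    have h7 := hcon (z + Real.pi * Complex.I / κ) (by rw [Complex.exp_neg, h5, h3])
    rw [Complex.exp_neg, h4] at h6
    rw [Complex.exp_neg, h5] at h7
    have h8 : 8 * c * (Real.pi * Complex.I / κ) = 0 := by linear_combination h7 - h6
    have hc' : (c : ℂ) ≠ 0 := by exact_mod_cast hc
    have hp : (Real.pi : ℂ) ≠ 0 := by exact_mod_cast Real.pi_ne_zero
    exact mul_ne_zero (mul_ne_zero (by norm_num) hc')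
      (div_ne_zero (mul_ne_zero hp Complex.I_ne_zero) hκ') h8

theorem zero_st : ZeroSt := by
  rintro Q p U A B c κ j hp hp2 hκ hA hB ⟨⟨J, hJ, hJj⟩, hj0, ε, hε, h⟩
  have hκ' : (κ : ℂ) ≠ 0 := by exact_mod_cast hκ.ne'
  have hA' : (A : ℂ) ≠ 0 := by exact_mod_cast hA.ne'
  let r : ℂ → ℂ := fun z => A * Complex.exp (2 * κ * z) + 2 * c + B * Complex.exp (-(2 * κ * z))
  let d : ℂ → ℂ := fun z => A * Complex.exp (2 * κ * z) - B * Complex.exp (-(2 * κ * z))
  let u : ℂ → ℂ := fun z => U + 8 * c * z + 2 / κ * (d z - (A - B))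
  have e1 : ∀ z : ℂ, HasDerivAt (fun z : ℂ => Complex.exp (2 * κ * z))
      (Complex.exp (2 * κ * z) * (2 * κ)) z := fun z => by
    simpa using ((hasDerivAt_id z).const_mul (2 * κ : ℂ)).cexp
  have e2 : ∀ z : ℂ, HasDerivAt (fun z : ℂ => Complex.exp (-(2 * κ * z)))
      (Complex.exp (-(2 * κ * z)) * (-(2 * κ))) z := fun z => by
    simpa using ((hasDerivAt_id z).const_mul (2 * κ : ℂ)).neg.cexp
  have r1 : deriv r = fun z => 2 * κ * d z := funext fun z => by
    have := ((((e1 z).const_mul (A : ℂ)).add_const (2 * c : ℂ)).add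
      ((e2 z).const_mul (B : ℂ))).deriv
    refine Eq.trans this ?_
    simp only [d]; ring
  have r2 : ∀ z, deriv (deriv r) z = 4 * κ ^ 2 * (r z - 2 * c) := fun z => by
    have := ((((e1 z).const_mul (A : ℂ)).sub ((e2 z).const_mul (B : ℂ))).const_mul
      (2 * κ : ℂ)).deriv
    rw [r1]
    refine Eq.trans this ?_
    simp only [r]; ring
  have ar : ∀ z, AnalyticAt ℂ r z := fun z => by simp only [r]; fun_prop
  have ad : ∀ z, AnalyticAt ℂ d z := fun z => by simp only [d]; fun_prop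
  have au : ∀ z, AnalyticAt ℂ u z := fun z => by simp only [u]; fun_prop
  have aJ : ∀ z, AnalyticAt ℂ J z := hJ.analyticAt
  have key : (fun z => deriv J z * u z * r z) = fun z =>
      J z * (((2 * (Q + p - 2) : ℝ) : ℂ) * r z ^ 2 - (((p - 2) / 2 : ℝ) : ℂ) * deriv r z * u z) := by
    refine AnalyticOnNhd.eq_of_frequently_eq (z₀ := 0) (fun z _ => ?_) (fun z _ => ?_) ?_
    · exact ((aJ z).deriv.mul (au z)).mul (ar z)
    · exact (aJ z).mul ((analyticAt_const.mul ((ar z).pow 2)).sub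
        ((analyticAt_const.mul (ar z).deriv).mul (au z)))
    · have t1 : Tendsto (fun t : ℝ => (t : ℂ)) (𝓝[≠] 0) (𝓝[≠] 0) :=
        tendsto_nhdsWithin_of_tendsto_nhds_of_eventually_within _
          ((Complex.continuous_ofReal.tendsto' 0 0 (by simp)).mono_left nhdsWithin_le_nhds)
          (mem_of_superset self_mem_nhdsWithin fun t ht => by simpa using ht)
      refine t1.frequently (Eventually.frequently ?_)
      filter_upwards [nhdsWithin_le_nhds (Ioo_mem_nhds (neg_lt_zero.2 hε) hε)] with t ht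
      obtain ⟨h1, h2, h3⟩ := h t ht
      have h4 := (hJ t).hasDerivAt.comp_ofReal
      rw [funext hJj] at h4
      have h5 := h4.unique h3.ofReal_comp
      have h6 : r t = rr A B c κ t := by simp [r, rr]
      have h7 : d t = dd A B κ t := by simp [d, dd]
      have h8 : u t = uu U A B c κ t := by simp [u, uu, h7]
      have h1' : (uu U A B c κ t : ℂ) ≠ 0 := by exact_mod_cast h1.ne'
      have h2' : (rr A B c κ t : ℂ) ≠ 0 := by exact_mod_cast h2
      rw [h5, r1, hJj]
      simp only [h6, h7, h8]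
      push_cast
      field_simp
  obtain ⟨z, hz, hz'⟩ := pt_Zero (U := U) (c := c) hκ hA hB
  have hJ0 : analyticOrderAt J z ≠ ⊤ := fun h0 => by
    have h1 := congrFun ((AnalyticOnNhd.analyticOrderAt_eq_top_iff_eq_zero z aJ).1 h0) ((0 : ℝ) : ℂ)
    rw [hJj, hj0] at h1
    simp at h1
  have hr3 : ¬((3 : ℕ) : ℕ∞) ≤ analyticOrderAt r z := fun h0 => by
    have h1 := (natCast_le_analyticOrderAt_iff_iteratedDeriv_eq_zero (ar z)).1 h0
    have h2 := h1 1 (by norm_num)
    have h3 := h1 2 (by norm_num)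
    rw [iteratedDeriv_one, r1] at h2
    rw [iteratedDeriv_succ, iteratedDeriv_one, r2] at h3
    have h4 := (mul_eq_zero.1 h2).resolve_left (mul_ne_zero two_ne_zero hκ')
    have h5 := (mul_eq_zero.1 h3).resolve_left (mul_ne_zero (by norm_num) (pow_ne_zero 2 hκ'))
    simp only [r, d] at h4 h5
    refine mul_ne_zero hA' (Complex.exp_ne_zero (2 * κ * z)) ?_
    linear_combination (h4 + h5) / 2
  have hr0 : analyticOrderAt r z ≠ 0 := (ar z).analyticOrderAt_ne_zero.2 hz
  obtain ⟨n, hn⟩ := ENat.ne_top_iff_exists.1 hJ0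
  obtain ⟨e, he⟩ := ENat.ne_top_iff_exists.1 (fun h0 : analyticOrderAt r z = ⊤ => hr3 (h0 ▸ le_top))
  have h1 := ord_Zero (aJ z) (ar z) (au z).continuousAt hz' hn.symm he.symm (congrFun key)
  rw [← he] at hr3 hr0
  have h2 : (n : ℝ) = -((p - 2) / 2 * e) := by exact_mod_cast h1
  have h3 : e < 3 := by exact_mod_cast not_le.1 hr3
  have h4 : 0 < e := Nat.pos_of_ne_zero (by exact_mod_cast hr0)
  have h5 : (e : ℝ) ≤ 2 := by exact_mod_cast Nat.le_of_lt_succ h3
  have h6 : (0 : ℝ) < e := by exact_mod_cast h4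
  have h7 : (n : ℝ) < 1 := by nlinarith
  have h8 : n = 0 := by exact_mod_cast Nat.lt_one_iff.1 (by exact_mod_cast h7)
  rw [h8, Nat.cast_zero, eq_comm, neg_eq_zero, mul_eq_zero] at h2
  rcases h2 with h2 | h2
  · exact hp2 (by linarith)
  · exact h6.ne' h2

end Pool.Agent.MP_1048c2_an.Cl
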