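import Pool.Agent.MP_1048c2_an.Defs

/-!
Classification of the solutions of the capacitary problem: algebra of groups of Heisenberg type,
gradients in the two layers and the overdetermined system.
-/

set_option linter.unusedSectionVars false

namespace Pool.Agent.MP_1048c2_an.Cl

open Filter Topology Set Module
open scoped InnerProductSpace

variable {m k : ℕ} {H V : Type} [NormedAddCommGroup H] [InnerProductSpace ℝ H]
  [NormedAddCommGroup V] [InnerProductSpace ℝ V] [FiniteDimensional ℝ H] [FiniteDimensional ℝ V]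
  (G : HeisenbergType m k H V)

/-- the bracket as a continuous bilinear map -/
noncomputable def BL : H →L[ℝ] H →L[ℝ] V :=
  LinearMap.toContinuousLinearMap
    ((LinearMap.toContinuousLinearMap : (H →ₗ[ℝ] V) ≃ₗ[ℝ] H →L[ℝ] V).toLinearMap ∘ₗ
      LinearMap.mk₂ ℝ G.bracket (fun a b c => (G.bracket_linear_left c).map_add a b)
        (fun t a c => (G.bracket_linear_left c).map_smul t a)
        (fun a b c => (G.bracket_linear_right a).map_add b c)
        fun t a c => (G.bracket_linear_right a).map_smul t c)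

theorem BL_apply (z z' : H) : BL G z z' = G.bracket z z' := rfl

/-- the map `J` as a continuous bilinear map -/
noncomputable def JL : V →L[ℝ] H →L[ℝ] H :=
  LinearMap.toContinuousLinearMap
    ((LinearMap.toContinuousLinearMap : (H →ₗ[ℝ] H) ≃ₗ[ℝ] H →L[ℝ] H).toLinearMap ∘ₗ
      LinearMap.mk₂ ℝ G.J
        (fun a b c => ext_inner_right ℝ fun v => by simp only [G.inner_J, inner_add_left])
        (fun t a c => ext_inner_right ℝ fun v => by simp only [G.inner_J, real_inner_smul_left])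
        (fun a b c => ext_inner_right ℝ fun v => by
          simp only [G.inner_J, inner_add_left, ← BL_apply, map_add, inner_add_right,
            _root_.add_apply])
        fun t a c => ext_inner_right ℝ fun v => by
          simp only [G.inner_J, real_inner_smul_left, ← BL_apply, map_smul, real_inner_smul_right,
            _root_.smul_apply])

theorem JL_apply (μ : V) (z : H) : JL G μ z = G.J μ z := rfl

theorem inner_JL (μ : V) (z z' : H) : ⟪JL G μ z, z'⟫_ℝ = ⟪μ, BL G z z'⟫_ℝ := G.inner_J μ z z'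

theorem BL_self (z : H) : BL G z z = 0 := G.bracket_self z

theorem BL_swap (z z' : H) : BL G z z' = -BL G z' z := by
  have h := BL_self G (z + z')
  simp only [map_add, _root_.add_apply, BL_self, zero_add, add_zero] at h
  exact eq_neg_of_add_eq_zero_right h

theorem J_skew (μ : V) (z z' : H) : ⟪JL G μ z, z'⟫_ℝ = -⟪z, JL G μ z'⟫_ℝ := by
  rw [real_inner_comm (JL G μ z') z, inner_JL, inner_JL, BL_swap, inner_neg_right]

theorem inner_J_self (μ : V) (z : H) : ⟪JL G μ z, z⟫_ℝ = 0 := by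
  rw [inner_JL, BL_self, inner_zero_right]

theorem JJ (μ : V) (z : H) : JL G μ (JL G μ z) = -(‖μ‖ ^ 2) • z := G.J_J μ z

theorem cliff (μ ν : V) (z : H) :
    JL G μ (JL G ν z) + JL G ν (JL G μ z) = (-2 * ⟪μ, ν⟫_ℝ) • z := by
  have h := JJ G (μ + ν) z
  simp only [map_add, _root_.add_apply, JJ, norm_add_sq_real] at h
  linear_combination (norm := module) h

theorem inner_JJ (μ : V) (z z' : H) : ⟪JL G μ z, JL G μ z'⟫_ℝ = ‖μ‖ ^ 2 * ⟪z, z'⟫_ℝ := by
  rw [J_skew, JJ, real_inner_smul_right]; ring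

theorem norm_J_sq (μ : V) (z : H) : ‖JL G μ z‖ ^ 2 = ‖μ‖ ^ 2 * ‖z‖ ^ 2 := by
  rw [← real_inner_self_eq_norm_sq (JL G μ z), inner_JJ, real_inner_self_eq_norm_sq]

theorem BL_J (μ : V) (z : H) : BL G z (JL G μ z) = ‖z‖ ^ 2 • μ := by
  refine ext_inner_left ℝ fun ν => ?_
  have h := congrArg (fun y => ⟪z, y⟫_ℝ) (cliff G ν μ z)
  simp only [inner_add_right, real_inner_smul_right, real_inner_self_eq_norm_sq] at h
  have h1 := J_skew G ν z (JL G μ z)
  have h2 := J_skew G μ z (JL G ν z)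
  rw [real_inner_comm] at h2
  rw [← inner_JL, real_inner_smul_right]
  linarith

include G in
theorem finrank_H : finrank ℝ H = m := by
  simpa using finrank_eq_card_basis G.e.toBasis

include G in
theorem finrank_V : finrank ℝ V = k := by
  simpa using finrank_eq_card_basis G.ε.toBasis

include G in
theorem m_pos (hk : 0 < k) : 0 < m := by
  by_contra h
  have h0 : m = 0 := by omega
  have : Subsingleton H := finrank_zero_iff.1 ((finrank_H G).trans h0)
  have h1 : (⊤ : Submodule ℝ V) = ⊥ := by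
    rw [← G.bracket_span, Submodule.span_eq_bot]
    rintro σ ⟨z, z', rfl⟩
    rw [Subsingleton.elim z' z, G.bracket_self]
  have h2 : finrank ℝ V = 0 := by rw [← finrank_top, h1, finrank_bot]
  rw [finrank_V G] at h2
  omega

include G in
theorem m_even (hk : 0 < k) : Even m := by
  let T : H →ₗ[ℝ] H := JL G (G.ε ⟨0, hk⟩)
  have h1 : T * T = (-1 : ℝ) • (1 : H →ₗ[ℝ] H) := by
    ext z
    have := JJ G (G.ε ⟨0, hk⟩) z
    rw [G.ε.orthonormal.1] at this
    simpa [T] using this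
  have h2 := congrArg LinearMap.det h1
  rw [map_mul, LinearMap.det_smul, map_one, mul_one, finrank_H G] at h2
  by_contra h
  rw [(Nat.not_even_iff_odd.1 h).neg_one_pow] at h2
  nlinarith [mul_self_nonneg (LinearMap.det T)]

theorem hasFDerivAt_J {F : Type} [NormedAddCommGroup F] [NormedSpace ℝ F] {f : F → V} {g : F → H}
    {f' : F →L[ℝ] V} {g' : F →L[ℝ] H} {x : F} (hf : HasFDerivAt f f' x) (hg : HasFDerivAt g g' x) :
    HasFDerivAt (fun y => JL G (f y) (g y))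
      ((JL G (f x)).comp g' + ((JL G).flip (g x)).comp f') x :=
  ((JL G).hasFDerivAt_of_bilinear hf hg).congr_fderiv (by ext v; simp)

theorem hasFDerivAt_B {F : Type} [NormedAddCommGroup F] [NormedSpace ℝ F] {f g : F → H}
    {f' g' : F →L[ℝ] H} {x : F} (hf : HasFDerivAt f f' x) (hg : HasFDerivAt g g' x) :
    HasFDerivAt (fun y => BL G (f y) (g y))
      ((BL G (f x)).comp g' + ((BL G).flip (g x)).comp f') x :=
  ((BL G).hasFDerivAt_of_bilinear hf hg).congr_fderiv (by ext v; simp)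

theorem contDiffOn_J {F : Type} [NormedAddCommGroup F] [NormedSpace ℝ F] {f : F → V} {g : F → H}
    {n : WithTop ℕ∞} {s : Set F} (hf : ContDiffOn ℝ n f s) (hg : ContDiffOn ℝ n g s) :
    ContDiffOn ℝ n (fun y => JL G (f y) (g y)) s :=
  ((JL G).contDiff.comp_contDiffOn hf).clm_apply hg

theorem contDiffOn_B {F : Type} [NormedAddCommGroup F] [NormedSpace ℝ F] {f g : F → H}
    {n : WithTop ℕ∞} {s : Set F} (hf : ContDiffOn ℝ n f s) (hg : ContDiffOn ℝ n g s) :
    ContDiffOn ℝ n (fun y => BL G (f y) (g y)) s :=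
  ((BL G).contDiff.comp_contDiffOn hf).clm_apply hg

/-- the gradient in `z` -/
noncomputable def xi (u : H × V → ℝ) (x : H × V) : H := ∑ i, fderiv ℝ u x (G.e i, 0) • G.e i

/-- the gradient in `σ` -/
noncomputable def la (u : H × V → ℝ) (x : H × V) : V := ∑ l, fderiv ℝ u x (0, G.ε l) • G.ε l

/-- the horizontal gradient as a vector field -/
noncomputable def vf (u : H × V → ℝ) (x : H × V) : H × V :=
  (xi G u x + (1 / 2 : ℝ) • JL G (la G u x) x.1,
    (1 / 2 : ℝ) • BL G x.1 (xi G u x) + (‖x.1‖ ^ 2 / 4) • la G u x)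

theorem clm_eq (L : H × V →L[ℝ] ℝ) (v : H × V) :
    L v = ⟪∑ i, L (G.e i, 0) • G.e i, v.1⟫_ℝ + ⟪∑ l, L (0, G.ε l) • G.ε l, v.2⟫_ℝ := by
  have h : v = ∑ i, ⟪G.e i, v.1⟫_ℝ • ((G.e i, 0) : H × V) +
      ∑ l, ⟪G.ε l, v.2⟫_ℝ • ((0, G.ε l) : H × V) := by
    ext
    · simp [Prod.fst_sum, G.e.sum_repr']
    · simp [Prod.snd_sum, G.ε.sum_repr']
  conv_lhs => rw [h]
  simp only [map_add, map_sum, map_smul, sum_inner, real_inner_smul_left, smul_eq_mul, mul_comm]

theorem fderiv_eq (u : H × V → ℝ) (x v : H × V) :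
    fderiv ℝ u x v = ⟪xi G u x, v.1⟫_ℝ + ⟪la G u x, v.2⟫_ℝ := clm_eq G _ v

theorem xi_la_of {u : H × V → ℝ} {x : H × V} {ξ : H} {μ : V}
    (h : ∀ v : H × V, fderiv ℝ u x v = ⟪ξ, v.1⟫_ℝ + ⟪μ, v.2⟫_ℝ) :
    xi G u x = ξ ∧ la G u x = μ := by
  refine ⟨ext_inner_right ℝ fun a => ?_, ext_inner_right ℝ fun a => ?_⟩
  · simpa [fderiv_eq G] using h (a, 0)
  · simpa [fderiv_eq G] using h (0, a)

theorem xi_congr {u u' : H × V → ℝ} {x : H × V} (h : u =ᶠ[𝓝 x] u') : xi G u =ᶠ[𝓝 x] xi G u' :=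
  (h.fderiv (𝕜 := ℝ)).mono fun y hy => by simp only [xi, hy]

theorem la_congr {u u' : H × V → ℝ} {x : H × V} (h : u =ᶠ[𝓝 x] u') : la G u =ᶠ[𝓝 x] la G u' :=
  (h.fderiv (𝕜 := ℝ)).mono fun y hy => by simp only [la, hy]

theorem contDiffOn_xi {u : H × V → ℝ} {W : Set (H × V)} {n n' : WithTop ℕ∞} (hW : IsOpen W)
    (hu : ContDiffOn ℝ n' u W) (hn : n + 1 ≤ n') : ContDiffOn ℝ n (xi G u) W :=
  ContDiffOn.sum fun _ _ =>
    ((hu.fderiv_of_isOpen hW hn).clm_apply contDiffOn_const).smul contDiffOn_const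

theorem contDiffOn_la {u : H × V → ℝ} {W : Set (H × V)} {n n' : WithTop ℕ∞} (hW : IsOpen W)
    (hu : ContDiffOn ℝ n' u W) (hn : n + 1 ≤ n') : ContDiffOn ℝ n (la G u) W :=
  ContDiffOn.sum fun _ _ =>
    ((hu.fderiv_of_isOpen hW hn).clm_apply contDiffOn_const).smul contDiffOn_const

theorem contDiffOn_vf {u : H × V → ℝ} {W : Set (H × V)} {n n' : WithTop ℕ∞} (hW : IsOpen W)
    (hu : ContDiffOn ℝ n' u W) (hn : n + 1 ≤ n') : ContDiffOn ℝ n (vf G u) W := by
  have h1 := contDiffOn_xi G hW hu hn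
  have h2 := contDiffOn_la G hW hu hn
  have h3 : ContDiffOn ℝ n (fun x : H × V => ‖x.1‖ ^ 2 / 4) W :=
    (contDiffOn_fst.norm_sq ℝ).div_const _
  exact (h1.add ((contDiffOn_J G h2 contDiffOn_fst).const_smul _)).prodMk
    (((contDiffOn_B G contDiffOn_fst h1).const_smul _).add (h3.smul h2))

/-- symmetry of the second derivative -/
theorem symm2 {u : H × V → ℝ} {x : H × V} (hu : ContDiffAt ℝ 2 u x) (v v' : H × V) :
    ⟪fderiv ℝ (xi G u) x v, v'.1⟫_ℝ + ⟪fderiv ℝ (la G u) x v, v'.2⟫_ℝ =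
      ⟪fderiv ℝ (xi G u) x v', v.1⟫_ℝ + ⟪fderiv ℝ (la G u) x v', v.2⟫_ℝ := by
  have h1 : HasFDerivAt (fderiv ℝ u) (fderiv ℝ (fderiv ℝ u) x) x :=
    ((hu.fderiv_right (m := 1) (by norm_num)).differentiableAt (by norm_num)).hasFDerivAt
  have h2 : ∀ w, fderiv ℝ (xi G u) x w = ∑ i, fderiv ℝ (fderiv ℝ u) x w (G.e i, 0) • G.e i := by
    intro w
    have := (HasFDerivAt.fun_sum (u := Finset.univ) fun i _ =>
      (h1.clm_apply (hasFDerivAt_const ((G.e i, 0) : H × V) x)).smul_const (G.e i)).fderiv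
    rw [show xi G u = fun y => ∑ i, fderiv ℝ u y (G.e i, 0) • G.e i from rfl, this]
    simp
  have h3 : ∀ w, fderiv ℝ (la G u) x w = ∑ l, fderiv ℝ (fderiv ℝ u) x w (0, G.ε l) • G.ε l := by
    intro w
    have := (HasFDerivAt.fun_sum (u := Finset.univ) fun i _ =>
      (h1.clm_apply (hasFDerivAt_const ((0, G.ε i) : H × V) x)).smul_const (G.ε i)).fderiv
    rw [show la G u = fun y => ∑ i, fderiv ℝ u y (0, G.ε i) • G.ε i from rfl, this]
    simp
  rw [h2, h2, h3, h3, ← clm_eq G, ← clm_eq G]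
  exact hu.isSymmSndFDerivAt (by simp) v v'

theorem trace_eq (L : H × V →L[ℝ] H × V) :
    LinearMap.trace ℝ (H × V) L =
      ∑ i, ⟪G.e i, (L (G.e i, 0)).1⟫_ℝ + ∑ l, ⟪G.ε l, (L (0, G.ε l)).2⟫_ℝ := by
  rw [LinearMap.trace_eq_matrix_trace ℝ (G.e.toBasis.prod G.ε.toBasis), Matrix.trace,
    Fintype.sum_sum_type]
  simp [LinearMap.toMatrix_apply, OrthonormalBasis.repr_apply_apply, Basis.prod_apply]

include G in
/-- determinant of a block triangular map with scalar blocks -/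
theorem det_shear (a b : ℝ) (T : H →L[ℝ] V) (L : H × V →L[ℝ] H × V)
    (hL : ∀ v, L v = (a • v.1, b • v.2 + T v.1)) : L.det = a ^ m * b ^ k := by
  rw [ContinuousLinearMap.det, ← LinearMap.det_toMatrix (G.e.toBasis.prod G.ε.toBasis)]
  have : LinearMap.toMatrix (G.e.toBasis.prod G.ε.toBasis) (G.e.toBasis.prod G.ε.toBasis)
      (L : H × V →ₗ[ℝ] H × V) = Matrix.fromBlocks (a • 1) 0
        (LinearMap.toMatrix G.e.toBasis G.ε.toBasis T) (b • 1) := by
    ext (i | i) (j | j) <;>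
      simp [LinearMap.toMatrix_apply, hL, Basis.prod_apply, Matrix.one_apply]
  rw [this, Matrix.det_fromBlocks_zero₁₂]
  simp

/-- the overdetermined system for `u` on an open set that avoids the centre -/
structure Sys (p : ℝ) (W : Set (H × V)) (u : H × V → ℝ) : Prop where
  op : IsOpen W
  nz : ∀ x ∈ W, x.1 ≠ 0
  sm : ContDiffOn ℝ 3 u W
  pos : ∀ x ∈ W, 0 < u x
  eik : ∀ x ∈ W, ‖(vf G u x).1‖ ^ 2 = 4 * ‖x.1‖ ^ 2
  dv : ∀ x ∈ W, LinearMap.trace ℝ (H × V) (fderiv ℝ (vf G u) x) =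
    2 * (homDim m k + p - 2) * ‖x.1‖ ^ 2 / u x - (p - 2) * ⟪x.1, xi G u x⟫_ℝ / ‖x.1‖ ^ 2

variable {G} {p : ℝ} {W : Set (H × V)} {u : H × V → ℝ} {x : H × V}

theorem Sys.mono (h : Sys G p W u) {W' : Set (H × V)} (h1 : IsOpen W') (h2 : W' ⊆ W) :
    Sys G p W' u :=
  ⟨h1, fun x hx => h.nz x (h2 hx), h.sm.mono h2, fun x hx => h.pos x (h2 hx),
    fun x hx => h.eik x (h2 hx), fun x hx => h.dv x (h2 hx)⟩

theorem Sys.sm_xi (h : Sys G p W u) : ContDiffOn ℝ 2 (xi G u) W :=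
  contDiffOn_xi G h.op h.sm (by norm_num)

theorem Sys.sm_la (h : Sys G p W u) : ContDiffOn ℝ 2 (la G u) W :=
  contDiffOn_la G h.op h.sm (by norm_num)

theorem Sys.sm_vf (h : Sys G p W u) : ContDiffOn ℝ 2 (vf G u) W :=
  contDiffOn_vf G h.op h.sm (by norm_num)

theorem Sys.d_u (h : Sys G p W u) (hx : x ∈ W) : HasFDerivAt u (fderiv ℝ u x) x :=
  ((h.sm.contDiffAt (h.op.mem_nhds hx)).differentiableAt (by norm_num)).hasFDerivAt

theorem Sys.d_xi (h : Sys G p W u) (hx : x ∈ W) : HasFDerivAt (xi G u) (fderiv ℝ (xi G u) x) x :=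
  ((h.sm_xi.contDiffAt (h.op.mem_nhds hx)).differentiableAt (by norm_num)).hasFDerivAt

theorem Sys.d_la (h : Sys G p W u) (hx : x ∈ W) : HasFDerivAt (la G u) (fderiv ℝ (la G u) x) x :=
  ((h.sm_la.contDiffAt (h.op.mem_nhds hx)).differentiableAt (by norm_num)).hasFDerivAt

theorem Sys.symm (h : Sys G p W u) (hx : x ∈ W) (v v' : H × V) :
    ⟪fderiv ℝ (xi G u) x v, v'.1⟫_ℝ + ⟪fderiv ℝ (la G u) x v, v'.2⟫_ℝ =
      ⟪fderiv ℝ (xi G u) x v', v.1⟫_ℝ + ⟪fderiv ℝ (la G u) x v', v.2⟫_ℝ :=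
  symm2 G ((h.sm.contDiffAt (h.op.mem_nhds hx)).of_le (by norm_num)) v v'

theorem vf_snd (u : H × V → ℝ) (x : H × V) :
    (vf G u x).2 = (1 / 2 : ℝ) • BL G x.1 (vf G u x).1 := by
  simp only [vf, map_add, map_smul, BL_J]
  module

theorem fderiv_vf (u φ : H × V → ℝ) (x : H × V) :
    fderiv ℝ φ x (vf G u x) = ⟪(vf G φ x).1, (vf G u x).1⟫_ℝ := by
  rw [fderiv_eq G, vf_snd, real_inner_smul_right, ← inner_JL]
  simp only [vf, inner_add_left, real_inner_smul_left]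

/-- the eikonal equation, expanded -/
theorem Sys.eik' (h : Sys G p W u) (hx : x ∈ W) :
    ‖xi G u x‖ ^ 2 + ⟪JL G (la G u x) x.1, xi G u x⟫_ℝ = (4 - ‖la G u x‖ ^ 2 / 4) * ‖x.1‖ ^ 2 := by
  have h1 := h.eik x hx
  simp only [vf, norm_add_sq_real, norm_smul, mul_pow, norm_J_sq, real_inner_smul_right,
    Real.norm_eq_abs, sq_abs] at h1
  rw [real_inner_comm] at h1
  linarith

theorem Sys.du_vf (h : Sys G p W u) (hx : x ∈ W) : fderiv ℝ u x (vf G u x) = 4 * ‖x.1‖ ^ 2 := by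
  rw [fderiv_vf, real_inner_self_eq_norm_sq, h.eik x hx]

/-- the Hamilton equations for the momenta -/
theorem Sys.ham (h : Sys G p W u) (hx : x ∈ W) :
    fderiv ℝ (la G u) x (vf G u x) = 0 ∧ fderiv ℝ (xi G u) x (vf G u x) =
      (1 / 2 : ℝ) • JL G (la G u x) (xi G u x) + (4 - ‖la G u x‖ ^ 2 / 4) • x.1 := by
  have h1 := (((h.d_xi hx).add ((hasFDerivAt_J G (h.d_la hx)
    (hasFDerivAt_fst (p := x))).const_smul (1 / 2 : ℝ))).norm_sq).sub
      ((hasFDerivAt_fst (𝕜 := ℝ) (p := x)).norm_sq.const_mul 4)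
  have h2 : (fun y => ‖(vf G u y).1‖ ^ 2 - 4 * ‖y.1‖ ^ 2) =ᶠ[𝓝 x] fun _ => 0 :=
    mem_of_superset (h.op.mem_nhds hx) fun y hy => sub_eq_zero.2 (h.eik y hy)
  have h3 := h1.unique ((hasFDerivAt_const (0 : ℝ) x).congr_of_eventuallyEq h2)
  have h4 : ∀ v : H × V, ⟪fderiv ℝ (xi G u) x (vf G u x), v.1⟫_ℝ +
      ⟪fderiv ℝ (la G u) x (vf G u x), v.2⟫_ℝ =
      ⟪(1 / 2 : ℝ) • JL G (la G u x) (vf G u x).1 + (4 : ℝ) • x.1, v.1⟫_ℝ := by
    intro v
    have h5 := congrArg (fun L : H × V →L[ℝ] ℝ => L v) h3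
    simp only [_root_.sub_apply, _root_.smul_apply,
      ContinuousLinearMap.comp_apply, _root_.add_apply, innerSL_apply_apply,
      ContinuousLinearMap.flip_apply, ContinuousLinearMap.coe_fst', _root_.zero_apply,
      Pi.add_apply, Pi.smul_apply, smul_eq_mul, nsmul_eq_mul, Nat.cast_ofNat] at h5
    change 2 * ⟪(vf G u x).1, _⟫_ℝ - _ = 0 at h5
    rw [h.symm hx, vf_snd, real_inner_smul_right, ← inner_JL, inner_add_left, real_inner_smul_left,
      real_inner_smul_left, J_skew G _ (vf G u x).1, real_inner_comm (vf G u x).1,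
      real_inner_comm (vf G u x).1]
    simp only [inner_add_right, real_inner_smul_right] at h5
    linarith
  refine ⟨ext_inner_right ℝ fun a => by simpa using h4 (0, a), ext_inner_right ℝ fun a => ?_⟩
  have h6 := h4 (a, 0)
  simp only [inner_zero_right, add_zero] at h6
  rw [h6]
  congr 1
  simp only [vf, map_add, map_smul, JJ]
  module

end Pool.Agent.MP_1048c2_an.Cl
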