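import Pool.Agent.MP_1048c2_an.Cl.Stmt
set_option linter.unusedSectionVars false
namespace Pool.Agent.MP_1048c2_an.Cl
open Filter Topology Set Module
open scoped InnerProductSpace
variable {m k : ℕ} {H V : Type} [NormedAddCommGroup H] [InnerProductSpace ℝ H] [NormedAddCommGroup V] [InnerProductSpace ℝ V] [FiniteDimensional ℝ H] [FiniteDimensional ℝ V]

theorem line_Boch {F E : Type} [NormedAddCommGroup F] [NormedSpace ℝ F] [NormedAddCommGroup E]
    [NormedSpace ℝ E] {Φ : F → E} {Φ' : F →L[ℝ] E} {y : F} (h : HasFDerivAt Φ Φ' y) (u : F) :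
    HasDerivAt (fun t : ℝ => Φ (y + t • u)) (Φ' u) 0 :=
  h.hasLineDerivAt u

theorem app_Boch {F E : Type} [NormedAddCommGroup F] [NormedSpace ℝ F] [NormedAddCommGroup E]
    [NormedSpace ℝ E] {Φ : ℝ → F →L[ℝ] E} {Φ' : F →L[ℝ] E} (h : HasDerivAt Φ Φ' 0) (a : F) :
    HasDerivAt (fun t : ℝ => Φ t a) (Φ' a) 0 := by
  simpa using h.clm_apply (hasDerivAt_const (0 : ℝ) a)

theorem zero_Boch {F : Type} [NormedAddCommGroup F] [NormedSpace ℝ F] {f : F → ℝ} {y u : F}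
    {d : ℝ} (h0 : ∀ᶠ z in 𝓝 y, f z = 0) (h : HasDerivAt (fun t : ℝ => f (y + t • u)) d 0) :
    d = 0 := by
  have hc : Tendsto (fun t : ℝ => y + t • u) (𝓝 0) (𝓝 y) := by
    have : Continuous (fun t : ℝ => y + t • u) := by fun_prop
    simpa using this.tendsto 0
  have h1 : (fun t : ℝ => f (y + t • u)) =ᶠ[𝓝 0] fun _ => (0 : ℝ) := hc.eventually h0
  exact h.unique ((hasDerivAt_const (0 : ℝ) (0 : ℝ)).congr_of_eventuallyEq h1)

theorem core_Boch {F ι : Type} [NormedAddCommGroup F] [NormedSpace ℝ F] [Fintype ι]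
    [DecidableEq ι] (g : F → ℝ) (y₀ v₀ : F) (v : ι → F) (r : F →L[ℝ] ℝ) (μ : ℝ)
    (D1 : F → F → ℝ) (D2 : F → F → F → ℝ) (D3 : F → F → F → ℝ)
    (P : F → Prop) (hg : P y₀) (hgev : ∀ᶠ y in 𝓝 y₀, P y)
    (h1 : ∀ y, P y → ∀ u, HasDerivAt (fun t : ℝ => g (y + t • u)) (D1 y u) 0)
    (h2 : ∀ y, P y → ∀ u a, HasDerivAt (fun t : ℝ => D1 (y + t • u) a) (D2 y u a) 0)
    (h3 : ∀ u a b, HasDerivAt (fun t : ℝ => D2 (y₀ + t • u) a b) (D3 u a b) 0)
    (s2 : ∀ y, P y → ∀ a b, D2 y a b = D2 y b a)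
    (s3a : ∀ a b, D3 a b = D3 b a) (hr0 : r v₀ = 1) (hrv : ∀ l, r (v l) = 0) (hry : r y₀ ≠ 0)
    (hμ : 0 < μ)
    (hev : ∀ᶠ y in 𝓝 y₀, D1 y v₀ ^ 2 + ∑ l, D1 y (v l) ^ 2 = 4 * g y ∧
      D2 y v₀ v₀ + ∑ l, D2 y (v l) (v l) + μ * D1 y v₀ / r y = 2 * (Fintype.card ι + 1 + μ)) :
    D1 y₀ v₀ = 2 * r y₀ ∧ ∀ l l', D2 y₀ (v l) (v l') = if l = l' then 2 else 0 := by
  let w : Option ι → F := fun a => a.elim v₀ v
  have s3b : ∀ a b c, D3 a b c = D3 a c b := by
    intro a b c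
    have := zero_Boch (f := fun y => D2 y b c - D2 y c b) (y := y₀) (u := a)
      (hgev.mono fun y hy => by rw [s2 y hy b c]; ring)
      ((h3 a b c).fun_sub (h3 a c b))
    linarith
  have e1 : ∀ᶠ y in 𝓝 y₀, ∑ a, D1 y (w a) ^ 2 - 4 * g y = 0 := hev.mono fun y hy => by
    rw [Fintype.sum_option]; simp only [w, Option.elim]; linarith [hy.1]
  have e1' : ∀ᶠ y in 𝓝 y₀, ∀ u, ∑ a, D1 y (w a) * D2 y u (w a) - 2 * D1 y u = 0 := by
    filter_upwards [e1.eventually_nhds, hgev] with y hy hc u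
    have := zero_Boch (f := fun y => ∑ a, D1 y (w a) ^ 2 - 4 * g y) (y := y) (u := u) hy
      ((HasDerivAt.fun_sum fun a _ => (h2 y hc u (w a)).fun_pow 2).fun_sub
        ((h1 y hc u).const_mul 4))
    simp only [zero_smul, add_zero, Nat.cast_ofNat, Nat.add_one_sub_one, pow_one] at this
    have h4 : ∑ a, 2 * D1 y (w a) * D2 y u (w a) = 2 * ∑ a, D1 y (w a) * D2 y u (w a) := by
      rw [Finset.mul_sum]; exact Finset.sum_congr rfl fun a _ => by ring
    linarith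
  have e1'' : ∀ b, ∑ a, (D2 y₀ (w b) (w a) ^ 2 + D1 y₀ (w a) * D3 (w a) (w b) (w b)) =
      2 * D2 y₀ (w b) (w b) := by
    intro b
    have := zero_Boch (f := fun y => ∑ a, D1 y (w a) * D2 y (w b) (w a) - 2 * D1 y (w b))
      (y := y₀) (u := w b) (e1'.mono fun y hy => hy (w b))
      ((HasDerivAt.fun_sum fun a _ => (h2 y₀ hg (w b) (w a)).fun_mul
        (h3 (w b) (w b) (w a))).fun_sub
        ((h2 y₀ hg (w b) (w b)).const_mul 2))
    simp only [zero_smul, add_zero] at this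
    have h4 : ∑ a, (D2 y₀ (w b) (w a) ^ 2 + D1 y₀ (w a) * D3 (w a) (w b) (w b)) =
        ∑ a, (D2 y₀ (w b) (w a) * D2 y₀ (w b) (w a) + D1 y₀ (w a) * D3 (w b) (w b) (w a)) :=
      Finset.sum_congr rfl fun a _ => by rw [s3b (w b) (w b) (w a), s3a (w b) (w a)]; ring
    linarith
  set κ : ℝ := 2 * (Fintype.card ι + 1 + μ) with hκ
  have hrev : ∀ᶠ y in 𝓝 y₀, r y ≠ 0 := r.continuous.continuousAt.eventually_ne hry
  have e2 : ∀ᶠ y in 𝓝 y₀, (∑ b, D2 y (w b) (w b) - κ) * r y + μ * D1 y v₀ = 0 := by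
    filter_upwards [hev, hrev] with y hy hy'
    rw [Fintype.sum_option]; simp only [w, Option.elim]
    have := hy.2
    have h5 : μ * D1 y v₀ = μ * D1 y v₀ / r y * r y := by field_simp
    rw [h5, ← this]; ring
  set Δ := ∑ b, D2 y₀ (w b) (w b) with hΔ
  set q := D1 y₀ v₀ / r y₀ with hq
  have hq' : D1 y₀ v₀ = q * r y₀ := by rw [hq]; field_simp
  have hΔq : Δ - κ = -(μ * q) := by
    have := e2.self_of_nhds
    rw [hq'] at this
    have h6 : (Δ - κ + μ * q) * r y₀ = 0 := by linarith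
    rcases mul_eq_zero.1 h6 with h | h
    · linarith
    · exact absurd h hry
  have e2' : ∀ a, (∑ b, D3 (w a) (w b) (w b)) * r y₀ =
      μ * q * r (w a) - μ * D2 y₀ v₀ (w a) := by
    intro a
    have := zero_Boch (f := fun y => (∑ b, D2 y (w b) (w b) - κ) * r y + μ * D1 y v₀)
      (y := y₀) (u := w a) e2
      ((((HasDerivAt.fun_sum fun b _ =>
        h3 (w a) (w b) (w b)).sub_const κ).fun_mul
        (line_Boch r.hasFDerivAt (w a))).fun_add
        ((h2 y₀ hg (w a) v₀).const_mul μ))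
    simp only [zero_smul, add_zero] at this
    rw [← hΔ, hΔq, s2 y₀ hg (w a) v₀] at this
    linarith
  have e3 : ∑ a, D1 y₀ (w a) * ∑ b, D3 (w a) (w b) (w b) = μ * q ^ 2 - 2 * μ * q := by
    have h7 : (∑ a, D1 y₀ (w a) * ∑ b, D3 (w a) (w b) (w b)) * r y₀ =
        μ * q * ∑ a, D1 y₀ (w a) * r (w a) - μ * ∑ a, D1 y₀ (w a) * D2 y₀ v₀ (w a) := by
      rw [Finset.sum_mul, Finset.mul_sum, Finset.mul_sum, ← Finset.sum_sub_distrib]
      exact Finset.sum_congr rfl fun a _ => by rw [mul_assoc, e2' a]; ring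
    have h8 : ∑ a, D1 y₀ (w a) * r (w a) = D1 y₀ v₀ := by
      rw [Fintype.sum_option]; simp [w, hr0, hrv]
    have h9 := e1'.self_of_nhds v₀
    rw [h8, hq'] at h7
    rw [hq'] at h9
    apply mul_right_cancel₀ hry
    rw [h7]
    have : ∑ a, D1 y₀ (w a) * D2 y₀ v₀ (w a) = 2 * (q * r y₀) := by linarith
    rw [this]; ring
  have e4 : ∑ b, ∑ a, D2 y₀ (w b) (w a) ^ 2 + (μ * q ^ 2 - 2 * μ * q) = 2 * Δ := by
    rw [← e3, hΔ, Finset.mul_sum, ← Finset.sum_congr rfl fun b _ => e1'' b]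
    simp only [Finset.sum_add_distrib, Finset.mul_sum]
    rw [Finset.sum_comm (f := fun a b => D1 y₀ (w a) * D3 (w a) (w b) (w b))]
  have e5 : ∑ b, ∑ a, (D2 y₀ (w b) (w a) - if b = a then 2 else 0) ^ 2 = -(μ * (q - 2) ^ 2) := by
    have h10 : ∀ b, ∑ a, (D2 y₀ (w b) (w a) - if b = a then 2 else 0) ^ 2 =
        ∑ a, D2 y₀ (w b) (w a) ^ 2 - 4 * D2 y₀ (w b) (w b) + 4 := by
      intro b
      have : ∀ a, (D2 y₀ (w b) (w a) - if b = a then 2 else 0) ^ 2 =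
          D2 y₀ (w b) (w a) ^ 2 + if b = a then 4 - 4 * D2 y₀ (w b) (w b) else 0 := by
        intro a
        split_ifs with hab
        · subst hab; ring
        · ring
      simp only [this, Finset.sum_add_distrib, Finset.sum_ite_eq, Finset.mem_univ, if_true]
      ring
    simp only [h10, Finset.sum_add_distrib, Finset.sum_sub_distrib, ← Finset.mul_sum,
      Finset.sum_const, Finset.card_univ, Fintype.card_option, nsmul_eq_mul]
    push_cast
    rw [← hΔ]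
    linarith
  have hn : 0 ≤ ∑ b, ∑ a, (D2 y₀ (w b) (w a) - if b = a then 2 else 0) ^ 2 :=
    Finset.sum_nonneg fun b _ => Finset.sum_nonneg fun a _ => sq_nonneg _
  have hm : 0 ≤ μ * (q - 2) ^ 2 := by positivity
  have hz : μ * (q - 2) ^ 2 = 0 := by linarith
  have hq2 : q = 2 := by
    rcases mul_eq_zero.1 hz with h | h
    · exact absurd h hμ.ne'
    · linarith [pow_eq_zero_iff (two_ne_zero) |>.1 h]
  refine ⟨by rw [hq', hq2], fun l l' => ?_⟩
  rw [hz, neg_zero, Finset.sum_eq_zero_iff_of_nonneg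
    fun b _ => Finset.sum_nonneg fun a _ => sq_nonneg _] at e5
  have := (Finset.sum_eq_zero_iff_of_nonneg fun a _ => sq_nonneg _).1
    (e5 (some l) (Finset.mem_univ _)) (some l') (Finset.mem_univ _)
  have h11 := pow_eq_zero_iff (two_ne_zero) |>.1 this
  simp only [w, Option.elim, Option.some.injEq] at h11
  linarith

theorem two_Boch {F : Type} [NormedAddCommGroup F] [NormedSpace ℝ F] {Φ : F → F →L[ℝ] ℝ}
    {y : F} (h : DifferentiableAt ℝ Φ y) (u a : F) :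
    HasDerivAt (fun t : ℝ => Φ (y + t • u) a) (fderiv ℝ Φ y u a) 0 :=
  app_Boch (line_Boch h.hasFDerivAt u) a

theorem three_Boch {F : Type} [NormedAddCommGroup F] [NormedSpace ℝ F] {Φ : F → F →L[ℝ] ℝ}
    {y : F} (h : ContDiffAt ℝ 2 Φ y) (u a b : F) :
    HasDerivAt (fun t : ℝ => fderiv ℝ Φ (y + t • u) a b)
      (fderiv ℝ (fderiv ℝ Φ) y u a b) 0 := by
  have h3 := ((h.fderiv_right (m := 1) (by norm_num)).differentiableAt (by simp)).hasFDerivAt
  have h4 := line_Boch h3 u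
  have h5 := app_Boch (E := F →L[ℝ] ℝ) h4 a
  exact app_Boch (E := ℝ) h5 b

theorem boch_st : BochSt := by
  intro F ι _ _ _ _ g y₀ v₀ v r μ hg hr0 hrv hry hμ hev
  have c2 : ∀ y, ContDiffAt ℝ 3 g y → ContDiffAt ℝ 2 (fderiv ℝ g) y := fun y hy =>
    hy.fderiv_right (m := 2) (by norm_num)
  exact core_Boch g y₀ v₀ v r μ (fun y a => fderiv ℝ g y a)
    (fun y a b => fderiv ℝ (fderiv ℝ g) y a b)
    (fun a b c => fderiv ℝ (fderiv ℝ (fderiv ℝ g)) y₀ a b c) (fun y => ContDiffAt ℝ 3 g y) hg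
    (hg.eventually (by simp))
    (fun y hy u => line_Boch (hy.differentiableAt (by simp)).hasFDerivAt u)
    (fun y hy u a => two_Boch ((c2 y hy).differentiableAt (by simp)) u a)
    (fun u a b => three_Boch (c2 y₀ hg) u a b)
    (fun y hy a b => (hy.isSymmSndFDerivAt (by simp; norm_num)) a b)
    (fun a b => by
      have := ((c2 y₀ hg).isSymmSndFDerivAt (by simp)) a b
      funext c
      rw [this]) hr0 hrv hry hμ hev

end Pool.Agent.MP_1048c2_an.Cl
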