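import Pool.Agent.MP_1048c2_an.Cl.Stmt
set_option linter.unusedSectionVars false
namespace Pool.Agent.MP_1048c2_an.Cl
open Filter Topology Set Module
open scoped InnerProductSpace
variable {m k : ℕ} {H V : Type} [NormedAddCommGroup H] [InnerProductSpace ℝ H] [NormedAddCommGroup V] [InnerProductSpace ℝ V] [FiniteDimensional ℝ H] [FiniteDimensional ℝ V]

theorem deg_P2b (G : HeisenbergType m k H V) (P0 P1 : H × V →L[ℝ] H × V) (e : H) (he : ‖e‖ = 1)
    (h1 : ∀ v, (P1 v).1 = ⟪e, (P1 v).1⟫_ℝ • e) (U C c : ℝ) (n : ℕ) (hn : k + 1 ≤ n)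
    (hid : ∀ t : ℝ, (P0 + t • P1).det * U = (C + c * t) ^ n)
    (hz : k + 1 < n ∨ ∃ v, v ≠ 0 ∧ (P0 v).1 = ⟪e, (P0 v).1⟫_ℝ • e ∧ P1 v = 0) : c = 0 := by
  obtain ⟨j, rfl⟩ := Nat.exists_eq_add_of_le hn
  let E : H × V →L[ℝ] H × V :=
    ((innerSL ℝ e).comp (ContinuousLinearMap.fst ℝ H V)).smulRight (e, 0)
  let S : H × V →L[ℝ] H × V := (ContinuousLinearMap.inr ℝ H V).comp (ContinuousLinearMap.snd ℝ H V)
  let L : H × V →L[ℝ] H × V := P0 - E.comp P0 - S.comp P0 + P1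
  let M : H × V →L[ℝ] H × V := E.comp P0 + S.comp P0
  have key : ∀ s : ℝ, 0 < s → s ^ j * ((L + s • M).det * U) = (C * s + c) ^ (k + 1 + j) := by
    intro s hs
    have hs' := hs.ne'
    let Sh : H × V →L[ℝ] H × V := ContinuousLinearMap.id ℝ _ + (s - 1) • S
    have d1 : Sh.det = 1 ^ m * s ^ k := det_shear G 1 s 0 Sh fun v => by
      ext
      · simp [Sh, S]
      · simp only [Sh, S]
        simp
        module
    let f : Dual ℝ (H × V) := (s - 1) • ((innerSL ℝ e).comp (ContinuousLinearMap.fst ℝ H V)).toLinearMap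
    have d2 : (LinearMap.transvection f ((e, 0) : H × V)).det = s := by
      rw [LinearMap.transvection.det]
      simp [f, he]
    have d3 : ((L + s • M : H × V →L[ℝ] H × V) : H × V →ₗ[ℝ] H × V) =
        LinearMap.transvection f ((e, 0) : H × V) ∘ₗ (Sh : H × V →ₗ[ℝ] H × V) ∘ₗ
          ((P0 + s⁻¹ • P1 : H × V →L[ℝ] H × V) : H × V →ₗ[ℝ] H × V) := by
      refine LinearMap.ext fun v => ?_
      have h2 := h1 v
      ext
      · simp [L, M, E, S, Sh, f, LinearMap.transvection.apply, inner_add_right,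
          real_inner_smul_right]
        generalize ⟪e, (P1 v).1⟫_ℝ = a at h2
        rw [h2]
        match_scalars
        · ring
        · field_simp
          ring
      · simp [L, M, E, S, Sh, f, LinearMap.transvection.apply]
        match_scalars <;> first | ring1 | (field_simp; ring1)
    have d4 : (L + s • M).det = s * (s ^ k * (P0 + s⁻¹ • P1).det) := by
      rw [ContinuousLinearMap.det, d3, LinearMap.det_comp, LinearMap.det_comp, d2]
      rw [ContinuousLinearMap.det] at d1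
      rw [d1, one_pow, one_mul, ContinuousLinearMap.det]
    have d5 : C * s + c = s * (C + c * s⁻¹) := by field_simp
    rw [d4, d5, mul_pow, ← hid]
    ring
  have c1 : Continuous fun s : ℝ => s ^ j * ((L + s • M).det * U) :=
    (continuous_pow j).mul ((ContinuousLinearMap.continuous_det.comp
      (continuous_const.add (continuous_id.smul continuous_const))).mul continuous_const)
  have c2 : Continuous fun s : ℝ => (C * s + c) ^ (k + 1 + j) := by fun_prop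
  have h0 := (EqOn.closure (s := Ioi (0 : ℝ)) (fun s hs => key s hs) c1 c2)
    (show (0 : ℝ) ∈ closure (Ioi 0) by rw [closure_Ioi]; exact self_mem_Ici)
  simp only [zero_smul, add_zero, mul_zero, zero_add] at h0
  refine pow_eq_zero_iff (n := k + 1 + j) (by omega) |>.1 ?_
  rw [← h0]
  rcases hz with hz | ⟨v, hv, h2, h3⟩
  · rw [zero_pow (by omega), zero_mul]
  · have : L.det = 0 := by
      rw [ContinuousLinearMap.det, LinearMap.det_eq_zero_iff_ker_ne_bot, Submodule.ne_bot_iff]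
      refine ⟨v, ?_, hv⟩
      rw [LinearMap.mem_ker]
      ext
      · simp [L, E, S, h3, ← h2]
      · simp [L, E, S, h3]
    rw [this, zero_mul, mul_zero]

theorem plane_P2b (G : HeisenbergType 2 k H V) (z e y : H) (hz : z ≠ 0) (he : ‖e‖ = 1)
    (h1 : ⟪z, e⟫_ℝ = 0) (h2 : ⟪z, y⟫_ℝ = 0) : y = ⟪e, y⟫_ℝ • e := by
  have hc : ∀ a b : H, ⟪a, b⟫_ℝ =
      ⟪G.e 0, a⟫_ℝ * ⟪G.e 0, b⟫_ℝ + ⟪G.e 1, a⟫_ℝ * ⟪G.e 1, b⟫_ℝ := by
    intro a b
    rw [← G.e.sum_inner_mul_inner a b, Fin.sum_univ_two, real_inner_comm a, real_inner_comm a]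
  have h3 : ⟪z, z⟫_ℝ ≠ 0 := by simpa using hz
  have h4 : ⟪e, e⟫_ℝ = 1 := by rw [real_inner_self_eq_norm_sq, he, one_pow]
  rw [← sub_eq_zero, ← inner_self_eq_zero (𝕜 := ℝ)]
  have h5 : ⟪z, y - ⟪e, y⟫_ℝ • e⟫_ℝ = 0 := by
    rw [inner_sub_right, real_inner_smul_right, h1, h2]; ring
  have h6 : ⟪e, y - ⟪e, y⟫_ℝ • e⟫_ℝ = 0 := by
    rw [inner_sub_right, real_inner_smul_right, h4]; ring
  generalize y - ⟪e, y⟫_ℝ • e = r at h5 h6
  rw [hc] at h1 h3 h4 h5 h6 ⊢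
  refine mul_left_cancel₀ h3 ?_
  generalize ⟪G.e 0, z⟫_ℝ = z0 at *
  generalize ⟪G.e 1, z⟫_ℝ = z1 at *
  generalize ⟪G.e 0, e⟫_ℝ = e0 at *
  generalize ⟪G.e 1, e⟫_ℝ = e1 at *
  generalize ⟪G.e 0, r⟫_ℝ = r0 at *
  generalize ⟪G.e 1, r⟫_ℝ = r1 at *
  have a0 : r0 * (z0 * e1 - z1 * e0) = 0 := by linear_combination e1 * h5 - z1 * h6
  have a1 : r1 * (z0 * e1 - z1 * e0) = 0 := by linear_combination z0 * h6 - e0 * h5
  have a2 : (z0 * e1 - z1 * e0) ^ 2 = z0 * z0 + z1 * z1 := by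
    linear_combination (z0 * z0 + z1 * z1) * h4 - (z0 * e0 + z1 * e1) * h1
  rw [← a2]
  linear_combination (r0 * (z0 * e1 - z1 * e0)) * a0 + (r1 * (z0 * e1 - z1 * e0)) * a1

theorem unit_P2b (G : HeisenbergType m k H V) (hm : 0 < m) (y : H) :
    ∃ e : H, ‖e‖ = 1 ∧ y = ⟪e, y⟫_ℝ • e := by
  by_cases hy : y = 0
  · exact ⟨G.e ⟨0, hm⟩, G.e.orthonormal.1 _, by simp [hy]⟩
  · have hn : ‖y‖ ≠ 0 := norm_ne_zero_iff.2 hy
    refine ⟨‖y‖⁻¹ • y, by simp [norm_smul, hn], ?_⟩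
    rw [real_inner_smul_left, real_inner_self_eq_norm_sq, smul_smul]
    have : ‖y‖⁻¹ * ‖y‖ ^ 2 * ‖y‖⁻¹ = 1 := by field_simp
    rw [this, one_smul]

/-- the constant part of the pencil -/
noncomputable def P0_P2b (d : Sd H V) (x : H × V) (w : ℝ) : H × V →L[ℝ] H × V :=
  (w • fderiv ℝ d.a x + w⁻¹ • fderiv ℝ d.b x).prod
    (fderiv ℝ d.s x + w ^ 2 • fderiv ℝ d.g4 x - w⁻¹ ^ 2 • fderiv ℝ d.g5 x)

/-- the linear part of the pencil -/
noncomputable def P1_P2b (d : Sd H V) (x : H × V) (w : ℝ) : H × V →L[ℝ] H × V :=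
  ((fderiv ℝ d.κ x).smulRight (w • d.a x - w⁻¹ • d.b x) +
      (1 / 2 : ℝ) • (fderiv ℝ d.ℓ x).smulRight (w • d.a' x + w⁻¹ • d.b' x)).prod
  ((1 / 2 : ℝ) • (fderiv ℝ d.ℓ x).smulRight (d.g1 x) + fderiv ℝ d.g3 x +
    (2 * w ^ 2) • (fderiv ℝ d.κ x).smulRight (d.g4 x) +
    (2 * w⁻¹ ^ 2) • (fderiv ℝ d.κ x).smulRight (d.g5 x))

theorem Pm_P2b (d : Sd H V) (x : H × V) (t w : ℝ) :
    d.Pm x t w = P0_P2b d x w + t • P1_P2b d x w := by
  refine ContinuousLinearMap.ext fun v => ?_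
  ext
  · simp [Sd.Pm, P0_P2b, P1_P2b]
  · simp [Sd.Pm, P0_P2b, P1_P2b]
    module

theorem p2b_st (G : HeisenbergType m k H V) : P2bSt G := by
  intro W u n hk h hn x hx ha hb hid
  borelize H V
  have hxs := W1_subset hx
  have hκ := kap_pos hx.2.1
  have hκ2 := kap_sq hx.2.1
  have hcon := h.constraint hxs
  have hμ := hx.2.2
  have hl : ‖la G u x‖ ≠ 0 := norm_ne_zero_iff.2 hμ
  have hm := m_pos G hk
  have dl : HasFDerivAt (fun y => ‖la G u y‖) (fderiv ℝ (fun y => ‖la G u y‖) x) x :=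
    ((h.d_la hx.1).differentiableAt.norm ℝ hμ).hasFDerivAt
  have dl' : ∀ v, fderiv ℝ (fun y => ‖la G u y‖) x v =
      ⟪la G u x, fderiv ℝ (la G u) x v⟫_ℝ / ‖la G u x‖ := by
    intro v
    have h3 := congrArg (fun L : H × V →L[ℝ] ℝ => L v) ((dl.pow 2).unique (h.d_la hx.1).norm_sq)
    simp at h3
    field_simp
    linarith
  have hP1 : ∀ w v, (P1_P2b (d1 G u) x w v).1 = ⟪la G u x, fderiv ℝ (la G u) x v⟫_ℝ •
      ((-(1 / (4 * kap G u x))) • (w • fa G u x - w⁻¹ • fb G u x) +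
        (1 / (2 * ‖la G u x‖ ^ 2)) • JL G (la G u x) (w • fa G u x + w⁻¹ • fb G u x)) := by
    intro w v
    have := hκ.ne'
    simp [P1_P2b, d1, dl', h.d_kap hxs]
    match_scalars <;> field_simp
  have hid' : ∀ w, 0 < w → ∀ t : ℝ, (P0_P2b (d1 G u) x w + t • P1_P2b (d1 G u) x w).det * u x ^ n =
      ((u x + 2 / kap G u x * (‖fa G u x‖ ^ 2 * w ^ 2 - ‖fb G u x‖ ^ 2 * w⁻¹ ^ 2 -
        (‖fa G u x‖ ^ 2 - ‖fb G u x‖ ^ 2))) + (8 * ⟪fa G u x, fb G u x⟫_ℝ) * t) ^ n := by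
    intro w hw t
    have := hid t w hw
    rw [DetId, Pm_P2b] at this
    rw [this]
    simp only [d1]
    congr 1
    ring
  suffices hc : 8 * ⟪fa G u x, fb G u x⟫_ℝ = 0 by linarith
  have line : ∀ (e y : H) (r : ℝ), y = ⟪e, y⟫_ℝ • e → r • y = ⟪e, r • y⟫_ℝ • e := by
    intro e y r hy
    rw [real_inner_smul_right, mul_smul, ← hy]
  rcases Nat.lt_or_ge (k + 1) n with hlt | hge
  · obtain ⟨e, he, hy⟩ := unit_P2b G hm ((-(1 / (4 * kap G u x))) •
      ((1 : ℝ) • fa G u x - (1 : ℝ)⁻¹ • fb G u x) +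
        (1 / (2 * ‖la G u x‖ ^ 2)) • JL G (la G u x) ((1 : ℝ) • fa G u x + (1 : ℝ)⁻¹ • fb G u x))
    exact deg_P2b G _ _ e he (fun v => by rw [hP1]; exact line e _ _ hy) _ _ _ n hlt.le
      (hid' 1 one_pos) (Or.inl hlt)
  obtain rfl : m = 2 := by omega
  have hA : 0 < ‖fa G u x‖ := norm_pos_iff.2 ha
  have hB : 0 < ‖fb G u x‖ := norm_pos_iff.2 hb
  obtain ⟨w, hw, hw2⟩ : ∃ w : ℝ, 0 < w ∧ w ^ 2 = ‖fb G u x‖ / ‖fa G u x‖ :=
    ⟨√(‖fb G u x‖ / ‖fa G u x‖), Real.sqrt_pos.2 (div_pos hB hA), Real.sq_sqrt (div_pos hB hA).le⟩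
  have hw0 := hw.ne'
  by_cases hz : w • fa G u x + w⁻¹ • fb G u x = 0
  · have h1 : fb G u x = (-w ^ 2) • fa G u x := by
      have := congrArg (fun y => w • y) hz
      simp only [smul_add, smul_smul, mul_inv_cancel₀ hw0, one_smul, smul_zero] at this
      linear_combination (norm := module) this
    have h2 : ⟪JL G (la G u x) (fa G u x), fb G u x⟫_ℝ = 0 := by
      rw [h1, real_inner_smul_right, inner_J_self, mul_zero]
    rw [h2] at hcon
    have h3 : kap G u x * ⟪fa G u x, fb G u x⟫_ℝ = 0 := by linarith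
    rw [(mul_eq_zero.1 h3).resolve_left hκ.ne', mul_zero]
  set z := w • fa G u x + w⁻¹ • fb G u x with hzd
  set η := w • fa G u x - w⁻¹ • fb G u x with hηd
  have hJ : ‖JL G (la G u x) z‖ ≠ 0 := by
    intro h0
    have := norm_J_sq G (la G u x) z
    rw [h0] at this
    exact mul_ne_zero (pow_ne_zero 2 hl) (pow_ne_zero 2 (norm_ne_zero_iff.2 hz)) (by linarith)
  set e := ‖JL G (la G u x) z‖⁻¹ • JL G (la G u x) z with hed
  have he : ‖e‖ = 1 := by simp [hed, norm_smul, hJ]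
  have hzJ : ⟪z, JL G (la G u x) z⟫_ℝ = 0 := by rw [real_inner_comm, inner_J_self]
  have hze : ⟪z, e⟫_ℝ = 0 := by rw [hed, real_inner_smul_right, hzJ, mul_zero]
  have hzη : ⟪z, η⟫_ℝ = 0 := by
    simp only [hzd, hηd, inner_add_left, inner_sub_right, real_inner_smul_left,
      real_inner_smul_right, real_inner_self_eq_norm_sq, real_inner_comm (fa G u x) (fb G u x),
      norm_smul, mul_pow, Real.norm_eq_abs, sq_abs]
    have h1 : w ^ 2 * ‖fa G u x‖ = ‖fb G u x‖ := by rw [hw2]; field_simp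
    rw [← h1]
    field_simp
    ring
  have pl : ∀ r s : ℝ, r • η + s • JL G (la G u x) z = ⟪e, r • η + s • JL G (la G u x) z⟫_ℝ • e :=
    fun r s => plane_P2b G z e _ hz he hze (by
      rw [inner_add_right, real_inner_smul_right, real_inner_smul_right, hzη, hzJ]; ring)
  refine deg_P2b G _ _ e he (fun v => by rw [hP1]; exact line e _ _ (pl _ _)) _ _ _ n (by omega)
    (hid' w hw) (Or.inr ⟨vf G u x, ?_, ?_⟩)
  · intro h0
    have h1 := h.eik x hx.1
    rw [h0] at h1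
    have h2 : ‖x.1‖ ^ 2 = 0 := by simpa using h1
    exact h.nz x hx.1 (by simpa using h2)
  obtain ⟨q1, q2⟩ := h.ham hx.1
  have q3 : fderiv ℝ (kap G u) x (vf G u x) = 0 := by rw [h.d_kap hxs, q1]; simp
  have q4 : fderiv ℝ (fun y => ‖la G u y‖) x (vf G u x) = 0 := by rw [dl', q1]; simp
  obtain ⟨q5, q6⟩ := h.d_ab hxs (vf G u x)
  have q7 : (vf G u x).1 = kap G u x • (fa G u x - fb G u x) +
      (1 / 2 : ℝ) • JL G (la G u x) (fa G u x + fb G u x) := by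
    rw [fa_add_fb, fa_sub_fb hx.2.1]; rfl
  have q8 : fderiv ℝ (fa G u) x (vf G u x) - fderiv ℝ (fb G u) x (vf G u x) =
      (1 / 2 : ℝ) • JL G (la G u x) (fa G u x - fb G u x) + kap G u x • (fa G u x + fb G u x) := by
    refine smul_right_injective H hκ.ne' ?_
    rw [q3, zero_smul, zero_add, q2, ← hκ2] at q6
    simp only []
    rw [← q6, fa_add_fb, ← fa_sub_fb hx.2.1, map_smul]
    module
  rw [q7] at q5
  have qa : fderiv ℝ (fa G u) x (vf G u x) =
      (1 / 2 : ℝ) • JL G (la G u x) (fa G u x) + kap G u x • fa G u x := by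
    simp only [map_add, map_sub] at q5 q8
    linear_combination (norm := module) (1 / 2 : ℝ) • q5 + (1 / 2 : ℝ) • q8
  have qb : fderiv ℝ (fb G u) x (vf G u x) =
      (1 / 2 : ℝ) • JL G (la G u x) (fb G u x) - kap G u x • fb G u x := by
    simp only [map_add, map_sub] at q5 q8
    linear_combination (norm := module) (1 / 2 : ℝ) • q5 - (1 / 2 : ℝ) • q8
  constructor
  · have : (P0_P2b (d1 G u) x w (vf G u x)).1 =
        kap G u x • η + (1 / 2 : ℝ) • JL G (la G u x) z := by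
      simp only [hzd, hηd, map_add, map_smul]
      simp [P0_P2b, d1, qa, qb]
      module
    rw [this]
    exact pl _ _
  have dc := (h.dif hxs h.sm_fa).inner ℝ (h.dif hxs h.sm_fb)
  have di := (hasDerivAt_inv (pow_ne_zero 2 hl)).comp_hasFDerivAt x (dl.pow 2)
  have dg := (((dc.const_mul 8).mul di).smul (h.d_la hx.1)).fderiv
  have e3 : (d1 G u).g3 = ((fun y => 8 * ⟪fa G u y, fb G u y⟫_ℝ) *
      (fun y : ℝ => y⁻¹) ∘ fun y => ‖la G u y‖ ^ 2) • la G u := by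
    funext y; simp [d1, div_eq_mul_inv]
  have q9 : fderiv ℝ (d1 G u).g3 x (vf G u x) = 0 := by
    have hs := J_skew G (la G u x) (fa G u x) (fb G u x)
    rw [e3, dg]
    simp [q1, q4, qa, qb, inner_add_left, inner_sub_right, real_inner_smul_left,
      real_inner_smul_right, hs]
  have q10 : fderiv ℝ (d1 G u).κ x (vf G u x) = 0 := q3
  have q11 : fderiv ℝ (d1 G u).ℓ x (vf G u x) = 0 := q4
  ext <;> simp [P1_P2b, q9, q10, q11]

end Pool.Agent.MP_1048c2_an.Cl
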