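import Pool.Agent.MP_1048c2_an.Cl.Weak
import Pool.Agent.MP_1048c2_an.WDefs

/-!
Regularity of weak solutions: the group law, invariant fields, weak derivatives, convolution.
-/

set_option linter.unusedSectionVars false

namespace Pool.Agent.MP_1048c2_an.Cl

open Filter Topology Set Module MeasureTheory Metric
open scoped InnerProductSpace ContDiff

variable {m k : ℕ} {H V : Type} [NormedAddCommGroup H] [InnerProductSpace ℝ H]
  [NormedAddCommGroup V] [InnerProductSpace ℝ V] [FiniteDimensional ℝ H] [FiniteDimensional ℝ V]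
  (G : HeisenbergType m k H V)

/-- the group law -/
noncomputable def gm (x y : H × V) : H × V := (x.1 + y.1, x.2 + y.2 + (1 / 2 : ℝ) • BL G x.1 y.1)

/-- the left invariant horizontal derivative -/
noncomputable def XL (h : H) (φ : H × V → ℝ) (x : H × V) : ℝ :=
  fderiv ℝ φ x (h, (1 / 2 : ℝ) • BL G x.1 h)

/-- the right invariant horizontal derivative -/
noncomputable def YR (h : H) (φ : H × V → ℝ) (x : H × V) : ℝ :=
  fderiv ℝ φ x (h, -((1 / 2 : ℝ) • BL G x.1 h))

/-- the horizontal Laplacian -/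
noncomputable def Lap (φ : H × V → ℝ) (x : H × V) : ℝ := ∑ i, XL G (G.e i) (XL G (G.e i) φ) x

/-- test functions -/
def Tst (W : Set (H × V)) (φ : H × V → ℝ) : Prop :=
  ContDiff ℝ ∞ φ ∧ HasCompactSupport φ ∧ tsupport φ ⊆ W

/-- the fourth power of the gauge -/
noncomputable def Nn (y : H × V) : ℝ := ‖y.1‖ ^ 4 + 16 * ‖y.2‖ ^ 2

theorem gm_zero (x : H × V) : gm G x 0 = x := by simp [gm]

theorem zero_gm (x : H × V) : gm G 0 x = x := by simp [gm]

theorem gm_assoc (x y w : H × V) : gm G (gm G x y) w = gm G x (gm G y w) := by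
  simp only [gm, map_add, _root_.add_apply, Prod.mk.injEq]
  exact ⟨add_assoc _ _ _, by module⟩

theorem gm_neg (x : H × V) : gm G x (-x) = 0 := by simp [gm, BL_self]

theorem neg_gm (x : H × V) : gm G (-x) x = 0 := by simp [gm, BL_self]

theorem neg_gm_gm (x y : H × V) : gm G (-x) (gm G x y) = y := by rw [← gm_assoc, neg_gm, zero_gm]

theorem gm_neg_gm (x y : H × V) : gm G x (gm G (-x) y) = y := by rw [← gm_assoc, gm_neg, zero_gm]

theorem gm_gm_neg (x y : H × V) : gm G (gm G y x) (-x) = y := by rw [gm_assoc, gm_neg, gm_zero]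

theorem gm_neg_right (x y : H × V) : gm G (gm G y (-x)) x = y := by rw [gm_assoc, neg_gm, gm_zero]

theorem contDiff_gm {F : Type} [NormedAddCommGroup F] [NormedSpace ℝ F] {f g : F → H × V}
    {n : WithTop ℕ∞} (hf : ContDiff ℝ n f) (hg : ContDiff ℝ n g) :
    ContDiff ℝ n fun y => gm G (f y) (g y) :=
  (hf.fst.add hg.fst).prodMk ((hf.snd.add hg.snd).add
    ((((BL G).contDiff.comp hf.fst).clm_apply hg.fst).const_smul _))

theorem continuous_gm {F : Type} [TopologicalSpace F] {f g : F → H × V} (hf : Continuous f)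
    (hg : Continuous g) : Continuous fun y => gm G (f y) (g y) :=
  (hf.fst.add hg.fst).prodMk ((hf.snd.add hg.snd).add
    ((((BL G).continuous.comp hf.fst).clm_apply hg.fst).const_smul (1 / 2 : ℝ)))

theorem hasFDerivAt_gm {F : Type} [NormedAddCommGroup F] [NormedSpace ℝ F] {f g : F → H × V}
    {f' g' : F →L[ℝ] H × V} {x : F} (hf : HasFDerivAt f f' x) (hg : HasFDerivAt g g' x) :
    ∃ L : F →L[ℝ] H × V, HasFDerivAt (fun y => gm G (f y) (g y)) L x ∧ ∀ v, L v =
      ((f' v).1 + (g' v).1, (f' v).2 + (g' v).2 +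
        (1 / 2 : ℝ) • (BL G (f x).1 (g' v).1 + BL G (f' v).1 (g x).1)) :=
  ⟨_, (hf.fst.add hg.fst).prodMk ((hf.snd.add hg.snd).add
    ((hasFDerivAt_B G hf.fst hg.fst).const_smul (1 / 2 : ℝ))), fun v => by simp⟩

/-- left translation -/
noncomputable def gmL (x : H × V) : H × V ≃ₜ H × V where
  toFun := gm G x
  invFun := gm G (-x)
  left_inv := neg_gm_gm G x
  right_inv := gm_neg_gm G x
  continuous_toFun := continuous_gm G continuous_const continuous_id
  continuous_invFun := continuous_gm G continuous_const continuous_id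

/-- right translation -/
noncomputable def gmR (x : H × V) : H × V ≃ₜ H × V where
  toFun y := gm G y x
  invFun y := gm G y (-x)
  left_inv := gm_gm_neg G x
  right_inv := gm_neg_right G x
  continuous_toFun := continuous_gm G continuous_id continuous_const
  continuous_invFun := continuous_gm G continuous_id continuous_const

theorem XL_vf (h : H) (u : H × V → ℝ) (x : H × V) : XL G h u x = ⟪(vf G u x).1, h⟫_ℝ := by
  rw [XL, fderiv_eq G, real_inner_smul_right, ← inner_JL]
  simp only [vf, inner_add_left, real_inner_smul_left]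

theorem XL_congr {h : H} {u u' : H × V → ℝ} {x : H × V} (hu : u =ᶠ[𝓝 x] u') :
    XL G h u x = XL G h u' x := by rw [XL, XL, hu.fderiv_eq]

theorem XL_of_notMem {h : H} {φ : H × V → ℝ} {x : H × V} (hx : x ∉ tsupport φ) :
    XL G h φ x = 0 := by
  rw [XL, (notMem_tsupport_iff_eventuallyEq.1 hx).fderiv_eq]; simp

theorem tsupport_XL (h : H) (φ : H × V → ℝ) : tsupport (XL G h φ) ⊆ tsupport φ :=
  closure_minimal (fun _ hx => by_contra fun h' => hx (XL_of_notMem G h')) (isClosed_tsupport φ)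

theorem XL_mul {h : H} {u v : H × V → ℝ} {x : H × V} (hu : DifferentiableAt ℝ u x)
    (hv : DifferentiableAt ℝ v x) :
    XL G h (fun y => u y * v y) x = u x * XL G h v x + XL G h u x * v x := by
  simp only [XL, fderiv_fun_mul hu hv, _root_.add_apply, _root_.smul_apply, smul_eq_mul]
  ring

theorem XL_gm {h : H} {κ : H × V → ℝ} {a y : H × V} (hκ : DifferentiableAt ℝ κ (gm G a y)) :
    XL G h (fun y => κ (gm G a y)) y = XL G h κ (gm G a y) := by
  obtain ⟨L, h1, h2⟩ := hasFDerivAt_gm G (hasFDerivAt_const a y) (hasFDerivAt_id y)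
  have h3 := (hκ.hasFDerivAt.comp y h1).fderiv
  rw [XL, show (fun y => κ (gm G a y)) = κ ∘ gm G a from rfl, h3, XL]
  simp only [ContinuousLinearMap.comp_apply, h2]
  congr 1
  simp [gm, add_comm]

theorem contDiffOn_XL (h : H) {u : H × V → ℝ} {W : Set (H × V)} {n n' : WithTop ℕ∞}
    (hW : IsOpen W) (hu : ContDiffOn ℝ n' u W) (hn : n + 1 ≤ n') : ContDiffOn ℝ n (XL G h u) W :=
  (hu.fderiv_of_isOpen hW hn).clm_apply (contDiffOn_const.prodMk
    ((contDiffOn_B G contDiffOn_fst contDiffOn_const).const_smul _))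

theorem contDiffOn_YR (h : H) {u : H × V → ℝ} {W : Set (H × V)} {n n' : WithTop ℕ∞}
    (hW : IsOpen W) (hu : ContDiffOn ℝ n' u W) (hn : n + 1 ≤ n') : ContDiffOn ℝ n (YR G h u) W :=
  (hu.fderiv_of_isOpen hW hn).clm_apply (contDiffOn_const.prodMk
    ((contDiffOn_B G contDiffOn_fst contDiffOn_const).const_smul _).neg)

theorem contDiff_XL (h : H) {u : H × V → ℝ} (hu : ContDiff ℝ ∞ u) : ContDiff ℝ ∞ (XL G h u) :=
  contDiffOn_univ.1 (contDiffOn_XL G h isOpen_univ hu.contDiffOn (by simp))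

theorem contDiff_YR (h : H) {u : H × V → ℝ} (hu : ContDiff ℝ ∞ u) : ContDiff ℝ ∞ (YR G h u) :=
  contDiffOn_univ.1 (contDiffOn_YR G h isOpen_univ hu.contDiffOn (by simp))

theorem contDiffOn_Lap {u : H × V → ℝ} {W : Set (H × V)} (hW : IsOpen W)
    (hu : ContDiffOn ℝ ∞ u W) : ContDiffOn ℝ ∞ (Lap G u) W :=
  ContDiffOn.sum fun _ _ => contDiffOn_XL G _ hW (contDiffOn_XL G _ hW hu (n := ∞) (by simp))
    (by simp)

theorem Tst.xl {W : Set (H × V)} {φ : H × V → ℝ} (hφ : Tst W φ) (h : H) : Tst W (XL G h φ) :=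
  ⟨contDiff_XL G h hφ.1, hφ.2.1.mono' ((subset_tsupport _).trans (tsupport_XL G h φ)),
    (tsupport_XL G h φ).trans hφ.2.2⟩

theorem Tst.mono {W W' : Set (H × V)} {φ : H × V → ℝ} (hφ : Tst W φ) (h : W ⊆ W') : Tst W' φ :=
  ⟨hφ.1, hφ.2.1, hφ.2.2.trans h⟩

theorem Tst.mul {W : Set (H × V)} {φ a : H × V → ℝ} (hφ : Tst W φ) (hW : IsOpen W)
    (ha : ContDiffOn ℝ ∞ a W) : Tst W fun x => a x * φ x := by
  refine ⟨contDiff_iff_contDiffAt.2 fun x => ?_, hφ.2.1.mul_left,
    (tsupport_mul_subset_right).trans hφ.2.2⟩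
  by_cases hx : x ∈ tsupport φ
  · exact (ha.contDiffAt (hW.mem_nhds (hφ.2.2 hx))).mul hφ.1.contDiffAt
  · refine (contDiffAt_const (c := (0 : ℝ))).congr_of_eventuallyEq ?_
    filter_upwards [notMem_tsupport_iff_eventuallyEq.1 hx] with y hy
    simp [hy]

theorem Tst.gm {W : Set (H × V)} {κ : H × V → ℝ} {δ : ℝ} {x : H × V} (h1 : ContDiff ℝ ∞ κ)
    (h2 : tsupport κ ⊆ closedBall 0 δ) (h3 : ∀ y ∈ closedBall (0 : H × V) δ, gm G x y ∈ W) :
    Tst W fun y => κ (gm G (-x) y) := by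
  have h4 : tsupport (fun y => κ (Cl.gm G (-x) y)) ⊆ Cl.gm G x '' closedBall 0 δ :=
    closure_minimal (fun y hy => ⟨_, h2 (subset_tsupport _ hy), gm_neg_gm G x y⟩)
      ((isCompact_closedBall _ _).image (gmL G x).continuous).isClosed
  refine ⟨h1.comp (contDiff_gm G contDiff_const contDiff_id),
    ((isCompact_closedBall _ _).image (gmL G x).continuous).of_isClosed_subset
      (isClosed_tsupport _) h4, h4.trans ?_⟩
  rintro _ ⟨y, hy, rfl⟩
  exact h3 y hy

theorem tst_iff {W : Set (H × V)} {φ : H × V → ℝ} : Tst W φ ↔ IsTest W φ := by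
  rw [Tst, IsTest, contDiff_infty]

/-- the commutator of two left invariant fields -/
theorem XL_comm (h h' : H) {φ : H × V → ℝ} {x : H × V} (hφ : ContDiffAt ℝ 2 φ x) :
    XL G h (XL G h' φ) x - XL G h' (XL G h φ) x = fderiv ℝ φ x (0, BL G h h') := by
  have h1 : HasFDerivAt (fderiv ℝ φ) (fderiv ℝ (fderiv ℝ φ) x) x :=
    ((hφ.fderiv_right (m := 1) (by norm_num)).differentiableAt (by norm_num)).hasFDerivAt
  have h2 : ∀ a b : H, XL G a (XL G b φ) x = fderiv ℝ (fderiv ℝ φ) x (a, (1 / 2 : ℝ) • BL G x.1 a)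
      (b, (1 / 2 : ℝ) • BL G x.1 b) + (1 / 2 : ℝ) * fderiv ℝ φ x (0, BL G a b) := by
    intro a b
    have h3 := (h1.clm_apply ((hasFDerivAt_const b x).prodMk ((hasFDerivAt_B G
      (hasFDerivAt_fst (p := x)) (hasFDerivAt_const b x)).const_smul (1 / 2 : ℝ)))).fderiv
    rw [XL, show XL G b φ = fun y => fderiv ℝ φ y (b, (1 / 2 : ℝ) • BL G y.1 b) from rfl]
    refine (congrArg (fun L : H × V →L[ℝ] ℝ => L _) h3).trans ?_
    have h5 : ((0, (2⁻¹ : ℝ) • BL G a b) : H × V) = (2⁻¹ : ℝ) • (0, BL G a b) := by simp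
    simp [add_comm]
    rw [h5, map_smul, smul_eq_mul]
  have h4 : ((0, BL G h' h) : H × V) = -(0, BL G h h') := by rw [BL_swap]; simp
  rw [h2, h2, hφ.isSymmSndFDerivAt (by simp) (h, _), h4, map_neg]
  ring

/-- every vector is a combination of the fields and of their brackets -/
theorem frame (hk : 0 < k) (L : H × V →L[ℝ] ℝ) (z : H) (v : H × V) :
    L v = ∑ a, ⟪G.e a, v.1⟫_ℝ * L (G.e a, (1 / 2 : ℝ) • BL G z (G.e a)) +
      ∑ a, ∑ b, ⟪JL G (v.2 - (1 / 2 : ℝ) • BL G z v.1) (G.e a), G.e b⟫_ℝ / m *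
        L (0, BL G (G.e a) (G.e b)) := by
  have hm : (m : ℝ) ≠ 0 := by exact_mod_cast (m_pos G hk).ne'
  have h1 : ∀ μ : V, ∑ a, ∑ b, (⟪JL G μ (G.e a), G.e b⟫_ℝ / m) • BL G (G.e a) (G.e b) = μ := by
    intro μ
    have : ∀ a, ∑ b, (⟪JL G μ (G.e a), G.e b⟫_ℝ / m) • BL G (G.e a) (G.e b) = (m : ℝ)⁻¹ • μ := by
      intro a
      have h2 := BL_J G μ (G.e a)
      rw [G.e.orthonormal.1, one_pow, one_smul, ← G.e.sum_repr' (JL G μ (G.e a)), map_sum] at h2
      conv_rhs => rw [← h2, Finset.smul_sum]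
      refine Finset.sum_congr rfl fun b _ => ?_
      rw [map_smul, smul_smul, real_inner_comm, div_eq_inv_mul]
    simp only [this, Finset.sum_const, Finset.card_univ, Fintype.card_fin,
      ← Nat.cast_smul_eq_nsmul ℝ, smul_smul, mul_inv_cancel₀ hm, one_smul]
  have h3 : v = ∑ a, ⟪G.e a, v.1⟫_ℝ • ((G.e a, (1 / 2 : ℝ) • BL G z (G.e a)) : H × V) +
      ∑ a, ∑ b, (⟪JL G (v.2 - (1 / 2 : ℝ) • BL G z v.1) (G.e a), G.e b⟫_ℝ / m) •
        ((0, BL G (G.e a) (G.e b)) : H × V) := by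
    ext
    · simp [Prod.fst_sum, G.e.sum_repr']
    · simp only [Prod.snd_add, Prod.snd_sum, Prod.smul_mk, h1]
      have : ∑ a, ⟪G.e a, v.1⟫_ℝ • (1 / 2 : ℝ) • BL G z (G.e a) = (1 / 2 : ℝ) • BL G z v.1 := by
        conv_rhs => rw [← G.e.sum_repr' v.1, map_sum, Finset.smul_sum]
        exact Finset.sum_congr rfl fun a _ => by rw [map_smul, smul_comm]
      rw [this]; abel
  conv_lhs => rw [h3]
  simp only [map_add, map_sum, map_smul, smul_eq_mul]

theorem contDiff_Nn {n : WithTop ℕ∞} : ContDiff ℝ n (Nn : H × V → ℝ) := by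
  have : (Nn : H × V → ℝ) = fun y => (‖y.1‖ ^ 2) ^ 2 + 16 * ‖y.2‖ ^ 2 := by
    funext y; rw [Nn]; ring
  rw [this]
  exact ((contDiff_fst.norm_sq ℝ).pow 2).add (contDiff_const.mul (contDiff_snd.norm_sq ℝ))

theorem Nn_nonneg (y : H × V) : 0 ≤ Nn y := by unfold Nn; positivity

theorem Nn_pos {y : H × V} (hy : y ≠ 0) : 0 < Nn y := by
  refine (Nn_nonneg y).lt_of_ne' fun h => hy ?_
  have h1 : 0 ≤ ‖y.1‖ ^ 4 := by positivity
  have h2 : 0 ≤ ‖y.2‖ ^ 2 := by positivity
  rw [Nn] at h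
  exact Prod.ext (norm_eq_zero.1 (pow_eq_zero_iff (n := 4) (by norm_num) |>.1 (by linarith)))
    (norm_eq_zero.1 (pow_eq_zero_iff (n := 2) (by norm_num) |>.1 (by linarith)))

variable [MeasurableSpace H] [BorelSpace H] [MeasurableSpace V] [BorelSpace V]

instance haar : (volume : Measure (H × V)).IsAddHaarMeasure :=
  Measure.prod.instIsAddHaarMeasure _ _

theorem X_eq (i : Fin m) : X G i = XL G (G.e i) := by
  funext φ x; rw [X_Weak, XL_vf, real_inner_comm]

include G in
theorem mp_shear (T : H →L[ℝ] V) (x : H × V) :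
    MeasurePreserving (fun y : H × V => x + (y.1, y.2 + T y.1)) volume volume := by
  let L : H × V →L[ℝ] H × V := (ContinuousLinearMap.fst ℝ H V).prod
    (ContinuousLinearMap.snd ℝ H V + T.comp (ContinuousLinearMap.fst ℝ H V))
  have h1 : LinearMap.det (L : H × V →ₗ[ℝ] H × V) = 1 := by
    simpa using det_shear G 1 1 T L fun v => by simp [L]
  have h2 : MeasurePreserving L volume volume := ⟨L.continuous.measurable, by
    simpa [h1] using Measure.map_linearMap_addHaar_eq_smul_addHaar (volume : Measure (H × V))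
      (f := (L : H × V →ₗ[ℝ] H × V)) (by rw [h1]; norm_num)⟩
  exact (measurePreserving_add_left volume x).comp h2

theorem mp_left (x : H × V) : MeasurePreserving (gm G x) volume volume := by
  convert mp_shear G ((1 / 2 : ℝ) • BL G x.1) x using 2 with y
  simp [gm, Prod.ext_iff, add_assoc]

theorem mp_right (x : H × V) : MeasurePreserving (fun y => gm G y x) volume volume := by
  convert mp_shear G ((1 / 2 : ℝ) • (BL G).flip x.1) x using 2 with y
  simp [gm, Prod.ext_iff, add_assoc, add_comm]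

theorem integral_left (x : H × V) (F : H × V → ℝ) : ∫ y, F (gm G x y) = ∫ y, F y :=
  (mp_left G x).integral_comp (gmL G x).measurableEmbedding F

theorem integral_right (x : H × V) (F : H × V → ℝ) : ∫ y, F (gm G y x) = ∫ y, F y :=
  (mp_right G x).integral_comp (gmR G x).measurableEmbedding F

/-- convolution on the group -/
noncomputable def cv (u κ : H × V → ℝ) (x : H × V) : ℝ := ∫ y, u y * κ (gm G (-x) y)

theorem cv_eq (u κ : H × V → ℝ) (x : H × V) : cv G u κ x = ∫ y, u (gm G x y) * κ y := by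
  rw [cv, ← integral_left G x]
  simp only [neg_gm_gm]

/-- `g` is the weak derivative of `u` on `W` in the direction `h` -/
def WD (W : Set (H × V)) (h : H) (u g : H × V → ℝ) : Prop :=
  ∀ φ, Tst W φ → ∫ x, u x * XL G h φ x = -∫ x, g x * φ x

/-- measurable and locally bounded -/
def LB (W : Set (H × V)) (g : H × V → ℝ) : Prop :=
  AEStronglyMeasurable g (volume.restrict W) ∧
    ∃ M : H × V → ℝ, ContinuousOn M W ∧ ∀ᵐ x, x ∈ W → |g x| ≤ M x

/-- integrable kernels with small support -/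
def Kr (δ : ℝ) (κ : H × V → ℝ) : Prop := Integrable κ ∧ ∀ y ∉ closedBall (0 : H × V) δ, κ y = 0

/-- convergence in the mean -/
def Lim (κ : ℕ → H × V → ℝ) (κ' : H × V → ℝ) : Prop :=
  (∀ n, Integrable (κ n)) ∧ Integrable κ' ∧ Tendsto (fun n => ∫ y, |κ n y - κ' y|) atTop (𝓝 0)

/-- convergence in the mean to a kernel with small support -/
def Cnv (δ : ℝ) (κ : ℕ → H × V → ℝ) : Prop := ∃ κ', Kr δ κ' ∧ Lim κ κ'

variable {G} {W W' C : Set (H × V)} {u u' g g' φ ψ : H × V → ℝ} {h : H}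

theorem integral_congr_tst (hφ : tsupport φ ⊆ W) (hu : EqOn u u' W) :
    ∫ x, u x * φ x = ∫ x, u' x * φ x := by
  refine integral_congr_ae (Eventually.of_forall fun x => ?_)
  by_cases hx : x ∈ tsupport φ
  · simp only [hu (hφ hx)]
  · simp only [image_eq_zero_of_notMem_tsupport hx, mul_zero]

theorem WD.congr (h1 : WD G W h u g) (h2 : W' ⊆ W) (h3 : EqOn u u' W') (h4 : EqOn g g' W') :
    WD G W' h u' g' := fun φ hφ => by
  rw [← integral_congr_tst (hφ.xl G h).2.2 h3, ← integral_congr_tst hφ.2.2 h4]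
  exact h1 φ (hφ.mono h2)

theorem integrable_loc (hu : LocallyIntegrableOn u W) (hψ : Continuous ψ)
    (hc : HasCompactSupport ψ) (hs : tsupport ψ ⊆ W) : Integrable fun x => u x * ψ x := by
  refine (integrableOn_iff_integrable_of_support_subset (s := tsupport ψ) fun x hx => ?_).1
    ((hu.integrableOn_compact_subset hs hc).mul_continuousOn hψ.continuousOn hc)
  exact subset_tsupport _ (right_ne_zero_of_mul hx)

theorem Tst.integrable (hφ : Tst W φ) (hu : LocallyIntegrableOn u W) :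
    Integrable fun x => u x * φ x := integrable_loc hu hφ.1.continuous hφ.2.1 hφ.2.2

theorem LB.of_cont (hW : IsOpen W) (hg : ContinuousOn g W) : LB W g :=
  ⟨hg.aestronglyMeasurable hW.measurableSet, fun x => |g x|, hg.abs,
    Eventually.of_forall fun _ _ => le_rfl⟩

theorem LB.mul (h1 : LB W g) (h2 : LB W g') : LB W fun x => g x * g' x := by
  obtain ⟨a1, M, b1, c1⟩ := h1
  obtain ⟨a2, M', b2, c2⟩ := h2
  refine ⟨a1.mul a2, fun x => M x * M' x, b1.mul b2, ?_⟩
  filter_upwards [c1, c2] with x h1 h2 hx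
  rw [abs_mul]
  exact mul_le_mul (h1 hx) (h2 hx) (abs_nonneg _) ((abs_nonneg _).trans (h1 hx))

theorem LB.add (h1 : LB W g) (h2 : LB W g') : LB W fun x => g x + g' x := by
  obtain ⟨a1, M, b1, c1⟩ := h1
  obtain ⟨a2, M', b2, c2⟩ := h2
  refine ⟨a1.add a2, fun x => M x + M' x, b1.add b2, ?_⟩
  filter_upwards [c1, c2] with x h1 h2 hx
  exact (abs_add_le _ _).trans (add_le_add (h1 hx) (h2 hx))

theorem LB.mono (h1 : LB W g) (h2 : W' ⊆ W) : LB W' g := by
  obtain ⟨a1, M, b1, c1⟩ := h1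
  exact ⟨a1.mono_set h2, M, b1.mono h2, c1.mono fun x h hx => h (h2 hx)⟩

theorem LB.memLp (h1 : LB W g) (hC : IsCompact C) (h2 : C ⊆ W) :
    MemLp (C.indicator g) ⊤ volume := by
  obtain ⟨a1, M, b1, c1⟩ := h1
  obtain ⟨B, hB⟩ := hC.exists_bound_of_continuousOn (b1.mono h2)
  refine memLp_top_of_bound
    ((aestronglyMeasurable_indicator_iff hC.measurableSet).2 (a1.mono_set h2)) (max B 0) ?_
  filter_upwards [c1] with x hx
  by_cases h : x ∈ C
  · rw [indicator_of_mem h]
    exact (hx (h2 h)).trans ((le_abs_self _).trans ((hB x h).trans (le_max_left _ _)))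
  · simp [indicator_of_notMem h]

theorem LB.loc (hW : IsOpen W) (h1 : LB W g) : LocallyIntegrableOn g W := by
  refine (locallyIntegrableOn_iff hW.isLocallyClosed).2 fun C h2 hC => ?_
  have : IsFiniteMeasure ((volume : Measure (H × V)).restrict C) :=
    ⟨by simpa using hC.measure_lt_top⟩
  exact (((h1.memLp hC h2).restrict C).integrable le_top).congr
    (ae_restrict_of_forall_mem hC.measurableSet fun x hx => indicator_of_mem hx g)

theorem bound_of_memLp (hu : MemLp u ⊤ volume) : ∃ M, 0 ≤ M ∧ ∀ᵐ x, |u x| ≤ M := by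
  refine ⟨(eLpNormEssSup u volume).toReal, ENNReal.toReal_nonneg, ?_⟩
  filter_upwards [ae_le_eLpNormEssSup (f := u) (μ := volume)] with x hx
  have := ENNReal.toReal_mono (by simpa using hu.2.ne) hx
  simpa using this

end Pool.Agent.MP_1048c2_an.Cl
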