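import Pool.Agent.MP_1048c2_an.Cl.RStmt
set_option linter.unusedSectionVars false
namespace Pool.Agent.MP_1048c2_an.Cl
open Filter Topology Set Module MeasureTheory Metric
open scoped InnerProductSpace ContDiff
variable {m k : ℕ} {H V : Type} [NormedAddCommGroup H] [InnerProductSpace ℝ H] [NormedAddCommGroup V] [InnerProductSpace ℝ V] [FiniteDimensional ℝ H] [FiniteDimensional ℝ V] [MeasurableSpace H] [BorelSpace H] [MeasurableSpace V] [BorelSpace V]

theorem swap_RFub {g : H × V → ℝ} (hg : MemLp g ⊤ volume) {Φ : (H × V) × H × V → ℝ}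
    (h1 : Continuous Φ) (h2 : HasCompactSupport Φ) :
    ∫ x, ∫ w, g w * Φ (x, w) = ∫ w, ∫ x, g w * Φ (x, w) := by
  obtain ⟨M, -, hM⟩ := bound_of_memLp hg
  refine integral_integral_swap (f := fun x w => g w * Φ (x, w)) ?_
  exact (h1.integrable_of_hasCompactSupport h2).bdd_mul (c := M) hg.1.comp_snd
    (Measure.quasiMeasurePreserving_snd.ae hM)

theorem cont_RFub (G : HeisenbergType m k H V) {g ψ : H × V → ℝ} (hg : MemLp g ⊤ volume)
    (h1 : Continuous ψ) (h2 : HasCompactSupport ψ) : Continuous (cv G g ψ) := by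
  refine continuous_iff_continuousAt.2 fun y => ?_
  have hK : IsCompact ((fun p : (H × V) × H × V => gm G p.1 p.2) '' (closedBall y 1 ×ˢ tsupport ψ)) :=
    ((isCompact_closedBall y 1).prod h2).image (continuous_gm G continuous_fst continuous_snd)
  have h3 := continuousOn_integral_bilinear_of_locally_integrable_of_compact_support
    (μ := (volume : Measure (H × V))) (ContinuousLinearMap.mul ℝ ℝ) (g := g)
    (f := fun x w => ψ (gm G (-x) w)) (s := closedBall y 1) hK
    (h1.comp (continuous_gm G continuous_fst.neg continuous_snd)).continuousOn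
    (fun p x hp hx => by_contra fun h => hx
      ⟨(p, gm G (-p) x), ⟨hp, subset_tsupport _ h⟩, gm_neg_gm G p x⟩)
    ((hg.locallyIntegrable le_top).integrableOn_isCompact hK)
  exact h3.continuousAt (closedBall_mem_nhds y one_pos)

theorem eq_RFub (G : HeisenbergType m k H V) {g ψ ρ : H × V → ℝ} (hg : MemLp g ⊤ volume)
    (h1 : Continuous ψ) (h2 : HasCompactSupport ψ) (h3 : Continuous ρ)
    (h4 : HasCompactSupport ρ) :
    ∫ x, (∫ w, g w * ρ (gm G w (-x))) * ψ x = ∫ y, ρ y * cv G g ψ y := by
  have a1 := swap_RFub hg (Φ := fun p => ρ (gm G p.2 (-p.1)) * ψ p.1)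
    ((h3.comp (continuous_gm G continuous_snd continuous_fst.neg)).mul (h1.comp continuous_fst))
    (HasCompactSupport.intro ((h4.isCompact.prod h2.isCompact).image
      (continuous_snd.prodMk (continuous_gm G continuous_fst continuous_snd))) fun p hp =>
        by_contra fun h => hp ⟨(gm G p.2 (-p.1), p.1), ⟨subset_tsupport _ (left_ne_zero_of_mul h),
          subset_tsupport _ (right_ne_zero_of_mul h)⟩, by simp only [gm_neg_right]⟩)
  have a2 := swap_RFub hg (Φ := fun p => ρ p.1 * ψ (gm G (-p.1) p.2))
    ((h3.comp continuous_fst).mul (h1.comp (continuous_gm G continuous_fst.neg continuous_snd)))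
    (HasCompactSupport.intro ((h4.isCompact.prod h2.isCompact).image
      (continuous_fst.prodMk (continuous_gm G continuous_fst continuous_snd))) fun p hp =>
        by_contra fun h => hp ⟨(p.1, gm G (-p.1) p.2), ⟨subset_tsupport _ (left_ne_zero_of_mul h),
          subset_tsupport _ (right_ne_zero_of_mul h)⟩, by simp only [gm_neg_gm]⟩)
  have a3 : ∀ w, ∫ x, g w * (ρ (gm G w (-x)) * ψ x) = ∫ y, g w * (ρ y * ψ (gm G (-y) w)) := by
    intro w
    rw [← integral_right G w, ← integral_neg_eq_self]
    simp only [neg_gm_eq, neg_neg, gm_neg_gm]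
  simp only [← integral_mul_const, mul_assoc, cv, ← integral_const_mul]
  rw [a1]
  simp only [a3]
  rw [← a2]
  simp only [mul_left_comm]

theorem fub_st (G : HeisenbergType m k H V) (hA : AISt H V) : FubSt G := by
  intro g ψ ρ hg h1 h2 h3
  have a1 : ∀ n, ∫ x, (∫ w, g w * (ρ n).normed volume (gm G w (-x))) * ψ x =
      ∫ y, (ρ n).normed volume y * cv G g ψ y := fun n =>
    eq_RFub G hg h1 h2 (ρ n).continuous_normed (ρ n).hasCompactSupport_normed
  have a2 := ContDiffBump.convolution_tendsto_right_of_continuous (μ := (volume : Measure (H × V)))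
    h3 ((cont_RFub G hg h1 h2).comp continuous_neg) 0
  simp only [a1]
  simpa [convolution, cv, zero_gm] using a2

end Pool.Agent.MP_1048c2_an.Cl
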