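import Pool.Agent.MP_1048c2_an.Cl.RStmt
set_option linter.unusedSectionVars false
namespace Pool.Agent.MP_1048c2_an.Cl
open Filter Topology Set Module MeasureTheory Metric
open scoped InnerProductSpace ContDiff
variable {m k : ℕ} {H V : Type} [NormedAddCommGroup H] [InnerProductSpace ℝ H] [NormedAddCommGroup V] [InnerProductSpace ℝ V] [FiniteDimensional ℝ H] [FiniteDimensional ℝ V] [MeasurableSpace H] [BorelSpace H] [MeasurableSpace V] [BorelSpace V]

theorem sub_RRep (G : HeisenbergType m k H V) {w κ P L : H × V → ℝ} (hw : MemLp w ⊤ volume)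
    (hκ : Integrable κ) (hP : Integrable P) (h : ∀ y, P y = κ y - L y) (x : H × V) :
    cv G w κ x - cv G w L x = ∫ y, w (gm G x y) * P y := by
  have h1 : MemLp (fun y => w (gm G x y)) ⊤ volume := hw.comp_measurePreserving (mp_left G x)
  have h2 : L = fun y => κ y - P y := funext fun y => by rw [h y]; ring
  have h3 : Integrable L := h2 ▸ hκ.sub hP
  rw [cv_eq, cv_eq]
  refine (integral_sub (hκ.mul_of_top_right h1) (h3.mul_of_top_right h1)).symm.trans ?_
  exact integral_congr_ae (Eventually.of_forall fun y => by simp only [h y, Pi.mul_apply]; ring)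

theorem rep_st (G : HeisenbergType m k H V) (hK : KerSt G) (hC : CvSt G) (hA : AISt H V)
    (hU : UnifSt G) (hL : LimSt G) : RepSt G := by
  intro W w u γ γ' x₀ hk hW hx₀ hw hu hγ hγ' hwc hwd hud hlap
  obtain ⟨δ, hδ, hT⟩ := tube G hW hx₀
  obtain ⟨K, κ, P, c, hc, k1, k2, k3, k4⟩ := hK hk δ hδ
  choose b' hb' lb' using fun i => (k4 (G.e i)).1
  choose a' ha' la' using fun i => (k4 (G.e i)).2.1
  choose b hb lb using fun i => (k4 (G.e i)).2.2.1
  choose a ha la using fun i => (k4 (G.e i)).2.2.2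
  have c1 := fun n => hC w (κ n) δ hw (k1 n).2.1 (k1 n).2.2.2.1
  have c2 := fun n => hC u (K n) δ hu (k1 n).1 (k1 n).2.2.1
  have hWx : ∀ x ∈ ball x₀ δ, x ∈ W := fun x hx => by
    simpa only [gm_zero] using hT x hx 0 (mem_closedBall_self hδ.le)
  have hd : ∀ n x, fderiv ℝ (fun x => cv G w (κ n) x - cv G u (K n) x) x =
      fderiv ℝ (cv G w (κ n)) x - fderiv ℝ (cv G u (K n)) x := fun n x =>
    fderiv_fun_sub ((c1 n).1.differentiable one_ne_zero x) ((c2 n).1.differentiable one_ne_zero x)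
  obtain ⟨l1, l2⟩ := hL (ball x₀ δ) (fun n x => cv G w (κ n) x - cv G u (K n) x)
    (fun x => c * w x) (fun i x => cv G u (a' i) x - cv G w (a i) x)
    (fun i j x => cv G (γ i) (b j) x - cv G (γ j) (b i) x - cv G (γ' i) (b' j) x +
      cv G (γ' j) (b' i) x) hk isOpen_ball isBounded_ball (fun n => (c1 n).1.sub (c2 n).1)
    (fun x hx => by
      have h1 : ContinuousAt (fun y => w (gm G x y)) 0 :=
        ContinuousAt.comp (by rw [gm_zero]; exact hwc.continuousAt (hW.mem_nhds (hWx x hx)))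
          (continuous_gm G continuous_const continuous_id).continuousAt
      have h2 := hA P c _ (fun n => (k1 n).2.2.2.2.1) (fun n y => ((k1 n).2.2.2.2.2 y).1) k2 k3
        (hw.comp_measurePreserving (mp_left G x)) h1
      simp only [Function.comp_apply, gm_zero] at h2
      refine h2.congr fun n => ?_
      rw [← lap_cv hlap (k1 n).1 (k1 n).2.2.1 (hT x hx)]
      exact (sub_RRep G hw ((k1 n).2.1.continuous.integrable_of_hasCompactSupport
        ((isCompact_closedBall _ _).of_isClosed_subset (isClosed_tsupport _) (k1 n).2.2.2.1))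
        (k1 n).2.2.2.2.1 (fun y => ((k1 n).2.2.2.2.2 y).2) x).symm)
    (fun i => by
      refine (((hU u _ _ hu (la' i)).sub (hU w _ _ hw (la i))).tendstoUniformlyOn).congr
        (Eventually.of_forall fun n x _ => ?_)
      have h1 := ((c1 n).2 x).1 (G.e i)
      have h2 := ((c2 n).2 x).1 (G.e i)
      rw [XL] at h1 h2
      simp only [XL, hd, sub_apply, h1, h2, Pi.sub_apply]
      ring)
    (fun i j => by
      refine (((((hU _ _ _ (hγ i) (lb j)).sub (hU _ _ _ (hγ j) (lb i))).sub
        (hU _ _ _ (hγ' i) (lb' j))).add (hU _ _ _ (hγ' j) (lb' i))).tendstoUniformlyOn).congr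
        (Eventually.of_forall fun n x hx => ?_)
      have h1 := fun i j => (hwd i).cv (contDiff_XL G (G.e j) (k1 n).2.1)
        ((tsupport_XL G _ _).trans (k1 n).2.2.2.1) (hT x hx)
      have h2 := fun i j => (hud i).cv (contDiff_XL G (G.e j) (k1 n).1)
        ((tsupport_XL G _ _).trans (k1 n).2.2.1) (hT x hx)
      simp only [hd, sub_apply, ((c1 n).2 x).2, ((c2 n).2 x).2, h1, h2,
        Pi.sub_apply, Pi.add_apply]
      ring)
  have l3 : ContDiffOn ℝ 1 w (ball x₀ δ) :=
    (contDiffOn_const.mul l1 : ContDiffOn ℝ 1 (fun x => c⁻¹ * (c * w x)) _).congr fun x _ => by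
      rw [inv_mul_cancel_left₀ hc.ne']
  refine ⟨δ, c, a, a', b, b', hδ, hc.ne', fun i => ⟨ha i, ha' i, hb i, hb' i⟩, hT, l3,
    fun x hx => ?_⟩
  have l4 : fderiv ℝ (fun x => c * w x) x = c • fderiv ℝ w x :=
    fderiv_const_mul ((l3.contDiffAt (isOpen_ball.mem_nhds hx)).differentiableAt one_ne_zero) c
  have l5 := l2 x hx
  simp only [XL, l4, smul_apply, smul_eq_mul] at l5
  exact l5

end Pool.Agent.MP_1048c2_an.Cl
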