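import Pool.Agent.MP_1048c2_an.Cl.RBase

/-!
Regularity of weak solutions: the statements of the steps.
-/

set_option linter.unusedSectionVars false

namespace Pool.Agent.MP_1048c2_an.Cl

open Filter Topology Set Module MeasureTheory Metric
open scoped InnerProductSpace ContDiff

variable {m k : ℕ} {H V : Type} [NormedAddCommGroup H] [InnerProductSpace ℝ H]
  [NormedAddCommGroup V] [InnerProductSpace ℝ V] [FiniteDimensional ℝ H] [FiniteDimensional ℝ V]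
  [MeasurableSpace H] [BorelSpace H] [MeasurableSpace V] [BorelSpace V]
  (G : HeisenbergType m k H V)

/-- integration by parts -/
def IbpSt : Prop :=
  ∀ (W : Set (H × V)) (h : H) (u : H × V → ℝ), IsOpen W → ContDiffOn ℝ 1 u W →
    WD G W h u (XL G h u)

/-- the product rule -/
def ProdSt : Prop :=
  ∀ (W : Set (H × V)) (h : H) (u g a : H × V → ℝ), IsOpen W → ContDiffOn ℝ ∞ a W →
    LocallyIntegrableOn u W → LocallyIntegrableOn g W → WD G W h u g →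
    WD G W h (fun x => a x * u x) fun x => a x * g x + XL G h a x * u x

variable (H V) in
/-- differentiation under the integral -/
def DiffSt : Prop :=
  ∀ (u : H × V → ℝ) (Ψ : (H × V) × H × V → ℝ), LocallyIntegrable u → ContDiff ℝ 1 Ψ →
    (∀ r : ℝ, ∃ R : ℝ, ∀ x y, ‖x‖ ≤ r → R ≤ ‖y‖ → Ψ (x, y) = 0) →
    ContDiff ℝ 1 (fun x => ∫ y, u y * Ψ (x, y)) ∧
      ∀ x v, fderiv ℝ (fun x => ∫ y, u y * Ψ (x, y)) x v = ∫ y, u y * fderiv ℝ Ψ (x, y) (v, 0)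

/-- derivatives of a convolution with a smooth kernel -/
def CvSt : Prop :=
  ∀ (u κ : H × V → ℝ) (δ : ℝ), MemLp u ⊤ volume → ContDiff ℝ ∞ κ → tsupport κ ⊆ closedBall 0 δ →
    ContDiff ℝ 1 (cv G u κ) ∧ ∀ x, (∀ h, XL G h (cv G u κ) x = -cv G u (YR G h κ) x) ∧
      ∀ h h', fderiv ℝ (cv G u κ) x (0, BL G h h') =
        cv G u (XL G h' (XL G h κ)) x - cv G u (XL G h (XL G h' κ)) x

variable (H V) in
/-- approximate identities -/
def AISt : Prop :=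
  ∀ (P : ℕ → H × V → ℝ) (c : ℝ) (Θ : H × V → ℝ), (∀ n, Integrable (P n)) → (∀ n y, 0 ≤ P n y) →
    Tendsto (fun n => ∫ y, P n y) atTop (𝓝 c) →
    (∀ r, 0 < r → Tendsto (fun n => ∫ y in (ball 0 r)ᶜ, P n y) atTop (𝓝 0)) →
    MemLp Θ ⊤ volume → ContinuousAt Θ 0 →
    Tendsto (fun n => ∫ y, Θ y * P n y) atTop (𝓝 (c * Θ 0))

/-- weak convergence of mollified functions -/
def FubSt : Prop :=
  ∀ (g ψ : H × V → ℝ) (ρ : ℕ → ContDiffBump (0 : H × V)), MemLp g ⊤ volume → Continuous ψ →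
    HasCompactSupport ψ → Tendsto (fun n => (ρ n).rOut) atTop (𝓝 0) →
    Tendsto (fun n => ∫ x, (∫ w, g w * (ρ n).normed volume (gm G w (-x))) * ψ x) atTop
      (𝓝 (∫ x, g x * ψ x))

/-- mollification -/
def MolSt : Prop :=
  ∀ (W K : Set (H × V)) (h : H) (f g : H × V → ℝ) (a b M : ℝ), IsOpen W → IsCompact K → K ⊆ W →
    ContinuousOn f W → AEStronglyMeasurable f volume → AEStronglyMeasurable g volume →
    (∀ y, f y ∈ Icc a b) → (∀ᵐ y, |g y| ≤ M) → WD G W h f g →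
    ∃ F : ℕ → H × V → ℝ, (∀ n, ContDiff ℝ 1 (F n)) ∧ (∀ n x, F n x ∈ Icc a b) ∧
      (∀ x ∈ K, Tendsto (fun n => F n x) atTop (𝓝 (f x))) ∧
      (∀ n, ∀ x ∈ K, |XL G h (F n) x| ≤ M) ∧
      ∀ ψ : H × V → ℝ, Continuous ψ → (∀ x ∉ K, ψ x = 0) →
        Tendsto (fun n => ∫ x, XL G h (F n) x * ψ x) atTop (𝓝 (∫ x, g x * ψ x))

/-- the chain rule -/
def ChainSt : Prop :=
  ∀ (W : Set (H × V)) (h : H) (f g : H × V → ℝ) (b : ℝ), IsOpen W → ContinuousOn f W →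
    (∀ x ∈ W, 0 < f x) → LB W g → WD G W h f g →
    WD G W h (fun x => f x ^ b) fun x => b * f x ^ (b - 1) * g x

/-- weak and classical derivatives agree -/
def UniqSt : Prop :=
  ∀ (W : Set (H × V)) (h : H) (u g : H × V → ℝ), IsOpen W → ContDiffOn ℝ 1 u W →
    LocallyIntegrableOn g W → WD G W h u g → ∀ᵐ x, x ∈ W → g x = XL G h u x

/-- removal of the weight -/
def LinSt : Prop :=
  ∀ (W : Set (H × V)) (F a : H × V → ℝ) (g : Fin m → H × V → ℝ), IsOpen W → ContDiffOn ℝ ∞ a W →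
    (∀ x ∈ W, a x ≠ 0) → LocallyIntegrableOn F W → (∀ i, LocallyIntegrableOn (g i) W) →
    (∀ i, WD G W (G.e i) F (g i)) →
    (∀ φ, Tst W φ → ∫ x, a x ^ 2 * ∑ i, g i x * XL G (G.e i) φ x = 0) →
    ∀ ψ, Tst W ψ → ∫ x, a x * F x * Lap G ψ x = ∫ x, Lap G a x * F x * ψ x

/-- calculus with the gauge -/
def GamSt : Prop :=
  (∀ h y, |XL G h Nn y| ≤ 4 * ‖h‖ * Nn y ^ (3 / 4 : ℝ) ∧
    |YR G h Nn y| ≤ 4 * ‖h‖ * Nn y ^ (3 / 4 : ℝ)) ∧
  ∀ ε : ℝ, 0 < ε → ∀ y, Lap G (fun y => (Nn y + ε) ^ (-((homDim m k - 2) / 4))) y =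
    -((homDim m k - 2) * (homDim m k + 2) *
      (ε * ‖y.1‖ ^ 2 * (Nn y + ε) ^ (-((homDim m k + 6) / 4))))

variable (m k H V) in
/-- local integrability of a power of the gauge -/
def IntSt : Prop :=
  finrank ℝ H = m → finrank ℝ V = k → 0 < m → 0 < k → ∀ δ : ℝ,
    IntegrableOn (fun y : H × V => Nn y ^ (-((homDim m k - 1) / 4))) (closedBall 0 δ)

variable (m k H V) in
/-- a lower bound for the mass -/
def LowSt : Prop :=
  finrank ℝ H = m → finrank ℝ V = k → 0 < m → ∃ c : ℝ, 0 < c ∧ ∀ t : ℝ, 0 < t → t ≤ 1 →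
    c ≤ ∫ y in ball (0 : H × V) (2 * t),
      t ^ 4 * ‖y.1‖ ^ 2 * (Nn y + t ^ 4) ^ (-((homDim m k + 6) / 4))

variable (H V) in
/-- convergence of regularized powers -/
def CnvSt : Prop :=
  ∀ (η : H × V → ℝ) (s : ℝ) (ε : ℕ → ℝ), Nontrivial V → 0 ≤ s → (∀ n, 0 < ε n) →
    Tendsto ε atTop (𝓝 0) → Continuous η → (Integrable fun y => η y * Nn y ^ (-s)) →
    Lim (fun n y => η y * (Nn y + ε n) ^ (-s)) fun y => η y * Nn y ^ (-s)

/-- convergence of the derivatives of regularized powers -/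
def DerSt : Prop :=
  ∀ (η : H × V → ℝ) (s δ : ℝ) (ε : ℕ → ℝ) (h : H), 0 < k → 0 ≤ s → (∀ n, 0 < ε n) →
    Tendsto ε atTop (𝓝 0) → ContDiff ℝ ∞ η → tsupport η ⊆ closedBall 0 δ →
    (s ≤ (homDim m k - 2) / 4 ∨ η =ᶠ[𝓝 0] 0) →
    Cnv δ (fun n => XL G h fun y => η y * (Nn y + ε n) ^ (-s)) ∧
      Cnv δ fun n => YR G h fun y => η y * (Nn y + ε n) ^ (-s)

/-- the kernels -/
def KerSt : Prop :=
  0 < k → ∀ δ : ℝ, 0 < δ → ∃ (K κ P : ℕ → H × V → ℝ) (c : ℝ), 0 < c ∧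
    (∀ n, ContDiff ℝ ∞ (K n) ∧ ContDiff ℝ ∞ (κ n) ∧ tsupport (K n) ⊆ closedBall 0 δ ∧
      tsupport (κ n) ⊆ closedBall 0 δ ∧ Integrable (P n) ∧
      ∀ y, 0 ≤ P n y ∧ P n y = κ n y - Lap G (K n) y) ∧
    Tendsto (fun n => ∫ y, P n y) atTop (𝓝 c) ∧
    (∀ r, 0 < r → Tendsto (fun n => ∫ y in (ball 0 r)ᶜ, P n y) atTop (𝓝 0)) ∧
    ∀ h, Cnv δ (fun n => XL G h (K n)) ∧ Cnv δ (fun n => YR G h (K n)) ∧
      Cnv δ (fun n => XL G h (κ n)) ∧ Cnv δ fun n => YR G h (κ n)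

/-- uniform convergence of convolutions -/
def UnifSt : Prop :=
  ∀ (u κ' : H × V → ℝ) (κ : ℕ → H × V → ℝ), MemLp u ⊤ volume → Lim κ κ' →
    TendstoUniformly (fun n => cv G u (κ n)) (cv G u κ') atTop

/-- limits of functions of class one -/
def LimSt : Prop :=
  ∀ (s : Set (H × V)) (F : ℕ → H × V → ℝ) (f : H × V → ℝ) (A : Fin m → H × V → ℝ)
    (B : Fin m → Fin m → H × V → ℝ), 0 < k → IsOpen s → Bornology.IsBounded s →
    (∀ n, ContDiff ℝ 1 (F n)) → (∀ x ∈ s, Tendsto (fun n => F n x) atTop (𝓝 (f x))) →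
    (∀ i, TendstoUniformlyOn (fun n => XL G (G.e i) (F n)) (A i) atTop s) →
    (∀ i j, TendstoUniformlyOn (fun n x => fderiv ℝ (F n) x (0, BL G (G.e i) (G.e j))) (B i j)
      atTop s) →
    ContDiffOn ℝ 1 f s ∧ ∀ x ∈ s, (∀ i, XL G (G.e i) f x = A i x) ∧
      ∀ i j, fderiv ℝ f x (0, BL G (G.e i) (G.e j)) = B i j x

/-- convolution with an integrable kernel preserves the class -/
def SmoSt : Prop :=
  ∀ (W : Set (H × V)) (u κ : H × V → ℝ) (j : ℕ) (δ : ℝ) (x : H × V), IsOpen W →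
    ContDiffOn ℝ j u W → Kr δ κ → (∀ y ∈ closedBall (0 : H × V) δ, gm G x y ∈ W) →
    ContDiffAt ℝ j (cv G u κ) x

/-- the representation of the derivatives -/
def RepSt : Prop :=
  ∀ (W : Set (H × V)) (w u : H × V → ℝ) (γ γ' : Fin m → H × V → ℝ) (x₀ : H × V), 0 < k →
    IsOpen W → x₀ ∈ W → MemLp w ⊤ volume → MemLp u ⊤ volume → (∀ i, MemLp (γ i) ⊤ volume) →
    (∀ i, MemLp (γ' i) ⊤ volume) → ContinuousOn w W → (∀ i, WD G W (G.e i) w (γ i)) →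
    (∀ i, WD G W (G.e i) u (γ' i)) →
    (∀ ψ, Tst W ψ → ∫ x, w x * Lap G ψ x = ∫ x, u x * ψ x) →
    ∃ (δ c : ℝ) (a a' b b' : Fin m → H × V → ℝ), 0 < δ ∧ c ≠ 0 ∧
      (∀ i, Kr δ (a i) ∧ Kr δ (a' i) ∧ Kr δ (b i) ∧ Kr δ (b' i)) ∧
      (∀ x ∈ ball x₀ δ, ∀ y ∈ closedBall (0 : H × V) δ, gm G x y ∈ W) ∧
      ContDiffOn ℝ 1 w (ball x₀ δ) ∧ ∀ x ∈ ball x₀ δ,
        (∀ i, c * XL G (G.e i) w x = cv G u (a' i) x - cv G w (a i) x) ∧
        ∀ i j, c * fderiv ℝ w x (0, BL G (G.e i) (G.e j)) =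
          cv G (γ i) (b j) x - cv G (γ j) (b i) x - cv G (γ' i) (b' j) x + cv G (γ' j) (b' i) x

/-- hypoellipticity -/
def BootSt : Prop :=
  ∀ (W : Set (H × V)) (w q : H × V → ℝ) (γ : Fin m → H × V → ℝ), 0 < k → IsOpen W →
    ContDiffOn ℝ ∞ q W → ContinuousOn w W → (∀ i, LB W (γ i)) → (∀ i, WD G W (G.e i) w (γ i)) →
    (∀ ψ, Tst W ψ → ∫ x, w x * Lap G ψ x = ∫ x, q x * w x * ψ x) → ∀ j : ℕ, ContDiffOn ℝ j w W

/-- the potential is smooth away from the centre -/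
def Reg1St : Prop :=
  ∀ (p R : ℝ) (Ω : Set (H × V)) (f : H × V → ℝ) (g : Fin m → H × V → ℝ), 0 < k → 1 < p →
    p < homDim m k → 0 < R → IsSobolevPotential G p Ω f g →
    (∀ᵐ x, x ∉ closure Ω → weakP k p f g x = cConst m k p R ^ p * ‖x.1‖ ^ p) →
    ContDiffOn ℝ 3 f (U0 Ω)

/-- the identities hold for the classical derivatives -/
def Reg2St : Prop :=
  ∀ (p R : ℝ) (Ω : Set (H × V)) (f : H × V → ℝ) (g : Fin m → H × V → ℝ), 1 < p →
    IsSobolevPotential G p Ω f g →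
    (∀ᵐ x, x ∉ closure Ω → weakP k p f g x = cConst m k p R ^ p * ‖x.1‖ ^ p) →
    ContDiffOn ℝ 3 f (U0 Ω) →
    (∀ x ∈ U0 Ω, pFunction G p f x = cConst m k p R ^ p * ‖x.1‖ ^ p) ∧
      ∀ φ, Tst (U0 Ω) φ → ∫ x, horGradNorm G f x ^ (p - 2) * ∑ i, X G i f x * X G i φ x = 0

/-- from the weak equation to the system -/
def Weak2St : Prop :=
  ∀ (p R : ℝ) (Ω : Set (H × V)) (f : H × V → ℝ), 1 < p → p < homDim m k → 0 < R →
    (∀ x ∉ Ω, 0 < f x) → ContDiffOn ℝ 3 f (U0 Ω) →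
    (∀ x ∈ U0 Ω, pFunction G p f x = cConst m k p R ^ p * ‖x.1‖ ^ p) →
    (∀ φ, Tst (U0 Ω) φ → ∫ x, horGradNorm G f x ^ (p - 2) * ∑ i, X G i f x * X G i φ x = 0) →
    Sys G p (U0 Ω) (uf m k p R f)

/-- from the local classification to the domain -/
def Glob2St : Prop :=
  ∀ (p R : ℝ) (Ω : Set (H × V)) (f : H × V → ℝ), 0 < k → 1 < p → p < homDim m k → 0 < R →
    IsOpen Ω → Bornology.IsBounded Ω → ContDiffOn ℝ 1 f (U0 Ω) → ContinuousOn f Ωᶜ →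
    (∀ x ∉ Ω, 0 < f x) → (∀ x ∈ frontier Ω, f x = 1) → Tendsto f (cocompact (H × V)) (𝓝 0) →
    (∀ x ∈ U0 Ω, fderiv ℝ (uf m k p R f) x ≠ 0) →
    (∀ x ∈ Ws G (uf m k p R f) (U0 Ω), Gau (uf m k p R f) x) →
    ∃ σ₀ : V, interior (closure Ω) = gaugeBall R σ₀

/-- potentials of class one are Sobolev potentials -/
def BridgeSt : Prop :=
  ∀ (p : ℝ) (Ω : Set (H × V)) (f : H × V → ℝ), 0 ≤ p → IsCapacitaryPotential G p Ω f →
    IsSobolevPotential G p Ω f fun i => X G i f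

theorem neg_gm_eq (x y : H × V) : -gm G x y = gm G (-y) (-x) := by
  simp only [gm, Prod.neg_mk, Prod.fst_neg, Prod.snd_neg, map_neg, _root_.neg_apply, neg_neg,
    BL_swap G y.1 x.1, Prod.mk.injEq]
  exact ⟨by abel, by module⟩

theorem tube {W : Set (H × V)} (hW : IsOpen W) {x₀ : H × V} (hx : x₀ ∈ W) :
    ∃ δ, 0 < δ ∧ ∀ x ∈ ball x₀ δ, ∀ y ∈ closedBall (0 : H × V) δ, gm G x y ∈ W := by
  have h1 : (fun q : (H × V) × H × V => gm G q.1 q.2) ⁻¹' W ∈ 𝓝 (x₀, 0) :=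
    (hW.preimage (continuous_gm G continuous_fst continuous_snd)).mem_nhds
      (by simpa [gm_zero] using hx)
  obtain ⟨δ, h2, h3⟩ := nhds_basis_closedBall.mem_iff.1 h1
  rw [← closedBall_prod_same] at h3
  exact ⟨δ, h2, fun x hx y hy => h3 (mk_mem_prod (ball_subset_closedBall hx) hy)⟩

theorem U0_open (Ω : Set (H × V)) : IsOpen (U0 Ω) :=
  isClosed_closure.isOpen_compl.inter (isOpen_ne.preimage continuous_fst)

variable {G} {W : Set (H × V)} {u g w κ : H × V → ℝ} {h : H} {δ : ℝ} {x : H × V}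

theorem WD.cv (hu : WD G W h u g) (h1 : ContDiff ℝ ∞ κ) (h2 : tsupport κ ⊆ closedBall 0 δ)
    (h3 : ∀ y ∈ closedBall (0 : H × V) δ, gm G x y ∈ W) : cv G u (XL G h κ) x = -cv G g κ x := by
  rw [Cl.cv, Cl.cv, ← hu _ (Tst.gm G h1 h2 h3)]
  simp only [XL_gm G (h1.differentiable (by simp) _)]

theorem lap_cv (hu : ∀ ψ, Tst W ψ → ∫ x, w x * Lap G ψ x = ∫ x, u x * ψ x) (h1 : ContDiff ℝ ∞ κ)
    (h2 : tsupport κ ⊆ closedBall 0 δ) (h3 : ∀ y ∈ closedBall (0 : H × V) δ, gm G x y ∈ W) :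
    cv G w (Lap G κ) x = cv G u κ x := by
  rw [cv, cv, ← hu _ (Tst.gm G h1 h2 h3)]
  have h4 : ∀ i, (XL G (G.e i) fun y => κ (gm G (-x) y)) = fun y => XL G (G.e i) κ (gm G (-x) y) :=
    fun i => funext fun y => XL_gm G (h1.differentiable (by simp) _)
  simp only [Lap, h4, XL_gm G ((contDiff_XL G _ h1).differentiable (by simp) _)]

end Pool.Agent.MP_1048c2_an.Cl
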