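import Pool.Agent.MP_1048c2_an.Cl.Base

/-!
The explicit characteristics and the statements of the steps of the classification.
-/

set_option linter.unusedSectionVars false

namespace Pool.Agent.MP_1048c2_an.Cl

open Filter Topology Set Module
open scoped InnerProductSpace

/-- real functions with an entire extension -/
def Ent : Subalgebra ℝ (ℝ → ℝ) where
  carrier := {g | ∃ F : ℂ → ℂ, Differentiable ℂ F ∧ ∀ t : ℝ, F t = g t}
  mul_mem' := by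
    rintro f g ⟨F, h1, h2⟩ ⟨F', h3, h4⟩
    exact ⟨F * F', h1.mul h3, fun t => by simp [h2, h4]⟩
  add_mem' := by
    rintro f g ⟨F, h1, h2⟩ ⟨F', h3, h4⟩
    exact ⟨F + F', h1.add h3, fun t => by simp [h2, h4]⟩
  algebraMap_mem' c := ⟨fun _ => c, differentiable_const _, fun t => by simp⟩

/-- functions of `(t, w)` that are polynomial in `t`, `w` and `w⁻¹` -/
def LP : Subalgebra ℝ (ℝ × ℝ → ℝ) :=
  Algebra.adjoin ℝ {fun y => y.1, fun y => y.2, fun y => y.2⁻¹}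

section mem

variable {X F F' : Type} [NormedAddCommGroup F] [NormedSpace ℝ F] [NormedAddCommGroup F']
  [NormedSpace ℝ F'] {S : Subalgebra ℝ (X → ℝ)}

/-- vector valued functions all of whose coordinates lie in `S` -/
def Vm (S : Subalgebra ℝ (X → ℝ)) (g : X → F) : Prop :=
  ∀ φ : F →L[ℝ] ℝ, (fun x => φ (g x)) ∈ S

theorem Vm.const (v : F) : Vm S fun _ => v := fun φ => S.algebraMap_mem (φ v)

theorem Vm.add {f g : X → F} (hf : Vm S f) (hg : Vm S g) : Vm S fun x => f x + g x := fun φ => by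
  simp only [map_add]; exact S.add_mem (hf φ) (hg φ)

theorem Vm.sub {f g : X → F} (hf : Vm S f) (hg : Vm S g) : Vm S fun x => f x - g x := fun φ => by
  simp only [map_sub]; exact S.sub_mem (hf φ) (hg φ)

theorem Vm.smul {f : X → ℝ} {g : X → F} (hf : f ∈ S) (hg : Vm S g) :
    Vm S fun x => f x • g x := fun φ => by
  simp only [map_smul, smul_eq_mul]; exact S.mul_mem hf (hg φ)

theorem Vm.prod {f : X → F} {g : X → F'} (hf : Vm S f) (hg : Vm S g) :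
    Vm S fun x => (f x, g x) := fun φ => by
  have : (fun x => φ (f x, g x)) = (fun x => (φ.comp (.inl ℝ F F')) (f x)) +
      fun x => (φ.comp (.inr ℝ F F')) (g x) := by
    funext x; simp [← map_add]
  rw [this]; exact S.add_mem (hf _) (hg _)

theorem det_mem [FiniteDimensional ℝ F] {Y : X → F →L[ℝ] F} (h : ∀ v, Vm S fun x => Y x v) :
    (fun x => (Y x).det) ∈ S := by
  classical
  let b := Module.finBasis ℝ F
  have : (fun x => (Y x).det) = ∑ σ : Equiv.Perm (Fin (finrank ℝ F)), ((Equiv.Perm.sign σ : ℤ) : ℝ) •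
      ∏ i, fun x => LinearMap.toContinuousLinearMap (b.coord (σ i)) (Y x (b i)) := by
    funext x
    simp [ContinuousLinearMap.det, ← LinearMap.det_toMatrix b, Matrix.det_apply',
      LinearMap.toMatrix_apply]
  rw [this]
  exact S.sum_mem fun σ _ => S.smul_mem (S.prod_mem fun i _ => h _ _) _

end mem

/-- the squared length of `z` along a characteristic -/
noncomputable def rr (A B c κ τ : ℝ) : ℝ :=
  A * Real.exp (2 * κ * τ) + 2 * c + B * Real.exp (-(2 * κ * τ))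

/-- the difference of the two exponential terms -/
noncomputable def dd (A B κ τ : ℝ) : ℝ := A * Real.exp (2 * κ * τ) - B * Real.exp (-(2 * κ * τ))

/-- the value of `u` along a characteristic -/
noncomputable def uu (U A B c κ τ : ℝ) : ℝ := U + 8 * c * τ + 2 / κ * (dd A B κ τ - (A - B))

/-- the equation of the Jacobian along a characteristic -/
def JI (Q p U A B c κ : ℝ) (j : ℝ → ℝ) : Prop :=
  j ∈ Ent ∧ j 0 = 1 ∧ ∃ ε > 0, ∀ τ ∈ Ioo (-ε) ε, 0 < uu U A B c κ τ ∧ rr A B c κ τ ≠ 0 ∧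
    HasDerivAt j (j τ * (2 * (Q + p - 2) * rr A B c κ τ / uu U A B c κ τ -
      (p - 2) * (κ * dd A B κ τ) / rr A B c κ τ)) τ

/-- data of a family of curves in separated form -/
structure Sd (H V : Type) : Type where
  κ : H × V → ℝ
  ℓ : H × V → ℝ
  a : H × V → H
  a' : H × V → H
  b : H × V → H
  b' : H × V → H
  s : H × V → V
  g1 : H × V → V
  g2 : H × V → V
  g3 : H × V → V
  g4 : H × V → V
  g5 : H × V → V

variable {m k : ℕ} {H V : Type} [NormedAddCommGroup H] [InnerProductSpace ℝ H]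
  [NormedAddCommGroup V] [InnerProductSpace ℝ V] [FiniteDimensional ℝ H] [FiniteDimensional ℝ V]

namespace Sd

variable (d : Sd H V)

/-- the growing part -/
noncomputable def za (τ : ℝ) (x : H × V) : H := Real.exp (d.κ x * τ) •
  (Real.cos (d.ℓ x * τ / 2) • d.a x + Real.sin (d.ℓ x * τ / 2) • d.a' x)

/-- the decaying part -/
noncomputable def zb (τ : ℝ) (x : H × V) : H := Real.exp (-(d.κ x * τ)) •
  (Real.cos (d.ℓ x * τ / 2) • d.b x + Real.sin (d.ℓ x * τ / 2) • d.b' x)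

/-- the first coordinate -/
noncomputable def Z (τ : ℝ) (x : H × V) : H := d.za τ x + d.zb τ x

/-- the momentum -/
noncomputable def Xi (τ : ℝ) (x : H × V) : H := d.κ x • (d.za τ x - d.zb τ x)

/-- the second coordinate -/
noncomputable def S (τ : ℝ) (x : H × V) : V :=
  d.s x + (Real.cos (d.ℓ x * τ / 2) * Real.sin (d.ℓ x * τ / 2)) • d.g1 x +
    Real.sin (d.ℓ x * τ / 2) ^ 2 • d.g2 x + τ • d.g3 x + Real.exp (d.κ x * τ) ^ 2 • d.g4 x -
    Real.exp (-(d.κ x * τ)) ^ 2 • d.g5 x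

/-- the Jacobian -/
noncomputable def jac (x : H × V) (τ : ℝ) : ℝ := (fderiv ℝ (fun y => (d.Z τ y, d.S τ y)) x).det

/-- the differential at the times when the rotation is trivial -/
noncomputable def Pm (x : H × V) (t w : ℝ) : H × V →L[ℝ] H × V :=
  (w • fderiv ℝ d.a x + w⁻¹ • fderiv ℝ d.b x +
    t • ((fderiv ℝ d.κ x).smulRight (w • d.a x - w⁻¹ • d.b x) +
      (1 / 2 : ℝ) • (fderiv ℝ d.ℓ x).smulRight (w • d.a' x + w⁻¹ • d.b' x))).prod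
  (fderiv ℝ d.s x + t • ((1 / 2 : ℝ) • (fderiv ℝ d.ℓ x).smulRight (d.g1 x) + fderiv ℝ d.g3 x) +
    w ^ 2 • (fderiv ℝ d.g4 x + (2 * t) • (fderiv ℝ d.κ x).smulRight (d.g4 x)) -
    w⁻¹ ^ 2 • (fderiv ℝ d.g5 x - (2 * t) • (fderiv ℝ d.κ x).smulRight (d.g5 x)))

/-- all data are of class two -/
structure Sm (W : Set (H × V)) : Prop where
  κ : ContDiffOn ℝ 2 d.κ W
  ℓ : ContDiffOn ℝ 2 d.ℓ W
  a : ContDiffOn ℝ 2 d.a W
  a' : ContDiffOn ℝ 2 d.a' W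
  b : ContDiffOn ℝ 2 d.b W
  b' : ContDiffOn ℝ 2 d.b' W
  s : ContDiffOn ℝ 2 d.s W
  g1 : ContDiffOn ℝ 2 d.g1 W
  g2 : ContDiffOn ℝ 2 d.g2 W
  g3 : ContDiffOn ℝ 2 d.g3 W
  g4 : ContDiffOn ℝ 2 d.g4 W
  g5 : ContDiffOn ℝ 2 d.g5 W

end Sd

variable (G : HeisenbergType m k H V)

/-- the Hamilton equations with vertical momentum `μ` -/
def Ham (μ : V) (Z Ξ : ℝ → H) (S : ℝ → V) : Prop :=
  ∀ τ, HasDerivAt Z (Ξ τ + (1 / 2 : ℝ) • JL G μ (Z τ)) τ ∧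
    HasDerivAt S ((1 / 2 : ℝ) • BL G (Z τ) (Ξ τ) + (‖Z τ‖ ^ 2 / 4) • μ) τ ∧
    HasDerivAt Ξ ((1 / 2 : ℝ) • JL G μ (Ξ τ) + (4 - ‖μ‖ ^ 2 / 4) • Z τ) τ

/-- the curves of `d` are the characteristics of `u` -/
def Flow (u : H × V → ℝ) (W : Set (H × V)) (d : Sd H V) : Prop :=
  ∀ x ∈ W, 0 < d.κ x ∧ d.Z 0 x = x.1 ∧ d.S 0 x = x.2 ∧ d.Xi 0 x = xi G u x ∧
    Ham G (la G u x) (fun τ => d.Z τ x) (fun τ => d.Xi τ x) (fun τ => d.S τ x) ∧
    ∀ τ, ‖d.Z τ x‖ ^ 2 = rr (‖d.a x‖ ^ 2) (‖d.b x‖ ^ 2) ⟪d.a x, d.b x⟫_ℝ (d.κ x) τ ∧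
      ⟪d.Z τ x, d.Xi τ x⟫_ℝ = d.κ x * dd (‖d.a x‖ ^ 2) (‖d.b x‖ ^ 2) (d.κ x) τ

section concrete

variable (u : H × V → ℝ) (x : H × V)

/-- the rate of growth -/
noncomputable def kap : ℝ := √(4 - ‖la G u x‖ ^ 2 / 4)

/-- the growing component of `z` -/
noncomputable def fa : H := (1 / 2 : ℝ) • (x.1 + (kap G u x)⁻¹ • xi G u x)

/-- the decaying component of `z` -/
noncomputable def fb : H := (1 / 2 : ℝ) • (x.1 - (kap G u x)⁻¹ • xi G u x)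

/-- the growing component of `σ` -/
noncomputable def g4 : V := (‖fa G u x‖ ^ 2 / (8 * kap G u x)) • la G u x

/-- the decaying component of `σ` -/
noncomputable def g5 : V := (‖fb G u x‖ ^ 2 / (8 * kap G u x)) • la G u x

/-- the bounded component of `σ` -/
noncomputable def fs : V := x.2 - g4 G u x + g5 G u x

/-- the constant term of `u` along the characteristic -/
noncomputable def u0 : ℝ := u x - 2 / kap G u x * (‖fa G u x‖ ^ 2 - ‖fb G u x‖ ^ 2)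

/-- the derivative of `μ ↦ μ / (4 κ)` -/
noncomputable def Mq : V →L[ℝ] V := (1 / (4 * kap G u x)) • ContinuousLinearMap.id ℝ V +
  (1 / (16 * kap G u x ^ 3)) • (innerSL ℝ (la G u x)).smulRight (la G u x)

/-- the reduced differential of the bounded component -/
noncomputable def sg : H × V →L[ℝ] V := fderiv ℝ (fs G u) x + (1 / (4 * kap G u x)) •
  ((innerSL ℝ (fb G u x)).comp (fderiv ℝ (fa G u) x) -
    (innerSL ℝ (fa G u x)).comp (fderiv ℝ (fb G u) x)).smulRight (la G u x)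

/-- the `z` gradient of `N - |z|^4` -/
noncomputable def Fz (N : H × V → ℝ) (x : H × V) : H := xi G N x - (4 * ‖x.1‖ ^ 2) • x.1

/-- the square of the eigenvalues of the Hessian of `N - |z|^4` -/
noncomputable def psi (N : H × V → ℝ) (x : H × V) : ℝ :=
  16 * (N x - ‖la G N x‖ ^ 2 / 64 - ‖x.1‖ ^ 4 - ⟪x.1, Fz G N x⟫_ℝ / 2)

end concrete

/-- the characteristics where the vertical momentum is not zero -/
noncomputable def d1 (u : H × V → ℝ) : Sd H V where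
  κ := kap G u
  ℓ x := ‖la G u x‖
  a := fa G u
  a' x := ‖la G u x‖⁻¹ • JL G (la G u x) (fa G u x)
  b := fb G u
  b' x := ‖la G u x‖⁻¹ • JL G (la G u x) (fb G u x)
  s := fs G u
  g1 x := (-(2 * kap G u x / ‖la G u x‖)) • BL G (fa G u x) (fb G u x) -
    (4 * kap G u x ^ 2 * ⟪fa G u x, fb G u x⟫_ℝ / ‖la G u x‖ ^ 3) • la G u x
  g2 x := (-(2 * kap G u x / ‖la G u x‖ ^ 2)) •
    (BL G (JL G (la G u x) (fa G u x)) (fb G u x) + ⟪fa G u x, fb G u x⟫_ℝ • la G u x)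
  g3 x := (8 * ⟪fa G u x, fb G u x⟫_ℝ / ‖la G u x‖ ^ 2) • la G u x
  g4 := g4 G u
  g5 := g5 G u

/-- the characteristics where the vertical momentum vanishes identically -/
noncomputable def d0 (u : H × V → ℝ) : Sd H V where
  κ _ := 2
  ℓ _ := 0
  a := fa G u
  a' _ := 0
  b := fb G u
  b' _ := 0
  s x := x.2
  g1 _ := 0
  g2 _ := 0
  g3 x := (-2 : ℝ) • BL G (fa G u x) (fb G u x)
  g4 _ := 0
  g5 _ := 0

/-- the points with small vertical momentum -/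
def Ws (u : H × V → ℝ) (W : Set (H × V)) : Set (H × V) := {x ∈ W | ‖la G u x‖ < 4}

/-- the points with small nonzero vertical momentum -/
def W1 (u : H × V → ℝ) (W : Set (H × V)) : Set (H × V) :=
  {x ∈ W | ‖la G u x‖ < 4 ∧ la G u x ≠ 0}

/-- the determinant identity for `p = 2` -/
def DetId (u : H × V → ℝ) (d : Sd H V) (x : H × V) (n : ℕ) (t w : ℝ) : Prop :=
  (d.Pm x t w).det * u x ^ n = (u x + 8 * ⟪d.a x, d.b x⟫_ℝ * t + 2 / d.κ x *
    (‖d.a x‖ ^ 2 * w ^ 2 - ‖d.b x‖ ^ 2 * w⁻¹ ^ 2 - (‖d.a x‖ ^ 2 - ‖d.b x‖ ^ 2))) ^ n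

/-- the relations between the differentials for `p = 2` -/
def Rel (u : H × V → ℝ) (x : H × V) : Prop :=
  (∀ h, ∃ v, fderiv ℝ (fa G u) x v = h) ∧
  (∀ v, sg G u x v = (kap G u x * u0 G u x / 4) • Mq G u x (fderiv ℝ (la G u) x v)) ∧
  ∃ β : H →L[ℝ] H, (∀ h h', ⟪β h, h'⟫_ℝ = ⟪h, β h'⟫_ℝ) ∧
    (∀ v, fderiv ℝ (fb G u) x v = β (fderiv ℝ (fa G u) x v)) ∧
    ∀ h, β (β h) = (kap G u x * u0 G u x / (2 * ‖fa G u x‖ ^ 2)) • β h +
      (‖fb G u x‖ ^ 2 / ‖fa G u x‖ ^ 2) • h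

/-- the equations for `N = u ^ 2` in the case that is not radial -/
structure Phys (W : Set (H × V)) (N : H × V → ℝ) : Prop where
  op : IsOpen W
  sm : ContDiffOn ℝ 3 N W
  p1 : ∀ x ∈ W, ∀ v, fderiv ℝ (la G N) x v = (32 : ℝ) • v.2
  p2 : ∀ x ∈ W, fderiv ℝ (Fz G N) x (x.1, 0) = Fz G N x
  p3 : ∀ x ∈ W, ∀ h, fderiv ℝ (Fz G N) x (fderiv ℝ (Fz G N) x (h, 0), 0) = psi G N x • h
  pos : ∀ x ∈ W, 0 < psi G N x
  e2 : ∀ x ∈ W, ⟪JL G (la G N x) x.1, xi G N x⟫_ℝ = 0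
  tr : ∀ x ∈ W, ∑ i, ⟪G.e i, fderiv ℝ (Fz G N) x (G.e i, 0)⟫_ℝ = 0

/-- a symmetric involution of trace zero that commutes with `J` -/
def Inv (A : H →L[ℝ] H) : Prop :=
  (∀ z z', ⟪A z, z'⟫_ℝ = ⟪z, A z'⟫_ℝ) ∧ (∀ z, A (A z) = z) ∧ ∑ i, ⟪G.e i, A (G.e i)⟫_ℝ = 0 ∧
    ∀ μ z, A (JL G μ z) = JL G μ (A z)

/-- `u` is locally the square of a gauge centred on the centre -/
def Gau (u : H × V → ℝ) (x : H × V) : Prop :=
  ∃ σ₀ : V, ∀ᶠ y in 𝓝 x, u y ^ 2 = ‖y.1‖ ^ 4 + 16 * ‖y.2 - σ₀‖ ^ 2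

/-- the power of the potential that solves the eikonal equation -/
noncomputable def uf (m k : ℕ) (p R : ℝ) (f : H × V → ℝ) (x : H × V) : ℝ :=
  R ^ 2 * f x ^ (-(2 * (p - 1) / (homDim m k - p)))

/-- the exterior of `Ω` without the centre -/
def U0 (Ω : Set (H × V)) : Set (H × V) := (closure Ω)ᶜ ∩ {x | x.1 ≠ 0}

/-- the quartic of the counterexample -/
noncomputable def NA (A : H →L[ℝ] H) (x : H × V) : ℝ :=
  ‖x.1‖ ^ 4 - 2 * ⟪A x.1, x.1⟫_ℝ + 1 + 16 * ‖x.2‖ ^ 2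

/-- solutions of the Hamilton equations stay on the graph of the gradient -/
def Ch1St : Prop :=
  ∀ (p : ℝ) (W : Set (H × V)) (u : H × V → ℝ) (x : H × V) (Z Ξ : ℝ → H) (S : ℝ → V) (ε : ℝ),
    Sys G p W u → Z 0 = x.1 → S 0 = x.2 → Ξ 0 = xi G u x → Ham G (la G u x) Z Ξ S →
    (∀ τ ∈ Ioo (-ε) ε, (Z τ, S τ) ∈ W) →
    ∀ τ ∈ Ioo (-ε) ε, xi G u (Z τ, S τ) = Ξ τ ∧ la G u (Z τ, S τ) = la G u x

/-- the formula of Liouville -/
def Ch2St : Prop :=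
  ∀ (F : Type) [NormedAddCommGroup F] [NormedSpace ℝ F] [FiniteDimensional ℝ F] (Φ : ℝ × F → F)
    (v : F → F) (W : Set F) (x : F) (ε : ℝ), IsOpen W → x ∈ W → ContDiffOn ℝ 2 Φ (univ ×ˢ W) →
    (∀ y ∈ W, ∀ τ ∈ Ioo (-ε) ε, HasDerivAt (fun t => Φ (t, y)) (v (Φ (τ, y))) τ) →
    (∀ τ ∈ Ioo (-ε) ε, DifferentiableAt ℝ v (Φ (τ, x))) →
    ∀ τ ∈ Ioo (-ε) ε, HasDerivAt (fun t => (fderiv ℝ (fun y => Φ (t, y)) x).det)
      ((fderiv ℝ (fun y => Φ (τ, y)) x).det * LinearMap.trace ℝ F (fderiv ℝ v (Φ (τ, x)))) τ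

variable (H V) in
/-- the differential of a family in separated form -/
def SepSt : Prop :=
  ∀ (d : Sd H V) (W : Set (H × V)), IsOpen W → d.Sm W →
    ContDiffOn ℝ 2 (fun y : ℝ × H × V => (d.Z y.1 y.2, d.S y.1 y.2)) (univ ×ˢ W) ∧
    ∀ x ∈ W, d.jac x ∈ Ent ∧ ∀ τ, Real.cos (d.ℓ x * τ / 2) = 1 → Real.sin (d.ℓ x * τ / 2) = 0 →
      fderiv ℝ (fun y => (d.Z τ y, d.S τ y)) x = d.Pm x τ (Real.exp (d.κ x * τ))

/-- the equation of the Jacobian -/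
def ChSt : Prop :=
  ∀ (p : ℝ) (W : Set (H × V)) (u : H × V → ℝ) (d : Sd H V), Sys G p W u → d.Sm W →
    Flow G u W d → ∀ x ∈ W,
      JI (homDim m k) p (u x) (‖d.a x‖ ^ 2) (‖d.b x‖ ^ 2) ⟪d.a x, d.b x⟫_ℝ (d.κ x) (d.jac x)

/-- the explicit characteristics -/
def Ode1St : Prop :=
  ∀ (p : ℝ) (W : Set (H × V)) (u : H × V → ℝ), Sys G p W u →
    (d1 G u).Sm (W1 G u W) ∧ Flow G u (W1 G u W) (d1 G u)

/-- the explicit characteristics in the degenerate case -/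
def Ode0St : Prop :=
  ∀ (p : ℝ) (W : Set (H × V)) (u : H × V → ℝ), Sys G p W u → (∀ x ∈ W, la G u x = 0) →
    (d0 G u).Sm W ∧ Flow G u W (d0 G u)

/-- complex zeros of `|z|^2` exclude `p ≠ 2` -/
def ZeroSt : Prop :=
  ∀ (Q p U A B c κ : ℝ) (j : ℝ → ℝ), 1 < p → p ≠ 2 → 0 < κ → 0 < A → 0 < B →
    ¬JI Q p U A B c κ j

/-- integration of the equation of the Jacobian for `p = 2` -/
def ContSt : Prop :=
  ∀ (U A B c κ : ℝ) (n : ℕ) (j : ℝ → ℝ), 0 < κ → JI (2 * n) 2 U A B c κ j →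
    ∀ τ, j τ * U ^ n = uu U A B c κ τ ^ n

/-- independence of time and exponential -/
def PolySt : Prop :=
  ∀ (F : ℝ × ℝ → ℝ) (h q : ℝ), F ∈ LP → 0 < h → 1 < q → (∀ n : ℕ, F (n * h, q ^ n) = 0) →
    ∀ t w, w ≠ 0 → F (t, w) = 0

/-- the determinant identity -/
def P2aSt : Prop :=
  ∀ (W : Set (H × V)) (u : H × V → ℝ) (d : Sd H V) (n : ℕ), Sys G 2 W u → d.Sm W →
    Flow G u W d → 2 * n = m + 2 * k → ∀ x ∈ W, ∀ t w, 0 < w → DetId u d x n t w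

/-- the two components are orthogonal -/
def P2bSt : Prop :=
  ∀ (W : Set (H × V)) (u : H × V → ℝ) (n : ℕ), 0 < k → Sys G 2 W u → 2 * n = m + 2 * k →
    ∀ x ∈ W1 G u W, fa G u x ≠ 0 → fb G u x ≠ 0 → (∀ t w, 0 < w → DetId u (d1 G u) x n t w) →
      ⟪fa G u x, fb G u x⟫_ℝ = 0

/-- the degenerate case for `p = 2` -/
def P2zSt : Prop :=
  ∀ (W : Set (H × V)) (u : H × V → ℝ) (n : ℕ), 0 < k → 2 * n = m + 2 * k → ∀ x ∈ W, 0 < u x →
    (∀ w, 0 < w → DetId u (d0 G u) x n 0 w) → fa G u x = 0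

variable (m k H V) in
/-- a symmetric pencil whose determinant is a power of a quadratic polynomial -/
def SpecSt : Prop :=
  ∀ (Da Db : H × V →L[ℝ] H) (Dl Sg : H × V →L[ℝ] V) (M : V →L[ℝ] V) (γ s C : ℝ) (n : ℕ),
    finrank ℝ H = m → finrank ℝ V = k → 2 * n = m + 2 * k → 0 < γ → C ≠ 0 →
    (∀ x y, ⟪M x, y⟫_ℝ = ⟪x, M y⟫_ℝ) → (∀ x, x ≠ 0 → 0 < ⟪M x, x⟫_ℝ) →
    (∀ v v', ⟪Db v, Da v'⟫_ℝ + ⟪Sg v, Dl v'⟫_ℝ = ⟪Db v', Da v⟫_ℝ + ⟪Sg v', Dl v⟫_ℝ) →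
    (∀ ε : ℝ, 0 < ε → ((Da + ε • Db).prod ((1 - ε ^ 2 * γ) • M.comp Dl + ε • Sg)).det =
      C * (1 + s * ε - γ * ε ^ 2) ^ n) →
    (∀ h, ∃ v, Da v = h) ∧ (∀ v, Sg v = s • M (Dl v)) ∧
      ∃ β : H →L[ℝ] H, (∀ h h', ⟪β h, h'⟫_ℝ = ⟪h, β h'⟫_ℝ) ∧ (∀ v, Db v = β (Da v)) ∧
        ∀ h, β (β h) = s • β h + γ • h

/-- from the determinant identity to the relations -/
def P2cSt : Prop :=
  ∀ (W : Set (H × V)) (u : H × V → ℝ) (n : ℕ), Sys G 2 W u → 2 * n = m + 2 * k →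
    ∀ x ∈ W1 G u W, fa G u x ≠ 0 → fb G u x ≠ 0 → (∀ w, 0 < w → DetId u (d1 G u) x n 0 w) →
      Rel G u x

/-- the system for `N = u ^ 2` -/
def NSysSt : Prop :=
  ∀ (p : ℝ) (W : Set (H × V)) (u : H × V → ℝ), Sys G p W u →
    ContDiffOn ℝ 3 (fun y => u y ^ 2) W ∧ ∀ x ∈ W,
    xi G (fun y => u y ^ 2) x = (2 * u x) • xi G u x ∧
    la G (fun y => u y ^ 2) x = (2 * u x) • la G u x ∧
    ‖(vf G (fun y => u y ^ 2) x).1‖ ^ 2 = 16 * ‖x.1‖ ^ 2 * u x ^ 2 ∧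
    ∑ i, ⟪G.e i, fderiv ℝ (xi G fun y => u y ^ 2) x (G.e i, 0)⟫_ℝ +
      ∑ l, ⟪JL G (G.ε l) x.1, fderiv ℝ (xi G fun y => u y ^ 2) x (0, G.ε l)⟫_ℝ +
      ‖x.1‖ ^ 2 / 4 * ∑ l, ⟪G.ε l, fderiv ℝ (la G fun y => u y ^ 2) x (0, G.ε l)⟫_ℝ +
      (p - 2) * ⟪x.1, xi G (fun y => u y ^ 2) x⟫_ℝ / ‖x.1‖ ^ 2 = 4 * (homDim m k + p) * ‖x.1‖ ^ 2

/-- from the relations to the equations for `N` -/
def TransSt : Prop :=
  ∀ (W : Set (H × V)) (u : H × V → ℝ), Sys G 2 W u →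
    (∀ x ∈ W, ‖la G u x‖ < 4 ∧ fa G u x ≠ 0 ∧ fb G u x ≠ 0 ∧ ⟪fa G u x, fb G u x⟫_ℝ = 0 ∧
      Rel G u x) → Phys G W fun y => u y ^ 2

/-- the third derivative vanishes -/
def ThirdSt : Prop :=
  ∀ (W : Set (H × V)) (N : H × V → ℝ), Phys G W N → W.Nonempty → ∃ A, Inv G A

/-- a Bochner identity -/
def BochSt : Prop :=
  ∀ (F ι : Type) [NormedAddCommGroup F] [NormedSpace ℝ F] [Fintype ι] [DecidableEq ι] (g : F → ℝ)
    (y₀ v₀ : F) (v : ι → F) (r : F →L[ℝ] ℝ) (μ : ℝ), ContDiffAt ℝ 3 g y₀ → r v₀ = 1 →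
    (∀ l, r (v l) = 0) → r y₀ ≠ 0 → 0 < μ →
    (∀ᶠ y in 𝓝 y₀, fderiv ℝ g y v₀ ^ 2 + ∑ l, fderiv ℝ g y (v l) ^ 2 = 4 * g y ∧
      fderiv ℝ (fderiv ℝ g) y v₀ v₀ + ∑ l, fderiv ℝ (fderiv ℝ g) y (v l) (v l) +
        μ * fderiv ℝ g y v₀ / r y = 2 * (Fintype.card ι + 1 + μ)) →
    fderiv ℝ g y₀ v₀ = 2 * r y₀ ∧
      ∀ l l', fderiv ℝ (fderiv ℝ g) y₀ (v l) (v l') = if l = l' then 2 else 0

/-- the radial case -/
def RadSt : Prop :=
  ∀ (p : ℝ) (W : Set (H × V)) (u : H × V → ℝ), 1 < p → Sys G p W u →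
    (∀ y ∈ W, ∃ φ : ℝ, xi G u y = φ • y.1) → ∀ x ∈ W, Gau u x

/-- the local classification -/
def LocSt : Prop :=
  ∀ (p : ℝ) (W : Set (H × V)) (u : H × V → ℝ), 0 < k → 1 < p → ¬(p = 2 ∧ ∃ A, Inv G A) →
    Sys G p W u → ∀ x ∈ Ws G u W, Gau u x

/-- the topology of the counterexample -/
def CouBSt : Prop :=
  ∀ A : H →L[ℝ] H, 0 < k → Inv G A → IsSmoothBoundedDomain {x : H × V | NA A x < 16} ∧
    ∀ (R' : ℝ) (σ₀ : V), closure {x : H × V | NA A x < 16} ≠ closure (gaugeBall R' σ₀)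

/-- involutions and invariant subspaces -/
def SplitSt : Prop :=
  (∃ K : Submodule ℝ H, (∀ σ, ∀ z ∈ K, G.J σ z ∈ K) ∧ 2 * finrank ℝ K = m) ↔ ∃ A, Inv G A

section meas

variable [MeasurableSpace H] [BorelSpace H] [MeasurableSpace V] [BorelSpace V]

/-- from the weak equation to the system -/
def WeakSt : Prop :=
  ∀ (p R : ℝ) (Ω : Set (H × V)) (f : H × V → ℝ), 1 < p → p < homDim m k → 0 < R →
    IsCapacitaryPotential G p Ω f → PIdentity G p R Ω f → ContDiffOn ℝ 3 f (U0 Ω) →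
    Sys G p (U0 Ω) (uf m k p R f)

/-- from the local classification to the domain -/
def GlobSt : Prop :=
  ∀ (p R : ℝ) (Ω : Set (H × V)) (f : H × V → ℝ), 0 < k → 1 < p → p < homDim m k → 0 < R →
    IsOpen Ω → Ω.Nonempty → Bornology.IsBounded Ω → IsCapacitaryPotential G p Ω f →
    (∀ x ∈ U0 Ω, fderiv ℝ (uf m k p R f) x ≠ 0) →
    (∀ x ∈ Ws G (uf m k p R f) (U0 Ω), Gau (uf m k p R f) x) →
    ∃ σ₀ : V, interior (closure Ω) = gaugeBall R σ₀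

/-- the potential of the counterexample -/
def CouASt : Prop :=
  ∀ A : H →L[ℝ] H, 0 < k → Inv G A →
    IsCapacitaryPotential G 2 {x | NA A x < 16} (fun x => (NA A x / 16) ^ (-(homDim m k - 2) / 4)) ∧
    PIdentity G 2 2 {x | NA A x < 16} (fun x => (NA A x / 16) ^ (-(homDim m k - 2) / 4)) ∧
    ∀ n : ℕ, ContDiffOn ℝ n (fun x : H × V => (NA A x / 16) ^ (-(homDim m k - 2) / 4))
      (closure {x | NA A x < 16})ᶜ

end meas

section lemmas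

variable {G} {p : ℝ} {W : Set (H × V)} {u : H × V → ℝ} {x : H × V}

theorem Sys.op_Ws (h : Sys G p W u) : IsOpen (Ws G u W) :=
  h.sm_la.continuousOn.norm.isOpen_inter_preimage h.op isOpen_Iio

theorem Sys.op_W1 (h : Sys G p W u) : IsOpen (W1 G u W) :=
  h.sm_la.continuousOn.isOpen_inter_preimage h.op
    ((isOpen_lt continuous_norm continuous_const).inter isOpen_ne)

theorem W1_subset : W1 G u W ⊆ Ws G u W := fun _ hx => ⟨hx.1, hx.2.1⟩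

theorem kap_rad (h : ‖la G u x‖ < 4) : 0 < 4 - ‖la G u x‖ ^ 2 / 4 := by
  nlinarith [norm_nonneg (la G u x)]

theorem kap_pos (h : ‖la G u x‖ < 4) : 0 < kap G u x := Real.sqrt_pos.2 (kap_rad h)

theorem kap_sq (h : ‖la G u x‖ < 4) : kap G u x ^ 2 = 4 - ‖la G u x‖ ^ 2 / 4 :=
  Real.sq_sqrt (kap_rad h).le

theorem fa_add_fb (u : H × V → ℝ) (x : H × V) : fa G u x + fb G u x = x.1 := by
  simp only [fa, fb]; module

theorem fa_sub_fb (h : ‖la G u x‖ < 4) : kap G u x • (fa G u x - fb G u x) = xi G u x := by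
  have := (kap_pos h).ne'
  simp only [fa, fb]
  match_scalars <;> field_simp <;> ring

theorem Sys.constraint (h : Sys G p W u) (hx : x ∈ Ws G u W) :
    ⟪JL G (la G u x) (fa G u x), fb G u x⟫_ℝ = -2 * kap G u x * ⟪fa G u x, fb G u x⟫_ℝ := by
  have h1 := h.eik' hx.1
  have h2 := J_skew G (la G u x) (fb G u x) (fa G u x)
  rw [← kap_sq hx.2, ← fa_sub_fb hx.2, ← fa_add_fb (G := G) u x] at h1
  simp only [norm_smul, mul_pow, Real.norm_eq_abs, sq_abs, norm_sub_sq_real, norm_add_sq_real,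
    map_add, real_inner_smul_right, inner_add_left, inner_sub_right, inner_J_self] at h1
  rw [real_inner_comm] at h2
  refine mul_left_cancel₀ (kap_pos hx.2).ne' ?_
  rw [real_inner_comm (JL G (la G u x) (fa G u x))] at h2
  rw [real_inner_comm (JL G (la G u x) (fb G u x))] at h2
  linear_combination (-1 / 2) * h1 + (kap G u x / 2) * h2

theorem Sys.sm_kap (h : Sys G p W u) : ContDiffOn ℝ 2 (kap G u) (Ws G u W) :=
  (contDiffOn_const.sub (((h.sm_la.mono (sep_subset _ _)).norm_sq ℝ).div_const 4)).sqrt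
    fun _ hx => (kap_rad hx.2).ne'

theorem Sys.sm_fa (h : Sys G p W u) : ContDiffOn ℝ 2 (fa G u) (Ws G u W) :=
  (contDiffOn_fst.add ((h.sm_kap.inv fun _ hx => (kap_pos hx.2).ne').smul
    (h.sm_xi.mono (sep_subset _ _)))).const_smul _

theorem Sys.sm_fb (h : Sys G p W u) : ContDiffOn ℝ 2 (fb G u) (Ws G u W) :=
  (contDiffOn_fst.sub ((h.sm_kap.inv fun _ hx => (kap_pos hx.2).ne').smul
    (h.sm_xi.mono (sep_subset _ _)))).const_smul _

theorem Sys.sm_g4 (h : Sys G p W u) : ContDiffOn ℝ 2 (g4 G u) (Ws G u W) :=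
  ((h.sm_fa.norm_sq ℝ).div (contDiffOn_const.mul h.sm_kap)
    fun _ hx => mul_ne_zero (by norm_num) (kap_pos hx.2).ne').smul (h.sm_la.mono (sep_subset _ _))

theorem Sys.sm_g5 (h : Sys G p W u) : ContDiffOn ℝ 2 (g5 G u) (Ws G u W) :=
  ((h.sm_fb.norm_sq ℝ).div (contDiffOn_const.mul h.sm_kap)
    fun _ hx => mul_ne_zero (by norm_num) (kap_pos hx.2).ne').smul (h.sm_la.mono (sep_subset _ _))

theorem Sys.sm_fs (h : Sys G p W u) : ContDiffOn ℝ 2 (fs G u) (Ws G u W) :=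
  (contDiffOn_snd.sub h.sm_g4).add h.sm_g5

theorem Sys.dif {F : Type} [NormedAddCommGroup F] [NormedSpace ℝ F] {g : H × V → F}
    (h : Sys G p W u) (hx : x ∈ Ws G u W) (hg : ContDiffOn ℝ 2 g (Ws G u W)) :
    HasFDerivAt g (fderiv ℝ g x) x :=
  ((hg.contDiffAt (h.op_Ws.mem_nhds hx)).differentiableAt (by norm_num)).hasFDerivAt

theorem Sys.d_kap (h : Sys G p W u) (hx : x ∈ Ws G u W) (v : H × V) :
    fderiv ℝ (kap G u) x v = -⟪la G u x, fderiv ℝ (la G u) x v⟫_ℝ / (4 * kap G u x) := by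
  have h1 := (h.dif hx h.sm_kap).pow 2
  have h2 := (((h.d_la hx.1).norm_sq.mul_const (1 / 4 : ℝ)).const_sub 4).congr_of_eventuallyEq
    (f₁ := fun y => kap G u y ^ 2) (mem_of_superset (h.op_Ws.mem_nhds hx) fun y hy => by
      have := kap_sq hy.2
      simp only [mem_ofPred_eq]
      linarith)
  have h3 := congrArg (fun L : H × V →L[ℝ] ℝ => L v) (h1.unique h2)
  have := (kap_pos hx.2).ne'
  simp at h3
  field_simp
  linarith

theorem Sys.d_ab (h : Sys G p W u) (hx : x ∈ Ws G u W) (v : H × V) :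
    fderiv ℝ (fa G u) x v + fderiv ℝ (fb G u) x v = v.1 ∧
    fderiv ℝ (xi G u) x v = fderiv ℝ (kap G u) x v • (fa G u x - fb G u x) +
      kap G u x • (fderiv ℝ (fa G u) x v - fderiv ℝ (fb G u) x v) := by
  constructor
  · have h1 := ((h.dif hx h.sm_fa).add (h.dif hx h.sm_fb)).unique
      ((hasFDerivAt_fst (𝕜 := ℝ) (p := x)).congr_of_eventuallyEq
        (Eventually.of_forall fun y => fa_add_fb u y))
    exact congrArg (fun L : H × V →L[ℝ] H => L v) h1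
  · have h1 := (h.d_xi hx.1).unique (((h.dif hx h.sm_kap).smul
      ((h.dif hx h.sm_fa).sub (h.dif hx h.sm_fb))).congr_of_eventuallyEq
        (mem_of_superset (h.op_Ws.mem_nhds hx) fun y hy => (fa_sub_fb hy.2).symm))
    rw [h1]
    simp [add_comm]

theorem Sys.d_g {g : H × V → H} (h : Sys G p W u) (hx : x ∈ Ws G u W)
    (hg : ContDiffOn ℝ 2 g (Ws G u W)) (v : H × V) :
    fderiv ℝ (fun y => (‖g y‖ ^ 2 / (8 * kap G u y)) • la G u y) x v =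
      (‖g x‖ ^ 2 / 2) • Mq G u x (fderiv ℝ (la G u) x v) +
        (⟪g x, fderiv ℝ g x v⟫_ℝ / (4 * kap G u x)) • la G u x := by
  have hk := (kap_pos hx.2).ne'
  have h0 := (hasDerivAt_inv (mul_ne_zero (by norm_num : (8 : ℝ) ≠ 0) hk)).comp_hasFDerivAt x
    ((h.dif hx h.sm_kap).const_mul 8)
  have h1 := (((h.dif hx hg).norm_sq.mul h0).smul (h.d_la hx.1)).fderiv
  have h2 : (fun y => (‖g y‖ ^ 2 / (8 * kap G u y)) • la G u y) =
      ((fun y => ‖g y‖ ^ 2) * (fun y : ℝ => y⁻¹) ∘ fun y => 8 * kap G u y) • la G u := by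
    funext y; simp [div_eq_mul_inv]
  rw [h2, h1]
  simp [Mq, h.d_kap hx]
  match_scalars <;> field_simp <;> ring

theorem Sys.d_g4 (h : Sys G p W u) (hx : x ∈ Ws G u W) (v : H × V) :
    fderiv ℝ (g4 G u) x v = (‖fa G u x‖ ^ 2 / 2) • Mq G u x (fderiv ℝ (la G u) x v) +
      (⟪fa G u x, fderiv ℝ (fa G u) x v⟫_ℝ / (4 * kap G u x)) • la G u x := h.d_g hx h.sm_fa v

theorem Sys.d_g5 (h : Sys G p W u) (hx : x ∈ Ws G u W) (v : H × V) :
    fderiv ℝ (g5 G u) x v = (‖fb G u x‖ ^ 2 / 2) • Mq G u x (fderiv ℝ (la G u) x v) +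
      (⟪fb G u x, fderiv ℝ (fb G u) x v⟫_ℝ / (4 * kap G u x)) • la G u x := h.d_g hx h.sm_fb v

theorem Sys.d_fs (h : Sys G p W u) (hx : x ∈ Ws G u W) (v : H × V) :
    fderiv ℝ (fs G u) x v = v.2 - fderiv ℝ (g4 G u) x v + fderiv ℝ (g5 G u) x v := by
  have h1 := (((hasFDerivAt_snd (𝕜 := ℝ) (p := x)).sub (h.dif hx h.sm_g4)).add
    (h.dif hx h.sm_g5)).fderiv
  exact congrArg (fun L : H × V →L[ℝ] V => L v) h1

end lemmas

end Pool.Agent.MP_1048c2_an.Cl
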